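import Pool.Agent.Helper5.MD.CritDefs
import Pool.Agent.Helper5.MD.Defs

/-!
# Tame weights: definitions

A weight `4 κ + 2 ε` is tame with pair set `B` if, modulo two, the scaled triangular factors are the identity except for units at the positions `(b+1, b)`,
`b ∈ B`, and the scaled pivots increase except that the pivots `b` and `b + 1` have the same valuation for `b ∈ B`.
-/

open scoped Nat

namespace Pool.Agent.Helper5.MD

/-- `x` is a `2`-adic unit -/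
def Un (x : ℚ) : Prop := VG 0 x ∧ ¬ VG 1 x

/-- tame weights with set of pairs `B` -/
structure Tame (ε : Bool) (κ : ℕ) (B : ℕ → Prop) : Prop where
  big : 800 ≤ κ
  three : ¬ 3 ∣ κ ∨ ε = true
  pos : ∀ b, B b → 1 ≤ b ∧ 3 * (b + 1) < κ ∧ ¬ B (b + 1)
  ll : ∀ i w : ℕ, 1 ≤ w → w < i → 3 * w < κ → 2 * i < κ → ¬ (B w ∧ i = w + 1) →
    VG 1 (2 ^ (2 * (i : ℤ) - 2 * w) * LL ε κ i w)
  ll1 : ∀ b, B b → Un (2 ^ 2 * LL ε κ (b + 1) b)
  uu : ∀ w j : ℕ, 1 ≤ w → w < j → 3 * w < κ → 2 * j < κ → ¬ (B w ∧ j = w + 1) →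
    VG 1 (2 ^ (2 * (j : ℤ) - 2 * w) * UU ε κ w j)
  uu1 : ∀ b, B b → Un (2 ^ 2 * UU ε κ b (b + 1))
  eq : ∀ b, B b → padicValRat 2 (PS ε κ (b + 1)) = padicValRat 2 (PS ε κ b)
  lt : ∀ n, 1 ≤ n → 3 * (n + 1) < κ → ¬ B n →
    padicValRat 2 (PS ε κ n) + 2 ≤ padicValRat 2 (PS ε κ (n + 1))

/-- The hypotheses of the block criterion with a pair of eigenvalues at the indices `n`, `n + 1` (counted from zero) of
slope `s`. -/
def PairCrit (N n : ℕ) (M : Matrix (Fin N) (Fin N) ℚ) (s : ℤ) : Prop :=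
  n + 2 ≤ N ∧ ∃ G : Matrix (Fin N) (Fin N) ℚ,
    (∀ i j : Fin N, i.val < n → j.val < n →
      (∑ c : Fin N, if c.val < n then M i c * G c j else 0) = if i = j then 1 else 0) ∧
    (∀ i j : Fin N, i.val < n → j.val < n → VG (1 - s) (G i j)) ∧
    (∀ i j : Fin N, n ≤ i.val → j.val < n →
      VG 1 (∑ c : Fin N, if c.val < n then M i c * G c j else 0)) ∧
    (∀ i j : Fin N, i.val < n → n ≤ j.val →
      VG 0 (∑ c : Fin N, if c.val < n then G i c * M c j else 0)) ∧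
    (∀ i j : Fin N, n ≤ i.val → n ≤ j.val →
      ¬ (i.val ≤ n + 1 ∧ j.val ≤ n + 1 ∧ i.val + j.val ≤ 2 * n + 1) →
      VG (s + 1) (M i j - ∑ c : Fin N, ∑ d : Fin N,
        if c.val < n ∧ d.val < n then M i c * G c d * M d j else 0)) ∧
    (∀ i j : Fin N, n ≤ i.val → n ≤ j.val → i.val ≤ n + 1 → j.val ≤ n + 1 →
      i.val + j.val ≤ 2 * n + 1 →
      Un (2 ^ (-s) * (M i j - ∑ c : Fin N, ∑ d : Fin N,
        if c.val < n ∧ d.val < n then M i c * G c d * M d j else 0)))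

/-- The reversed characteristic polynomial of `2 ^ (-s) M` is, up to a scalar `u`, congruent to
`X ^ n + X ^ (n + 1) + X ^ (n + 2)` modulo the maximal ideal of `ℤ_(2)`. -/
def PairAt (N n : ℕ) (M : Matrix (Fin N) (Fin N) ℚ) (s : ℤ) : Prop :=
  ∃ u : ℚ, (∀ m : ℕ, ¬ (n ≤ m ∧ m ≤ n + 2) →
      VG 1 (u * (((2 : ℚ) ^ (-s)) • M).charpolyRev.coeff m)) ∧
    (∀ m : ℕ, n ≤ m → m ≤ n + 2 → Un (u * (((2 : ℚ) ^ (-s)) • M).charpolyRev.coeff m))

end Pool.Agent.Helper5.MD
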