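import Pool.Agent.Helper5.MD.VGBasic
import Pool.Agent.Helper5.MD.VBinom
import Pool.Agent.Helper5.MD3.R0Defs

/-!
# MR-F1 : lower triangular factor for `κ = 2^m - 1`, `ε = true`

Compare `MD2/P2Lam.lean`.  Put `a = i - w`, `h' = (a + 1) / 2`, `h = a / 2`.
`LL true κ i w = (κ - 3 i) ∏_(t < a) (κ - w + t) (κ - w - 1 - t) / (2 (t + 1) (2 w + 2 t + 1) (κ - 2 w - 1 - t)) * ∏_(1 ≤ t < a) (κ - 3 w - t)`
(the factor `κ - 3 w` cancels, it is nonzero).  `κ - 2 w - 1 - t = 2^m - 2 w - 2 - t` is odd for odd `t`, and for `t = 2 u` it is `2 (2^(m-1) - (w+1+u))` of valuation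
`1 + v2 (w + 1 + u) = 1 + v2 (κ - w - u)` (`κ - w - u = 2^m - (w+1+u)`).  So the denominators cancel the numbers `κ - w - u`, `u < h'`, among the `2 a` consecutive numbers
`κ - w - a, ..., κ - w + a - 1`; there remain `κ - w + 1 .. κ - w + a - 1` (product divisible by `(a-1)!`) and `κ - w - a .. κ - w - h'` (divisible by `(h+1)!`).  Hence
`v2 (2^(2a) LL) = 2 a - a - v2 (a!) - h' + (remaining) ≥ h - v2 a + v2 ((a-1)!) + v2 ((h+1)!) + v2 (κ - 3 i)`,
which is `≥ 1` for `a ≥ 2`.  For `a = 1` it equals `v2 (κ - w - 1) + v2 (κ - 3 w - 3) = v2 (w + 2) + v2 (3 w + 4)`, which is `0` for odd `w` and `≥ 2` for even `w`.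
(If some numerator vanishes the entry is zero.)
-/

open scoped Nat

namespace Pool.Agent.Helper5.MD

open Finset

private theorem f1_v2_sub (k x : ℕ) (h0 : 0 < x) (h1 : x < 2 ^ k) :
    padicValNat 2 (2 ^ k - x) = padicValNat 2 x := by
  obtain ⟨e, o, ho, hx⟩ := Nat.exists_eq_two_pow_mul_odd h0.ne'
  have ho1 : 1 ≤ o := ho.pos
  have he : e < k := by
    by_contra hcon
    push Not at hcon
    have h2 : 2 ^ k ≤ 2 ^ e := Nat.pow_le_pow_right (by norm_num) hcon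
    have h3 : 2 ^ e * 1 ≤ 2 ^ e * o := Nat.mul_le_mul_left _ ho1
    omega
  obtain ⟨d, rfl⟩ : ∃ d, k = e + (d + 1) := ⟨k - e - 1, by omega⟩
  have hlt : o < 2 ^ (d + 1) := by
    rw [hx, pow_add] at h1
    exact lt_of_mul_lt_mul_left h1 (Nat.zero_le _)
  have hsub : 2 ^ (e + (d + 1)) - x = 2 ^ e * (2 ^ (d + 1) - o) := by
    rw [hx, pow_add, Nat.mul_sub]
  have hodd : Odd (2 ^ (d + 1) - o) := by
    apply Nat.Even.sub_odd hlt.le _ ho
    rw [pow_succ]
    exact even_iff_two_dvd.2 (Dvd.intro_left _ rfl)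
  have hv : ∀ z : ℕ, Odd z → padicValNat 2 (2 ^ e * z) = e := by
    intro z hz
    have hz0 : z ≠ 0 := hz.pos.ne'
    rw [padicValNat.mul (by positivity) hz0, padicValNat.prime_pow,
      padicValNat.eq_zero_of_not_dvd (by
        intro hdvd
        exact (Nat.not_even_iff_odd.2 hz) (even_iff_two_dvd.2 hdvd))]
    ring
  rw [hsub, hv _ hodd, hx, hv _ ho]

private theorem f1_split (f : ℕ → ℚ) (a : ℕ) :
    ∏ t ∈ range a, f t =
      (∏ u ∈ range (a - a / 2), f (2 * u)) * ∏ u ∈ range (a / 2), f (2 * u + 1) := by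
  induction a with
  | zero => simp
  | succ a ih =>
    rw [prod_range_succ, ih]
    rcases Nat.even_or_odd' a with ⟨b, hb | hb⟩
    · have h1 : a / 2 = b := by omega
      have h2 : a - b = b := by omega
      have h3 : (a + 1) / 2 = b := by omega
      have h4 : a + 1 - b = b + 1 := by omega
      rw [h1, h3, h2, h4, prod_range_succ _ b, hb]
      ring
    · have h1 : a / 2 = b := by omega
      have h2 : a - b = b + 1 := by omega
      have h3 : (a + 1) / 2 = b + 1 := by omega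
      have h4 : a + 1 - (b + 1) = b + 1 := by omega
      rw [h1, h3, h2, h4, prod_range_succ (fun u => f (2 * u + 1)) b, hb]
      ring

/-- nonzero with valuation zero -/
private def U0 (q : ℚ) : Prop := q ≠ 0 ∧ padicValRat 2 q = 0

private theorem U0.mul {q r : ℚ} (h : U0 q) (h' : U0 r) : U0 (q * r) :=
  ⟨mul_ne_zero h.1 h'.1, by rw [padicValRat.mul h.1 h'.1, h.2, h'.2, add_zero]⟩

private theorem U0.inv {q : ℚ} (h : U0 q) : U0 q⁻¹ :=
  ⟨inv_ne_zero h.1, by rw [padicValRat.inv, h.2, neg_zero]⟩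

private theorem U0.vg {q : ℚ} (h : U0 q) : VG 0 q := Or.inr h.2.ge

private theorem U0_odd (z : ℤ) (hz : Odd z) : U0 (z : ℚ) := by
  refine ⟨?_, ?_⟩
  · have : z ≠ 0 := by rintro rfl; exact absurd hz (by decide)
    exact_mod_cast this
  · rw [padicValRat.of_int, padicValInt.eq_zero_of_not_dvd]
    · simp
    · intro hdvd
      have := Int.not_even_iff_odd.2 hz
      exact this (even_iff_two_dvd.2 (by exact_mod_cast hdvd))

private theorem U0_prod (s : Finset ℕ) (f : ℕ → ℚ) (h : ∀ i ∈ s, U0 (f i)) :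
    U0 (∏ i ∈ s, f i) := by
  classical
  induction s using Finset.induction_on with
  | empty => simpa using U0_odd 1 (by decide)
  | insert a s ha ih =>
    rw [prod_insert ha]
    exact (h a (mem_insert_self _ _)).mul (ih fun i hi => h i (mem_insert_of_mem hi))

private theorem f1_intprod (s : Finset ℕ) (f : ℕ → ℤ) : VG 0 (∏ t ∈ s, (f t : ℚ)) := by
  have : (∏ t ∈ s, (f t : ℚ)) = ((∏ t ∈ s, f t : ℤ) : ℚ) := by push_cast; rfl
  rw [this]
  exact VG_int _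

private theorem f1_even (z : ℤ) (hz : Even z) : VG 1 (z : ℚ) := by
  obtain ⟨k, rfl⟩ := hz
  have e : ((k + k : ℤ) : ℚ) = 2 ^ (1 : ℤ) * (k : ℚ) := by
    push_cast
    ring
  rw [e]
  have := (VG_two_zpow 1).mul (VG_int k)
  simpa using this

private theorem f1_core (m' w b : ℕ) (h3 : 3 * w < 2 ^ (m' + 1) - 1)
    (h2 : 2 * (w + (b + 1)) < 2 ^ (m' + 1) - 1) :
    ∃ U : ℚ, U0 U ∧
      2 ^ (2 * ((w + (b + 1) : ℕ) : ℤ) - 2 * w) *
        LL true ((2 ^ (m' + 1) - 1 : ℕ) : ℚ) (w + (b + 1)) w =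
      2 ^ ((b + 1) / 2) / ((b : ℚ) + 1) * (((2 ^ (m' + 1) - 1 - w + b).choose b : ℕ) : ℚ) *
        (∏ t ∈ range b, (((2 ^ (m' + 1) - 1 : ℕ) : ℚ) - 3 * w - (t + 1 : ℕ))) *
        (((2 ^ (m' + 1) - 1 : ℕ) : ℚ) - 3 * ((w + (b + 1) : ℕ) : ℚ)) *
        (∏ u ∈ range ((b + 1) / 2 + 1),
          (((2 ^ (m' + 1) - 1 : ℕ) : ℚ) - w - (b + 1 - (b + 1) / 2 + u : ℕ))) * U := by
  set n : ℕ := 2 ^ m' with hn
  have hκ : 2 ^ (m' + 1) = 2 * n := by rw [hn, pow_succ]; ring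
  rw [hκ] at h2 h3 ⊢
  have hn1 : 1 ≤ n := by rw [hn]; exact Nat.one_le_two_pow
  have hK : ((2 * n - 1 : ℕ) : ℚ) = 2 * (n : ℚ) - 1 := by
    rw [Nat.cast_sub (by omega)]
    push_cast
    ring
  set K : ℚ := ((2 * n - 1 : ℕ) : ℚ) with hKdef
  set h : ℕ := (b + 1) / 2 with hh
  set h' : ℕ := b + 1 - h with hh'
  set CC : ℚ := ∏ u ∈ range h', (K - w - u) with hCC
  set FO : ℚ := ∏ t ∈ range (b + 1), (2 * (w : ℚ) + 2 * t + 1) with hFO
  set DN : ℚ := ∏ u ∈ range h', ((n : ℚ) - w - 1 - u) with hDN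
  set DO : ℚ := ∏ u ∈ range h, (K - 2 * w - 1 - (2 * u + 1 : ℕ)) with hDO
  set P3 : ℚ := ∏ t ∈ range b, (K - 3 * w - (t + 1 : ℕ)) with hP3
  set R2 : ℚ := ∏ u ∈ range (h + 1), (K - w - (h' + u : ℕ)) with hR2
  have uFO : U0 FO := by
    apply U0_prod
    intro t _
    have e6 : 2 * (w : ℚ) + 2 * t + 1 = ((2 * (w : ℤ) + 2 * t + 1 : ℤ) : ℚ) := by
      push_cast
      ring
    rw [e6]
    exact U0_odd _ ⟨(w : ℤ) + t, by ring⟩
  have uDO : U0 DO := by
    apply U0_prod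
    intro u _
    have e6 : K - 2 * (w : ℚ) - 1 - (2 * u + 1 : ℕ) =
        ((2 * ((n : ℤ) - w - u - 2) + 1 : ℤ) : ℚ) := by
      rw [hK]
      push_cast
      ring
    rw [e6]
    exact U0_odd _ ⟨(n : ℤ) - w - u - 2, by ring⟩
  have hDN0 : DN ≠ 0 := by
    rw [hDN, prod_ne_zero_iff]
    intro u hu
    rw [mem_range] at hu
    have h5 : w + 1 + u < n := by omega
    have h6 : ((w : ℚ) + 1 + u) < n := by exact_mod_cast h5
    intro hcon
    linarith
  have uCD : U0 (CC / DN) := by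
    rw [hCC, hDN, ← prod_div_distrib]
    apply U0_prod
    intro u hu
    rw [mem_range] at hu
    have h5 : w + 1 + u < n := by omega
    have e4 : K - w - u = ((2 ^ (m' + 1) - (w + 1 + u) : ℕ) : ℚ) := by
      rw [Nat.cast_sub (by omega), hκ, hK]
      push_cast
      ring
    have e5 : (n : ℚ) - w - 1 - u = ((2 ^ m' - (w + 1 + u) : ℕ) : ℚ) := by
      rw [Nat.cast_sub (by omega), ← hn]
      push_cast
      ring
    have n4 : (((2 ^ (m' + 1) - (w + 1 + u) : ℕ)) : ℚ) ≠ 0 := by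
      have : 2 ^ (m' + 1) - (w + 1 + u) ≠ 0 := by omega
      exact_mod_cast this
    have n5 : ((2 ^ m' - (w + 1 + u) : ℕ) : ℚ) ≠ 0 := by
      have : 2 ^ m' - (w + 1 + u) ≠ 0 := by omega
      exact_mod_cast this
    rw [e4, e5]
    refine ⟨div_ne_zero n4 n5, ?_⟩
    rw [padicValRat.div n4 n5, padicValRat.of_nat, padicValRat.of_nat,
      f1_v2_sub _ _ (by omega) (by omega), f1_v2_sub _ _ (by omega) (by omega)]
    simp
  refine ⟨CC / DN * (DO⁻¹ * FO⁻¹), uCD.mul (uDO.inv.mul uFO.inv), ?_⟩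
  -- the numerators
  have hR1 : ∏ t ∈ range b, (K - w + (t + 1 : ℕ)) =
      (b ! : ℕ) * (((2 * n - 1 - w + b).choose b : ℕ) : ℚ) := by
    rw [← prod_asc (2 * n - 1 - w) b]
    apply prod_congr rfl
    intro t _
    have h8 : ((2 * n - 1 - w : ℕ) : ℚ) = K - w := by
      rw [Nat.cast_sub (by omega)]
    rw [h8]
    push_cast
    ring
  have hNA : ∏ t ∈ range (b + 1), (K - w + t) =
      (b ! : ℕ) * (((2 * n - 1 - w + b).choose b : ℕ) : ℚ) * (K - w) := by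
    rw [prod_range_succ', hR1]
    simp
  have hNC : (K - w) * ∏ t ∈ range (b + 1), (K - w - 1 - t) = CC * R2 := by
    have e1 : ∏ t ∈ range (b + 1 + 1), (K - w - (t : ℕ)) = CC * R2 := by
      have h5 : b + 1 + 1 = h' + (h + 1) := by omega
      rw [h5, prod_range_add, hCC, hR2]
    rw [← e1, prod_range_succ' (fun t => K - w - ((t : ℕ) : ℚ)) (b + 1), mul_comm (K - w)]
    congr 1
    · apply prod_congr rfl
      intro t _
      push_cast
      ring
    · simp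
  have hD : ∏ t ∈ range (b + 1), (K - 2 * w - 1 - t) = 2 ^ h' * DN * DO := by
    rw [f1_split (fun t => K - 2 * w - 1 - t) (b + 1)]
    have h5 : (2 : ℚ) ^ h' = ∏ _u ∈ range h', (2 : ℚ) := by rw [prod_const, card_range]
    have e1 : ∏ u ∈ range (b + 1 - (b + 1) / 2), (K - 2 * w - 1 - (2 * u : ℕ)) = 2 ^ h' * DN := by
      rw [h5, hDN, ← prod_mul_distrib]
      apply prod_congr rfl
      intro u _
      rw [hK]
      push_cast
      ring
    rw [e1]
  have hNB : ∏ t ∈ range (b + 1), (K - 3 * w - t) = P3 * (K - 3 * w) := by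
    rw [prod_range_succ']
    simp [hP3]
  have hFA : ∏ t ∈ range (b + 1), ((t : ℚ) + 1) = ((b : ℚ) + 1) * (b ! : ℕ) := by
    rw [prod_fact, Nat.factorial_succ]
    push_cast
    ring
  have hlam : lam K (w + (b + 1)) w =
      (∏ t ∈ range (b + 1), (K - w + t)) * (∏ t ∈ range (b + 1), (K - 3 * w - t)) *
        (∏ t ∈ range (b + 1), (K - w - 1 - t)) /
        (2 ^ (b + 1) * (∏ t ∈ range (b + 1), ((t : ℚ) + 1)) * FO *
          (∏ t ∈ range (b + 1), (K - 2 * w - 1 - t))) := by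
    unfold lam
    rw [if_pos (Nat.le_add_right w (b + 1)), prod_Ico_eq_prod_range, Nat.add_sub_cancel_left, hFO]
    have h5 : (2 : ℚ) ^ (b + 1) = ∏ _u ∈ range (b + 1), (2 : ℚ) := by rw [prod_const, card_range]
    rw [h5, ← prod_mul_distrib, ← prod_mul_distrib, ← prod_mul_distrib, ← prod_mul_distrib,
      ← prod_mul_distrib, ← prod_div_distrib]
    apply prod_congr rfl
    intro t _
    push_cast
    congr 1
    · ring
    · ring
  have h3w : K - 3 * w ≠ 0 := by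
    have h6 : (3 * (w : ℚ)) < K := by
      rw [hKdef]
      exact_mod_cast h3
    intro hcon
    linarith
  have hKw : K - w ≠ 0 := by
    have h6 : ((w : ℚ)) < K := by
      rw [hKdef]
      have : w < 2 * n - 1 := by omega
      exact_mod_cast this
    intro hcon
    linarith
  have hNC' : ∏ t ∈ range (b + 1), (K - w - 1 - t) = CC * R2 / (K - w) := by
    rw [eq_div_iff hKw, ← hNC]
    ring
  have hb0 : ((b : ℚ) + 1) ≠ 0 := by positivity
  have hbf : ((b ! : ℕ) : ℚ) ≠ 0 := by exact_mod_cast (Nat.factorial_pos b).ne'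
  have e2 : (2 : ℚ) ^ (2 * ((w + (b + 1) : ℕ) : ℤ) - 2 * w) = 2 ^ h * (2 ^ (b + 1) * 2 ^ h') := by
    rw [← zpow_natCast, ← zpow_natCast, ← zpow_natCast, ← zpow_add₀ two_ne_zero,
      ← zpow_add₀ two_ne_zero]
    congr 1
    have : (h' : ℤ) = b + 1 - h := by omega
    rw [this]
    push_cast
    ring
  have hDO0 := uDO.1
  have hFO0 := uFO.1
  have h2b : (2 : ℚ) ^ (b + 1) ≠ 0 := by positivity
  have h2h : (2 : ℚ) ^ h' ≠ 0 := by positivity
  simp only [LL, if_true]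
  rw [hlam, hNA, hNB, hNC', hFA, hD, e2]
  generalize (((2 * n - 1 - w + b).choose b : ℕ) : ℚ) = ch
  generalize K - 3 * ((w + (b + 1) : ℕ) : ℚ) = Ki
  generalize (2 : ℚ) ^ h = th
  generalize (2 : ℚ) ^ h' = th' at h2h ⊢
  generalize (2 : ℚ) ^ (b + 1) = tb at h2b ⊢
  generalize K - 3 * (w : ℚ) = k3 at h3w ⊢
  generalize K - (w : ℚ) = kw at hKw ⊢
  clear_value P3 R2 CC DN DO FO
  field_simp

theorem VG_LL_N (m i w : ℕ) (hw : 1 ≤ w) (hwi : w < i) (h3 : 3 * w < 2 ^ m - 1)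
    (h2 : 2 * i < 2 ^ m - 1) (hne : ¬ (w % 2 = 1 ∧ i = w + 1)) :
    VG 1 (2 ^ (2 * (i : ℤ) - 2 * w) * LL true ((2 ^ m - 1 : ℕ) : ℚ) i w) := by
  obtain ⟨m', rfl⟩ : ∃ m', m = m' + 1 := by
    cases m with
    | zero => simp at h2
    | succ m' => exact ⟨m', rfl⟩
  obtain ⟨b, rfl⟩ : ∃ b, i = w + (b + 1) := ⟨i - w - 1, by omega⟩
  obtain ⟨U, hU, e⟩ := f1_core m' w b h3 h2
  rw [e]
  have hκ : 2 ^ (m' + 1) = 2 * 2 ^ m' := by rw [pow_succ]; ring
  have hn1 : 1 ≤ 2 ^ m' := Nat.one_le_two_pow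
  set n : ℕ := 2 ^ m' with hn
  rw [hκ] at h2 h3 ⊢
  have hK : ((2 * n - 1 : ℕ) : ℚ) = ((2 * (n : ℤ) - 1 : ℤ) : ℚ) := by
    rw [Nat.cast_sub (by omega)]
    push_cast
    ring
  have vch : VG 0 (((2 * n - 1 - w + b).choose b : ℕ) : ℚ) := by
    exact_mod_cast VG_int (((2 * n - 1 - w + b).choose b : ℕ) : ℤ)
  have vP3 : VG 0 (∏ t ∈ range b, (((2 * n - 1 : ℕ) : ℚ) - 3 * w - (t + 1 : ℕ))) := by
    have := f1_intprod (range b) (fun t => (2 * (n : ℤ) - 1) - 3 * w - (t + 1 : ℕ))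
    rw [hK]
    push_cast at this ⊢
    exact this
  rcases Nat.eq_zero_or_pos b with rfl | hb
  · have hwe : w % 2 = 0 := by
      rcases Nat.mod_two_eq_zero_or_one w with h | h
      · exact h
      · exact absurd ⟨h, rfl⟩ hne
    have vf : VG 0 ((2 : ℚ) ^ ((0 + 1) / 2) / (((0 : ℕ) : ℚ) + 1)) := by
      have : ((2 : ℚ) ^ ((0 + 1) / 2) / (((0 : ℕ) : ℚ) + 1)) = ((1 : ℤ) : ℚ) := by norm_num
      rw [this]
      exact VG_int 1
    have vKi : VG 1 (((2 * n - 1 : ℕ) : ℚ) - 3 * ((w + (0 + 1) : ℕ) : ℚ)) := by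
      have e1 : ((2 * n - 1 : ℕ) : ℚ) - 3 * ((w + (0 + 1) : ℕ) : ℚ) =
          ((2 * (n : ℤ) - 4 - 3 * w : ℤ) : ℚ) := by
        rw [hK]
        push_cast
        ring
      rw [e1]
      apply f1_even
      obtain ⟨c, hc⟩ : ∃ c, w = 2 * c := ⟨w / 2, by omega⟩
      refine ⟨(n : ℤ) - 2 - 3 * c, ?_⟩
      rw [hc]
      push_cast
      ring
    have vR2 : VG 0 (∏ u ∈ range ((0 + 1) / 2 + 1),
        (((2 * n - 1 : ℕ) : ℚ) - w - (0 + 1 - (0 + 1) / 2 + u : ℕ))) := by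
      have := f1_intprod (range ((0 + 1) / 2 + 1))
        (fun u => (2 * (n : ℤ) - 1) - w - (0 + 1 - (0 + 1) / 2 + u : ℕ))
      rw [hK]
      push_cast at this ⊢
      exact this
    have key := ((((vf.mul vch).mul vP3).mul vKi).mul vR2).mul hU.vg
    simpa using key
  · have vf : VG 0 ((2 : ℚ) ^ ((b + 1) / 2) / ((b : ℚ) + 1)) := by
      right
      have e1 : (b : ℚ) + 1 = ((b + 1 : ℕ) : ℚ) := by push_cast; rfl
      have n1 : (((b + 1 : ℕ)) : ℚ) ≠ 0 := by positivity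
      rw [e1, padicValRat.div (by positivity) n1, padicValRat.of_nat, ← zpow_natCast,
        padicValRat_two_zpow]
      have h5 : 2 ^ padicValNat 2 (b + 1) ≤ b + 1 :=
        Nat.le_of_dvd (by omega) pow_padicValNat_dvd
      have h6 : ∀ v : ℕ, 2 * v ≤ 2 ^ v ∨ v = 0 := by
        intro v
        induction v with
        | zero => right; rfl
        | succ v ih =>
          left
          rcases ih with ih | rfl
          · have h7 : 1 ≤ 2 ^ v := Nat.one_le_two_pow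
            rcases Nat.eq_zero_or_pos v with rfl | hv
            · norm_num
            · have h8 : 2 ≤ 2 ^ v := by
                calc 2 = 2 ^ 1 := by norm_num
                  _ ≤ 2 ^ v := Nat.pow_le_pow_right (by norm_num) hv
              rw [pow_succ]
              omega
          · norm_num
      have h7 : padicValNat 2 (b + 1) ≤ (b + 1) / 2 := by
        rcases h6 (padicValNat 2 (b + 1)) with h8 | h8
        · omega
        · omega
      have h8 : ((padicValNat 2 (b + 1) : ℕ) : ℤ) ≤ (((b + 1) / 2 : ℕ) : ℤ) := by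
        exact_mod_cast h7
      linarith
    have vKi : VG 0 (((2 * n - 1 : ℕ) : ℚ) - 3 * ((w + (b + 1) : ℕ) : ℚ)) := by
      have e1 : ((2 * n - 1 : ℕ) : ℚ) - 3 * ((w + (b + 1) : ℕ) : ℚ) =
          ((2 * (n : ℤ) - 1 - 3 * ((w + (b + 1) : ℕ) : ℤ) : ℤ) : ℚ) := by
        rw [hK]
        push_cast
        ring
      rw [e1]
      exact VG_int _
    have vR2 : VG 1 (∏ u ∈ range ((b + 1) / 2 + 1),
        (((2 * n - 1 : ℕ) : ℚ) - w - (b + 1 - (b + 1) / 2 + u : ℕ))) := by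
      obtain ⟨c, hc⟩ : ∃ c, (b + 1) / 2 + 1 = 2 + c := ⟨(b + 1) / 2 - 1, by omega⟩
      rw [hc, prod_range_add, hK]
      have v1 := f1_intprod (range c)
        (fun u => (2 * (n : ℤ) - 1) - w - (b + 1 - (b + 1) / 2 + (2 + u) : ℕ))
      set x : ℤ := (2 * (n : ℤ) - 1) - w - (b + 1 - (b + 1) / 2 : ℕ) with hx
      have v2 : VG 1 (∏ u ∈ range 2,
          (((2 * (n : ℤ) - 1 : ℤ) : ℚ) - w - (b + 1 - (b + 1) / 2 + u : ℕ))) := by
        have e1 : ∏ u ∈ range 2,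
          (((2 * (n : ℤ) - 1 : ℤ) : ℚ) - w - (b + 1 - (b + 1) / 2 + u : ℕ)) =
            ((x * (x - 1) : ℤ) : ℚ) := by
          rw [prod_range_succ, prod_range_one, hx]
          push_cast
          ring
        rw [e1]
        apply f1_even
        have := Int.even_mul_pred_self x
        exact this
      have v3 := v2.mul v1
      push_cast at v3 ⊢
      simpa using v3
    have key := ((((vf.mul vch).mul vP3).mul vKi).mul vR2).mul hU.vg
    simpa using key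

theorem Un_LL_N (m w : ℕ) (hw : w % 2 = 1) (h3 : 3 * (w + 1) < 2 ^ m - 1) :
    Un (2 ^ 2 * LL true ((2 ^ m - 1 : ℕ) : ℚ) (w + 1) w) := by
  obtain ⟨m', rfl⟩ : ∃ m', m = m' + 1 := by
    cases m with
    | zero => simp at h3
    | succ m' => exact ⟨m', rfl⟩
  obtain ⟨U, hU, e⟩ := f1_core m' w 0 (by omega) (by omega)
  have e0 : (2 : ℚ) ^ (2 * ((w + (0 + 1) : ℕ) : ℤ) - 2 * w) = 2 ^ 2 := by
    have : (2 * ((w + (0 + 1) : ℕ) : ℤ) - 2 * w) = ((2 : ℕ) : ℤ) := by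
      push_cast
      ring
    rw [this, zpow_natCast]
  rw [e0] at e
  have hκ : 2 ^ (m' + 1) = 2 * 2 ^ m' := by rw [pow_succ]; ring
  have hn1 : 1 ≤ 2 ^ m' := Nat.one_le_two_pow
  have e' : 2 ^ 2 * LL true ((2 ^ (m' + 1) - 1 : ℕ) : ℚ) (w + 1) w =
      ((2 * ((2 ^ m' : ℕ) : ℤ) - 4 - 3 * w : ℤ) : ℚ) * ((2 * ((2 ^ m' : ℕ) : ℤ) - 2 - w : ℤ) : ℚ) * U := by
    rw [show w + 1 = w + (0 + 1) from rfl, e, hκ]
    have hK : ((2 * 2 ^ m' - 1 : ℕ) : ℚ) = 2 * ((2 ^ m' : ℕ) : ℚ) - 1 := by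
      rw [Nat.cast_sub (by omega)]
      push_cast
      ring
    rw [hK]
    simp
    left
    ring
  obtain ⟨c, hc⟩ : ∃ c, w = 2 * c + 1 := ⟨w / 2, by omega⟩
  have u1 : U0 ((2 * ((2 ^ m' : ℕ) : ℤ) - 4 - 3 * w : ℤ) : ℚ) := by
    apply U0_odd
    refine ⟨((2 ^ m' : ℕ) : ℤ) - 4 - 3 * c, ?_⟩
    rw [hc]
    push_cast
    ring
  have u2 : U0 ((2 * ((2 ^ m' : ℕ) : ℤ) - 2 - w : ℤ) : ℚ) := by
    apply U0_odd
    refine ⟨((2 ^ m' : ℕ) : ℤ) - 2 - c, ?_⟩
    rw [hc]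
    push_cast
    ring
  have u3 := (u1.mul u2).mul hU
  rw [e']
  refine ⟨u3.vg, ?_⟩
  rintro (h | h)
  · exact u3.1 h
  · rw [u3.2] at h
    norm_num at h

end Pool.Agent.Helper5.MD
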