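import Pool.Agent.Helper5.MD.VGBasic
import Pool.Agent.Helper5.MD.VBinom
import Pool.Agent.Helper5.MD2.P3Mu
import Pool.Agent.Helper5.MD3.R0Defs

/-!
# MR-F2 : upper triangular factor for `κ = 2^m - 1`, `ε = true`

Compare `MD2/P3Mu.lean`.  Put `b = j - w`, `h' = (b + 1) / 2`, `h = b / 2`.
`UU true κ w j = ± ∏_(t < b) (w + t + 1) (w - t) (2 κ - 3 w - t) / (2 (2 κ - 2 w - 2 t - 1) (t + 1) (κ - 2 w - 1 - t))` (the prefactors cancel).
`κ - 2 w - 1 - t = 2^m - 2 w - 2 - t` is odd for odd `t`, and for `t = 2 u` has valuation `1 + v2 (w + 1 + u)`; this cancels the numbers `w + 1 + u`, `u < h'`, of `∏ (w + 1 + t)`; the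
remaining ones `w + 1 + h' .. w + b` are divisible by `h!`, `∏ (w - t)` by `b!` (it is zero if `b > w`), `∏ (2 κ - 3 w - t)` by `b!`.  Hence
`v2 (2^(2b) UU) ≥ 2 b - b - v2 (b!) - h' + v2 (h!) + 2 v2 (b!) = h + v2 (h!) + v2 (b!) ≥ 1` for `b ≥ 2`; for `b = 1` it equals
`v2 w + v2 (2 κ - 3 w)`, which is `0` for odd `w` and `≥ 2` for even `w`.
-/

open scoped Nat

namespace Pool.Agent.Helper5.MD

private theorem f2_val_desc (m w b : ℕ) (hb : 2 * w + b < 2 ^ (m + 1) - 1) :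
    padicValNat 2 ((2 ^ (m + 1) - 1 - 2 * w - 1).descFactorial b) =
      (b + 1) / 2 + padicValNat 2 ((w + 1).ascFactorial ((b + 1) / 2)) := by
  have h2 : Fact (Nat.Prime 2) := ⟨Nat.prime_two⟩
  induction b with
  | zero => simp
  | succ b ih =>
    have ih' := ih (by omega)
    have hne : (2 ^ (m + 1) - 1 - 2 * w - 1).descFactorial b ≠ 0 := by
      rw [Ne, Nat.descFactorial_eq_zero_iff_lt]
      omega
    have hf : 2 ^ (m + 1) - 1 - 2 * w - 1 - b ≠ 0 := by omega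
    rw [Nat.descFactorial_succ, padicValNat.mul hf hne, ih']
    rcases Nat.even_or_odd' b with ⟨h, rfl | rfl⟩
    · have e1 : (2 * h + 1) / 2 = h := by omega
      have e2 : (2 * h + 1 + 1) / 2 = h + 1 := by omega
      have e3 : 2 ^ (m + 1) - 1 - 2 * w - 1 - (2 * h) = 2 * (2 ^ m - (w + 1 + h)) := by
        rw [pow_succ]
        omega
      have hlt : w + 1 + h < 2 ^ m := by
        rw [pow_succ] at hb
        omega
      rw [e1, e2, e3, padicValNat.mul (by norm_num) (by omega),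
        p3_val_two_pow_sub m (w + 1 + h) (by omega) hlt, padicValNat_self,
        Nat.ascFactorial_succ, padicValNat.mul (by omega) (Nat.ascFactorial_pos _ _).ne']
      ring
    · have e1 : (2 * h + 1 + 1) / 2 = h + 1 := by omega
      have e2 : (2 * h + 1 + 1 + 1) / 2 = h + 1 := by omega
      rw [e1, e2, padicValNat.eq_zero_of_not_dvd, zero_add]
      rw [pow_succ] at hf hb ⊢
      omega

/-- the main product -/
private noncomputable def f2G (κ : ℚ) (w b : ℕ) : ℚ := ∏ t ∈ Finset.range b,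
  (-((w : ℚ) + t + 1) * (w - t) * (2 * κ - 3 * w - t) / (2 * (2 * κ - 2 * w - 2 * t - 1) *
        (t + 1) * (κ - 2 * w - 1 - t)))

private theorem f2_UU (κ w b : ℕ) (h3 : 3 * w < κ) (h2 : 2 * (w + b) < κ) :
    UU true (κ : ℚ) w (w + b) = f2G κ w b := by
  have hX : (2 * (κ : ℚ) - 3 * w) ≠ 0 := by
    have h4 : (3 * w : ℚ) < κ := by exact_mod_cast h3
    have h5 : (0 : ℚ) ≤ κ := by positivity
    intro h
    linarith
  have hY : (2 * (κ : ℚ) - 3 * ((w + b : ℕ) : ℚ)) ≠ 0 := by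
    have h4 : (2 * (w + b : ℕ) : ℚ) < κ := by exact_mod_cast h2
    have h5 : (0 : ℚ) ≤ κ := by positivity
    have h6 : (0 : ℚ) ≤ ((w + b : ℕ) : ℚ) := by positivity
    intro h
    linarith
  have hprod : ∏ v ∈ Finset.Ico w (w + b),
    (-((v : ℚ) + 1) * (2 * w - v) * (2 * κ - 2 * w - v) /
      (2 * (2 * κ - 2 * v - 1) * (v - w + 1) * (κ - w - v - 1))) = f2G κ w b := by
    unfold f2G
    rw [Finset.prod_Ico_eq_prod_range, Nat.add_sub_cancel_left]
    apply Finset.prod_congr rfl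
    intro t _
    congr 1
    · push_cast
      ring
    · push_cast
      ring
  have hmu : mu (κ : ℚ) w (w + b) = (2 * (κ : ℚ) - 3 * ((w + b : ℕ) : ℚ)) /
        (2 * κ - 3 * w) * f2G κ w b := by
    rw [← hprod]
    unfold mu
    rw [if_pos (Nat.le_add_right w b)]
  simp only [UU, if_true]
  rw [hmu]
  field_simp

private theorem f2_VG (m w b : ℕ) (hb : 2 * w + b < 2 ^ (m + 1) - 1)
    (hb3 : 3 * w < 2 ^ (m + 1) - 1) (hb2 : 2 * (w + b) < 2 ^ (m + 1) - 1) :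
    VG ((b / 2 : ℕ) : ℤ) (2 ^ (2 * (b : ℤ)) * f2G ((2 ^ (m + 1) - 1 : ℕ) : ℚ) w b) := by
  have h2 : Fact (Nat.Prime 2) := ⟨Nat.prime_two⟩
  have hvd := f2_val_desc m w b hb
  have hκ : ∃ κ, κ = 2 ^ (m + 1) - 1 := ⟨_, rfl⟩
  obtain ⟨κ, hκ⟩ := hκ
  rw [← hκ] at hb hb3 hb2 hvd ⊢
  have hh' : ∃ h', h' = (b + 1) / 2 := ⟨_, rfl⟩
  obtain ⟨h', hh'⟩ := hh'
  rw [← hh'] at hvd
  -- numerators and denominators
  have e1 : ∏ t ∈ Finset.range b, ((w : ℚ) + t + 1) = (((w + 1).ascFactorial b : ℕ) : ℚ) := by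
    rw [Nat.ascFactorial_eq_prod_range, Nat.cast_prod]
    apply Finset.prod_congr rfl
    intro t _
    push_cast
    ring
  have e2 : ∏ t ∈ Finset.range b, ((w : ℚ) - t) = ((w.descFactorial b : ℕ) : ℚ) := by
    rw [← descPochhammer_eval_eq_descFactorial, descPochhammer_eval_eq_prod_range]
  have e6 : ∏ t ∈ Finset.range b, (2 * (κ : ℚ) - 3 * w - t) =
      (((2 * κ - 3 * w).descFactorial b : ℕ) : ℚ) := by
    rw [← descPochhammer_eval_eq_descFactorial, descPochhammer_eval_eq_prod_range]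
    apply Finset.prod_congr rfl
    intro t _
    have : ((2 * κ - 3 * w : ℕ) : ℚ) = 2 * (κ : ℚ) - 3 * w := by
      rw [Nat.cast_sub (by omega)]
      push_cast
      ring
    rw [this]
  have e3 : ∏ t ∈ Finset.range b, ((κ : ℚ) - 2 * w - 1 - t) =
      (((κ - 2 * w - 1).descFactorial b : ℕ) : ℚ) := by
    rw [← descPochhammer_eval_eq_descFactorial, descPochhammer_eval_eq_prod_range]
    apply Finset.prod_congr rfl
    intro t ht
    have ht' := Finset.mem_range.1 ht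
    have : ((κ - 2 * w - 1 : ℕ) : ℚ) = (κ : ℚ) - 2 * w - 1 := by
      rw [Nat.sub_sub, Nat.cast_sub (by omega)]
      push_cast
      ring
    rw [this]
  have e4 : ∏ t ∈ Finset.range b, ((t : ℚ) + 1) = ((b ! : ℕ) : ℚ) := by
    rw [← Finset.prod_range_add_one_eq_factorial, Nat.cast_prod]
    apply Finset.prod_congr rfl
    intro t _
    push_cast
    ring
  have e5 : ∏ t ∈ Finset.range b, (2 * (κ : ℚ) - 2 * w - 2 * t - 1) =
      ((∏ t ∈ Finset.range b, (2 * κ - 2 * w - 2 * t - 1) : ℕ) : ℚ) := by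
    rw [Nat.cast_prod]
    apply Finset.prod_congr rfl
    intro t ht
    have ht' := Finset.mem_range.1 ht
    rw [Nat.sub_sub, Nat.sub_sub, Nat.cast_sub (by omega)]
    push_cast
    ring
  have hprod : f2G κ w b =
      ((-1) ^ b * (((w + 1).ascFactorial b : ℕ) : ℚ) * ((w.descFactorial b : ℕ) : ℚ) *
        (((2 * κ - 3 * w).descFactorial b : ℕ) : ℚ)) /
      (((2 ^ b * (∏ t ∈ Finset.range b, (2 * κ - 2 * w - 2 * t - 1)) * b ! *
        (κ - 2 * w - 1).descFactorial b : ℕ)) : ℚ) := by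
    unfold f2G
    rw [Finset.prod_div_distrib]
    congr 1
    · rw [← e1, ← e2, ← e6]
      have : ((-1 : ℚ)) ^ b = ∏ _t ∈ Finset.range b, (-1 : ℚ) := by
        rw [Finset.prod_const, Finset.card_range]
      rw [this, ← Finset.prod_mul_distrib, ← Finset.prod_mul_distrib, ← Finset.prod_mul_distrib]
      apply Finset.prod_congr rfl
      intro t _
      ring
    · rw [Nat.cast_mul, Nat.cast_mul, Nat.cast_mul, ← e3, ← e4, ← e5]
      have : (((2 ^ b : ℕ)) : ℚ) = ∏ _t ∈ Finset.range b, (2 : ℚ) := by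
        rw [Finset.prod_const, Finset.card_range]
        push_cast
        rfl
      rw [this, ← Finset.prod_mul_distrib, ← Finset.prod_mul_distrib, ← Finset.prod_mul_distrib]
  rw [hprod, ← mul_div_assoc]
  have hD1odd : ¬ 2 ∣ ∏ t ∈ Finset.range b, (2 * κ - 2 * w - 2 * t - 1) := by
    rw [Prime.dvd_finsetProd_iff Nat.prime_two.prime]
    rintro ⟨t, ht, hd⟩
    have ht' := Finset.mem_range.1 ht
    omega
  have hD1ne : ∏ t ∈ Finset.range b, (2 * κ - 2 * w - 2 * t - 1) ≠ 0 := fun h0 =>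
    hD1odd (h0 ▸ dvd_zero 2)
  have hD3ne : (κ - 2 * w - 1).descFactorial b ≠ 0 := by
    rw [Ne, Nat.descFactorial_eq_zero_iff_lt]
    omega
  have hval : padicValRat 2 (((2 ^ b * (∏ t ∈ Finset.range b, (2 * κ - 2 * w - 2 * t - 1)) * b ! *
        (κ - 2 * w - 1).descFactorial b : ℕ)) : ℚ) =
      (b : ℤ) + padicValNat 2 (b !) + (h' + padicValNat 2 ((w + 1).ascFactorial h')) := by
    rw [padicValRat.of_nat, padicValNat.mul (mul_ne_zero (mul_ne_zero (by positivity) hD1ne)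
      (Nat.factorial_ne_zero b)) hD3ne, padicValNat.mul (mul_ne_zero (by positivity) hD1ne)
      (Nat.factorial_ne_zero b), padicValNat.mul (by positivity) hD1ne,
      padicValNat.eq_zero_of_not_dvd hD1odd, padicValNat.prime_pow, hvd]
    push_cast
    ring
  apply VG.div_p3 (k := (b : ℤ) + padicValNat 2 (b !) +
    (h' + padicValNat 2 ((w + 1).ascFactorial h'))) _ _ hval.le
  · have hsplit : (w + 1).ascFactorial b =
        (w + 1).ascFactorial h' * (w + 1 + h').ascFactorial (b - h') := by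
      rw [Nat.ascFactorial_mul_ascFactorial]
      congr 1
      omega
    have v1 : VG (2 * (b : ℤ)) ((2 : ℚ) ^ (2 * (b : ℤ))) := VG_two_zpow _
    have v2 : VG 0 ((-1 : ℚ) ^ b) := by
      have := VG_int ((-1) ^ b)
      push_cast at this
      exact this
    have v3 : VG (padicValNat 2 ((w + 1).ascFactorial h') : ℤ)
        ((((w + 1).ascFactorial h' : ℕ)) : ℚ) := by
      right
      rw [padicValRat.of_nat]
    have v4 : VG 0 ((((w + 1 + h').ascFactorial (b - h') : ℕ)) : ℚ) := by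
      have := VG_int (((w + 1 + h').ascFactorial (b - h') : ℕ) : ℤ)
      rwa [Int.cast_natCast] at this
    have v5 : ∀ n : ℕ, VG (padicValNat 2 (b !) : ℤ) (((n.descFactorial b : ℕ)) : ℚ) := by
      intro n
      obtain ⟨z, hz⟩ := Nat.factorial_dvd_descFactorial n b
      rw [hz, Nat.cast_mul]
      have g1 : VG (padicValNat 2 (b !) : ℤ) ((b ! : ℕ) : ℚ) := by
        right
        rw [padicValRat.of_nat]
      have g2 : VG 0 ((z : ℕ) : ℚ) := by
        have := VG_int (z : ℤ)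
        rwa [Int.cast_natCast] at this
      simpa using g1.mul g2
    have v6 := v1.mul (((v2.mul (v3.mul v4)).mul (v5 w)).mul (v5 (2 * κ - 3 * w)))
    rw [hsplit, Nat.cast_mul]
    refine v6.mono ?_
    have hbh : h' ≤ b := by omega
    have hb' : b / 2 + h' = b := by omega
    have hb'' : ((b / 2 : ℕ) : ℤ) + h' = b := by exact_mod_cast hb'
    have h0 : (0 : ℤ) ≤ padicValNat 2 (b !) := by positivity
    linarith
  · exact_mod_cast mul_ne_zero (mul_ne_zero (mul_ne_zero (by positivity) hD1ne)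
      (Nat.factorial_ne_zero b)) hD3ne

/-- the exact valuation next to the diagonal -/
private theorem f2_one (m w : ℕ) (hw : 1 ≤ w) (h3 : 3 * w < 2 ^ m - 1)
    (h2 : 2 * (w + 1) < 2 ^ m - 1) :
    2 ^ 2 * UU true ((2 ^ m - 1 : ℕ) : ℚ) w (w + 1) ≠ 0 ∧
    padicValRat 2 (2 ^ 2 * UU true ((2 ^ m - 1 : ℕ) : ℚ) w (w + 1)) =
      padicValNat 2 w + padicValNat 2 (3 * w + 2) := by
  have hF : Fact (Nat.Prime 2) := ⟨Nat.prime_two⟩
  obtain ⟨m', rfl⟩ : ∃ m', m = m' + 1 := by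
    cases m with
    | zero => omega
    | succ m' => exact ⟨m', rfl⟩
  have hp : 2 ^ (m' + 1) = 2 * 2 ^ m' := by rw [pow_succ]; ring
  have hp2 : 2 ^ (m' + 1 + 1) = 4 * 2 ^ m' := by rw [pow_succ, pow_succ]; ring
  rw [f2_UU _ w 1 h3 h2]
  have e : (2 : ℚ) ^ 2 * f2G ((2 ^ (m' + 1) - 1 : ℕ) : ℚ) w 1 =
      -((((w + 1) * (w * (2 ^ (m' + 1 + 1) - (3 * w + 2))) : ℕ) : ℚ) /
        (((2 ^ (m' + 1 + 1) - 2 * w - 3) * (2 ^ m' - (w + 1)) : ℕ) : ℚ)) := by
    have c0 : (((2 ^ (m' + 1) - 1 : ℕ) : ℚ)) = 2 * 2 ^ m' - 1 := by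
      rw [Nat.cast_sub (by omega), hp]
      push_cast
      ring
    have c1 : (((2 ^ (m' + 1 + 1) - (3 * w + 2) : ℕ)) : ℚ) = 4 * 2 ^ m' - (3 * w + 2) := by
      rw [Nat.cast_sub (by omega), hp2]
      push_cast
      ring
    have c2 : (((2 ^ (m' + 1 + 1) - 2 * w - 3 : ℕ)) : ℚ) = 4 * 2 ^ m' - 2 * w - 3 := by
      rw [Nat.sub_sub, Nat.cast_sub (by omega), hp2]
      push_cast
      ring
    have c3 : (((2 ^ m' - (w + 1) : ℕ)) : ℚ) = 2 ^ m' - (w + 1) := by
      rw [Nat.cast_sub (by omega)]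
      push_cast
      ring
    have n2 : ((4 : ℚ) * 2 ^ m' - 2 * w - 3) ≠ 0 := by
      rw [← c2]
      exact_mod_cast (by omega : 2 ^ (m' + 1 + 1) - 2 * w - 3 ≠ 0)
    have n3 : ((2 : ℚ) ^ m' - (w + 1)) ≠ 0 := by
      rw [← c3]
      exact_mod_cast (by omega : 2 ^ m' - (w + 1) ≠ 0)
    rw [Nat.cast_mul, Nat.cast_mul, Nat.cast_mul, c1, c2, c3]
    unfold f2G
    rw [Finset.prod_range_one, c0]
    have d1 : (2 * (2 * (2 * (2 : ℚ) ^ m' - 1) - 2 * w - 2 * ((0 : ℕ) : ℚ) - 1) *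
        (((0 : ℕ) : ℚ) + 1) * (2 * 2 ^ m' - 1 - 2 * w - 1 - ((0 : ℕ) : ℚ))) =
        4 * ((4 * 2 ^ m' - 2 * w - 3) * (2 ^ m' - (w + 1))) := by
      push_cast
      ring
    rw [d1, ← neg_div, ← mul_div_assoc, div_eq_div_iff (mul_ne_zero four_ne_zero
      (mul_ne_zero n2 n3)) (mul_ne_zero n2 n3)]
    push_cast
    ring
  have hN : (w + 1) * (w * (2 ^ (m' + 1 + 1) - (3 * w + 2))) ≠ 0 :=
    mul_ne_zero (by omega) (mul_ne_zero (by omega) (by omega))
  have hD : (2 ^ (m' + 1 + 1) - 2 * w - 3) * (2 ^ m' - (w + 1)) ≠ 0 :=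
    mul_ne_zero (by omega) (by omega)
  have hNq : (((w + 1) * (w * (2 ^ (m' + 1 + 1) - (3 * w + 2))) : ℕ) : ℚ) ≠ 0 := by
    exact_mod_cast hN
  have hDq : (((2 ^ (m' + 1 + 1) - 2 * w - 3) * (2 ^ m' - (w + 1)) : ℕ) : ℚ) ≠ 0 := by
    exact_mod_cast hD
  rw [e]
  refine ⟨neg_ne_zero.2 (div_ne_zero hNq hDq), ?_⟩
  rw [padicValRat.neg, padicValRat.div hNq hDq, padicValRat.of_nat, padicValRat.of_nat,
    padicValNat.mul (by omega) (mul_ne_zero (by omega) (by omega)),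
    padicValNat.mul (by omega) (by omega), padicValNat.mul (by omega) (by omega),
    p3_val_two_pow_sub (m' + 1 + 1) (3 * w + 2) (by omega) (by omega),
    p3_val_two_pow_sub m' (w + 1) (by omega) (by omega),
    padicValNat.eq_zero_of_not_dvd (n := 2 ^ (m' + 1 + 1) - 2 * w - 3) (by omega)]
  push_cast
  ring

theorem VG_UU_N (m w j : ℕ) (hw : 1 ≤ w) (hwj : w < j) (h3 : 3 * w < 2 ^ m - 1)
    (h2 : 2 * j < 2 ^ m - 1) (hne : ¬ (w % 2 = 1 ∧ j = w + 1)) :
    VG 1 (2 ^ (2 * (j : ℤ) - 2 * w) * UU true ((2 ^ m - 1 : ℕ) : ℚ) w j) := by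
  obtain ⟨b, rfl⟩ : ∃ b, j = w + b := ⟨j - w, by omega⟩
  by_cases hb : b = 1
  · subst hb
    obtain ⟨-, h⟩ := f2_one m w hw h3 h2
    right
    have e1 : (2 : ℚ) ^ (2 * (((w + 1 : ℕ)) : ℤ) - 2 * w) = 2 ^ 2 := by
      have : (2 * (((w + 1 : ℕ)) : ℤ) - 2 * w) = ((2 : ℕ) : ℤ) := by
        push_cast
        ring
      rw [this, zpow_natCast]
    rw [e1, h]
    have hev : 2 ∣ w := by omega
    have := one_le_padicValNat_of_dvd (p := 2) (by omega : w ≠ 0) hev
    have h4 : (1 : ℤ) ≤ padicValNat 2 w := by exact_mod_cast this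
    have h5 : (0 : ℤ) ≤ padicValNat 2 (3 * w + 2) := by positivity
    linarith
  · obtain ⟨m', rfl⟩ : ∃ m', m = m' + 1 := by
      cases m with
      | zero => omega
      | succ m' => exact ⟨m', rfl⟩
    have h := f2_VG m' w b (by omega) h3 h2
    have e1 : (2 * (((w + b : ℕ)) : ℤ) - 2 * w) = 2 * (b : ℤ) := by
      push_cast
      ring
    rw [f2_UU _ w b h3 h2, e1]
    exact h.mono (by omega)

theorem Un_UU_N (m w : ℕ) (hw : w % 2 = 1) (h3 : 3 * (w + 1) < 2 ^ m - 1) :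
    Un (2 ^ 2 * UU true ((2 ^ m - 1 : ℕ) : ℚ) w (w + 1)) := by
  obtain ⟨h0, h⟩ := f2_one m w (by omega) (by omega) (by omega)
  rw [padicValNat.eq_zero_of_not_dvd (n := w) (by omega),
    padicValNat.eq_zero_of_not_dvd (n := 3 * w + 2) (by omega)] at h
  refine ⟨Or.inr (by rw [h]; norm_num), ?_⟩
  rintro (h1 | h1)
  · exact h0 h1
  · rw [h] at h1
    norm_num at h1

end Pool.Agent.Helper5.MD
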