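import Pool.Agent.Helper5.MD.V5Pivot
import Pool.Agent.Helper5.MD3.R0Defs

/-!
# MR-F3 : pivots for `κ = 2^m - 1`, `ε = true`

Compare `MD2/P6Piv.lean`.  `v2 (PS true κ 1) = 4 + v2 (3 - κ) = 4 + v2 (2^m - 4) = 6` for `m ≥ 3`.
For `3 (w + 1) < κ`: `v2 (PS (w+1)) - v2 (PS w) = 2 + v2 ((κ-3w-1)(κ-3w-2)(κ-3w-3)) + v2 ((2κ-3w)(2κ-3w-1)(2κ-3w-2)) - v2 (κ-2w) - 2 v2 (κ-2w-1) - v2 (κ-2w-2)`
`= 2 + 2 v2 ((3w+2)(3w+3)(3w+4)) - 2 (1 + v2 (w+1)) = 2 (v2 (3 w + 2) + v2 (3 w + 4))`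
(`κ - 3 w - j = 2^m - (3w+1+j)`, `2 κ - 3 w - j = 2^(m+1) - (3w+2+j)`, `κ - 2 w - 1 = 2^m - 2 (w+1)`), which is `0` for odd `w` and `≥ 6` for even `w`.
With `n = 2 j - 1` or `2 j` the slope is `2 (v2 ((6j)!) - v2 ((2j)!))`.
-/

open scoped Nat

namespace Pool.Agent.Helper5.MD

private theorem f3_sub (m y : ℕ) (hy : 0 < y) (h : y < 2 ^ m) :
    padicValNat 2 (2 ^ m - y) = padicValNat 2 y := by
  obtain ⟨a, b, hb, rfl⟩ := Nat.exists_eq_two_pow_mul_odd hy.ne'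
  have hb0 : 0 < b := hb.pos
  have ham : a < m := by
    by_contra hcon
    have h1 : 2 ^ m ≤ 2 ^ a := Nat.pow_le_pow_right (by norm_num) (by omega)
    have h2 : 2 ^ a * 1 ≤ 2 ^ a * b := Nat.mul_le_mul_left _ hb0
    omega
  obtain ⟨d, rfl⟩ : ∃ d, m = a + (d + 1) := ⟨m - a - 1, by omega⟩
  have hlt : b < 2 ^ (d + 1) := by
    rw [pow_add] at h
    exact Nat.lt_of_mul_lt_mul_left h
  have e : 2 ^ (a + (d + 1)) - 2 ^ a * b = 2 ^ a * (2 ^ (d + 1) - b) := by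
    rw [pow_add, Nat.mul_sub]
  have hodd : Odd (2 ^ (d + 1) - b) := by
    obtain ⟨c, hc⟩ := hb
    refine ⟨2 ^ d - c - 1, ?_⟩
    have h3 : 2 ^ (d + 1) = 2 * 2 ^ d := by rw [pow_succ]; ring
    omega
  have hv : ∀ c : ℕ, Odd c → padicValNat 2 (2 ^ a * c) = a := by
    intro c hc
    rw [padicValNat.mul (by positivity) hc.pos.ne', padicValNat.prime_pow,
      padicValNat.eq_zero_of_not_dvd (fun hd => (Nat.not_even_iff_odd.2 hc)
        (even_iff_two_dvd.2 hd)), add_zero]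
  rw [e, hv _ hodd, hv _ hb]

private theorem f3_vf2 : padicValNat 2 (2 !) = 1 := by
  rw [Nat.factorial_two]
  exact padicValNat_self

private theorem f3_three : padicValNat 2 3 = 0 :=
  padicValNat.eq_zero_of_not_dvd (by norm_num)

private theorem f3_vf3 : padicValNat 2 (3 !) = 1 := by
  rw [Nat.factorial_succ, padicValNat.mul (by norm_num) (Nat.factorial_ne_zero _), f3_vf2,
    f3_three]

private theorem f3_C2 (n : ℕ) (h : 2 ≤ n) :
    vC n 2 + 1 = padicValNat 2 n + padicValNat 2 (n - 1) := by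
  have h1 : n.descFactorial 2 = n * (n - 1) := by
    rw [Nat.descFactorial_succ, Nat.descFactorial_succ, Nat.descFactorial_zero, mul_one,
      Nat.sub_zero, mul_comm]
  have h2 := Nat.descFactorial_eq_factorial_mul_choose n 2
  rw [h1] at h2
  have h3 := congrArg (padicValNat 2) h2
  rw [padicValNat.mul (by omega) (by omega), padicValNat.mul (Nat.factorial_ne_zero _)
    (Nat.choose_pos h).ne', f3_vf2] at h3
  unfold vC
  omega

private theorem f3_C3 (n : ℕ) (h : 3 ≤ n) :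
    vC n 3 + 1 = padicValNat 2 n + padicValNat 2 (n - 1) + padicValNat 2 (n - 2) := by
  have h1 : n.descFactorial 3 = n * (n - 1) * (n - 2) := by
    rw [Nat.descFactorial_succ, Nat.descFactorial_succ, Nat.descFactorial_succ,
      Nat.descFactorial_zero, mul_one, Nat.sub_zero]
    ring
  have h2 := Nat.descFactorial_eq_factorial_mul_choose n 3
  rw [h1] at h2
  have h3 := congrArg (padicValNat 2) h2
  rw [padicValNat.mul (mul_ne_zero (by omega) (by omega)) (by omega),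
    padicValNat.mul (by omega) (by omega), padicValNat.mul (Nat.factorial_ne_zero _)
    (Nat.choose_pos h).ne', f3_vf3] at h3
  unfold vC
  omega

private theorem f3_two_mul (x : ℕ) (hx : 0 < x) : padicValNat 2 (2 * x) = 1 + padicValNat 2 x := by
  rw [padicValNat.mul (by norm_num) hx.ne', padicValNat_self]

private theorem f3_three_mul (x : ℕ) (hx : 0 < x) : padicValNat 2 (3 * x) = padicValNat 2 x := by
  rw [padicValNat.mul (by norm_num) hx.ne', f3_three, zero_add]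

private theorem f3_odd (x : ℕ) : padicValNat 2 (2 * x + 1) = 0 :=
  padicValNat.eq_zero_of_not_dvd (by omega)

/-- the step -/
private theorem f3_step (m w : ℕ) (hw : 1 ≤ w) (h : 3 * (w + 1) < 2 ^ m - 1) :
    padicValRat 2 (PS true ((2 ^ m - 1 : ℕ) : ℚ) (w + 1)) =
      padicValRat 2 (PS true ((2 ^ m - 1 : ℕ) : ℚ) w) +
        2 * (padicValNat 2 (3 * w + 2) + padicValNat 2 (3 * w + 4) : ℕ) := by
  have hm := padicVal_PS true (2 ^ m - 1) w 1 hw h
  have hp : (2 : ℕ) ^ (m + 1) = 2 * 2 ^ m := by rw [pow_succ]; ring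
  have s1 : ∀ y, 0 < y → y < 2 ^ m → padicValNat 2 (2 ^ m - y) = padicValNat 2 y :=
    fun y h1 h2 => f3_sub m y h1 h2
  have s2 : ∀ y, 0 < y → y < 2 * 2 ^ m → padicValNat 2 (2 * 2 ^ m - y) = padicValNat 2 y := by
    intro y h1 h2
    rw [← hp]
    exact f3_sub (m + 1) y h1 (by rw [hp]; exact h2)
  have c1 := f3_C2 (2 ^ m - 1 - 2 * w) (by omega)
  have c2 := f3_C2 (2 ^ m - 1 - 2 * w - 1) (by omega)
  have k0 : 2 ^ m - 1 - 2 * w = 2 ^ m - (2 * w + 1) := by omega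
  have k1 : 2 ^ m - (2 * w + 1) - 1 = 2 ^ m - 2 * (w + 1) := by omega
  have k2 : 2 ^ m - 2 * (w + 1) - 1 = 2 ^ m - (2 * (w + 1) + 1) := by omega
  rw [k0, k1, s1 _ (by omega) (by omega), s1 _ (by omega) (by omega), f3_odd,
    f3_two_mul _ (by omega)] at c1
  rw [k0, k1, k2, s1 _ (by omega) (by omega), s1 _ (by omega) (by omega), f3_odd,
    f3_two_mul _ (by omega)] at c2
  have he : eta true (2 ^ m - 1) w 1 + 2 = 2 * padicValNat 2 (w + 1) +
      2 * (padicValNat 2 (3 * w + 2) + padicValNat 2 (3 * w + 4)) := by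
    have t1 : 3 * w + 3 = 3 * (w + 1) := by ring
    have e1 := f3_C3 (2 ^ m - 1 - 3 * w - 1) (by omega)
    have e2 := f3_C3 (2 * (2 ^ m - 1) - 3 * w) (by omega)
    have r0 : 2 ^ m - 1 - 3 * w - 1 = 2 ^ m - (3 * w + 2) := by omega
    have r1 : 2 ^ m - (3 * w + 2) - 1 = 2 ^ m - (3 * w + 3) := by omega
    have r2 : 2 ^ m - (3 * w + 2) - 2 = 2 ^ m - (3 * w + 4) := by omega
    have r3 : 2 * (2 ^ m - 1) - 3 * w = 2 * 2 ^ m - (3 * w + 2) := by omega
    have r4 : 2 * 2 ^ m - (3 * w + 2) - 1 = 2 * 2 ^ m - (3 * w + 3) := by omega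
    have r5 : 2 * 2 ^ m - (3 * w + 2) - 2 = 2 * 2 ^ m - (3 * w + 4) := by omega
    rw [r0, r1, r2, s1 _ (by omega) (by omega), s1 _ (by omega) (by omega),
      s1 _ (by omega) (by omega), t1, f3_three_mul _ (by omega)] at e1
    rw [r3, r4, r5, s2 _ (by omega) (by omega), s2 _ (by omega) (by omega),
      s2 _ (by omega) (by omega), t1, f3_three_mul _ (by omega)] at e2
    unfold eta
    simp only [if_true, mul_one]
    rw [r0, r3]
    omega
  have f2 : vf (2 * 1) = 1 := f3_vf2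
  have f3 : vf (3 * 1) = 1 := f3_vf3
  rw [f2, f3] at hm
  simp only [mul_one] at hm
  rw [k0, k1] at hm
  push_cast at hm ⊢
  have c1' : (vC (2 ^ m - (2 * w + 1)) 2 : ℤ) = padicValNat 2 (w + 1) := by
    exact_mod_cast (by omega : vC (2 ^ m - (2 * w + 1)) 2 = padicValNat 2 (w + 1))
  have c2' : (vC (2 ^ m - 2 * (w + 1)) 2 : ℤ) = padicValNat 2 (w + 1) := by
    exact_mod_cast (by omega : vC (2 ^ m - 2 * (w + 1)) 2 = padicValNat 2 (w + 1))
  have he' : (eta true (2 ^ m - 1) w 1 : ℤ) + 2 = 2 * padicValNat 2 (w + 1) +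
      2 * (padicValNat 2 (3 * w + 2) + padicValNat 2 (3 * w + 4)) := by exact_mod_cast he
  rw [c1', c2'] at hm
  linarith

private theorem f3_base (m : ℕ) (h : 3 ≤ m) :
    padicValRat 2 (PS true ((2 ^ m - 1 : ℕ) : ℚ) 1) = 6 := by
  obtain ⟨d, rfl⟩ : ∃ d, m = d + 3 := ⟨m - 3, by omega⟩
  have hp : (2 : ℕ) ^ (d + 3) = 8 * 2 ^ d := by rw [pow_add]; ring
  have hd : 1 ≤ 2 ^ d := Nat.one_le_two_pow
  have hc : (((2 ^ (d + 3) - 1 : ℕ) : ℚ)) = 8 * 2 ^ d - 1 := by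
    rw [Nat.cast_sub (by omega), hp]
    push_cast
    ring
  unfold PS PP
  simp only [if_true]
  have hd' : (1 : ℚ) ≤ 2 ^ d := by exact_mod_cast hd
  have e : pv ((2 ^ (d + 3) - 1 : ℕ) : ℚ) 1 * ((6 * ((1 : ℕ) : ℚ) -
      2 * ((2 ^ (d + 3) - 1 : ℕ) : ℚ)) / (3 * ((1 : ℕ) : ℚ) - 2 * ((2 ^ (d + 3) - 1 : ℕ) : ℚ))) =
      (2 : ℚ) ^ (3 : ℤ) * (-((2 * (2 ^ d - 1) + 1 : ℕ) : ℚ)) := by
    have h2 : (3 : ℚ) - 2 * ((2 ^ (d + 3) - 1 : ℕ) : ℚ) ≠ 0 := by
      rw [hc]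
      apply ne_of_lt
      linarith
    have h3 : pv ((2 ^ (d + 3) - 1 : ℕ) : ℚ) 1 = 3 - 2 * ((2 ^ (d + 3) - 1 : ℕ) : ℚ) := by
      unfold pv
      rw [Finset.Ico_self, Finset.prod_empty, mul_one]
    rw [h3, Nat.cast_one, mul_one, mul_one, mul_div_assoc', mul_div_cancel_left₀ _ h2, hc]
    have h4 : ((2 * (2 ^ d - 1) + 1 : ℕ) : ℚ) = 2 * (2 ^ d - 1) + 1 := by
      push_cast [Nat.cast_sub hd]
      ring
    rw [h4]
    norm_num
    ring
  have n2 : (-((2 * (2 ^ d - 1) + 1 : ℕ) : ℚ)) ≠ 0 := by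
    rw [neg_ne_zero]
    exact_mod_cast (by omega : 2 * (2 ^ d - 1) + 1 ≠ 0)
  rw [e, padicValRat.mul (zpow_ne_zero _ two_ne_zero) (mul_ne_zero (zpow_ne_zero _ two_ne_zero) n2),
    padicValRat.mul (zpow_ne_zero _ two_ne_zero) n2, padicValRat_two_zpow, padicValRat_two_zpow,
    padicValRat.neg, padicValRat.of_nat, f3_odd]
  norm_num

theorem slope_N_odd (m w : ℕ) (hm : 3 ≤ m) (hw : w % 2 = 1) (h3 : 3 * (w + 1) < 2 ^ m - 1) :
    padicValRat 2 (PS true ((2 ^ m - 1 : ℕ) : ℚ) (w + 1)) =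
      padicValRat 2 (PS true ((2 ^ m - 1 : ℕ) : ℚ) w) := by
  rw [f3_step m w (by omega) h3]
  obtain ⟨u, rfl⟩ : ∃ u, w = 2 * u + 1 := ⟨w / 2, by omega⟩
  have e1 : 3 * (2 * u + 1) + 2 = 2 * (3 * u + 2) + 1 := by ring
  have e2 : 3 * (2 * u + 1) + 4 = 2 * (3 * u + 3) + 1 := by ring
  rw [e1, e2, f3_odd, f3_odd]
  norm_num

theorem slope_N_even (m w : ℕ) (hm : 3 ≤ m) (hw0 : 1 ≤ w) (hw : w % 2 = 0)
    (h3 : 3 * (w + 1) < 2 ^ m - 1) :
    padicValRat 2 (PS true ((2 ^ m - 1 : ℕ) : ℚ) w) + 6 ≤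
      padicValRat 2 (PS true ((2 ^ m - 1 : ℕ) : ℚ) (w + 1)) := by
  rw [f3_step m w hw0 h3]
  obtain ⟨u, rfl⟩ : ∃ u, w = 2 * u := ⟨w / 2, by omega⟩
  have e1 : 3 * (2 * u) + 2 = 2 * (3 * u + 1) := by ring
  have e2 : 3 * (2 * u) + 4 = 2 * (3 * u + 2) := by ring
  rw [e1, e2, f3_two_mul _ (by omega), f3_two_mul _ (by omega)]
  have h1 : 1 ≤ padicValNat 2 (3 * u + 1) + padicValNat 2 (3 * u + 2) := by
    rcases Nat.even_or_odd u with he | ho
    · have h2 : 2 ∣ 3 * u + 2 := by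
        obtain ⟨c, hc⟩ := he
        exact ⟨3 * c + 1, by omega⟩
      have := one_le_padicValNat_of_dvd (p := 2) (by omega : 3 * u + 2 ≠ 0) h2
      omega
    · have h2 : 2 ∣ 3 * u + 1 := by
        obtain ⟨c, hc⟩ := ho
        exact ⟨3 * c + 2, by omega⟩
      have := one_le_padicValNat_of_dvd (p := 2) (by omega : 3 * u + 1 ≠ 0) h2
      omega
  have h2 : (3 : ℤ) ≤ (((1 + padicValNat 2 (3 * u + 1)) + (1 + padicValNat 2 (3 * u + 2)) : ℕ) :
      ℤ) := by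
    exact_mod_cast (by omega : 3 ≤ (1 + padicValNat 2 (3 * u + 1)) +
      (1 + padicValNat 2 (3 * u + 2)))
  linarith

theorem slope_N (m j : ℕ) (hm : 3 ≤ m) (hj : 1 ≤ j) (h3 : 3 * (2 * j) < 2 ^ m - 1) :
    padicValRat 2 (PS true ((2 ^ m - 1 : ℕ) : ℚ) (2 * j)) =
      2 * ((vf (6 * j) : ℤ) - vf (2 * j)) := by
  have v1 : ∀ n, vf (n + 1) = padicValNat 2 (n + 1) + vf n := by
    intro n
    unfold vf
    rw [Nat.factorial_succ, padicValNat.mul (by omega) (Nat.factorial_ne_zero _)]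
  have o : ∀ x, padicValNat 2 (2 * x + 1) = 0 := f3_odd
  induction j, hj using Nat.le_induction with
  | base =>
    have h1 := slope_N_odd m 1 hm rfl (by omega)
    have e1 : vf 1 = 0 := by simp [vf]
    have e2 : vf 2 = 1 := f3_vf2
    have e3 : vf 3 = 1 := f3_vf3
    have e4 : vf 4 = 3 := by
      rw [v1 3, e3, show (3 + 1 : ℕ) = 2 * 2 by norm_num, f3_two_mul 2 (by norm_num),
        padicValNat_self]
    have e5 : vf 5 = 3 := by
      rw [v1 4, e4, show (4 + 1 : ℕ) = 2 * 2 + 1 by norm_num, o]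
    have e6 : vf 6 = 4 := by
      rw [v1 5, e5, show (5 + 1 : ℕ) = 2 * 3 by norm_num, f3_two_mul 3 (by norm_num), f3_three]
    rw [show 2 * 1 = 1 + 1 by norm_num, h1, f3_base m hm, show 6 * 1 = 6 by norm_num,
      show 1 + 1 = 2 by norm_num, e2, e6]
    norm_num
  | succ j hj ih =>
    have ih := ih (by omega)
    have h1 := slope_N_odd m (2 * j + 1) hm (by omega) (by omega)
    have h2 := f3_step m (2 * j) (by omega) (by omega)
    have e1 : 2 * (j + 1) = 2 * j + 1 + 1 := by ring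
    have a1 := v1 (2 * j)
    have a2 := v1 (2 * j + 1)
    have b1 := v1 (6 * j)
    have b2 := v1 (6 * j + 1)
    have b3 := v1 (6 * j + 2)
    have b4 := v1 (6 * j + 3)
    have b5 := v1 (6 * j + 4)
    have b6 := v1 (6 * j + 5)
    have o1 : padicValNat 2 (2 * j + 1) = 0 := o j
    have o2 : padicValNat 2 (6 * j + 1) = 0 := by
      rw [show 6 * j + 1 = 2 * (3 * j) + 1 by ring]; exact o _
    have o3 : padicValNat 2 (6 * j + 2 + 1) = 0 := by
      rw [show 6 * j + 2 + 1 = 2 * (3 * j + 1) + 1 by ring]; exact o _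
    have o4 : padicValNat 2 (6 * j + 4 + 1) = 0 := by
      rw [show 6 * j + 4 + 1 = 2 * (3 * j + 2) + 1 by ring]; exact o _
    have t1 : padicValNat 2 (6 * j + 5 + 1) = padicValNat 2 (2 * j + 1 + 1) := by
      rw [show 6 * j + 5 + 1 = 3 * (2 * j + 1 + 1) by ring, f3_three_mul _ (by omega)]
    have t2 : padicValNat 2 (3 * (2 * j) + 2) = padicValNat 2 (6 * j + 1 + 1) := by
      rw [show 3 * (2 * j) + 2 = 6 * j + 1 + 1 by ring]
    have t3 : padicValNat 2 (3 * (2 * j) + 4) = padicValNat 2 (6 * j + 3 + 1) := by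
      rw [show 3 * (2 * j) + 4 = 6 * j + 3 + 1 by ring]
    have e6 : 6 * (j + 1) = 6 * j + 5 + 1 := by ring
    have k1 : vf (2 * j + 1 + 1) = padicValNat 2 (2 * j + 1 + 1) + vf (2 * j) := by omega
    have k2 : vf (6 * j + 5 + 1) = padicValNat 2 (2 * j + 1 + 1) +
        (padicValNat 2 (6 * j + 1 + 1) + padicValNat 2 (6 * j + 3 + 1)) + vf (6 * j) := by
      have c1 : vf (6 * j + 1) = vf (6 * j) := by omega
      have c2 : vf (6 * j + 2) = padicValNat 2 (6 * j + 1 + 1) + vf (6 * j) := by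
        rw [show 6 * j + 2 = 6 * j + 1 + 1 by ring, b2, c1]
      have c3 : vf (6 * j + 3) = padicValNat 2 (6 * j + 1 + 1) + vf (6 * j) := by
        rw [show 6 * j + 3 = 6 * j + 2 + 1 by ring, b3, o3, c2, zero_add]
      have c4 : vf (6 * j + 4) = padicValNat 2 (6 * j + 3 + 1) +
          (padicValNat 2 (6 * j + 1 + 1) + vf (6 * j)) := by
        rw [show 6 * j + 4 = 6 * j + 3 + 1 by ring, b4, c3]
      have c5 : vf (6 * j + 5) = padicValNat 2 (6 * j + 3 + 1) +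
          (padicValNat 2 (6 * j + 1 + 1) + vf (6 * j)) := by
        rw [show 6 * j + 5 = 6 * j + 4 + 1 by ring, b5, o4, c4, zero_add]
      rw [b6, t1, c5]
      ring
    rw [e1, h1, h2, ih, t2, t3, k1, e6, k2]
    push_cast
    ring

end Pool.Agent.Helper5.MD
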