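import Pool.Agent.Helper5.MD.VGBasic
import Pool.Agent.Helper5.MD.VBinom
import Pool.Agent.Helper5.MD3.R0Defs

/-!
# MR-F4 : lower triangular factor for `κ = 3 * 2^m - 1`, `ε = false`

Compare `MD2/P2Lam.lean`.  Put `a = i - w`, `h' = (a + 1) / 2`, `h = a / 2`.
`LL false κ i w = lam κ i w = ∏_(t < a) (κ - w + t) (κ - w - 1 - t) (κ - 3 w - t) / (2 (t + 1) (2 w + 2 t + 1) (κ - 2 w - 1 - t))`.
`κ - 2 w - 1 - t = 3 * 2^m - 2 w - 2 - t` is odd for odd `t`, and for `t = 2 u` it is `2 (3 * 2^(m-1) - y)`, `y = w + 1 + u`.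
For `0 < y < 3 * 2^(m-1)`: `v2 (3 * 2^(m-1) - y) ≤ v2 (3 * 2^m - y)` unless `y = 2^(m-1)`, where the left side is `m` and the right side `m - 1`.
The numbers `3 * 2^m - y = κ - w - u`, `u < h'`, are among the `2 a` consecutive numbers `κ - w - a, ..., κ - w + a - 1`; there remain
`κ - w + 1 .. κ - w + a - 1` (divisible by `(a-1)!`) and `κ - w - a .. κ - w - h'` (divisible by `(h+1)!`), and `∏_(t<a) (κ - 3 w - t)` is divisible by `a!`.  Hence
`v2 (2^(2a) lam) ≥ 2 a - a - v2 (a!) - h' + v2 ((a-1)!) + v2 ((h+1)!) + v2 (a!) - δ = h + v2 ((a-1)!) + v2 ((h+1)!) - δ`, `δ = 1` if `2^(m-1)` is one of the `y` and `0` otherwise.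
For `a ≥ 2` this is `≥ 1`.  For `a = 1` it equals `v2 (κ - w - 1) + v2 (κ - 3 w) + v2 (3 * 2^m - w - 1) - v2 (3 * 2^(m-1) - w - 1)`: `w` even: the first term is `≥ 1` and `w + 1 ≠ 2^(m-1)`;
`w` odd: the second is `≥ 1`, and for `w + 1 = 2^(m-1)`: `κ - 3 w = 3 * 2^(m-1) + 2` has valuation `1`, `κ - w - 1` is odd, total `0`.
-/

open scoped Nat

namespace Pool.Agent.Helper5.MD

open Finset

private theorem f4_val_odd (z : ℤ) (hz : Odd z) : (z : ℚ) ≠ 0 ∧ padicValRat 2 (z : ℚ) = 0 := by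
  constructor
  · have : z ≠ 0 := by
      rintro rfl
      exact absurd hz (by decide)
    exact_mod_cast this
  · rw [padicValRat.of_int, padicValInt.eq_zero_of_not_dvd]
    · simp
    · intro hdvd
      have := Int.not_even_iff_odd.2 hz
      exact this (even_iff_two_dvd.2 (by exact_mod_cast hdvd))

private theorem f4_VG_odd (z : ℤ) (hz : Odd z) : VG 0 ((z : ℚ)⁻¹) := by
  right
  rw [padicValRat.inv, (f4_val_odd z hz).2]
  simp

private theorem f4_VG_ratio (z z' : ℤ) (h' : Odd z') : VG 0 ((z : ℚ) / z') := by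
  rw [div_eq_mul_inv]
  simpa using (VG_int z).mul (f4_VG_odd z' h')

private theorem f4_Un_ratio (z z' : ℤ) (h : Odd z) (h' : Odd z') : Un ((z : ℚ) / z') := by
  obtain ⟨a0, a1⟩ := f4_val_odd z h
  obtain ⟨b0, b1⟩ := f4_val_odd z' h'
  refine ⟨f4_VG_ratio z z' h', ?_⟩
  rintro (h1 | h1)
  · exact (div_ne_zero a0 b0) h1
  · rw [padicValRat.div a0 b0, a1, b1] at h1
    norm_num at h1

private theorem f4_intprod (s : Finset ℕ) (f : ℕ → ℤ) : VG 0 (∏ t ∈ s, (f t : ℚ)) := by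
  have : (∏ t ∈ s, (f t : ℚ)) = ((∏ t ∈ s, f t : ℤ) : ℚ) := by push_cast; rfl
  rw [this]
  exact VG_int _

private theorem f4_even (z : ℤ) (hz : Even z) : VG 1 (z : ℚ) := by
  obtain ⟨c, rfl⟩ := hz
  have h := (VG_two_zpow 1).mul (VG_int c)
  have e : ((c + c : ℤ) : ℚ) = 2 ^ (1 : ℤ) * (c : ℚ) := by
    push_cast
    ring
  rw [e]
  simpa using h

/-- the ratio `(6 P - y) / (3 P - y)`, `P = 2 ^ k` -/
private theorem f4_ratio (k y : ℕ) (h0 : 0 < y) (h1 : y < 3 * 2 ^ k) :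
    VG (-1) ((6 * (2 : ℚ) ^ k - y) / (3 * 2 ^ k - y)) ∧
      (y ≠ 2 ^ k → VG 0 ((6 * (2 : ℚ) ^ k - y) / (3 * 2 ^ k - y))) := by
  obtain ⟨e, o, ho, hx⟩ := Nat.exists_eq_two_pow_mul_odd h0.ne'
  have hP : (0 : ℚ) < 2 ^ k := by positivity
  by_cases hek : e < k
  · obtain ⟨d, rfl⟩ : ∃ d, k = e + (d + 1) := ⟨k - e - 1, by omega⟩
    have hE : (0 : ℚ) < 2 ^ e := by positivity
    have e1 : (6 * (2 : ℚ) ^ (e + (d + 1)) - y) / (3 * 2 ^ (e + (d + 1)) - y) =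
        ((6 * 2 ^ (d + 1) - (o : ℤ) : ℤ) : ℚ) / ((3 * 2 ^ (d + 1) - (o : ℤ) : ℤ) : ℚ) := by
      rw [hx, pow_add]
      push_cast
      rw [show 6 * ((2 : ℚ) ^ e * 2 ^ (d + 1)) - 2 ^ e * (o : ℚ) =
        2 ^ e * (6 * 2 ^ (d + 1) - o) by ring,
        show 3 * ((2 : ℚ) ^ e * 2 ^ (d + 1)) - 2 ^ e * (o : ℚ) =
        2 ^ e * (3 * 2 ^ (d + 1) - o) by ring, mul_div_mul_left _ _ hE.ne']
    have hodd : Odd (3 * 2 ^ (d + 1) - (o : ℤ) : ℤ) := by
      have ho' : Odd (o : ℤ) := by exact_mod_cast ho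
      refine Even.sub_odd ?_ ho'
      rw [pow_succ]
      exact ⟨3 * 2 ^ d, by ring⟩
    have h2 : VG 0 ((6 * (2 : ℚ) ^ (e + (d + 1)) - y) / (3 * 2 ^ (e + (d + 1)) - y)) := by
      rw [e1]
      exact f4_VG_ratio _ _ hodd
    exact ⟨h2.mono (by norm_num), fun _ => h2⟩
  · obtain ⟨d, rfl⟩ : ∃ d, e = k + d := ⟨e - k, by omega⟩
    have hlt : 2 ^ d * o < 3 := by
      rw [hx, pow_add, mul_assoc, mul_comm 3] at h1
      exact lt_of_mul_lt_mul_left h1 (Nat.zero_le _)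
    have hy : y = 2 ^ k * (2 ^ d * o) := by rw [hx, pow_add, mul_assoc]
    have hpos : 0 < 2 ^ d * o := Nat.mul_pos (by positivity) ho.pos
    obtain h2 | h2 : 2 ^ d * o = 1 ∨ 2 ^ d * o = 2 := by omega
    · rw [h2, mul_one] at hy
      have e1 : (6 * (2 : ℚ) ^ k - y) / (3 * 2 ^ k - y) = 2 ^ (-1 : ℤ) * ((5 : ℤ) : ℚ) := by
        rw [hy]
        push_cast
        have : (3 * (2 : ℚ) ^ k - 2 ^ k) ≠ 0 := by
          have : 3 * (2 : ℚ) ^ k - 2 ^ k = 2 * 2 ^ k := by ring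
          rw [this]
          positivity
        rw [div_eq_iff this]
        norm_num
        ring
      refine ⟨?_, fun h => absurd hy h⟩
      rw [e1]
      simpa using (VG_two_zpow (-1)).mul (VG_int 5)
    · rw [h2] at hy
      have e1 : (6 * (2 : ℚ) ^ k - y) / (3 * 2 ^ k - y) = ((4 : ℤ) : ℚ) := by
        rw [hy]
        push_cast
        have : (3 * (2 : ℚ) ^ k - 2 ^ k * 2) ≠ 0 := by
          have : 3 * (2 : ℚ) ^ k - 2 ^ k * 2 = 2 ^ k := by ring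
          rw [this]
          positivity
        rw [div_eq_iff this]
        ring
      rw [e1]
      exact ⟨(VG_int 4).mono (by norm_num), fun _ => VG_int 4⟩

private theorem f4_prod_one (S : Finset ℕ) (f : ℕ → ℚ) (u0 : ℕ)
    (h : ∀ u ∈ S, u ≠ u0 → VG 0 (f u)) (h0 : u0 ∈ S → VG (-1) (f u0)) :
    VG (-1) (∏ u ∈ S, f u) := by
  by_cases hu : u0 ∈ S
  · rw [← mul_prod_erase S f hu]
    have h2 : VG 0 (∏ u ∈ S.erase u0, f u) :=
      VG_prod _ _ fun u hu' => h u (mem_of_mem_erase hu') (ne_of_mem_erase hu')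
    simpa using (h0 hu).mul h2
  · refine (VG_prod S f fun u hu' => h u hu' ?_).mono (by norm_num)
    rintro rfl
    exact hu hu'

private theorem f4_split (f : ℕ → ℚ) (a : ℕ) :
    ∏ t ∈ range a, f t =
      (∏ u ∈ range (a - a / 2), f (2 * u)) * ∏ u ∈ range (a / 2), f (2 * u + 1) := by
  induction a with
  | zero => simp
  | succ a ih =>
    rw [prod_range_succ, ih]
    rcases Nat.even_or_odd' a with ⟨b, hb | hb⟩
    · have h1 : a / 2 = b := by omega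
      have h2 : a - b = b := by omega
      have h3 : (a + 1) / 2 = b := by omega
      have h4 : a + 1 - b = b + 1 := by omega
      rw [h1, h3, h2, h4, prod_range_succ _ b, hb]
      ring
    · have h1 : a / 2 = b := by omega
      have h2 : a - b = b + 1 := by omega
      have h3 : (a + 1) / 2 = b + 1 := by omega
      have h4 : a + 1 - (b + 1) = b + 1 := by omega
      rw [h1, h3, h2, h4, prod_range_succ (fun u => f (2 * u + 1)) b, hb]
      ring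

/-- the case `i = w + 1` -/
private theorem f4_one (k w : ℕ) (hw : w + 1 < 3 * 2 ^ k) :
    (2 : ℚ) ^ 2 * lam (6 * 2 ^ k - 1) (w + 1) w =
      (6 * 2 ^ k - 1 - 3 * w) * (6 * 2 ^ k - 2 - w) *
        ((6 * (2 : ℚ) ^ k - ((w + 1 : ℕ) : ℚ)) / (3 * 2 ^ k - ((w + 1 : ℕ) : ℚ))) *
          ((2 * w + 1 : ℤ) : ℚ)⁻¹ := by
  have hd : 3 * (2 : ℚ) ^ k - ((w + 1 : ℕ) : ℚ) ≠ 0 := by
    have : ((w + 1 : ℕ) : ℚ) < 3 * 2 ^ k := by exact_mod_cast hw
    intro h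
    linarith
  have hw1 : ((2 * w + 1 : ℤ) : ℚ) ≠ 0 := by
    push_cast
    positivity
  have hd' : 6 * (2 : ℚ) ^ k - 1 - w - w - 1 = 2 * (3 * (2 : ℚ) ^ k - ((w + 1 : ℕ) : ℚ)) := by
    push_cast
    ring
  unfold lam
  rw [if_pos (Nat.le_succ w), Nat.Ico_succ_singleton, prod_singleton, hd']
  obtain ⟨D, hD⟩ : ∃ D : ℚ, D = 3 * (2 : ℚ) ^ k - ((w + 1 : ℕ) : ℚ) := ⟨_, rfl⟩
  rw [← hD] at hd ⊢
  push_cast at hw1 ⊢
  have h1 : (w : ℚ) - w + 1 = 1 := by ring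
  rw [h1]
  field_simp
  ring

theorem VG_LL_Tm (m i w : ℕ) (hm : 4 ≤ m) (hw : 1 ≤ w) (hwi : w < i) (h3 : 3 * w < 3 * 2 ^ m - 1)
    (h2 : 2 * i < 3 * 2 ^ m - 1) (hne : ¬ (w + 1 = 2 ^ (m - 1) ∧ i = w + 1)) :
    VG 1 (2 ^ (2 * (i : ℤ) - 2 * w) * LL false ((3 * 2 ^ m - 1 : ℕ) : ℚ) i w) := by
  obtain ⟨k, rfl⟩ : ∃ k, m = k + 1 := ⟨m - 1, by omega⟩
  rw [Nat.add_sub_cancel] at hne
  have hpow : 2 ^ (k + 1) = 2 * 2 ^ k := by rw [pow_succ]; ring
  have hcast : ((3 * 2 ^ (k + 1) - 1 : ℕ) : ℚ) = 6 * 2 ^ k - 1 := by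
    have : 1 ≤ 3 * 2 ^ (k + 1) := by
      have : 0 < 2 ^ (k + 1) := by positivity
      omega
    rw [Nat.cast_sub this, hpow]
    push_cast
    ring
  obtain ⟨a, rfl⟩ := Nat.exists_eq_add_of_le hwi.le
  have ha : 1 ≤ a := by omega
  rw [hpow] at h2 h3
  simp only [LL, Bool.false_eq_true, if_false, hcast]
  rcases Nat.lt_or_ge 1 a with ha2 | ha1
  · -- a ≥ 2
    obtain ⟨b, rfl⟩ : ∃ b, a = b + 1 := ⟨a - 1, by omega⟩
    obtain ⟨h, hh⟩ : ∃ h, h = (b + 1) / 2 := ⟨_, rfl⟩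
    obtain ⟨h', hh'⟩ : ∃ h', h' = b + 1 - (b + 1) / 2 := ⟨_, rfl⟩
    obtain ⟨N1, hN1⟩ : ∃ N1 : ℚ, N1 = ∏ t ∈ range b, (6 * (2 : ℚ) ^ k - 1 - w + (t + 1 : ℕ)) :=
      ⟨_, rfl⟩
    obtain ⟨E1, hE1⟩ : ∃ E1 : ℚ, E1 = ∏ u ∈ range h', (6 * (2 : ℚ) ^ k - ((w + 1 + u : ℕ) : ℚ)) :=
      ⟨_, rfl⟩
    obtain ⟨E2, hE2⟩ : ∃ E2 : ℚ,
        E2 = ∏ u ∈ range (h + 1), (6 * (2 : ℚ) ^ k - 1 - w - ((h' + u : ℕ) : ℚ)) := ⟨_, rfl⟩
    obtain ⟨NB, hNB⟩ : ∃ NB : ℚ, NB = ∏ t ∈ range (b + 1), (6 * (2 : ℚ) ^ k - 1 - 3 * w - t) :=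
      ⟨_, rfl⟩
    obtain ⟨FA, hFA⟩ : ∃ FA : ℚ, FA = ∏ t ∈ range (b + 1), ((t : ℚ) + 1) := ⟨_, rfl⟩
    obtain ⟨FO, hFO⟩ : ∃ FO : ℚ, FO = ∏ t ∈ range (b + 1), (2 * (w : ℚ) + 2 * t + 1) := ⟨_, rfl⟩
    obtain ⟨DO, hDO⟩ : ∃ DO : ℚ,
        DO = ∏ u ∈ range h, (6 * (2 : ℚ) ^ k - 2 * w - 2 - (2 * u + 1 : ℕ)) := ⟨_, rfl⟩
    obtain ⟨DN, hDN⟩ : ∃ DN : ℚ,
        DN = ∏ u ∈ range h', (3 * (2 : ℚ) ^ k - ((w + 1 + u : ℕ) : ℚ)) := ⟨_, rfl⟩
    have hFA0 : FA ≠ 0 := by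
      rw [hFA, prod_ne_zero_iff]
      intro t _
      positivity
    have hFO0 : FO ≠ 0 := by
      rw [hFO, prod_ne_zero_iff]
      intro t _
      positivity
    have hDO0 : DO ≠ 0 := by
      rw [hDO, prod_ne_zero_iff]
      intro u hu
      rw [mem_range] at hu
      have h5 : 2 * w + 2 + (2 * u + 1) < 6 * 2 ^ k := by omega
      have h6 : (2 * (w : ℚ) + 2 + (2 * u + 1)) < 6 * 2 ^ k := by exact_mod_cast h5
      push_cast
      intro hcon
      linarith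
    have hyu : ∀ u ∈ range h', w + 1 + u < 3 * 2 ^ k := by
      intro u hu
      rw [mem_range] at hu
      omega
    have hDN0 : DN ≠ 0 := by
      rw [hDN, prod_ne_zero_iff]
      intro u hu
      have h6 : ((w + 1 + u : ℕ) : ℚ) < 3 * 2 ^ k := by exact_mod_cast hyu u hu
      intro hcon
      linarith
    -- numerators
    have hNA : ∏ t ∈ range (b + 1), (6 * (2 : ℚ) ^ k - 1 - w + t) =
        N1 * (6 * (2 : ℚ) ^ k - 1 - w) := by
      rw [prod_range_succ', hN1]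
      simp
    have hE : (6 * (2 : ℚ) ^ k - 1 - w) * ∏ t ∈ range (b + 1), (6 * (2 : ℚ) ^ k - 1 - w - 1 - t) =
        E1 * E2 := by
      have h5 : b + 1 + 1 = h' + (h + 1) := by omega
      have h6 : ∏ u ∈ range (b + 1 + 1), (6 * (2 : ℚ) ^ k - 1 - w - (u : ℕ)) = E1 * E2 := by
        rw [h5, prod_range_add, hE1, hE2]
        congr 1
        apply prod_congr rfl
        intro u _
        push_cast
        ring
      rw [← h6, prod_range_succ' _ (b + 1), mul_comm]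
      congr 1
      · apply prod_congr rfl
        intro u _
        push_cast
        ring
      · simp
    have hD : ∏ t ∈ range (b + 1), (6 * (2 : ℚ) ^ k - 2 * w - 2 - (t : ℕ)) =
        2 ^ h' * DN * DO := by
      rw [f4_split (fun t => 6 * (2 : ℚ) ^ k - 2 * w - 2 - (t : ℕ)) (b + 1), ← hh', ← hh, hDO]
      congr 1
      rw [hDN]
      have h5 : (2 : ℚ) ^ h' = ∏ _u ∈ range h', (2 : ℚ) := by rw [prod_const, card_range]
      rw [h5, ← prod_mul_distrib]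
      apply prod_congr rfl
      intro u _
      push_cast
      ring
    have hlam : lam (6 * 2 ^ k - 1) (w + (b + 1)) w =
        N1 * NB * (E1 * E2) / (2 ^ (b + 1) * FA * FO * (2 ^ h' * DN * DO)) := by
      have h7 : N1 * NB * (E1 * E2) = (∏ t ∈ range (b + 1), (6 * (2 : ℚ) ^ k - 1 - w + t)) * NB *
          ∏ t ∈ range (b + 1), (6 * (2 : ℚ) ^ k - 1 - w - 1 - t) := by
        rw [← hE, hNA]
        ring
      rw [h7, ← hD, hNB, hFA, hFO]
      unfold lam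
      rw [if_pos (Nat.le_add_right w (b + 1)), prod_Ico_eq_prod_range, Nat.add_sub_cancel_left]
      have h5 : (2 : ℚ) ^ (b + 1) = ∏ _u ∈ range (b + 1), (2 : ℚ) := by
        rw [prod_const, card_range]
      rw [h5, ← prod_mul_distrib, ← prod_mul_distrib, ← prod_mul_distrib, ← prod_mul_distrib,
        ← prod_mul_distrib, ← prod_div_distrib]
      apply prod_congr rfl
      intro t _
      push_cast
      congr 1
      · ring
      · ring
    have e1 : (2 : ℚ) ^ (2 * ((w + (b + 1) : ℕ) : ℤ) - 2 * w) *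
        lam (6 * 2 ^ k - 1) (w + (b + 1)) w =
        2 ^ (h : ℤ) * (N1 * ((NB / FA) * ((E1 / DN) * (E2 * (DO⁻¹ * FO⁻¹))))) := by
      have e2 : (2 : ℚ) ^ (2 * ((w + (b + 1) : ℕ) : ℤ) - 2 * w) =
          2 ^ (h : ℤ) * (2 ^ (b + 1) * 2 ^ h') := by
        rw [← zpow_natCast, ← zpow_natCast, ← zpow_add₀ two_ne_zero, ← zpow_add₀ two_ne_zero]
        congr 1
        have : h + h' = b + 1 := by omega
        push_cast
        have : (h : ℤ) + h' = b + 1 := by exact_mod_cast this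
        linarith
      rw [e2, hlam]
      have h2a : (2 : ℚ) ^ (b + 1) ≠ 0 := by positivity
      have h2h : (2 : ℚ) ^ h' ≠ 0 := by positivity
      field_simp
    rw [e1]
    have v0 : VG 0 N1 := by
      have := f4_intprod (range b) (fun t => 6 * (2 : ℤ) ^ k - 1 - w + (t + 1 : ℕ))
      rw [hN1]
      push_cast at this ⊢
      exact this
    have v1 : VG 0 (NB / FA) := by
      have e3 : NB / FA = (((6 * 2 ^ k - 1 - 3 * w).choose (b + 1) : ℕ) : ℚ) := by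
        have h6 := prod_desc (6 * 2 ^ k - 1 - 3 * w) (b + 1)
        have h7 := prod_fact (b + 1)
        rw [div_eq_iff hFA0, hFA, h7, hNB,
          mul_comm (((6 * 2 ^ k - 1 - 3 * w).choose (b + 1) : ℕ) : ℚ) _, ← h6]
        apply prod_congr rfl
        intro t _
        have h8 : ((6 * 2 ^ k - 1 - 3 * w : ℕ) : ℚ) = 6 * (2 : ℚ) ^ k - 1 - 3 * w := by
          rw [Nat.cast_sub (by omega), Nat.cast_sub (by omega)]
          push_cast
          ring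
        rw [h8]
      rw [e3]
      exact_mod_cast VG_int (((6 * 2 ^ k - 1 - 3 * w).choose (b + 1) : ℕ) : ℤ)
    have v2 : VG (-1) (E1 / DN) := by
      rw [hE1, hDN, ← prod_div_distrib]
      apply f4_prod_one _ _ (2 ^ k - (w + 1))
      · intro u hu hu0
        have h5 := hyu u hu
        refine (f4_ratio k (w + 1 + u) (by omega) h5).2 ?_
        intro h6
        omega
      · intro hu
        exact (f4_ratio k _ (by omega) (hyu _ hu)).1
    have v3 : VG 1 E2 := by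
      have e3 : E2 = (2 : ℚ) * (((h + 1) ! / 2 * (6 * 2 ^ k - 1 - w - h').choose (h + 1) : ℕ) : ℚ) := by
        have h6 := prod_desc (6 * 2 ^ k - 1 - w - h') (h + 1)
        have h7 : 2 ∣ (h + 1)! := Nat.dvd_factorial (by norm_num) (by omega)
        have h9 : (2 : ℚ) * (((h + 1) ! / 2 * (6 * 2 ^ k - 1 - w - h').choose (h + 1) : ℕ) : ℚ) =
            (((h + 1)! : ℕ) : ℚ) * (((6 * 2 ^ k - 1 - w - h').choose (h + 1) : ℕ) : ℚ) := by
          rw [Nat.cast_mul, Nat.cast_div h7 (by norm_num)]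
          push_cast
          ring
        rw [h9, ← h6, hE2]
        apply prod_congr rfl
        intro t _
        have h8 : ((6 * 2 ^ k - 1 - w - h' : ℕ) : ℚ) = 6 * (2 : ℚ) ^ k - 1 - w - h' := by
          rw [Nat.cast_sub (by omega), Nat.cast_sub (by omega), Nat.cast_sub (by omega)]
          push_cast
          ring
        rw [h8]
        push_cast
        ring
      rw [e3]
      have h10 := f4_even
        (2 * (((h + 1) ! / 2 * (6 * 2 ^ k - 1 - w - h').choose (h + 1) : ℕ) : ℤ))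
        (even_two_mul _)
      push_cast at h10 ⊢
      exact h10
    have v4 : VG 0 DO⁻¹ := by
      rw [hDO, ← prod_inv_distrib]
      apply VG_prod
      intro u _
      have e6 : 6 * (2 : ℚ) ^ k - 2 * w - 2 - (2 * u + 1 : ℕ) =
          ((6 * (2 : ℤ) ^ k - 2 * w - 2 - (2 * u + 1) : ℤ) : ℚ) := by
        push_cast
        ring
      rw [e6]
      apply f4_VG_odd
      exact ⟨3 * 2 ^ k - w - 1 - u - 1, by ring⟩
    have v5 : VG 0 FO⁻¹ := by
      rw [hFO, ← prod_inv_distrib]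
      apply VG_prod
      intro t _
      have e6 : 2 * (w : ℚ) + 2 * t + 1 = ((2 * (w : ℤ) + 2 * t + 1 : ℤ) : ℚ) := by
        push_cast
        ring
      rw [e6]
      apply f4_VG_odd
      exact ⟨(w : ℤ) + t, by ring⟩
    have v6 := (VG_two_zpow (h : ℤ)).mul
      (v0.mul (v1.mul (v2.mul (v3.mul (v4.mul v5)))))
    refine v6.mono ?_
    have : 1 ≤ h := by omega
    omega
  · -- a = 1
    obtain rfl : a = 1 := by omega
    have hw1 : w + 1 ≠ 2 ^ k := fun h => hne ⟨h, rfl⟩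
    have e : (2 : ℚ) ^ (2 * ((w + 1 : ℕ) : ℤ) - 2 * w) = 2 ^ 2 := by
      have : 2 * ((w + 1 : ℕ) : ℤ) - 2 * w = (2 : ℕ) := by
        push_cast
        ring
      rw [this, zpow_natCast]
    rw [e, f4_one k w (by omega)]
    have v1 : VG 1 ((6 * (2 : ℚ) ^ k - 1 - 3 * w) * (6 * 2 ^ k - 2 - w)) := by
      have h5 : (6 * (2 : ℚ) ^ k - 1 - 3 * w) * (6 * 2 ^ k - 2 - w) =
          (((6 * (2 : ℤ) ^ k - 1 - 3 * w) * (6 * 2 ^ k - 2 - w) : ℤ) : ℚ) := by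
        push_cast
        ring
      rw [h5]
      apply f4_even
      rcases Nat.even_or_odd' w with ⟨c, hc | hc⟩
      · apply Even.mul_left
        exact ⟨3 * 2 ^ k - 1 - c, by rw [hc]; push_cast; ring⟩
      · apply Even.mul_right
        exact ⟨3 * 2 ^ k - 2 - 3 * c, by rw [hc]; push_cast; ring⟩
    have v2 := (f4_ratio k (w + 1) (by omega) (by omega)).2 hw1
    have v3 := f4_VG_odd (2 * w + 1 : ℤ) ⟨w, rfl⟩
    simpa using (v1.mul v2).mul v3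

theorem Un_LL_Tm (m w : ℕ) (hm : 4 ≤ m) (hw : w + 1 = 2 ^ (m - 1)) :
    Un (2 ^ 2 * LL false ((3 * 2 ^ m - 1 : ℕ) : ℚ) (w + 1) w) := by
  obtain ⟨k, rfl⟩ : ∃ k, m = k + 2 := ⟨m - 2, by omega⟩
  have hw' : w + 1 = 2 ^ (k + 1) := hw
  have hk : 4 ≤ 2 ^ k := by
    have : 2 ^ 2 ≤ 2 ^ k := Nat.pow_le_pow_right (by norm_num) (by omega)
    omega
  have hcast : ((3 * 2 ^ (k + 2) - 1 : ℕ) : ℚ) = 6 * 2 ^ (k + 1) - 1 := by
    have : 1 ≤ 3 * 2 ^ (k + 2) := by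
      have : 0 < 2 ^ (k + 2) := by positivity
      omega
    rw [Nat.cast_sub this]
    push_cast
    ring
  simp only [LL, Bool.false_eq_true, if_false, hcast]
  rw [f4_one (k + 1) w (by omega)]
  have hwq : (w : ℚ) = 2 ^ (k + 1) - 1 := by
    have : ((w + 1 : ℕ) : ℚ) = 2 ^ (k + 1) := by rw [hw']; push_cast; ring
    push_cast at this
    linarith
  have hP : (0 : ℚ) < 2 ^ k := by positivity
  have hwz : (w : ℤ) = 2 * 2 ^ k - 1 := by
    have : ((w + 1 : ℕ) : ℤ) = 2 ^ (k + 1) := by rw [hw']; push_cast; ring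
    push_cast at this
    rw [pow_succ] at this
    linarith
  have e : (6 * (2 : ℚ) ^ (k + 1) - 1 - 3 * w) * (6 * 2 ^ (k + 1) - 2 - w) *
      ((6 * (2 : ℚ) ^ (k + 1) - ((w + 1 : ℕ) : ℚ)) / (3 * 2 ^ (k + 1) - ((w + 1 : ℕ) : ℚ))) *
      ((2 * w + 1 : ℤ) : ℚ)⁻¹ =
      ((5 * (3 * 2 ^ k + 1) * (10 * 2 ^ k - 1) : ℤ) : ℚ) / ((2 * w + 1 : ℤ) : ℚ) := by
    have h5 : (6 * (2 : ℚ) ^ (k + 1) - ((w + 1 : ℕ) : ℚ)) /
        (3 * 2 ^ (k + 1) - ((w + 1 : ℕ) : ℚ)) = 5 / 2 := by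
      push_cast
      rw [hwq, pow_succ]
      have : 3 * ((2 : ℚ) ^ k * 2) - (2 ^ k * 2 - 1 + 1) ≠ 0 := by
        have : 3 * ((2 : ℚ) ^ k * 2) - (2 ^ k * 2 - 1 + 1) = 4 * 2 ^ k := by ring
        rw [this]
        positivity
      rw [div_eq_div_iff this (by norm_num)]
      ring
    rw [h5, ← div_eq_mul_inv]
    congr 1
    push_cast
    rw [hwq, pow_succ]
    ring
  rw [e]
  apply f4_Un_ratio
  · have hk1 : 1 ≤ k := by omega
    obtain ⟨j, rfl⟩ : ∃ j, k = j + 1 := ⟨k - 1, by omega⟩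
    refine Odd.mul (Odd.mul (by decide) ?_) ?_
    · exact ⟨3 * 2 ^ j, by rw [pow_succ]; ring⟩
    · exact ⟨10 * 2 ^ j - 1, by rw [pow_succ]; ring⟩
  · exact ⟨w, rfl⟩

end Pool.Agent.Helper5.MD
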