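import Pool.Agent.Helper5.MD.VGBasic
import Pool.Agent.Helper5.MD.VBinom
import Pool.Agent.Helper5.MD3.R0Defs

/-!
# MR-F5 : upper triangular factor for `κ = 3 * 2^m - 1`, `ε = false`

Compare `MD2/P3Mu.lean`.  Put `b = j - w`, `h' = (b + 1) / 2`, `h = b / 2`.
`UU false κ w j = mu κ w j = ± (2 κ - 3 j) ∏_(t < b) (w + t + 1) (w - t) / (2 (2 κ - 2 w - 2 t - 1) (t + 1) (κ - 2 w - 1 - t)) * ∏_(1 ≤ t < b) (2 κ - 3 w - t)`.
`κ - 2 w - 1 - t = 3 * 2^m - 2 w - 2 - t` is odd for odd `t`, and for `t = 2 u` it is `2 (3 * 2^(m-1) - y)`, `y = w + 1 + u`; `v2 (3 * 2^(m-1) - y) ≤ v2 y` unless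
`y = 2^(m-1)` (`m` instead of `m - 1`).  Cancel the numbers `w + 1 + u`, `u < h'`, of `∏ (w + 1 + t)`; the rest is divisible by `h!`, `∏ (w - t)` by `b!` (zero if `b > w`),
`∏_(1 ≤ t < b) (2 κ - 3 w - t)` by `(b-1)!`.  So
`v2 (2^(2b) mu) ≥ 2 b - b - v2 (b!) - h' + v2 (h!) + v2 (b!) + v2 ((b-1)!) + v2 (2 κ - 3 j) - δ = h + v2 (h!) + v2 ((b-1)!) + v2 (2 κ - 3 j) - δ`.
`b ≥ 3`: `≥ 1`.  `b = 2`: `≥ 1` if `δ = 0`; if `δ = 1` then `w + 1 = 2^(m-1)` and `2 κ - 3 w - 1 = 9 * 2^(m-1)` contributes `≥ m - 1`.  `b = 1`: it equals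
`v2 w + v2 (2 κ - 3 w - 3) + v2 (w + 1) - v2 (3 * 2^(m-1) - w - 1)`: `w` even: first term `≥ 1`, `δ = 0`; `w` odd: second term `≥ 1`; and for `w + 1 = 2^(m-1)`:
`2 κ - 3 w - 3 = 9 * 2^(m-1) - 2` has valuation `1`, `w` is odd, total `0`.
-/

open scoped Nat

namespace Pool.Agent.Helper5.MD

private theorem VG.div_f5 {x y : ℚ} {n k : ℤ} (hx : VG (n + k) x) (hy : y ≠ 0)
    (hk : padicValRat 2 y ≤ k) : VG n (x / y) := by
  rcases hx with hx | hx
  · left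
    rw [hx, zero_div]
  · by_cases h0 : x = 0
    · left
      rw [h0, zero_div]
    · right
      rw [padicValRat.div h0 hy]
      omega

private theorem f5_odd_val {n : ℕ} (h : n % 2 = 1) : padicValNat 2 n = 0 :=
  padicValNat.eq_zero_of_not_dvd (by omega)

private theorem f5_val_sub (M y : ℕ) (hy : 0 < y) (hyM : y < 3 * 2 ^ M) :
    padicValNat 2 (3 * 2 ^ M - y) ≤ padicValNat 2 y + (if y = 2 ^ M then 1 else 0) := by
  have h2 : Fact (Nat.Prime 2) := ⟨Nat.prime_two⟩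
  obtain ⟨a, z, hz, rfl⟩ := Nat.exists_eq_two_pow_mul_odd (n := y) (by omega)
  have hzv : padicValNat 2 z = 0 := by
    obtain ⟨k, hk⟩ := hz
    exact f5_odd_val (by omega)
  have hv : padicValNat 2 (2 ^ a * z) = a := by
    rw [padicValNat.mul (by positivity) hz.pos.ne', padicValNat.prime_pow, hzv, add_zero]
  rw [hv]
  rcases lt_trichotomy a M with ha | ha | ha
  · obtain ⟨c, rfl⟩ : ∃ c, M = a + (c + 1) := ⟨M - a - 1, by omega⟩
    have e1 : 3 * 2 ^ (a + (c + 1)) - 2 ^ a * z = 2 ^ a * (3 * 2 ^ (c + 1) - z) := by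
      rw [pow_add, Nat.mul_sub]
      congr 1
      ring
    have hlt : z < 3 * 2 ^ (c + 1) := by
      have h3 : 2 ^ a * z < 2 ^ a * (3 * 2 ^ (c + 1)) := by
        calc 2 ^ a * z < 3 * 2 ^ (a + (c + 1)) := hyM
          _ = 2 ^ a * (3 * 2 ^ (c + 1)) := by rw [pow_add]; ring
      exact lt_of_mul_lt_mul_left h3 (Nat.zero_le _)
    have hodd : (3 * 2 ^ (c + 1) - z) % 2 = 1 := by
      obtain ⟨k, hk⟩ := hz
      rw [pow_succ] at hlt ⊢
      omega
    rw [e1, padicValNat.mul (by positivity) (by omega), padicValNat.prime_pow, f5_odd_val hodd]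
    omega
  · subst ha
    have hz1 : z = 1 := by
      have h3 : 2 ^ a * z < 2 ^ a * 3 := by
        calc 2 ^ a * z < 3 * 2 ^ a := hyM
          _ = 2 ^ a * 3 := by ring
      have h4 := lt_of_mul_lt_mul_left h3 (Nat.zero_le _)
      obtain ⟨k, hk⟩ := hz
      omega
    subst hz1
    have e1 : 3 * 2 ^ a - 2 ^ a * 1 = 2 ^ (a + 1) := by
      rw [pow_succ]
      omega
    rw [e1, padicValNat.prime_pow, mul_one, if_pos rfl]
  · obtain ⟨c, rfl⟩ : ∃ c, a = M + (c + 1) := ⟨a - M - 1, by omega⟩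
    have h3 : 2 ^ M * (2 ^ (c + 1) * z) < 2 ^ M * 3 := by
      calc 2 ^ M * (2 ^ (c + 1) * z) = 2 ^ (M + (c + 1)) * z := by rw [pow_add]; ring
        _ < 3 * 2 ^ M := hyM
        _ = 2 ^ M * 3 := by ring
    have h4 := lt_of_mul_lt_mul_left h3 (Nat.zero_le _)
    have h5 := hz.pos
    have h6 : 1 ≤ 2 ^ c := Nat.one_le_two_pow
    have h7 : c = 0 := by
      by_contra hc
      have h8 : 2 ^ 1 ≤ 2 ^ c := Nat.pow_le_pow_right (by norm_num) (by omega)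
      rw [pow_succ] at h4
      nlinarith
    subst h7
    have hz1 : z = 1 := by
      simp only [zero_add, pow_one] at h4
      omega
    subst hz1
    have e1 : 3 * 2 ^ M - 2 ^ (M + (0 + 1)) * 1 = 2 ^ M := by
      rw [zero_add, pow_succ]
      omega
    rw [e1, padicValNat.prime_pow]
    omega

private theorem f5_val_desc (M w b : ℕ) (hb : 2 * (w + b) < 3 * 2 ^ (M + 1) - 1) :
    padicValNat 2 ((3 * 2 ^ (M + 1) - 1 - 2 * w - 1).descFactorial b) ≤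
      (b + 1) / 2 + padicValNat 2 ((w + 1).ascFactorial ((b + 1) / 2)) +
        (if w < 2 ^ M ∧ 2 ^ M ≤ w + (b + 1) / 2 then 1 else 0) := by
  have h2 : Fact (Nat.Prime 2) := ⟨Nat.prime_two⟩
  induction b with
  | zero => simp
  | succ b ih =>
    have ih' := ih (by omega)
    have hne : (3 * 2 ^ (M + 1) - 1 - 2 * w - 1).descFactorial b ≠ 0 := by
      rw [Ne, Nat.descFactorial_eq_zero_iff_lt]
      omega
    have hf : 3 * 2 ^ (M + 1) - 1 - 2 * w - 1 - b ≠ 0 := by omega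
    rw [Nat.descFactorial_succ, padicValNat.mul hf hne]
    rcases Nat.even_or_odd' b with ⟨u, rfl | rfl⟩
    · have e1 : (2 * u + 1 + 1) / 2 = u + 1 := by omega
      have e2 : (2 * u + 1) / 2 = u := by omega
      have e3 : 3 * 2 ^ (M + 1) - 1 - 2 * w - 1 - 2 * u = 2 * (3 * 2 ^ M - (w + 1 + u)) := by
        rw [pow_succ]
        omega
      have hlt : w + 1 + u < 3 * 2 ^ M := by
        rw [pow_succ] at hb
        omega
      rw [e2] at ih'
      have hs := f5_val_sub M (w + 1 + u) (by omega) hlt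
      rw [e1, e3, padicValNat.mul (by norm_num) (by omega), padicValNat_self,
        Nat.ascFactorial_succ, padicValNat.mul (by omega) (Nat.ascFactorial_pos _ _).ne']
      split_ifs at hs ih' ⊢ <;> omega
    · have e1 : (2 * u + 1 + 1 + 1) / 2 = u + 1 := by omega
      have e2 : (2 * u + 1 + 1) / 2 = u + 1 := by omega
      rw [e2] at ih'
      rw [e1, f5_odd_val, zero_add]
      · exact ih'
      · rw [pow_succ] at hf hb ⊢
        omega

/-- the main factor -/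
private theorem f5_VG_G (M w b : ℕ) (hb : 2 * (w + b) < 3 * 2 ^ (M + 1) - 1) :
    VG ((b : ℤ) - ((b + 1) / 2 : ℕ) -
        ((if w < 2 ^ M ∧ 2 ^ M ≤ w + (b + 1) / 2 then 1 else 0 : ℕ) : ℤ))
      (2 ^ (2 * (b : ℤ)) * ∏ t ∈ Finset.range b,
      (-((w : ℚ) + t + 1) * (w - t) / (2 * (2 * ((3 * 2 ^ (M + 1) - 1 : ℕ) : ℚ) - 2 * w - 2 * t - 1) *
        (t + 1) * (((3 * 2 ^ (M + 1) - 1 : ℕ) : ℚ) - 2 * w - 1 - t)))) := by
  have h2 : Fact (Nat.Prime 2) := ⟨Nat.prime_two⟩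
  have hvd := f5_val_desc M w b hb
  obtain ⟨δ, hδ⟩ : ∃ δ : ℕ, δ = (if w < 2 ^ M ∧ 2 ^ M ≤ w + (b + 1) / 2 then 1 else 0) := ⟨_, rfl⟩
  rw [← hδ] at hvd ⊢
  obtain ⟨κ, hκ⟩ : ∃ κ : ℕ, κ = 3 * 2 ^ (M + 1) - 1 := ⟨_, rfl⟩
  have hκ1 : κ % 2 = 1 := by
    rw [hκ, pow_succ]
    have := Nat.one_le_two_pow (n := M)
    omega
  rw [← hκ] at hvd hb ⊢
  obtain ⟨h, hh⟩ : ∃ h : ℕ, h = (b + 1) / 2 := ⟨_, rfl⟩
  rw [← hh] at hvd ⊢
  -- numerators and denominators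
  have e1 : ∏ t ∈ Finset.range b, ((w : ℚ) + t + 1) = (((w + 1).ascFactorial b : ℕ) : ℚ) := by
    rw [Nat.ascFactorial_eq_prod_range, Nat.cast_prod]
    apply Finset.prod_congr rfl
    intro t _
    push_cast
    ring
  have e2 : ∏ t ∈ Finset.range b, ((w : ℚ) - t) = ((w.descFactorial b : ℕ) : ℚ) := by
    rw [← descPochhammer_eval_eq_descFactorial, descPochhammer_eval_eq_prod_range]
  have e3 : ∏ t ∈ Finset.range b, ((κ : ℚ) - 2 * w - 1 - t) =
      (((κ - 2 * w - 1).descFactorial b : ℕ) : ℚ) := by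
    rw [← descPochhammer_eval_eq_descFactorial, descPochhammer_eval_eq_prod_range]
    apply Finset.prod_congr rfl
    intro t ht
    have ht' := Finset.mem_range.1 ht
    have : ((κ - 2 * w - 1 : ℕ) : ℚ) = (κ : ℚ) - 2 * w - 1 := by
      rw [Nat.sub_sub, Nat.cast_sub (by omega)]
      push_cast
      ring
    rw [this]
  have e4 : ∏ t ∈ Finset.range b, ((t : ℚ) + 1) = ((b ! : ℕ) : ℚ) := by
    rw [← Finset.prod_range_add_one_eq_factorial, Nat.cast_prod]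
    apply Finset.prod_congr rfl
    intro t _
    push_cast
    ring
  have e5 : ∏ t ∈ Finset.range b, (2 * (κ : ℚ) - 2 * w - 2 * t - 1) =
      ((∏ t ∈ Finset.range b, (2 * κ - 2 * w - 2 * t - 1) : ℕ) : ℚ) := by
    rw [Nat.cast_prod]
    apply Finset.prod_congr rfl
    intro t ht
    have ht' := Finset.mem_range.1 ht
    rw [Nat.sub_sub, Nat.sub_sub, Nat.cast_sub (by omega)]
    push_cast
    ring
  have hprod : ∏ t ∈ Finset.range b,
      (-((w : ℚ) + t + 1) * (w - t) / (2 * (2 * (κ : ℚ) - 2 * w - 2 * t - 1) *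
        (t + 1) * ((κ : ℚ) - 2 * w - 1 - t))) =
      ((-1) ^ b * (((w + 1).ascFactorial b : ℕ) : ℚ) * ((w.descFactorial b : ℕ) : ℚ)) /
      (((2 ^ b * (∏ t ∈ Finset.range b, (2 * κ - 2 * w - 2 * t - 1)) * b ! *
        (κ - 2 * w - 1).descFactorial b : ℕ)) : ℚ) := by
    rw [Finset.prod_div_distrib]
    congr 1
    · rw [← e1, ← e2]
      have : ((-1 : ℚ)) ^ b = ∏ _t ∈ Finset.range b, (-1 : ℚ) := by
        rw [Finset.prod_const, Finset.card_range]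
      rw [this, ← Finset.prod_mul_distrib, ← Finset.prod_mul_distrib]
      apply Finset.prod_congr rfl
      intro t _
      ring
    · rw [Nat.cast_mul, Nat.cast_mul, Nat.cast_mul, ← e3, ← e4, ← e5]
      have : (((2 ^ b : ℕ)) : ℚ) = ∏ _t ∈ Finset.range b, (2 : ℚ) := by
        rw [Finset.prod_const, Finset.card_range]
        push_cast
        rfl
      rw [this, ← Finset.prod_mul_distrib, ← Finset.prod_mul_distrib, ← Finset.prod_mul_distrib]
  rw [hprod, ← mul_div_assoc]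
  have hD1odd : ¬ 2 ∣ ∏ t ∈ Finset.range b, (2 * κ - 2 * w - 2 * t - 1) := by
    rw [Prime.dvd_finsetProd_iff Nat.prime_two.prime]
    rintro ⟨t, ht, hd⟩
    have ht' := Finset.mem_range.1 ht
    omega
  have hD1ne : ∏ t ∈ Finset.range b, (2 * κ - 2 * w - 2 * t - 1) ≠ 0 := fun h0 =>
    hD1odd (h0 ▸ dvd_zero 2)
  have hD3ne : (κ - 2 * w - 1).descFactorial b ≠ 0 := by
    rw [Ne, Nat.descFactorial_eq_zero_iff_lt]
    omega
  have hval : padicValRat 2 (((2 ^ b * (∏ t ∈ Finset.range b, (2 * κ - 2 * w - 2 * t - 1)) * b ! *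
        (κ - 2 * w - 1).descFactorial b : ℕ)) : ℚ) ≤
      (b : ℤ) + padicValNat 2 (b !) + (h + padicValNat 2 ((w + 1).ascFactorial h) + δ) := by
    have key : padicValNat 2 (2 ^ b * (∏ t ∈ Finset.range b, (2 * κ - 2 * w - 2 * t - 1)) * b ! *
        (κ - 2 * w - 1).descFactorial b) ≤
        b + padicValNat 2 (b !) + (h + padicValNat 2 ((w + 1).ascFactorial h) + δ) := by
      rw [padicValNat.mul (mul_ne_zero (mul_ne_zero (by positivity) hD1ne)
        (Nat.factorial_ne_zero b)) hD3ne, padicValNat.mul (mul_ne_zero (by positivity) hD1ne)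
        (Nat.factorial_ne_zero b), padicValNat.mul (by positivity) hD1ne,
        padicValNat.eq_zero_of_not_dvd hD1odd, padicValNat.prime_pow]
      omega
    rw [padicValRat.of_nat]
    exact_mod_cast key
  apply VG.div_f5 (k := (b : ℤ) + padicValNat 2 (b !) +
    (h + padicValNat 2 ((w + 1).ascFactorial h) + δ)) _ _ hval
  · have hsplit : (w + 1).ascFactorial b =
        (w + 1).ascFactorial h * (w + 1 + h).ascFactorial (b - h) := by
      rw [Nat.ascFactorial_mul_ascFactorial]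
      congr 1
      omega
    have v1 : VG (2 * (b : ℤ)) ((2 : ℚ) ^ (2 * (b : ℤ))) := VG_two_zpow _
    have v2 : VG 0 ((-1 : ℚ) ^ b) := by
      have := VG_int ((-1) ^ b)
      push_cast at this
      exact this
    have v3 : VG (padicValNat 2 ((w + 1).ascFactorial h) : ℤ)
        ((((w + 1).ascFactorial h : ℕ)) : ℚ) := by
      right
      rw [padicValRat.of_nat]
    have v4 : VG 0 ((((w + 1 + h).ascFactorial (b - h) : ℕ)) : ℚ) := by
      have := VG_int (((w + 1 + h).ascFactorial (b - h) : ℕ) : ℤ)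
      rwa [Int.cast_natCast] at this
    have v5 : VG (padicValNat 2 (b !) : ℤ) (((w.descFactorial b : ℕ)) : ℚ) := by
      obtain ⟨z, hz⟩ := Nat.factorial_dvd_descFactorial w b
      rw [hz, Nat.cast_mul]
      have g1 : VG (padicValNat 2 (b !) : ℤ) ((b ! : ℕ) : ℚ) := by
        right
        rw [padicValRat.of_nat]
      have g2 : VG 0 ((z : ℕ) : ℚ) := by
        have := VG_int (z : ℤ)
        rwa [Int.cast_natCast] at this
      simpa using g1.mul g2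
    have v6 := v1.mul ((v2.mul (v3.mul v4)).mul v5)
    rw [hsplit, Nat.cast_mul]
    refine v6.mono ?_
    have hbh : h ≤ b := by omega
    push_cast
    omega
  · exact_mod_cast mul_ne_zero (mul_ne_zero (mul_ne_zero (by positivity) hD1ne)
      (Nat.factorial_ne_zero b)) hD3ne

/-- an even integer -/
private theorem f5_even {z : ℤ} (h : z % 2 = 0) : VG 1 (z : ℚ) := by
  obtain ⟨y, rfl⟩ : ∃ y, z = 2 * y := ⟨z / 2, by omega⟩
  have h1 := (VG_two_zpow 1).mul (VG_int y)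
  rw [zpow_one, add_zero] at h1
  push_cast
  exact h1

private theorem f5_mu (κ w b : ℕ) (hX : (2 * (κ : ℚ) - 3 * w) ≠ 0) :
    UU false (κ : ℚ) w (w + (b + 1)) =
      (∏ t ∈ Finset.range (b + 1),
      (-((w : ℚ) + t + 1) * (w - t) / (2 * (2 * (κ : ℚ) - 2 * w - 2 * t - 1) *
        (t + 1) * ((κ : ℚ) - 2 * w - 1 - t)))) * ((2 * (κ : ℚ) - 3 * ((w + (b + 1) : ℕ) : ℚ)) *
        ∏ t ∈ Finset.range b, (2 * (κ : ℚ) - 3 * w - ((t + 1 : ℕ) : ℚ))) := by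
  have hprod : ∏ v ∈ Finset.Ico w (w + (b + 1)),
    (-((v : ℚ) + 1) * (2 * w - v) * (2 * κ - 2 * w - v) /
      (2 * (2 * κ - 2 * v - 1) * (v - w + 1) * (κ - w - v - 1))) =
      (∏ t ∈ Finset.range (b + 1),
      (-((w : ℚ) + t + 1) * (w - t) / (2 * (2 * (κ : ℚ) - 2 * w - 2 * t - 1) *
        (t + 1) * ((κ : ℚ) - 2 * w - 1 - t)))) *
      ∏ t ∈ Finset.range (b + 1), (2 * (κ : ℚ) - 3 * w - t) := by
    rw [Finset.prod_Ico_eq_prod_range, Nat.add_sub_cancel_left, ← Finset.prod_mul_distrib]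
    apply Finset.prod_congr rfl
    intro t _
    rw [div_mul_eq_mul_div]
    congr 1
    · push_cast
      ring
    · push_cast
      ring
  have hmu : mu (κ : ℚ) w (w + (b + 1)) = (2 * (κ : ℚ) - 3 * ((w + (b + 1) : ℕ) : ℚ)) /
      (2 * κ - 3 * w) * (∏ v ∈ Finset.Ico w (w + (b + 1)),
    (-((v : ℚ) + 1) * (2 * w - v) * (2 * κ - 2 * w - v) /
    (2 * (2 * κ - 2 * v - 1) * (v - w + 1) * (κ - w - v - 1)))) := by
    unfold mu
    rw [if_pos (Nat.le_add_right w (b + 1))]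
  simp only [UU, Bool.false_eq_true, if_false]
  rw [hmu, hprod, Finset.prod_range_succ' (fun t : ℕ => (2 * (κ : ℚ) - 3 * w - (t : ℚ)))]
  rw [Nat.cast_zero, sub_zero]
  field_simp

private theorem f5_nonzero {m w : ℕ} (h3 : 3 * w < 3 * 2 ^ m - 1) :
    (2 * (((3 * 2 ^ m - 1 : ℕ) : ℚ)) - 3 * w) ≠ 0 := by
  have h4 : ((3 * w : ℕ) : ℚ) < ((3 * 2 ^ m - 1 : ℕ) : ℚ) := by exact_mod_cast h3
  have h5 : (0 : ℚ) ≤ ((3 * 2 ^ m - 1 : ℕ) : ℚ) := by positivity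
  push_cast at h4
  intro h
  linarith

private theorem f5_kappa (m : ℕ) : ((3 * 2 ^ m - 1 : ℕ) : ℚ) = 3 * 2 ^ m - 1 := by
  have h1 : 1 ≤ 3 * 2 ^ m := by
    have := Nat.one_le_two_pow (n := m)
    omega
  rw [Nat.cast_sub h1]
  push_cast
  ring

/-- the case of adjacent indices -/
private theorem f5_one (M w : ℕ) (hw3 : 3 * w < 3 * 2 ^ (M + 1) - 1)
    (hw2 : 2 * (w + 1) < 3 * 2 ^ (M + 1) - 1) :
    2 ^ 2 * UU false ((3 * 2 ^ (M + 1) - 1 : ℕ) : ℚ) w (w + 1) =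
      -((((12 * 2 ^ M - 5 - 3 * w) * w : ℤ) : ℚ) * (((w + 1 : ℕ) : ℚ) /
        ((3 * 2 ^ M - (w + 1) : ℕ) : ℚ)) / ((12 * 2 ^ M - 2 * w - 3 : ℕ) : ℚ)) := by
  rw [f5_mu _ w 0 (f5_nonzero hw3)]
  rw [f5_kappa]
  simp only [Finset.prod_range_one, Finset.prod_range_zero, Nat.cast_zero, zero_add]
  have h1 : w + 1 ≤ 3 * 2 ^ M := by
    rw [pow_succ] at hw2
    omega
  have h1' : w + 1 < 3 * 2 ^ M := by
    rw [pow_succ] at hw2
    omega
  have h2 : 12 * 2 ^ M - 2 * w - 3 = 12 * 2 ^ M - (2 * w + 3) := by omega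
  have h3 : 2 * w + 3 ≤ 12 * 2 ^ M := by omega
  have h3' : 2 * w + 3 < 12 * 2 ^ M := by omega
  have q1 : ((w : ℚ) + 1) < 3 * 2 ^ M := by exact_mod_cast h1'
  have q3 : (2 * (w : ℚ) + 3) < 12 * 2 ^ M := by exact_mod_cast h3'
  rw [h2, Nat.cast_sub h1, Nat.cast_sub h3]
  push_cast
  have hp : (2 : ℚ) ^ (M + 1) = 2 ^ M * 2 := pow_succ _ _
  rw [hp]
  have n1 : (3 * 2 ^ M - ((w : ℚ) + 1)) ≠ 0 := by
    intro h
    linarith
  have n3 : (12 * 2 ^ M - (2 * (w : ℚ) + 3)) ≠ 0 := by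
    intro h
    linarith
  have d1 : (2 * (2 * (3 * (2 ^ M * 2) - 1) - 2 * (w : ℚ) - 2 * 0 - 1) * 1 *
      (3 * (2 ^ M * 2) - 1 - 2 * (w : ℚ) - 1 - 0)) =
      2 * (12 * 2 ^ M - (2 * (w : ℚ) + 3)) * (2 * (3 * 2 ^ M - ((w : ℚ) + 1))) := by ring
  rw [d1]
  field_simp
  ring

theorem VG_UU_Tm (m w j : ℕ) (hm : 4 ≤ m) (hw : 1 ≤ w) (hwj : w < j) (h3 : 3 * w < 3 * 2 ^ m - 1)
    (h2 : 2 * j < 3 * 2 ^ m - 1) (hne : ¬ (w + 1 = 2 ^ (m - 1) ∧ j = w + 1)) :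
    VG 1 (2 ^ (2 * (j : ℤ) - 2 * w) * UU false ((3 * 2 ^ m - 1 : ℕ) : ℚ) w j) := by
  have hF2 : Fact (Nat.Prime 2) := ⟨Nat.prime_two⟩
  obtain ⟨M, rfl⟩ : ∃ M, m = M + 1 := ⟨m - 1, by omega⟩
  rw [Nat.add_sub_cancel] at hne
  obtain ⟨b, rfl⟩ : ∃ b, j = w + (b + 1) := ⟨j - w - 1, by omega⟩
  have e1 : (2 * (((w + (b + 1) : ℕ)) : ℤ) - 2 * w) = 2 * ((b + 1 : ℕ) : ℤ) := by
    push_cast
    ring
  rw [e1]
  have hM : 2 ≤ 2 ^ M := by
    calc 2 = 2 ^ 1 := rfl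
      _ ≤ 2 ^ M := Nat.pow_le_pow_right (by norm_num) (by omega)
  rcases Nat.eq_zero_or_pos b with hb0 | hb0
  · -- adjacent indices
    subst hb0
    have e2 : (2 : ℚ) ^ (2 * ((0 + 1 : ℕ) : ℤ)) = 2 ^ 2 := by norm_num
    rw [e2, zero_add, f5_one M w h3 h2]
    apply VG.neg
    have hw1 : w + 1 ≠ 2 ^ M := fun h => hne ⟨h, rfl⟩
    have hlt : w + 1 < 3 * 2 ^ M := by
      rw [pow_succ] at h2
      omega
    have hs := f5_val_sub M (w + 1) (by omega) hlt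
    rw [if_neg hw1, add_zero] at hs
    have v1 : VG 1 ((((12 * 2 ^ M - 5 - 3 * w) * w : ℤ)) : ℚ) := by
      apply f5_even
      rcases Nat.even_or_odd' w with ⟨u, hu | hu⟩
      · have : (w : ℤ) = 2 * u := by exact_mod_cast hu
        rw [this]
        have e3 : (12 * 2 ^ M - 5 - 3 * (2 * (u : ℤ))) * (2 * u) =
            2 * ((12 * 2 ^ M - 5 - 3 * (2 * (u : ℤ))) * u) := by ring
        rw [e3]
        omega
      · have : (w : ℤ) = 2 * u + 1 := by exact_mod_cast hu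
        rw [this]
        have e3 : (12 * 2 ^ M - 5 - 3 * (2 * (u : ℤ) + 1)) * (2 * u + 1) =
            2 * ((6 * 2 ^ M - 4 - 3 * (u : ℤ)) * (2 * u + 1)) := by ring
        rw [e3]
        omega
    have v2 : VG 0 (((w + 1 : ℕ) : ℚ) / ((3 * 2 ^ M - (w + 1) : ℕ) : ℚ)) := by
      apply VG.div_f5 (k := padicValNat 2 (3 * 2 ^ M - (w + 1)))
      · right
        rw [padicValRat.of_nat]
        omega
      · have : 3 * 2 ^ M - (w + 1) ≠ 0 := by omega
        exact_mod_cast this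
      · rw [padicValRat.of_nat]
    have v3 := v1.mul v2
    apply VG.div_f5 (k := 0)
    · simpa using v3
    · have : 12 * 2 ^ M - 2 * w - 3 ≠ 0 := by omega
      exact_mod_cast this
    · rw [padicValRat.of_nat, f5_odd_val (by omega)]
      simp
  · -- the other cases
    have hG := f5_VG_G M w (b + 1) h2
    rw [f5_mu _ w b (f5_nonzero h3), ← mul_assoc]
    have g1 : VG 0 (2 * ((3 * 2 ^ (M + 1) - 1 : ℕ) : ℚ) - 3 * ((w + (b + 1) : ℕ) : ℚ)) := by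
      have := VG_int (2 * ((3 * 2 ^ (M + 1) - 1 : ℕ) : ℤ) - 3 * ((w + (b + 1) : ℕ) : ℤ))
      push_cast at this ⊢
      exact this
    have hint : ∀ t : ℕ, VG 0 (2 * ((3 * 2 ^ (M + 1) - 1 : ℕ) : ℚ) - 3 * w - (t : ℚ)) := by
      intro t
      have := VG_int (2 * ((3 * 2 ^ (M + 1) - 1 : ℕ) : ℤ) - 3 * w - t)
      push_cast at this ⊢
      exact this
    rcases Nat.lt_or_ge b 2 with hb2 | hb2
    · have hb1 : b = 1 := by omega
      subst hb1
      have hP : ∏ t ∈ Finset.range 1,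
          (2 * ((3 * 2 ^ (M + 1) - 1 : ℕ) : ℚ) - 3 * w - ((t + 1 : ℕ) : ℚ)) =
          2 * ((3 * 2 ^ (M + 1) - 1 : ℕ) : ℚ) - 3 * w - 1 := by
        rw [Finset.prod_range_one]
        norm_num
      rw [hP]
      by_cases hδ : w < 2 ^ M ∧ 2 ^ M ≤ w + (1 + 1 + 1) / 2
      · rw [if_pos hδ] at hG
        have hw1 : w + 1 = 2 ^ M := by omega
        have g2 : VG 1 (2 * ((3 * 2 ^ (M + 1) - 1 : ℕ) : ℚ) - 3 * w - 1) := by
          have h5 := f5_even (z := 2 * ((3 * 2 ^ (M + 1) - 1 : ℕ) : ℤ) - 3 * w - 1) (by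
            rw [Nat.cast_sub (by omega)]
            push_cast
            have h6 : (w : ℤ) + 1 = 2 ^ M := by exact_mod_cast hw1
            obtain ⟨L, rfl⟩ : ∃ L, M = L + 1 := ⟨M - 1, by omega⟩
            rw [pow_succ] at h6
            rw [pow_succ]
            omega)
          push_cast at h5 ⊢
          exact h5
        refine (hG.mul (g1.mul g2)).mono ?_
        norm_num
      · rw [if_neg hδ] at hG
        have g2 : VG 0 (2 * ((3 * 2 ^ (M + 1) - 1 : ℕ) : ℚ) - 3 * w - 1) := by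
          have := hint 1
          push_cast at this ⊢
          exact this
        refine (hG.mul (g1.mul g2)).mono ?_
        norm_num
    · have g2 : VG 1 (∏ t ∈ Finset.range b,
          (2 * ((3 * 2 ^ (M + 1) - 1 : ℕ) : ℚ) - 3 * w - ((t + 1 : ℕ) : ℚ))) := by
        obtain ⟨c, rfl⟩ : ∃ c, b = c + 2 := ⟨b - 2, by omega⟩
        rw [Finset.prod_range_succ, Finset.prod_range_succ, mul_assoc]
        have g3 : VG 0 (∏ t ∈ Finset.range c,
            (2 * ((3 * 2 ^ (M + 1) - 1 : ℕ) : ℚ) - 3 * w - ((t + 1 : ℕ) : ℚ))) :=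
          VG_prod _ _ fun t _ => hint (t + 1)
        have g4 : VG 1 ((2 * ((3 * 2 ^ (M + 1) - 1 : ℕ) : ℚ) - 3 * w - ((c + 1 : ℕ) : ℚ)) *
            (2 * ((3 * 2 ^ (M + 1) - 1 : ℕ) : ℚ) - 3 * w - ((c + 1 + 1 : ℕ) : ℚ))) := by
          have h5 := f5_even (z := (2 * ((3 * 2 ^ (M + 1) - 1 : ℕ) : ℤ) - 3 * w - ((c + 1 : ℕ) : ℤ)) *
            (2 * ((3 * 2 ^ (M + 1) - 1 : ℕ) : ℤ) - 3 * w - ((c + 1 + 1 : ℕ) : ℤ))) (by
            have h6 := Int.even_mul_pred_self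
              (2 * ((3 * 2 ^ (M + 1) - 1 : ℕ) : ℤ) - 3 * w - ((c + 1 : ℕ) : ℤ))
            have h7 : (2 * ((3 * 2 ^ (M + 1) - 1 : ℕ) : ℤ) - 3 * w - ((c + 1 + 1 : ℕ) : ℤ)) =
                (2 * ((3 * 2 ^ (M + 1) - 1 : ℕ) : ℤ) - 3 * w - ((c + 1 : ℕ) : ℤ)) - 1 := by
              push_cast
              ring
            rw [h7]
            exact Int.even_iff.1 h6)
          push_cast at h5 ⊢
          exact h5
        simpa using g3.mul g4
      refine (hG.mul (g1.mul g2)).mono ?_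
      have h9 : (b + 1 + 1) / 2 + 1 ≤ b + 1 := by omega
      split_ifs
      · push_cast
        omega
      · push_cast
        omega

theorem Un_UU_Tm (m w : ℕ) (hm : 4 ≤ m) (hw : w + 1 = 2 ^ (m - 1)) :
    Un (2 ^ 2 * UU false ((3 * 2 ^ m - 1 : ℕ) : ℚ) w (w + 1)) := by
  have hF2 : Fact (Nat.Prime 2) := ⟨Nat.prime_two⟩
  obtain ⟨L, rfl⟩ : ∃ L, m = L + 2 + 1 := ⟨m - 3, by omega⟩
  rw [Nat.add_sub_cancel] at hw
  have hp : 2 ^ (L + 2 + 1) = 8 * 2 ^ L := by ring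
  have hp2 : 2 ^ (L + 2) = 4 * 2 ^ L := by ring
  have hL : 1 ≤ 2 ^ L := Nat.one_le_two_pow
  rw [f5_one (L + 2) w (by omega) (by omega)]
  have e1 : 3 * 2 ^ (L + 2) - (w + 1) = 2 * 2 ^ (L + 2) := by omega
  have hwq : (w : ℚ) = 4 * 2 ^ L - 1 := by
    have : ((w + 1 : ℕ) : ℚ) = ((4 * 2 ^ L : ℕ) : ℚ) := by rw [hw, hp2]
    push_cast at this
    linarith
  have e2 : (12 * 2 ^ (L + 2) - 2 * w - 3 : ℕ) = 40 * 2 ^ L - 1 := by omega
  have e3 : ((40 * 2 ^ L - 1 : ℕ) : ℚ) = 40 * 2 ^ L - 1 := by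
    rw [Nat.cast_sub (by omega)]
    push_cast
    ring
  have hval : -((((12 * 2 ^ (L + 2) - 5 - 3 * w) * w : ℤ) : ℚ) * (((w + 1 : ℕ) : ℚ) /
        ((3 * 2 ^ (L + 2) - (w + 1) : ℕ) : ℚ)) / ((12 * 2 ^ (L + 2) - 2 * w - 3 : ℕ) : ℚ)) =
      -((((18 * 2 ^ L - 1) * w : ℕ) : ℚ) / ((40 * 2 ^ L - 1 : ℕ) : ℚ)) := by
    have e4 : (((18 * 2 ^ L - 1) * w : ℕ) : ℚ) = (18 * 2 ^ L - 1) * w := by
      rw [Nat.cast_mul, Nat.cast_sub (by omega : 1 ≤ 18 * 2 ^ L)]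
      push_cast
      ring
    rw [e1, e2, hw, e4]
    have h4 : ((2 ^ (L + 2) : ℕ) : ℚ) ≠ 0 := by positivity
    have h5 : (((12 * 2 ^ (L + 2) - 5 - 3 * w) * w : ℤ) : ℚ) * (((2 ^ (L + 2) : ℕ) : ℚ) /
        ((2 * 2 ^ (L + 2) : ℕ) : ℚ)) = (18 * 2 ^ L - 1) * w := by
      push_cast at h4 ⊢
      have hp3 : (2 : ℚ) ^ (L + 2) = 4 * 2 ^ L := by ring
      rw [hp3] at h4 ⊢
      rw [hwq]
      field_simp
      ring
    rw [h5]
  rw [hval]
  have hn1 : ((18 * 2 ^ L - 1) * w) % 2 = 1 := by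
    rw [Nat.mul_mod]
    have h5 : (18 * 2 ^ L - 1) % 2 = 1 := by omega
    have h6 : w % 2 = 1 := by omega
    rw [h5, h6]
  have hn0 : ((18 * 2 ^ L - 1) * w : ℕ) ≠ 0 := by
    intro h
    rw [h] at hn1
    omega
  have hd0 : (40 * 2 ^ L - 1 : ℕ) ≠ 0 := by omega
  have hpv : padicValRat 2 (-((((18 * 2 ^ L - 1) * w : ℕ) : ℚ) / ((40 * 2 ^ L - 1 : ℕ) : ℚ))) = 0 := by
    rw [padicValRat.neg, padicValRat.div (by exact_mod_cast hn0) (by exact_mod_cast hd0),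
      padicValRat.of_nat, padicValRat.of_nat, f5_odd_val hn1, f5_odd_val (by omega)]
    simp
  refine ⟨Or.inr hpv.ge, ?_⟩
  rintro (h | h)
  · rw [neg_eq_zero, div_eq_zero_iff] at h
    rcases h with h | h
    · exact hn0 (by exact_mod_cast h)
    · exact hd0 (by exact_mod_cast h)
  · rw [hpv] at h
    omega

end Pool.Agent.Helper5.MD
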