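import Pool.Agent.Helper5.MD.V5Pivot
import Pool.Agent.Helper5.MD3.R0Defs

/-!
# MR-F6 : pivots for `κ = 3 * 2^m - 1`, `ε = false`

Compare `MD2/P6Piv.lean`.  For `3 (w + 1) < κ` (so `w + 1 < 2^m`):
`v2 (PS (w+1)) - v2 (PS w) = 2 + v2 ((κ-3w)(κ-3w-1)(κ-3w-2)) + v2 ((2κ-3w-1)(2κ-3w-2)(2κ-3w-3)) - v2 (κ-2w) - 2 v2 (κ-2w-1) - v2 (κ-2w-2)`.
`κ - 3 w - j = 3 * 2^m - (3w+1+j)`, `2 κ - 3 w - j = 6 * 2^m - (3w+2+j)`, `κ - 2 w - 1 = 2 (3 * 2^(m-1) - (w+1))`, `κ - 2 w`, `κ - 2 w - 2` odd.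
`v2 (3 * 2^m - (3w+3)) = v2 (2^m - (w+1)) = v2 (w+1)`, `v2 (6 * 2^m - (3w+3)) = v2 (w+1)`, and `v2 (3 * 2^(m-1) - (w+1)) = v2 (w+1)` except for `w + 1 = 2^(m-1)`, where it is `m`
instead of `m - 1`.  So the difference is
`v2 (3*2^m-(3w+1)) + v2 (3*2^m-(3w+2)) + v2 (6*2^m-(3w+4)) + v2 (6*2^m-(3w+5)) - 2 [w + 1 = 2^(m-1)]`,
`≥ 2` if `w + 1 ≠ 2^(m-1)` (exactly two of the four numbers are even), and `1 + 1 - 2 = 0` for `w + 1 = 2^(m-1)`.
-/

open scoped Nat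

namespace Pool.Agent.Helper5.MD

private theorem f6_sub (m y : ℕ) (hy : 0 < y) (h : y < 2 ^ m) :
    padicValNat 2 (2 ^ m - y) = padicValNat 2 y := by
  obtain ⟨a, b, hb, rfl⟩ := Nat.exists_eq_two_pow_mul_odd hy.ne'
  have hb0 : 0 < b := hb.pos
  have ham : a < m := by
    by_contra hcon
    have h1 : 2 ^ m ≤ 2 ^ a := Nat.pow_le_pow_right (by norm_num) (by omega)
    have h2 : 2 ^ a * 1 ≤ 2 ^ a * b := Nat.mul_le_mul_left _ hb0
    omega
  obtain ⟨d, rfl⟩ : ∃ d, m = a + (d + 1) := ⟨m - a - 1, by omega⟩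
  have hlt : b < 2 ^ (d + 1) := by
    rw [pow_add] at h
    exact Nat.lt_of_mul_lt_mul_left h
  have e : 2 ^ (a + (d + 1)) - 2 ^ a * b = 2 ^ a * (2 ^ (d + 1) - b) := by
    rw [pow_add, Nat.mul_sub]
  have hodd : Odd (2 ^ (d + 1) - b) := by
    obtain ⟨c, hc⟩ := hb
    refine ⟨2 ^ d - c - 1, ?_⟩
    have h3 : 2 ^ (d + 1) = 2 * 2 ^ d := by rw [pow_succ]; ring
    omega
  have hv : ∀ c : ℕ, Odd c → padicValNat 2 (2 ^ a * c) = a := by
    intro c hc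
    rw [padicValNat.mul (by positivity) hc.pos.ne', padicValNat.prime_pow,
      padicValNat.eq_zero_of_not_dvd (fun hd => (Nat.not_even_iff_odd.2 hc)
        (even_iff_two_dvd.2 hd)), add_zero]
  rw [e, hv _ hodd, hv _ hb]

/-- `v2 (3 * 2^k - y) = v2 y` for `y < 2^(k+1)`, `y ≠ 2^k` -/
private theorem f6_sub3 (k y : ℕ) (hy : 0 < y) (h : y < 2 * 2 ^ k) (hne : y ≠ 2 ^ k) :
    padicValNat 2 (3 * 2 ^ k - y) = padicValNat 2 y := by
  obtain ⟨a, b, hb, rfl⟩ := Nat.exists_eq_two_pow_mul_odd hy.ne'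
  have hb0 : 0 < b := hb.pos
  have ham : a < k := by
    by_contra hcon
    rcases Nat.lt_or_ge k a with h0 | h0
    · have h1 : 2 ^ (k + 1) ≤ 2 ^ a := Nat.pow_le_pow_right (by norm_num) (by omega)
      have h2 : 2 ^ a * 1 ≤ 2 ^ a * b := Nat.mul_le_mul_left _ hb0
      have h3 : 2 ^ (k + 1) = 2 * 2 ^ k := by rw [pow_succ]; ring
      omega
    · have hak : a = k := by omega
      subst hak
      have h1 : b ≠ 1 := by
        rintro rfl
        exact hne (mul_one _)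
      have h2 : 2 ≤ b := by omega
      have h3 : 2 ^ a * 2 ≤ 2 ^ a * b := Nat.mul_le_mul_left _ h2
      omega
  obtain ⟨d, rfl⟩ : ∃ d, k = a + (d + 1) := ⟨k - a - 1, by omega⟩
  have h3 : 2 ^ (d + 1) = 2 * 2 ^ d := by rw [pow_succ]; ring
  have hlt : b < 2 * 2 ^ (d + 1) := by
    have h4 : 2 ^ a * b < 2 ^ a * (2 * 2 ^ (d + 1)) := by
      calc 2 ^ a * b < 2 * 2 ^ (a + (d + 1)) := h
        _ = 2 ^ a * (2 * 2 ^ (d + 1)) := by rw [pow_add]; ring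
    exact Nat.lt_of_mul_lt_mul_left h4
  have e : 3 * 2 ^ (a + (d + 1)) - 2 ^ a * b = 2 ^ a * (3 * 2 ^ (d + 1) - b) := by
    rw [Nat.mul_sub]
    congr 1
    rw [pow_add]
    ring
  have hodd : Odd (3 * 2 ^ (d + 1) - b) := by
    obtain ⟨c, hc⟩ := hb
    refine ⟨3 * 2 ^ d - c - 1, ?_⟩
    omega
  have hv : ∀ c : ℕ, Odd c → padicValNat 2 (2 ^ a * c) = a := by
    intro c hc
    rw [padicValNat.mul (by positivity) hc.pos.ne', padicValNat.prime_pow,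
      padicValNat.eq_zero_of_not_dvd (fun hd => (Nat.not_even_iff_odd.2 hc)
        (even_iff_two_dvd.2 hd)), add_zero]
  rw [e, hv _ hodd, hv _ hb]

private theorem f6_vf2 : padicValNat 2 (2 !) = 1 := by
  rw [Nat.factorial_two]
  exact padicValNat_self

private theorem f6_three : padicValNat 2 3 = 0 :=
  padicValNat.eq_zero_of_not_dvd (by norm_num)

private theorem f6_vf3 : padicValNat 2 (3 !) = 1 := by
  rw [Nat.factorial_succ, padicValNat.mul (by norm_num) (Nat.factorial_ne_zero _), f6_vf2,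
    f6_three]

private theorem f6_C2 (n : ℕ) (h : 2 ≤ n) :
    vC n 2 + 1 = padicValNat 2 n + padicValNat 2 (n - 1) := by
  have h1 : n.descFactorial 2 = n * (n - 1) := by
    rw [Nat.descFactorial_succ, Nat.descFactorial_succ, Nat.descFactorial_zero, mul_one,
      Nat.sub_zero, mul_comm]
  have h2 := Nat.descFactorial_eq_factorial_mul_choose n 2
  rw [h1] at h2
  have h3 := congrArg (padicValNat 2) h2
  rw [padicValNat.mul (by omega) (by omega), padicValNat.mul (Nat.factorial_ne_zero _)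
    (Nat.choose_pos h).ne', f6_vf2] at h3
  unfold vC
  omega

private theorem f6_C3 (n : ℕ) (h : 3 ≤ n) :
    vC n 3 + 1 = padicValNat 2 n + padicValNat 2 (n - 1) + padicValNat 2 (n - 2) := by
  have h1 : n.descFactorial 3 = n * (n - 1) * (n - 2) := by
    rw [Nat.descFactorial_succ, Nat.descFactorial_succ, Nat.descFactorial_succ,
      Nat.descFactorial_zero, mul_one, Nat.sub_zero]
    ring
  have h2 := Nat.descFactorial_eq_factorial_mul_choose n 3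
  rw [h1] at h2
  have h3 := congrArg (padicValNat 2) h2
  rw [padicValNat.mul (mul_ne_zero (by omega) (by omega)) (by omega),
    padicValNat.mul (by omega) (by omega), padicValNat.mul (Nat.factorial_ne_zero _)
    (Nat.choose_pos h).ne', f6_vf3] at h3
  unfold vC
  omega

private theorem f6_two_mul (x : ℕ) (hx : 0 < x) : padicValNat 2 (2 * x) = 1 + padicValNat 2 x := by
  rw [padicValNat.mul (by norm_num) hx.ne', padicValNat_self]

private theorem f6_three_mul (x : ℕ) (hx : 0 < x) : padicValNat 2 (3 * x) = padicValNat 2 x := by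
  rw [padicValNat.mul (by norm_num) hx.ne', f6_three, zero_add]

private theorem f6_odd (x : ℕ) : padicValNat 2 (2 * x + 1) = 0 :=
  padicValNat.eq_zero_of_not_dvd (by omega)

private theorem f6_odd' (x : ℕ) (h : x % 2 = 1) : padicValNat 2 x = 0 :=
  padicValNat.eq_zero_of_not_dvd (by omega)

private theorem f6_even (x : ℕ) (h0 : 0 < x) (h : x % 2 = 0) : 1 ≤ padicValNat 2 x :=
  one_le_padicValNat_of_dvd (p := 2) (by omega) (by omega)

private theorem f6_four (x : ℕ) (h : x % 4 = 2) : padicValNat 2 x = 1 := by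
  obtain ⟨c, rfl⟩ : ∃ c, x = 2 * (2 * c + 1) := ⟨x / 4, by omega⟩
  rw [f6_two_mul _ (by omega), f6_odd]

/-- the step -/
private theorem f6_step (k w : ℕ) (hw : 1 ≤ w) (h : 3 * (w + 1) < 6 * 2 ^ k - 1) :
    padicValRat 2 (PS false ((6 * 2 ^ k - 1 : ℕ) : ℚ) (w + 1)) +
        2 * (padicValNat 2 (3 * 2 ^ k - (w + 1)) : ℕ) =
      padicValRat 2 (PS false ((6 * 2 ^ k - 1 : ℕ) : ℚ) w) + 2 * (padicValNat 2 (w + 1) : ℕ) +
        (padicValNat 2 (6 * 2 ^ k - (3 * w + 1)) + padicValNat 2 (6 * 2 ^ k - (3 * w + 2)) +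
          padicValNat 2 (12 * 2 ^ k - (3 * w + 4)) +
          padicValNat 2 (12 * 2 ^ k - (3 * w + 5)) : ℕ) := by
  have hm := padicVal_PS false (6 * 2 ^ k - 1) w 1 hw h
  have hp : (2 : ℕ) ^ (k + 1) = 2 * 2 ^ k := by rw [pow_succ]; ring
  have hp2 : (2 : ℕ) ^ (k + 2) = 4 * 2 ^ k := by rw [pow_add]; ring
  have s1 : padicValNat 2 (2 * 2 ^ k - (w + 1)) = padicValNat 2 (w + 1) := by
    rw [← hp]
    exact f6_sub (k + 1) _ (by omega) (by rw [hp]; omega)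
  have s2 : padicValNat 2 (4 * 2 ^ k - (w + 1)) = padicValNat 2 (w + 1) := by
    rw [← hp2]
    exact f6_sub (k + 2) _ (by omega) (by rw [hp2]; omega)
  have c1 := f6_C2 (6 * 2 ^ k - 1 - 2 * w) (by omega)
  have c2 := f6_C2 (6 * 2 ^ k - 1 - 2 * w - 1) (by omega)
  have o1 : padicValNat 2 (6 * 2 ^ k - 1 - 2 * w) = 0 := f6_odd' _ (by omega)
  have o2 : padicValNat 2 (6 * 2 ^ k - 1 - 2 * w - 1 - 1) = 0 := f6_odd' _ (by omega)
  have k2 : 6 * 2 ^ k - 1 - 2 * w - 1 = 2 * (3 * 2 ^ k - (w + 1)) := by omega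
  have k3 : padicValNat 2 (6 * 2 ^ k - 1 - 2 * w - 1) =
      1 + padicValNat 2 (3 * 2 ^ k - (w + 1)) := by
    rw [k2, f6_two_mul _ (by omega)]
  rw [o1, k3] at c1
  rw [o2, k3] at c2
  have he : eta false (6 * 2 ^ k - 1) w 1 + 2 = 2 * padicValNat 2 (w + 1) +
      (padicValNat 2 (6 * 2 ^ k - (3 * w + 1)) + padicValNat 2 (6 * 2 ^ k - (3 * w + 2)) +
          padicValNat 2 (12 * 2 ^ k - (3 * w + 4)) +
          padicValNat 2 (12 * 2 ^ k - (3 * w + 5))) := by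
    have e1 := f6_C3 (6 * 2 ^ k - 1 - 3 * w) (by omega)
    have e2 := f6_C3 (2 * (6 * 2 ^ k - 1) - 3 * w - 1) (by omega)
    have r0 : 6 * 2 ^ k - 1 - 3 * w = 6 * 2 ^ k - (3 * w + 1) := by omega
    have r1 : 6 * 2 ^ k - 1 - 3 * w - 1 = 6 * 2 ^ k - (3 * w + 2) := by omega
    have r2 : 6 * 2 ^ k - 1 - 3 * w - 2 = 3 * (2 * 2 ^ k - (w + 1)) := by omega
    have r3 : 2 * (6 * 2 ^ k - 1) - 3 * w - 1 = 3 * (4 * 2 ^ k - (w + 1)) := by omega
    have r4 : 2 * (6 * 2 ^ k - 1) - 3 * w - 1 - 1 = 12 * 2 ^ k - (3 * w + 4) := by omega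
    have r5 : 2 * (6 * 2 ^ k - 1) - 3 * w - 1 - 2 = 12 * 2 ^ k - (3 * w + 5) := by omega
    rw [r1, r2, f6_three_mul _ (by omega), s1] at e1
    rw [r4, r5] at e2
    have q3 : padicValNat 2 (2 * (6 * 2 ^ k - 1) - 3 * w - 1) = padicValNat 2 (w + 1) := by
      rw [r3, f6_three_mul _ (by omega), s2]
    have q0 : padicValNat 2 (6 * 2 ^ k - 1 - 3 * w) =
      padicValNat 2 (6 * 2 ^ k - (3 * w + 1)) := by rw [r0]
    rw [q3] at e2
    rw [q0] at e1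
    unfold eta
    simp only [Bool.false_eq_true, if_false, mul_one]
    omega
  have f2 : vf (2 * 1) = 1 := f6_vf2
  have f3 : vf (3 * 1) = 1 := f6_vf3
  rw [f2, f3] at hm
  simp only [mul_one] at hm
  have c1' : (vC (6 * 2 ^ k - 1 - 2 * w) 2 : ℤ) = padicValNat 2 (3 * 2 ^ k - (w + 1)) := by
    exact_mod_cast (by omega :
      vC (6 * 2 ^ k - 1 - 2 * w) 2 = padicValNat 2 (3 * 2 ^ k - (w + 1)))
  have c2' : (vC (6 * 2 ^ k - 1 - 2 * w - 1) 2 : ℤ) = padicValNat 2 (3 * 2 ^ k - (w + 1)) := by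
    exact_mod_cast (by omega :
      vC (6 * 2 ^ k - 1 - 2 * w - 1) 2 = padicValNat 2 (3 * 2 ^ k - (w + 1)))
  have he' : (eta false (6 * 2 ^ k - 1) w 1 : ℤ) + 2 = 2 * (padicValNat 2 (w + 1) : ℕ) +
      (padicValNat 2 (6 * 2 ^ k - (3 * w + 1)) + padicValNat 2 (6 * 2 ^ k - (3 * w + 2)) +
          padicValNat 2 (12 * 2 ^ k - (3 * w + 4)) +
          padicValNat 2 (12 * 2 ^ k - (3 * w + 5)) : ℕ) := by exact_mod_cast he
  rw [c1', c2'] at hm
  generalize padicValRat 2 (PS false ((6 * 2 ^ k - 1 : ℕ) : ℚ) (w + 1)) = A at hm ⊢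
  generalize padicValRat 2 (PS false ((6 * 2 ^ k - 1 : ℕ) : ℚ) w) = B at hm ⊢
  generalize eta false (6 * 2 ^ k - 1) w 1 = E at hm he'
  push_cast at hm he' ⊢
  linarith

theorem slope_Tm_eq (m w : ℕ) (hm : 4 ≤ m) (hw : w + 1 = 2 ^ (m - 1)) :
    padicValRat 2 (PS false ((3 * 2 ^ m - 1 : ℕ) : ℚ) (w + 1)) =
      padicValRat 2 (PS false ((3 * 2 ^ m - 1 : ℕ) : ℚ) w) := by
  obtain ⟨k, rfl⟩ : ∃ k, m = k + 1 := ⟨m - 1, by omega⟩
  rw [Nat.add_sub_cancel] at hw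
  have hK : 3 * 2 ^ (k + 1) - 1 = 6 * 2 ^ k - 1 := by rw [pow_succ]; congr 1; ring
  obtain ⟨r, hr⟩ : ∃ r, (2 : ℕ) ^ k = 8 * r := by
    obtain ⟨j, rfl⟩ : ∃ j, k = j + 3 := ⟨k - 3, by omega⟩
    exact ⟨2 ^ j, by rw [pow_add]; ring⟩
  have hr0 : 0 < 2 ^ k := by positivity
  rw [hK]
  have hs := f6_step k w (by omega) (by omega)
  have x1 : padicValNat 2 (3 * 2 ^ k - (w + 1)) = 1 + padicValNat 2 (w + 1) := by
    rw [show 3 * 2 ^ k - (w + 1) = 2 * (w + 1) by omega, f6_two_mul _ (by omega)]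
  have x2 : padicValNat 2 (6 * 2 ^ k - (3 * w + 1)) = 1 := f6_four _ (by omega)
  have x3 : padicValNat 2 (6 * 2 ^ k - (3 * w + 2)) = 0 := f6_odd' _ (by omega)
  have x4 : padicValNat 2 (12 * 2 ^ k - (3 * w + 4)) = 0 := f6_odd' _ (by omega)
  have x5 : padicValNat 2 (12 * 2 ^ k - (3 * w + 5)) = 1 := f6_four _ (by omega)
  rw [x1, x2, x3, x4, x5] at hs
  push_cast at hs ⊢
  linarith

theorem slope_Tm_lt (m w : ℕ) (hm : 4 ≤ m) (hw0 : 1 ≤ w) (hw : w + 1 ≠ 2 ^ (m - 1))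
    (h3 : 3 * (w + 1) < 3 * 2 ^ m - 1) :
    padicValRat 2 (PS false ((3 * 2 ^ m - 1 : ℕ) : ℚ) w) + 2 ≤
      padicValRat 2 (PS false ((3 * 2 ^ m - 1 : ℕ) : ℚ) (w + 1)) := by
  obtain ⟨k, rfl⟩ : ∃ k, m = k + 1 := ⟨m - 1, by omega⟩
  rw [Nat.add_sub_cancel] at hw
  have hK : 3 * 2 ^ (k + 1) - 1 = 6 * 2 ^ k - 1 := by rw [pow_succ]; congr 1; ring
  rw [hK] at h3 ⊢
  have hs := f6_step k w (by omega) (by omega)
  rw [f6_sub3 k (w + 1) (by omega) (by omega) hw] at hs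
  have hS : 2 ≤ padicValNat 2 (6 * 2 ^ k - (3 * w + 1)) +
      padicValNat 2 (6 * 2 ^ k - (3 * w + 2)) + padicValNat 2 (12 * 2 ^ k - (3 * w + 4)) +
      padicValNat 2 (12 * 2 ^ k - (3 * w + 5)) := by
    rcases Nat.even_or_odd' w with ⟨c, hc | hc⟩
    · have h1 := f6_even (6 * 2 ^ k - (3 * w + 2)) (by omega) (by omega)
      have h2 := f6_even (12 * 2 ^ k - (3 * w + 4)) (by omega) (by omega)
      omega
    · have h1 := f6_even (6 * 2 ^ k - (3 * w + 1)) (by omega) (by omega)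
      have h2 := f6_even (12 * 2 ^ k - (3 * w + 5)) (by omega) (by omega)
      omega
  have hS' : (2 : ℤ) ≤ ((padicValNat 2 (6 * 2 ^ k - (3 * w + 1)) +
      padicValNat 2 (6 * 2 ^ k - (3 * w + 2)) + padicValNat 2 (12 * 2 ^ k - (3 * w + 4)) +
      padicValNat 2 (12 * 2 ^ k - (3 * w + 5)) : ℕ) : ℤ) := by exact_mod_cast hS
  linarith

end Pool.Agent.Helper5.MD
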