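import Pool.Agent.Helper5.MD.VGBasic
import Pool.Agent.Helper5.MD.VBinom
import Pool.Agent.Helper5.MD3.R0Defs

/-!
# MR-F7 : lower triangular factor for `κ = 3 * 2^m + 1`, `ε = true`

Compare `MD2/P2Lam.lean`.  Put `a = i - w`, `h' = (a + 1) / 2`, `h = a / 2`.
`LL true κ i w = (κ - 3 i) ∏_(t < a) (κ - w + t) (κ - w - 1 - t) / (2 (t + 1) (2 w + 2 t + 1) (κ - 2 w - 1 - t)) * ∏_(1 ≤ t < a) (κ - 3 w - t)`.
`κ - 2 w - 1 - t = 3 * 2^m - 2 w - t` is odd for odd `t`, and for `t = 2 u` it is `2 (3 * 2^(m-1) - y)`, `y = w + u`.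
For `0 < y < 3 * 2^(m-1)`: `v2 (3 * 2^(m-1) - y) ≤ v2 (3 * 2^m - y)` unless `y = 2^(m-1)`, where the left side is `m` and the right side `m - 1`.
The numbers `3 * 2^m - y = κ - w - 1 - u`, `u < h'`, are cancelled in `∏ (κ - w - 1 - t)`; the rest is divisible by `h!`, `∏ (κ - w + t)` by `a!`,
`∏_(1 ≤ t < a) (κ - 3 w - t)` by `(a-1)!`.  Hence
`v2 (2^(2a) LL) ≥ h + v2 (h!) + v2 ((a-1)!) + v2 (κ - 3 i) - δ`, `δ = 1` if `2^(m-1)` is one of the `y`.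
`a ≥ 3`: `≥ 1`.  `a = 2`: `≥ 1` if `δ = 0`; if `δ = 1` then `w = 2^(m-1)` and `κ - 3 w - 1 = 3 * 2^(m-1)` contributes `≥ m - 1`.
`a = 1`: it equals `v2 (κ - w) + v2 (κ - 3 w - 3) + v2 (3 * 2^m - w) - v2 (3 * 2^(m-1) - w)`: `w` odd: first term `≥ 1`, `δ = 0`; `w` even: second term `≥ 1`; for `w = 2^(m-1)`:
`κ - 3 w - 3 = 3 * 2^(m-1) - 2` has valuation `1`, `κ - w` is odd, total `0`.
-/

open scoped Nat

namespace Pool.Agent.Helper5.MD

open Finset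

private theorem f7_split (f : ℕ → ℚ) (a : ℕ) :
    ∏ t ∈ range a, f t =
      (∏ u ∈ range (a - a / 2), f (2 * u)) * ∏ u ∈ range (a / 2), f (2 * u + 1) := by
  induction a with
  | zero => simp
  | succ a ih =>
    rw [prod_range_succ, ih]
    rcases Nat.even_or_odd' a with ⟨b, hb | hb⟩
    · have h1 : a / 2 = b := by omega
      have h2 : a - b = b := by omega
      have h3 : (a + 1) / 2 = b := by omega
      have h4 : a + 1 - b = b + 1 := by omega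
      rw [h1, h3, h2, h4, prod_range_succ _ b, hb]
      ring
    · have h1 : a / 2 = b := by omega
      have h2 : a - b = b + 1 := by omega
      have h3 : (a + 1) / 2 = b + 1 := by omega
      have h4 : a + 1 - (b + 1) = b + 1 := by omega
      rw [h1, h3, h2, h4, prod_range_succ (fun u => f (2 * u + 1)) b, hb]
      ring

private theorem f7_VG_odd (z : ℤ) (hz : Odd z) : VG 0 ((z : ℚ)⁻¹) := by
  right
  rw [padicValRat.inv, padicValRat.of_int, padicValInt.eq_zero_of_not_dvd]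
  · simp
  · intro hdvd
    have := Int.not_even_iff_odd.2 hz
    exact this (even_iff_two_dvd.2 (by exact_mod_cast hdvd))

private theorem f7_intprod (s : Finset ℕ) (f : ℕ → ℤ) : VG 0 (∏ t ∈ s, (f t : ℚ)) := by
  have : (∏ t ∈ s, (f t : ℚ)) = ((∏ t ∈ s, f t : ℤ) : ℚ) := by push_cast; rfl
  rw [this]
  exact VG_int _

private theorem f7_VG_even (z : ℤ) (hz : Even z) : VG 1 (z : ℚ) := by
  obtain ⟨k, hk⟩ := hz
  have h1 : (z : ℚ) = 2 ^ (1 : ℤ) * (k : ℚ) := by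
    rw [hk]
    push_cast
    ring
  rw [h1]
  have h2 := (VG_two_zpow 1).mul (VG_int k)
  simpa using h2

/-- one factor of the quotient -/
private theorem f7_fac (m' y : ℕ) (h0 : 0 < y) (h1 : y < 3 * 2 ^ m') (hne : y ≠ 2 ^ m') :
    VG 0 ((6 * (2 ^ m' : ℕ) - (y : ℚ)) / (3 * (2 ^ m' : ℕ) - (y : ℚ))) := by
  obtain ⟨e, o, ho, hy⟩ := Nat.exists_eq_two_pow_mul_odd h0.ne'
  rcases lt_or_ge e m' with he | he
  · obtain ⟨d, rfl⟩ : ∃ d, m' = e + (d + 1) := ⟨m' - e - 1, by omega⟩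
    have e1 : (6 * ((2 ^ (e + (d + 1)) : ℕ) : ℚ) - (y : ℚ)) / (3 * ((2 ^ (e + (d + 1)) : ℕ) : ℚ) -
        (y : ℚ)) = ((6 * 2 ^ (d + 1) - o : ℤ) : ℚ) * (((3 * 2 ^ (d + 1) - o : ℤ) : ℚ))⁻¹ := by
      rw [hy]
      push_cast
      rw [pow_add]
      have h2 : (2 : ℚ) ^ e ≠ 0 := by positivity
      have e2 : 6 * ((2 : ℚ) ^ e * 2 ^ (d + 1)) - 2 ^ e * (o : ℚ) =
        2 ^ e * (6 * 2 ^ (d + 1) - o) := by ring
      have e3 : 3 * ((2 : ℚ) ^ e * 2 ^ (d + 1)) - 2 ^ e * (o : ℚ) =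
        2 ^ e * (3 * 2 ^ (d + 1) - o) := by ring
      rw [e2, e3, mul_div_mul_left _ _ h2, div_eq_mul_inv]
    rw [e1]
    have h3 : Odd (3 * 2 ^ (d + 1) - (o : ℤ)) := by
      obtain ⟨k, hk⟩ := ho
      refine ⟨3 * 2 ^ d - k - 1, ?_⟩
      rw [hk, pow_succ]
      push_cast
      ring
    simpa using (VG_int (6 * 2 ^ (d + 1) - (o : ℤ))).mul (f7_VG_odd _ h3)
  · obtain ⟨d, rfl⟩ : ∃ d, e = m' + d := ⟨e - m', by omega⟩
    have h2 : y = 2 ^ m' * (2 ^ d * o) := by rw [hy, pow_add]; ring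
    have h3 : 0 < 2 ^ m' := by positivity
    have h4 : 2 ^ d * o = 2 := by
      have h5 : 2 ^ d * o < 3 := by
        rw [h2, mul_comm 3] at h1
        exact lt_of_mul_lt_mul_left h1 (Nat.zero_le _)
      have h6 : 2 ^ d * o ≠ 1 := by
        intro h7
        rw [h7, mul_one] at h2
        exact hne h2
      have h8 : 2 ^ d * o ≠ 0 := by
        intro h7
        rw [h7, mul_zero] at h2
        omega
      omega
    rw [h2, h4]
    have h5 : ((2 ^ m' : ℕ) : ℚ) ≠ 0 := by exact_mod_cast h3.ne'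
    have e1 : (6 * ((2 ^ m' : ℕ) : ℚ) - ((2 ^ m' * 2 : ℕ) : ℚ)) /
        (3 * ((2 ^ m' : ℕ) : ℚ) - ((2 ^ m' * 2 : ℕ) : ℚ)) = ((4 : ℤ) : ℚ) := by
      rw [Nat.cast_mul]
      generalize ((2 ^ m' : ℕ) : ℚ) = x at h5 ⊢
      have h6 : 3 * x - x * ((2 : ℕ) : ℚ) = x := by push_cast; ring
      rw [h6, div_eq_iff h5]
      push_cast
      ring
    rw [e1]
    exact VG_int 4

private theorem f7_fac0 (m' y : ℕ) (h0 : 0 < y) (h1 : y < 3 * 2 ^ m') :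
    VG (-1) ((6 * (2 ^ m' : ℕ) - (y : ℚ)) / (3 * (2 ^ m' : ℕ) - (y : ℚ))) := by
  by_cases hne : y = 2 ^ m'
  · rw [hne]
    have h3 : 0 < 2 ^ m' := by positivity
    have h5 : ((2 ^ m' : ℕ) : ℚ) ≠ 0 := by exact_mod_cast h3.ne'
    have e1 : (6 * ((2 ^ m' : ℕ) : ℚ) - ((2 ^ m' : ℕ) : ℚ)) /
        (3 * ((2 ^ m' : ℕ) : ℚ) - ((2 ^ m' : ℕ) : ℚ)) = ((5 : ℤ) : ℚ) * 2 ^ (-1 : ℤ) := by
      generalize ((2 ^ m' : ℕ) : ℚ) = x at h5 ⊢
      have h6 : 3 * x - x = 2 * x := by ring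
      have h7 : 2 * x ≠ 0 := mul_ne_zero two_ne_zero h5
      rw [h6, div_eq_iff h7, zpow_neg_one]
      push_cast
      ring
    rw [e1]
    simpa using (VG_int 5).mul (VG_two_zpow (-1))
  · exact (f7_fac m' y h0 h1 hne).mono (by norm_num)

/-- the quotient of the products, at most one factor is not integral -/
private theorem f7_quot (m' w c : ℕ) (hw : 1 ≤ w) (hwc : w + c ≤ 3 * 2 ^ m') :
    VG (-1) (∏ u ∈ range c, ((6 * (2 ^ m' : ℕ) - ((w + u : ℕ) : ℚ)) /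
      (3 * (2 ^ m' : ℕ) - ((w + u : ℕ) : ℚ)))) ∧
    ((∀ u, u < c → w + u ≠ 2 ^ m') →
      VG 0 (∏ u ∈ range c, ((6 * (2 ^ m' : ℕ) - ((w + u : ℕ) : ℚ)) /
        (3 * (2 ^ m' : ℕ) - ((w + u : ℕ) : ℚ))))) := by
  have hB : (∀ u, u < c → w + u ≠ 2 ^ m') →
      VG 0 (∏ u ∈ range c, ((6 * (2 ^ m' : ℕ) - ((w + u : ℕ) : ℚ)) /
        (3 * (2 ^ m' : ℕ) - ((w + u : ℕ) : ℚ)))) := by
    intro h
    apply VG_prod
    intro u hu
    rw [mem_range] at hu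
    exact f7_fac m' (w + u) (by omega) (by omega) (h u hu)
  refine ⟨?_, hB⟩
  by_cases h : ∀ u, u < c → w + u ≠ 2 ^ m'
  · exact (hB h).mono (by norm_num)
  · push Not at h
    obtain ⟨u₀, hu₀, h1⟩ := h
    rw [← mul_prod_erase (range c) _ (mem_range.2 hu₀)]
    have h2 := f7_fac0 m' (w + u₀) (by omega) (by omega)
    have h3 : VG 0 (∏ u ∈ (range c).erase u₀, ((6 * (2 ^ m' : ℕ) - ((w + u : ℕ) : ℚ)) /
        (3 * (2 ^ m' : ℕ) - ((w + u : ℕ) : ℚ)))) := by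
      apply VG_prod
      intro u hu
      rw [mem_erase, mem_range] at hu
      exact f7_fac m' (w + u) (by omega) (by omega) (by omega)
    simpa using h2.mul h3

/-- the valuation of an entry -/
private theorem f7_key (m' w b : ℕ) (hw : 1 ≤ w) (h3 : 3 * w < 6 * 2 ^ m' + 1)
    (h2 : w + (b + 1) ≤ 3 * 2 ^ m') (α β γ : ℤ)
    (hα : VG α ((∏ t ∈ range (b + 1), ((6 * (2 ^ m' : ℕ) + 1 : ℚ) - w + t)) /
      ∏ t ∈ range (b + 1), ((t : ℚ) + 1)))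
    (hβ : VG β (((6 * (2 ^ m' : ℕ) + 1 : ℚ) - 3 * ((w + (b + 1) : ℕ) : ℚ)) *
      ∏ t ∈ range b, ((6 * (2 ^ m' : ℕ) + 1 : ℚ) - 3 * w - (t + 1 : ℕ))))
    (hγ : VG γ (∏ u ∈ range (b + 1 - (b + 1) / 2), ((6 * (2 ^ m' : ℕ) - ((w + u : ℕ) : ℚ)) /
        (3 * (2 ^ m' : ℕ) - ((w + u : ℕ) : ℚ))))) :
    VG (((b + 1) / 2 : ℕ) + α + β + γ)
      (2 ^ (2 * ((w + (b + 1) : ℕ) : ℤ) - 2 * w) *
        LL true (6 * (2 ^ m' : ℕ) + 1) (w + (b + 1)) w) := by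
  set n : ℕ := 2 ^ m' with hn
  set a : ℕ := b + 1 with ha
  set h : ℕ := a / 2 with hh
  set κ : ℚ := 6 * (n : ℚ) + 1 with hκ
  -- the factors
  set NA : ℚ := ∏ t ∈ range a, (κ - w + t) with hNA
  set NC1 : ℚ := ∏ u ∈ range (a - h), (κ - w - 1 - u) with hNC1
  set NC2 : ℚ := ∏ u ∈ range h, (κ - w - 1 - ((a - h) + u : ℕ)) with hNC2
  set FA : ℚ := ∏ t ∈ range a, ((t : ℚ) + 1) with hFA
  set FO : ℚ := ∏ t ∈ range a, (2 * (w : ℚ) + 2 * t + 1) with hFO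
  set DN : ℚ := ∏ u ∈ range (a - h), (3 * (n : ℚ) - (w + u : ℕ)) with hDN
  set DO : ℚ := ∏ u ∈ range h, (κ - 2 * w - 1 - (2 * u + 1 : ℕ)) with hDO
  set NB0 : ℚ := ∏ t ∈ range b, (κ - 3 * w - (t + 1 : ℕ)) with hNB0
  have hFA0 : FA ≠ 0 := by
    rw [hFA, prod_ne_zero_iff]
    intro t _
    positivity
  have hFO0 : FO ≠ 0 := by
    rw [hFO, prod_ne_zero_iff]
    intro t _
    positivity
  have hDN0 : DN ≠ 0 := by
    rw [hDN, prod_ne_zero_iff]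
    intro u hu
    rw [mem_range] at hu
    have h5 : w + u < 3 * n := by omega
    have h6 : ((w + u : ℕ) : ℚ) < 3 * n := by exact_mod_cast h5
    intro hcon
    linarith
  have hDO0 : DO ≠ 0 := by
    rw [hDO, prod_ne_zero_iff]
    intro u hu
    rw [mem_range] at hu
    have h5 : 2 * w + (2 * u + 1) < 6 * n := by omega
    have h6 : 2 * (w : ℚ) + (2 * u + 1 : ℕ) < 6 * n := by exact_mod_cast h5
    rw [hκ]
    intro hcon
    linarith
  have hκw : κ - 3 * w ≠ 0 := by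
    have h6 : 3 * (w : ℚ) < 6 * n + 1 := by exact_mod_cast h3
    rw [hκ]
    intro hcon
    linarith
  have hNC : ∏ t ∈ range a, (κ - w - 1 - t) = NC1 * NC2 := by
    have h5 : a = (a - h) + h := by omega
    rw [hNC1, hNC2]
    conv_lhs => rw [h5]
    rw [prod_range_add]
  have hD : ∏ t ∈ range a, (κ - 2 * w - 1 - t) = (2 ^ (a - h) * DN) * DO := by
    rw [f7_split (fun t => κ - 2 * w - 1 - t) a]
    congr 1
    rw [hDN]
    have h5 : (2 : ℚ) ^ (a - h) = ∏ _u ∈ range (a - h), (2 : ℚ) := by rw [prod_const, card_range]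
    rw [h5, ← prod_mul_distrib]
    apply prod_congr rfl
    intro u _
    rw [hκ]
    push_cast
    ring
  have hNB : ∏ t ∈ range a, (κ - 3 * w - t) = (κ - 3 * w) * NB0 := by
    rw [ha, prod_range_succ', hNB0, mul_comm]
    congr 1
    simp
  have hlam : lam κ (w + a) w =
      NA * ((κ - 3 * w) * NB0) * (NC1 * NC2) / (2 ^ a * FA * FO * ((2 ^ (a - h) * DN) * DO)) := by
    unfold lam
    rw [if_pos (Nat.le_add_right w a), prod_Ico_eq_prod_range, Nat.add_sub_cancel_left, ← hNB,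
      ← hNC, ← hD, hNA, hFA, hFO]
    have h5 : (2 : ℚ) ^ a = ∏ _u ∈ range a, (2 : ℚ) := by rw [prod_const, card_range]
    rw [h5, ← prod_mul_distrib, ← prod_mul_distrib, ← prod_mul_distrib, ← prod_mul_distrib,
      ← prod_mul_distrib, ← prod_div_distrib]
    apply prod_congr rfl
    intro t _
    push_cast
    congr 1
    · ring
    · ring
  have hq : ∏ u ∈ range (a - h), ((6 * (n : ℚ) - ((w + u : ℕ) : ℚ)) /
      (3 * (n : ℚ) - ((w + u : ℕ) : ℚ))) = NC1 / DN := by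
    rw [prod_div_distrib, hNC1, hDN]
    congr 1
    apply prod_congr rfl
    intro u _
    rw [hκ]
    push_cast
    ring
  rw [hq] at hγ
  have e1 : (2 : ℚ) ^ (2 * ((w + a : ℕ) : ℤ) - 2 * w) * LL true κ (w + a) w =
      2 ^ (h : ℤ) * ((NA / FA) * (((κ - 3 * ((w + a : ℕ) : ℚ)) * NB0) *
        ((NC1 / DN) * (NC2 * (DO⁻¹ * FO⁻¹))))) := by
    have e2 : (2 : ℚ) ^ (2 * ((w + a : ℕ) : ℤ) - 2 * w) =
        2 ^ (h : ℤ) * (2 ^ a * 2 ^ (a - h)) := by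
      rw [← zpow_natCast (2 : ℚ) a, ← zpow_natCast (2 : ℚ) (a - h), ← zpow_add₀ two_ne_zero,
        ← zpow_add₀ two_ne_zero]
      congr 1
      push_cast [Nat.cast_sub (show h ≤ a by omega)]
      ring
    simp only [LL, if_true]
    rw [e2, hlam]
    have h2a : (2 : ℚ) ^ a ≠ 0 := by positivity
    have h2h : (2 : ℚ) ^ (a - h) ≠ 0 := by positivity
    have h2z : (2 : ℚ) ^ (h : ℤ) ≠ 0 := by positivity
    generalize (2 : ℚ) ^ a = p1 at h2a ⊢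
    generalize (2 : ℚ) ^ (a - h) = p2 at h2h ⊢
    generalize (2 : ℚ) ^ (h : ℤ) = p3 at h2z ⊢
    generalize κ - 3 * (w : ℚ) = p4 at hκw ⊢
    generalize κ - 3 * ((w + a : ℕ) : ℚ) = p5
    field_simp
  rw [e1]
  have v2 : VG 0 NC2 := by
    have := f7_intprod (range h) (fun u => (6 * n : ℤ) - w - ((a - h) + u : ℕ))
    rw [hNC2, hκ]
    refine (congrArg (VG 0) ?_).mp this
    apply prod_congr rfl
    intro u _
    push_cast
    ring
  have v4 : VG 0 DO⁻¹ := by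
    rw [hDO, ← prod_inv_distrib]
    apply VG_prod
    intro u _
    have e6 : κ - 2 * w - 1 - (2 * u + 1 : ℕ) =
        (((6 * n : ℤ) - 2 * w - (2 * u + 1) : ℤ) : ℚ) := by
      rw [hκ]
      push_cast
      ring
    rw [e6]
    apply f7_VG_odd
    exact ⟨3 * (n : ℤ) - w - u - 1, by ring⟩
  have v5 : VG 0 FO⁻¹ := by
    rw [hFO, ← prod_inv_distrib]
    apply VG_prod
    intro t _
    have e6 : 2 * (w : ℚ) + 2 * t + 1 = ((2 * (w : ℤ) + 2 * t + 1 : ℤ) : ℚ) := by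
      push_cast
      ring
    rw [e6]
    apply f7_VG_odd
    exact ⟨(w : ℤ) + t, by ring⟩
  have v6 := (VG_two_zpow (h : ℤ)).mul (hα.mul (hβ.mul (hγ.mul (v2.mul (v4.mul v5)))))
  refine v6.mono ?_
  omega

private theorem f7_alpha0 (n w a : ℕ) (hw : w ≤ 6 * n) :
    VG 0 ((∏ t ∈ range a, ((6 * (n : ℚ) + 1) - w + t)) / ∏ t ∈ range a, ((t : ℚ) + 1)) := by
  have h0 : (∏ t ∈ range a, ((t : ℚ) + 1)) ≠ 0 := by
    rw [prod_ne_zero_iff]
    intro t _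
    positivity
  have e3 : (∏ t ∈ range a, ((6 * (n : ℚ) + 1) - w + t)) / ∏ t ∈ range a, ((t : ℚ) + 1) =
      (((6 * n - w + a).choose a : ℕ) : ℚ) := by
    have h6 := prod_asc (6 * n - w) a
    have h7 := prod_fact a
    rw [div_eq_iff h0, h7, mul_comm (((6 * n - w + a).choose a : ℕ) : ℚ) _, ← h6]
    apply prod_congr rfl
    intro t _
    rw [Nat.cast_sub hw]
    push_cast
    ring
  rw [e3]
  exact_mod_cast VG_int (((6 * n - w + a).choose a : ℕ) : ℤ)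

private theorem f7_beta0 (n w b : ℕ) :
    VG 0 (((6 * (n : ℚ) + 1) - 3 * ((w + (b + 1) : ℕ) : ℚ)) *
      ∏ t ∈ range b, ((6 * (n : ℚ) + 1) - 3 * w - (t + 1 : ℕ))) := by
  have v7 := VG_int ((6 * (n : ℤ) + 1) - 3 * ((w + (b + 1) : ℕ) : ℤ))
  have v8 := f7_intprod (range b) (fun t => (6 * (n : ℤ) + 1) - 3 * w - (t + 1 : ℕ))
  have v9 := v7.mul v8
  push_cast at v9 ⊢
  simpa using v9

private theorem f7_beta1 (n w b : ℕ) (hb : 2 ≤ b) :
    VG 1 (((6 * (n : ℚ) + 1) - 3 * ((w + (b + 1) : ℕ) : ℚ)) *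
      ∏ t ∈ range b, ((6 * (n : ℚ) + 1) - 3 * w - (t + 1 : ℕ))) := by
  obtain ⟨c, rfl⟩ : ∃ c, b = c + 1 + 1 := ⟨b - 2, by omega⟩
  have v7 := VG_int ((6 * (n : ℤ) + 1) - 3 * ((w + (c + 1 + 1 + 1) : ℕ) : ℤ))
  have v8 := f7_intprod (range c) (fun t => (6 * (n : ℤ) + 1) - 3 * w - (t + 1 + 1 + 1 : ℕ))
  have v9 : VG 1 ((((6 * (n : ℤ) + 1) - 3 * w - (0 + 1 + 1 : ℕ)) *
      ((6 * (n : ℤ) + 1) - 3 * w - (0 + 1 : ℕ)) : ℤ) : ℚ) := by
    apply f7_VG_even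
    rw [Int.even_mul]
    rcases Int.even_or_odd ((6 * (n : ℤ) + 1) - 3 * w - (0 + 1 : ℕ)) with h | h
    · exact Or.inr h
    · left
      have h1 : (6 * (n : ℤ) + 1) - 3 * w - (0 + 1 + 1 : ℕ) =
        ((6 * (n : ℤ) + 1) - 3 * w - (0 + 1 : ℕ)) - 1 := by push_cast; ring
      rw [h1]
      exact h.sub_odd odd_one
  have v10 := v7.mul (v8.mul v9)
  rw [prod_range_succ', prod_range_succ']
  refine (congrArg₂ VG ?_ ?_).mp v10
  · norm_num
  · push_cast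
    ring

theorem VG_LL_Tp (m i w : ℕ) (hm : 4 ≤ m) (hw : 1 ≤ w) (hwi : w < i) (h3 : 3 * w < 3 * 2 ^ m + 1)
    (h2 : 2 * i < 3 * 2 ^ m + 1) (hne : ¬ (w = 2 ^ (m - 1) ∧ i = w + 1)) :
    VG 1 (2 ^ (2 * (i : ℤ) - 2 * w) * LL true ((3 * 2 ^ m + 1 : ℕ) : ℚ) i w) := by
  obtain ⟨m', rfl⟩ : ∃ m', m = m' + 1 := ⟨m - 1, by omega⟩
  obtain ⟨b, rfl⟩ : ∃ b, i = w + (b + 1) := ⟨i - w - 1, by omega⟩
  rw [Nat.add_sub_cancel] at hne
  have hκ : (3 * 2 ^ (m' + 1) + 1 : ℕ) = 6 * 2 ^ m' + 1 := by rw [pow_succ]; ring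
  rw [hκ] at h2 h3 ⊢
  have hκ' : ((6 * 2 ^ m' + 1 : ℕ) : ℚ) = 6 * ((2 ^ m' : ℕ) : ℚ) + 1 := by push_cast; ring
  rw [hκ']
  have hev : Even (2 ^ m') := by
    rw [Nat.even_pow]
    exact ⟨even_two, by omega⟩
  have hα := f7_alpha0 (2 ^ m') w (b + 1) (by omega)
  have hβ := f7_beta0 (2 ^ m') w b
  have hQ := f7_quot m' w (b + 1 - (b + 1) / 2) hw (by omega)
  rcases Nat.lt_or_ge b 2 with hb | hb
  · rcases Nat.lt_or_ge b 1 with hb0 | hb1
    · -- `a = 1`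
      obtain rfl : b = 0 := by omega
      have hwn : w ≠ 2 ^ m' := fun h => hne ⟨h, rfl⟩
      have hγ := hQ.2 (by
        intro u hu
        have : u = 0 := by omega
        rw [this]
        exact hwn)
      rcases Nat.even_or_odd w with hev' | hodd
      · have hβ1 : VG 1 (((6 * ((2 ^ m' : ℕ) : ℚ) + 1) - 3 * ((w + (0 + 1) : ℕ) : ℚ)) *
            ∏ t ∈ range 0, ((6 * ((2 ^ m' : ℕ) : ℚ) + 1) - 3 * w - (t + 1 : ℕ))) := by
          rw [prod_range_zero, mul_one]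
          have h4 : Even ((6 * ((2 ^ m' : ℕ) : ℤ) + 1) - 3 * ((w + (0 + 1) : ℕ) : ℤ)) := by
            obtain ⟨k, hk⟩ := hev'
            refine ⟨3 * ((2 ^ m' : ℕ) : ℤ) - 3 * k - 1, ?_⟩
            rw [hk]
            push_cast
            ring
          have h5 := f7_VG_even _ h4
          push_cast at h5 ⊢
          exact h5
        have h6 := f7_key m' w 0 hw h3 (by omega) 0 1 0 hα hβ1 hγ
        exact h6.mono (by norm_num)
      · have hα1 : VG 1 ((∏ t ∈ range (0 + 1), ((6 * ((2 ^ m' : ℕ) : ℚ) + 1) - w + t)) /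
            ∏ t ∈ range (0 + 1), ((t : ℚ) + 1)) := by
          rw [prod_range_one, prod_range_one]
          have h4 : Even ((6 * ((2 ^ m' : ℕ) : ℤ) + 1) - (w : ℤ)) := by
            obtain ⟨k, hk⟩ := hodd
            refine ⟨3 * ((2 ^ m' : ℕ) : ℤ) - k, ?_⟩
            rw [hk]
            push_cast
            ring
          have h5 := f7_VG_even _ h4
          push_cast at h5 ⊢
          simpa using h5
        have h6 := f7_key m' w 0 hw h3 (by omega) 1 0 0 hα1 hβ hγ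
        exact h6.mono (by norm_num)
    · -- `a = 2`
      obtain rfl : b = 1 := by omega
      by_cases hwn : w = 2 ^ m'
      · have hβ1 : VG 1 (((6 * ((2 ^ m' : ℕ) : ℚ) + 1) - 3 * ((w + (1 + 1) : ℕ) : ℚ)) *
            ∏ t ∈ range 1, ((6 * ((2 ^ m' : ℕ) : ℚ) + 1) - 3 * w - (t + 1 : ℕ))) := by
          rw [prod_range_one]
          have h4 : Even ((6 * ((2 ^ m' : ℕ) : ℤ) + 1) - 3 * (w : ℤ) - ((0 + 1 : ℕ) : ℤ)) := by
            obtain ⟨k, hk⟩ := hev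
            refine ⟨3 * (k : ℤ), ?_⟩
            rw [hwn, hk]
            push_cast
            ring
          have h5 := (VG_int ((6 * ((2 ^ m' : ℕ) : ℤ) + 1) - 3 * ((w + (1 + 1) : ℕ) : ℤ))).mul
            (f7_VG_even _ h4)
          push_cast at h5 ⊢
          simpa using h5
        have h6 := f7_key m' w 1 hw h3 (by omega) 0 1 (-1) hα hβ1 hQ.1
        exact h6.mono (by norm_num)
      · have hγ := hQ.2 (by
          intro u hu
          have : u = 0 := by omega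
          rw [this]
          exact hwn)
        have h6 := f7_key m' w 1 hw h3 (by omega) 0 0 0 hα hβ hγ
        exact h6.mono (by norm_num)
  · have hβ1 := f7_beta1 (2 ^ m') w b hb
    have h6 := f7_key m' w b hw h3 (by omega) 0 1 (-1) hα hβ1 hQ.1
    refine h6.mono ?_
    have h7 : 1 ≤ (b + 1) / 2 := by omega
    omega

theorem Un_LL_Tp (m w : ℕ) (hm : 4 ≤ m) (hw : w = 2 ^ (m - 1)) :
    Un (2 ^ 2 * LL true ((3 * 2 ^ m + 1 : ℕ) : ℚ) (w + 1) w) := by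
  obtain ⟨m', rfl⟩ : ∃ m', m = m' + 2 := ⟨m - 2, by omega⟩
  have hw2 : w = 2 * 2 ^ m' := by
    rw [hw, show m' + 2 - 1 = m' + 1 by omega, pow_succ]
    ring
  have hx : 0 < 2 ^ m' := by positivity
  obtain ⟨k, hk⟩ : ∃ k, 2 ^ m' = 2 * k := by
    obtain ⟨l, rfl⟩ : ∃ l, m' = l + 1 := ⟨m' - 1, by omega⟩
    exact ⟨2 ^ l, by rw [pow_succ]; ring⟩
  have hk0 : (k : ℚ) ≠ 0 := by
    have : k ≠ 0 := by omega
    exact_mod_cast this
  have hκ : ((3 * 2 ^ (m' + 2) + 1 : ℕ) : ℚ) = 24 * (k : ℚ) + 1 := by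
    have h1 : 3 * 2 ^ (m' + 2) + 1 = 24 * k + 1 := by rw [pow_add, hk]; ring
    rw [h1]
    push_cast
    ring
  have hw3 : (w : ℚ) = 4 * k := by
    rw [hw2, hk]
    push_cast
    ring
  have e1 : 2 ^ 2 * LL true ((3 * 2 ^ (m' + 2) + 1 : ℕ) : ℚ) (w + 1) w =
      ((5 * (20 * (k : ℤ) + 1) * (6 * k - 1) : ℤ) : ℚ) * (((8 * (k : ℤ) + 1 : ℤ) : ℚ))⁻¹ := by
    simp only [LL, if_true]
    unfold lam
    rw [if_pos (Nat.le_succ w), Nat.Ico_succ_singleton, prod_singleton, hκ]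
    push_cast
    rw [hw3]
    have h1 : (8 * (k : ℚ) + 1) ≠ 0 := by positivity
    have h2 : (12 * (k : ℚ) + 1) ≠ 0 := by positivity
    have e2 : (24 * (k : ℚ) + 1 - 2 * (4 * k) + 4 * k) * (24 * k + 1 - 2 * (4 * k) - 4 * k) *
        (24 * k + 1 - 4 * k - 1) = (20 * k + 1) * (12 * k + 1) * (20 * k) := by ring
    have e3 : 2 * ((4 : ℚ) * k - 4 * k + 1) * (2 * (4 * k) + 1) *
        (24 * k + 1 - 4 * k - 4 * k - 1) = 2 * (8 * k + 1) * (16 * k) := by ring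
    have e4 : (24 * (k : ℚ) + 1 - 3 * (4 * k + 1)) / (24 * k + 1 - 3 * (4 * k)) =
        2 * (6 * k - 1) / (12 * k + 1) := by
      congr 1
      · ring
      · ring
    rw [e2, e3, e4]
    field_simp
    ring
  rw [e1]
  have ho1 : Odd (5 * (20 * (k : ℤ) + 1) * (6 * k - 1)) := by
    refine (Odd.mul (Odd.mul (by decide) ⟨10 * k, by ring⟩) ⟨3 * k - 1, by ring⟩)
  have ho2 : Odd (8 * (k : ℤ) + 1) := ⟨4 * k, by ring⟩
  refine ⟨by simpa using (VG_int (5 * (20 * (k : ℤ) + 1) * (6 * k - 1))).mul (f7_VG_odd _ ho2), ?_⟩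
  intro h
  have h1 := h.mul (VG_int (8 * (k : ℤ) + 1))
  have h2 : ((8 * (k : ℤ) + 1 : ℤ) : ℚ) ≠ 0 := by
    have : (8 * (k : ℤ) + 1) ≠ 0 := by positivity
    exact_mod_cast this
  rw [mul_assoc, inv_mul_cancel₀ h2, mul_one] at h1
  rcases h1 with h1 | h1
  · have h3 : (5 * (20 * (k : ℤ) + 1) * (6 * k - 1)) = 0 := by exact_mod_cast h1
    rw [h3] at ho1
    exact absurd ho1 (by decide)
  · rw [padicValRat.of_int, padicValInt.eq_zero_of_not_dvd] at h1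
    · norm_num at h1
    · intro hdvd
      exact (Int.not_even_iff_odd.2 ho1) (even_iff_two_dvd.2 (by exact_mod_cast hdvd))

end Pool.Agent.Helper5.MD
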