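import Pool.Agent.Helper5.MD.VGBasic
import Pool.Agent.Helper5.MD.VBinom
import Pool.Agent.Helper5.MD3.R0Defs

/-!
# MR-F8 : upper triangular factor for `κ = 3 * 2^m + 1`, `ε = true`

Compare `MD2/P3Mu.lean`.  Put `b = j - w`, `h' = (b + 1) / 2`, `h = b / 2`.
`UU true κ w j = ± ∏_(t < b) (w + t + 1) (w - t) (2 κ - 3 w - t) / (2 (2 κ - 2 w - 2 t - 1) (t + 1) (κ - 2 w - 1 - t))` (the prefactors cancel).
`κ - 2 w - 1 - t = 3 * 2^m - 2 w - t` is odd for odd `t`, and for `t = 2 u` it is `2 (3 * 2^(m-1) - y)`, `y = w + u`; `v2 (3 * 2^(m-1) - y) ≤ v2 y` unless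
`y = 2^(m-1)` (`m` instead of `m - 1`).  Among the `2 b` consecutive numbers `w - b + 1 .. w + b` cancel `w + u`, `u < h'`; there remain `w - b + 1 .. w - 1` (divisible by `(b-1)!`) and
`w + h' .. w + b` (divisible by `(h+1)!`); `∏ (2 κ - 3 w - t)` is divisible by `b!`.  So
`v2 (2^(2b) UU) ≥ 2 b - b - v2 (b!) - h' + v2 ((b-1)!) + v2 ((h+1)!) + v2 (b!) - δ = h + v2 ((b-1)!) + v2 ((h+1)!) - δ`, which is `≥ 1` for `b ≥ 2`.
`b = 1`: it equals `v2 (w + 1) + v2 (2 κ - 3 w) + v2 w - v2 (3 * 2^(m-1) - w)`: `w` odd: first term `≥ 1`, `δ = 0`; `w` even: second term `≥ 1`; for `w = 2^(m-1)`: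
`2 κ - 3 w = 9 * 2^(m-1) + 2` has valuation `1`, `w + 1` is odd, total `0`.
-/

open scoped Nat

namespace Pool.Agent.Helper5.MD

theorem VG.div_f8 {x y : ℚ} {n k : ℤ} (hx : VG (n + k) x) (hy : y ≠ 0)
    (hk : padicValRat 2 y ≤ k) : VG n (x / y) := by
  rcases hx with hx | hx
  · left
    rw [hx, zero_div]
  · by_cases h0 : x = 0
    · left
      rw [h0, zero_div]
    · right
      rw [padicValRat.div h0 hy]
      omega

theorem f8_odd {x : ℕ} (h : Odd x) : padicValNat 2 x = 0 :=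
  padicValNat.eq_zero_of_not_dvd fun hd => (Nat.not_even_iff_odd.2 h) (even_iff_two_dvd.2 hd)

theorem f8_pow_mul {a z : ℕ} (h : Odd z) : padicValNat 2 (2 ^ a * z) = a := by
  have h2 : Fact (Nat.Prime 2) := ⟨Nat.prime_two⟩
  rw [padicValNat.mul (by positivity) h.pos.ne', f8_odd h, padicValNat.prime_pow, add_zero]

theorem f8_val_pos (n y : ℕ) (hy : 0 < y) (hyM : y < 3 * 2 ^ n) (hne : y ≠ 2 ^ n) :
    padicValNat 2 (3 * 2 ^ n - y) ≤ padicValNat 2 y := by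
  obtain ⟨a, z, hz, rfl⟩ := Nat.exists_eq_two_pow_mul_odd (n := y) (by omega)
  rw [f8_pow_mul hz]
  rcases lt_trichotomy a n with h | h | h
  · obtain ⟨c, rfl⟩ : ∃ c, n = a + (c + 1) := ⟨n - a - 1, by omega⟩
    have e1 : 3 * 2 ^ (a + (c + 1)) - 2 ^ a * z = 2 ^ a * (3 * 2 ^ (c + 1) - z) := by
      rw [pow_add, Nat.mul_sub]
      congr 1
      ring
    have hlt : z < 3 * 2 ^ (c + 1) := by
      have : 2 ^ a * z < 2 ^ a * (3 * 2 ^ (c + 1)) := by
        rw [pow_add] at hyM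
        linarith
      exact lt_of_mul_lt_mul_left this (Nat.zero_le _)
    have hodd : Odd (3 * 2 ^ (c + 1) - z) := by
      apply Nat.Even.sub_odd hlt.le _ hz
      exact ⟨3 * 2 ^ c, by ring⟩
    rw [e1, f8_pow_mul hodd]
  · subst h
    exfalso
    have h1 : z < 3 := by
      have : 2 ^ a * z < 2 ^ a * 3 := by linarith
      exact lt_of_mul_lt_mul_left this (Nat.zero_le _)
    have h3 : z = 1 := by
      rcases hz with ⟨k, hk⟩
      omega
    rw [h3, mul_one] at hne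
    exact hne rfl
  · obtain ⟨c, rfl⟩ : ∃ c, a = n + (c + 1) := ⟨a - n - 1, by omega⟩
    have h1 : 2 ^ (c + 1) * z < 3 := by
      have : 2 ^ n * (2 ^ (c + 1) * z) < 2 ^ n * 3 := by
        rw [pow_add] at hyM
        linarith
      exact lt_of_mul_lt_mul_left this (Nat.zero_le _)
    have hzp := hz.pos
    have h4 : c = 0 := by
      by_contra hc
      have : 2 ^ 2 ≤ 2 ^ (c + 1) := Nat.pow_le_pow_right (by norm_num) (by omega)
      nlinarith
    subst h4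
    have h5 : z = 1 := by omega
    subst h5
    have e1 : 3 * 2 ^ n - 2 ^ (n + (0 + 1)) * 1 = 2 ^ n * 1 := by
      rw [pow_add]
      omega
    rw [e1, f8_pow_mul odd_one]
    omega

theorem f8_val (n y : ℕ) (hy : 0 < y) (hyM : y < 3 * 2 ^ n) :
    padicValNat 2 (3 * 2 ^ n - y) ≤ padicValNat 2 y + (if y = 2 ^ n then 1 else 0) := by
  split_ifs with h
  · subst h
    have h2 : Fact (Nat.Prime 2) := ⟨Nat.prime_two⟩
    have e1 : 3 * 2 ^ n - 2 ^ n = 2 ^ (n + 1) := by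
      rw [pow_succ]
      omega
    rw [e1, padicValNat.prime_pow, padicValNat.prime_pow]
  · exact f8_val_pos n y hy hyM h

theorem f8_val_desc (n w b : ℕ) (hw : 1 ≤ w) (hb : w + b ≤ 3 * 2 ^ n) :
    padicValNat 2 ((2 * (3 * 2 ^ n) - 2 * w).descFactorial b) ≤
      (b + 1) / 2 + padicValNat 2 (w.ascFactorial ((b + 1) / 2)) +
        (if w ≤ 2 ^ n ∧ 2 ^ n < w + (b + 1) / 2 then 1 else 0) := by
  have h2 : Fact (Nat.Prime 2) := ⟨Nat.prime_two⟩
  induction b with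
  | zero => simp
  | succ b ih =>
    have ih' := ih (by omega)
    have hne : (2 * (3 * 2 ^ n) - 2 * w).descFactorial b ≠ 0 := by
      rw [Ne, Nat.descFactorial_eq_zero_iff_lt]
      omega
    have hf : 2 * (3 * 2 ^ n) - 2 * w - b ≠ 0 := by omega
    rw [Nat.descFactorial_succ, padicValNat.mul hf hne]
    rcases Nat.even_or_odd' b with ⟨h, rfl | rfl⟩
    · have e1 : (2 * h + 1 + 1) / 2 = h + 1 := by omega
      have e2 : (2 * h + 1) / 2 = h := by omega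
      have e3 : 2 * (3 * 2 ^ n) - 2 * w - 2 * h = 2 * (3 * 2 ^ n - (w + h)) := by omega
      rw [e2] at ih'
      obtain ⟨w', rfl⟩ : ∃ w', w = w' + 1 := ⟨w - 1, by omega⟩
      rw [e1, e3, padicValNat.mul (by norm_num) (by omega), padicValNat_self,
        Nat.ascFactorial_succ, padicValNat.mul (by omega) (Nat.ascFactorial_pos _ _).ne']
      have h3 := f8_val n (w' + 1 + h) (by omega) (by omega)
      split_ifs at h3 ih' ⊢ <;> omega
    · have e1 : (2 * h + 1 + 1 + 1) / 2 = h + 1 := by omega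
      have e2 : (2 * h + 1 + 1) / 2 = h + 1 := by omega
      rw [e2] at ih'
      rw [e1, padicValNat.eq_zero_of_not_dvd (n := 2 * (3 * 2 ^ n) - 2 * w - (2 * h + 1)) (by omega),
        zero_add]
      exact ih'

theorem f8_UU (κ w b : ℕ) (h2 : 3 * (w + b) < 2 * κ) :
    UU true (κ : ℚ) w (w + b) = ∏ t ∈ Finset.range b,
      (-((w : ℚ) + t + 1) * (w - t) * (2 * κ - 3 * w - t) /
        (2 * (2 * (κ : ℚ) - 2 * w - 2 * t - 1) * (t + 1) * ((κ : ℚ) - 2 * w - 1 - t))) := by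
  have hX : (2 * (κ : ℚ) - 3 * w) ≠ 0 := by
    have h4 : (3 * w : ℚ) < 2 * κ := by exact_mod_cast (by omega : 3 * w < 2 * κ)
    intro h
    linarith
  have hY : (2 * (κ : ℚ) - 3 * ((w + b : ℕ) : ℚ)) ≠ 0 := by
    have h4 : (3 * (w + b : ℕ) : ℚ) < 2 * κ := by exact_mod_cast h2
    intro h
    linarith
  have hprod : ∏ v ∈ Finset.Ico w (w + b),
      (-((v : ℚ) + 1) * (2 * w - v) * (2 * κ - 2 * w - v) /
      (2 * (2 * κ - 2 * v - 1) * (v - w + 1) * (κ - w - v - 1))) =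
      ∏ t ∈ Finset.range b,
      (-((w : ℚ) + t + 1) * (w - t) * (2 * κ - 3 * w - t) /
        (2 * (2 * (κ : ℚ) - 2 * w - 2 * t - 1) * (t + 1) * ((κ : ℚ) - 2 * w - 1 - t))) := by
    rw [Finset.prod_Ico_eq_prod_range, Nat.add_sub_cancel_left]
    apply Finset.prod_congr rfl
    intro t _
    congr 1
    · push_cast
      ring
    · push_cast
      ring
  have hmu : mu (κ : ℚ) w (w + b) = (2 * (κ : ℚ) - 3 * ((w + b : ℕ) : ℚ)) /
      (2 * κ - 3 * w) * (∏ v ∈ Finset.Ico w (w + b),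
      (-((v : ℚ) + 1) * (2 * w - v) * (2 * κ - 2 * w - v) /
      (2 * (2 * κ - 2 * v - 1) * (v - w + 1) * (κ - w - v - 1)))) := by
    unfold mu
    rw [if_pos (Nat.le_add_right w b)]
  simp only [UU, if_true]
  rw [hmu, hprod]
  field_simp

/-- the product as a quotient of natural numbers -/
theorem f8_prod (M w b : ℕ) (hb : w + b ≤ M) :
    ∏ t ∈ Finset.range b,
      (-((w : ℚ) + t + 1) * (w - t) * (2 * ((2 * M + 1 : ℕ) : ℚ) - 3 * w - t) /
        (2 * (2 * ((2 * M + 1 : ℕ) : ℚ) - 2 * w - 2 * t - 1) * (t + 1) *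
          (((2 * M + 1 : ℕ) : ℚ) - 2 * w - 1 - t))) =
      ((-1) ^ b * (((w + 1).ascFactorial b * w.descFactorial b *
        (2 * (2 * M + 1) - 3 * w).descFactorial b : ℕ) : ℚ)) /
      (((2 ^ b * (∏ t ∈ Finset.range b, (2 * (2 * M + 1) - 2 * w - 2 * t - 1)) * b ! *
        (2 * M - 2 * w).descFactorial b : ℕ)) : ℚ) := by
  have e1 : ∏ t ∈ Finset.range b, ((w : ℚ) + t + 1) = (((w + 1).ascFactorial b : ℕ) : ℚ) := by
    rw [Nat.ascFactorial_eq_prod_range, Nat.cast_prod]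
    apply Finset.prod_congr rfl
    intro t _
    push_cast
    ring
  have e2 : ∏ t ∈ Finset.range b, ((w : ℚ) - t) = ((w.descFactorial b : ℕ) : ℚ) := by
    rw [← descPochhammer_eval_eq_descFactorial, descPochhammer_eval_eq_prod_range]
  have e2' : ∏ t ∈ Finset.range b, (2 * ((2 * M + 1 : ℕ) : ℚ) - 3 * w - t) =
      (((2 * (2 * M + 1) - 3 * w).descFactorial b : ℕ) : ℚ) := by
    rw [← descPochhammer_eval_eq_descFactorial, descPochhammer_eval_eq_prod_range]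
    apply Finset.prod_congr rfl
    intro t _
    have : ((2 * (2 * M + 1) - 3 * w : ℕ) : ℚ) = 2 * ((2 * M + 1 : ℕ) : ℚ) - 3 * w := by
      rw [Nat.cast_sub (by omega)]
      push_cast
      ring
    rw [this]
  have e3 : ∏ t ∈ Finset.range b, (((2 * M + 1 : ℕ) : ℚ) - 2 * w - 1 - t) =
      (((2 * M - 2 * w).descFactorial b : ℕ) : ℚ) := by
    rw [← descPochhammer_eval_eq_descFactorial, descPochhammer_eval_eq_prod_range]
    apply Finset.prod_congr rfl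
    intro t _
    have : ((2 * M - 2 * w : ℕ) : ℚ) = ((2 * M + 1 : ℕ) : ℚ) - 2 * w - 1 := by
      rw [Nat.cast_sub (by omega)]
      push_cast
      ring
    rw [this]
  have e4 : ∏ t ∈ Finset.range b, ((t : ℚ) + 1) = ((b ! : ℕ) : ℚ) := by
    rw [← Finset.prod_range_add_one_eq_factorial, Nat.cast_prod]
    apply Finset.prod_congr rfl
    intro t _
    push_cast
    ring
  have e5 : ∏ t ∈ Finset.range b, (2 * ((2 * M + 1 : ℕ) : ℚ) - 2 * w - 2 * t - 1) =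
      ((∏ t ∈ Finset.range b, (2 * (2 * M + 1) - 2 * w - 2 * t - 1) : ℕ) : ℚ) := by
    rw [Nat.cast_prod]
    apply Finset.prod_congr rfl
    intro t ht
    have ht' := Finset.mem_range.1 ht
    rw [Nat.sub_sub, Nat.sub_sub, Nat.cast_sub (by omega)]
    push_cast
    ring
  rw [Finset.prod_div_distrib]
  congr 1
  · rw [Nat.cast_mul, Nat.cast_mul, ← e1, ← e2, ← e2']
    have : ((-1 : ℚ)) ^ b = ∏ _t ∈ Finset.range b, (-1 : ℚ) := by
      rw [Finset.prod_const, Finset.card_range]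
    rw [this, ← Finset.prod_mul_distrib, ← Finset.prod_mul_distrib, ← Finset.prod_mul_distrib]
    apply Finset.prod_congr rfl
    intro t _
    ring
  · rw [Nat.cast_mul, Nat.cast_mul, Nat.cast_mul, ← e3, ← e4, ← e5]
    have : (((2 ^ b : ℕ)) : ℚ) = ∏ _t ∈ Finset.range b, (2 : ℚ) := by
      rw [Finset.prod_const, Finset.card_range]
      push_cast
      rfl
    rw [this, ← Finset.prod_mul_distrib, ← Finset.prod_mul_distrib, ← Finset.prod_mul_distrib]

theorem f8_dvd (w b : ℕ) (hw : 1 ≤ w) (hb : 2 ≤ b) : ∃ Z : ℕ,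
    (w + 1).ascFactorial b * w.descFactorial b = w.ascFactorial ((b + 1) / 2) * (2 * Z) := by
  obtain ⟨w', rfl⟩ : ∃ w', w = w' + 1 := ⟨w - 1, by omega⟩
  obtain ⟨b', rfl⟩ : ∃ b', b = b' + 1 := ⟨b - 1, by omega⟩
  have h1 : (w' + 1) * (w' + 1 + 1).ascFactorial (b' + 1) = (w' + 1).ascFactorial (b' + 1 + 1) :=
    (Nat.succ_ascFactorial (w' + 1) (b' + 1)).trans Nat.ascFactorial_succ.symm
  have h2 : (w' + 1).ascFactorial ((b' + 1 + 1) / 2) *
      (w' + 1 + (b' + 1 + 1) / 2).ascFactorial (b' + 1 + 1 - (b' + 1 + 1) / 2) =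
      (w' + 1).ascFactorial (b' + 1 + 1) := by
    rw [Nat.ascFactorial_mul_ascFactorial]
    congr 1
    omega
  have h3 : 2 ∣ (w' + 1 + (b' + 1 + 1) / 2).ascFactorial (b' + 1 + 1 - (b' + 1 + 1) / 2) := by
    refine dvd_trans ?_ (Nat.factorial_dvd_ascFactorial _ _)
    exact Nat.dvd_factorial (by norm_num) (by omega)
  obtain ⟨Z, hZ⟩ := h3
  refine ⟨Z * w'.descFactorial b', ?_⟩
  rw [Nat.succ_descFactorial_succ]
  calc (w' + 1 + 1).ascFactorial (b' + 1) * ((w' + 1) * w'.descFactorial b')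
      = ((w' + 1) * (w' + 1 + 1).ascFactorial (b' + 1)) * w'.descFactorial b' := by ring
    _ = _ := by
      rw [h1, ← h2, hZ]
      ring

theorem f8_nat {x : ℕ} : VG (padicValNat 2 x : ℤ) (x : ℚ) := by
  right
  rw [padicValRat.of_nat]

theorem f8_main (n w b : ℕ) (hw : 1 ≤ w) (hb2 : 2 ≤ b) (hb : w + b ≤ 3 * 2 ^ n) :
    VG 1 (2 ^ (2 * (b : ℤ)) * UU true ((2 * (3 * 2 ^ n) + 1 : ℕ) : ℚ) w (w + b)) := by
  have h2 : Fact (Nat.Prime 2) := ⟨Nat.prime_two⟩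
  rw [f8_UU _ w b (by omega), f8_prod (3 * 2 ^ n) w b hb, ← mul_div_assoc]
  set M := 3 * 2 ^ n with hM
  have hD1odd : ¬ 2 ∣ ∏ t ∈ Finset.range b, (2 * (2 * M + 1) - 2 * w - 2 * t - 1) := by
    rw [Prime.dvd_finsetProd_iff Nat.prime_two.prime]
    rintro ⟨t, ht, hd⟩
    have ht' := Finset.mem_range.1 ht
    omega
  have hD1ne : ∏ t ∈ Finset.range b, (2 * (2 * M + 1) - 2 * w - 2 * t - 1) ≠ 0 := fun h0 =>
    hD1odd (h0 ▸ dvd_zero 2)
  have hD3ne : (2 * M - 2 * w).descFactorial b ≠ 0 := by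
    rw [Ne, Nat.descFactorial_eq_zero_iff_lt]
    omega
  have hval : padicValRat 2 (((2 ^ b * (∏ t ∈ Finset.range b, (2 * (2 * M + 1) - 2 * w - 2 * t - 1)) *
        b ! * (2 * M - 2 * w).descFactorial b : ℕ)) : ℚ) ≤
      (b : ℤ) + padicValNat 2 (b !) +
        (((b + 1) / 2 : ℕ) + padicValNat 2 (w.ascFactorial ((b + 1) / 2)) + 1) := by
    rw [padicValRat.of_nat, padicValNat.mul (mul_ne_zero (mul_ne_zero (by positivity) hD1ne)
      (Nat.factorial_ne_zero b)) hD3ne, padicValNat.mul (mul_ne_zero (by positivity) hD1ne)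
      (Nat.factorial_ne_zero b), padicValNat.mul (by positivity) hD1ne,
      padicValNat.eq_zero_of_not_dvd hD1odd, padicValNat.prime_pow]
    have h3 := f8_val_desc n w b hw hb
    rw [← hM] at h3
    have h4 : (if w ≤ 2 ^ n ∧ 2 ^ n < w + (b + 1) / 2 then 1 else 0) ≤ 1 := by
      split_ifs <;> omega
    have h5 : b + 0 + padicValNat 2 (b !) + padicValNat 2 ((2 * M - 2 * w).descFactorial b) ≤
        b + padicValNat 2 (b !) +
          ((b + 1) / 2 + padicValNat 2 (w.ascFactorial ((b + 1) / 2)) + 1) := by omega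
    exact_mod_cast h5
  refine VG.div_f8 (k := (b : ℤ) + padicValNat 2 (b !) +
        (((b + 1) / 2 : ℕ) + padicValNat 2 (w.ascFactorial ((b + 1) / 2)) + 1)) ?_ ?_ hval
  · obtain ⟨Z, hZ⟩ := f8_dvd w b hw hb2
    obtain ⟨Y, hY⟩ := Nat.factorial_dvd_descFactorial (2 * (2 * M + 1) - 3 * w) b
    rw [hZ, hY]
    have v1 : VG (2 * (b : ℤ)) ((2 : ℚ) ^ (2 * (b : ℤ))) := VG_two_zpow _
    have v2 : VG 0 ((-1 : ℚ) ^ b) := by
      have := VG_int ((-1) ^ b)
      push_cast at this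
      exact this
    have v3 := f8_nat (x := w.ascFactorial ((b + 1) / 2))
    have v4 : VG 1 ((2 : ℕ) : ℚ) := by
      have := f8_nat (x := 2)
      rw [padicValNat_self] at this
      exact_mod_cast this
    have v5 : VG 0 ((Z : ℕ) : ℚ) := by
      have := VG_int (Z : ℤ)
      rwa [Int.cast_natCast] at this
    have v6 := f8_nat (x := b !)
    have v7 : VG 0 ((Y : ℕ) : ℚ) := by
      have := VG_int (Y : ℤ)
      rwa [Int.cast_natCast] at this
    have v8 := v1.mul (v2.mul ((v3.mul (v4.mul v5)).mul (v6.mul v7)))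
    rw [Nat.cast_mul, Nat.cast_mul, Nat.cast_mul, Nat.cast_mul]
    refine v8.mono ?_
    push_cast
    omega
  · exact_mod_cast mul_ne_zero (mul_ne_zero (mul_ne_zero (by positivity) hD1ne)
      (Nat.factorial_ne_zero b)) hD3ne

/-- the entry next to the diagonal -/
theorem f8_one (n w : ℕ) (hb : w + 1 ≤ 3 * 2 ^ n) :
    2 ^ 2 * UU true ((2 * (3 * 2 ^ n) + 1 : ℕ) : ℚ) w (w + 1) =
      -((((w + 1) * w * (2 * (2 * (3 * 2 ^ n) + 1) - 3 * w) : ℕ) : ℚ) /
        (((2 * (2 * (3 * 2 ^ n) + 1) - 2 * w - 1) * (3 * 2 ^ n - w) : ℕ) : ℚ)) := by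
  rw [f8_UU _ w 1 (by omega), Finset.prod_range_one]
  set M := 3 * 2 ^ n with hM
  have e1 : ((2 * (2 * M + 1) - 3 * w : ℕ) : ℚ) = 2 * (2 * (M : ℚ) + 1) - 3 * w := by
    rw [Nat.cast_sub (by omega)]
    push_cast
    ring
  have e2 : ((2 * (2 * M + 1) - 2 * w - 1 : ℕ) : ℚ) = 2 * (2 * (M : ℚ) + 1) - 2 * w - 1 := by
    rw [Nat.sub_sub, Nat.cast_sub (by omega)]
    push_cast
    ring
  have e3 : ((M - w : ℕ) : ℚ) = (M : ℚ) - w := by
    rw [Nat.cast_sub (by omega)]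
  rw [Nat.cast_mul, Nat.cast_mul, Nat.cast_mul, e1, e2, e3]
  have hw1 : (w : ℚ) + 1 ≤ M := by exact_mod_cast hb
  have h1 : (M : ℚ) - w ≠ 0 := by
    intro h
    linarith
  have h3 : 2 * (2 * (M : ℚ) + 1) - 2 * w - 1 ≠ 0 := by
    intro h
    have : (0 : ℚ) ≤ w := Nat.cast_nonneg w
    linarith
  have h4 : ((2 * M + 1 : ℕ) : ℚ) - 2 * w - 1 - ((0 : ℕ) : ℚ) = 2 * ((M : ℚ) - w) := by
    push_cast
    ring
  rw [h4]
  push_cast
  have h5 : 2 * (2 * (M : ℚ) + 1) - 2 * w - 2 * 0 - 1 ≠ 0 := by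
    simpa using h3
  rw [show 2 * (2 * (M : ℚ) + 1) - 2 * w - 2 * 0 - 1 = 2 * (2 * (M : ℚ) + 1) - 2 * w - 1 by ring]
  field_simp
  ring

theorem VG_UU_Tp (m w j : ℕ) (hm : 4 ≤ m) (hw : 1 ≤ w) (hwj : w < j) (h3 : 3 * w < 3 * 2 ^ m + 1)
    (h2 : 2 * j < 3 * 2 ^ m + 1) (hne : ¬ (w = 2 ^ (m - 1) ∧ j = w + 1)) :
    VG 1 (2 ^ (2 * (j : ℤ) - 2 * w) * UU true ((3 * 2 ^ m + 1 : ℕ) : ℚ) w j) := by
  have hf : Fact (Nat.Prime 2) := ⟨Nat.prime_two⟩
  obtain ⟨n, rfl⟩ : ∃ n, m = n + 1 := ⟨m - 1, by omega⟩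
  obtain ⟨b, rfl⟩ : ∃ b, j = w + b := ⟨j - w, by omega⟩
  have e0 : 3 * 2 ^ (n + 1) + 1 = 2 * (3 * 2 ^ n) + 1 := by ring
  have e1 : (2 * ((w + b : ℕ) : ℤ) - 2 * w) = 2 * (b : ℤ) := by
    push_cast
    ring
  have hb : w + b ≤ 3 * 2 ^ n := by
    rw [e0] at h2
    omega
  rw [e0, e1]
  rcases (by omega : b = 1 ∨ 2 ≤ b) with rfl | hb2
  · have hne' : w ≠ 2 ^ n := fun h => hne ⟨by rw [Nat.add_sub_cancel]; exact h, rfl⟩
    have e2 : (2 : ℚ) ^ (2 * ((1 : ℕ) : ℤ)) = 2 ^ 2 := by norm_num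
    rw [e2, f8_one n w hb]
    apply VG.neg
    have hMw : 3 * 2 ^ n - w ≠ 0 := by omega
    have hD : Odd (2 * (2 * (3 * 2 ^ n) + 1) - 2 * w - 1) := by
      rw [Nat.odd_iff]
      omega
    have h4 : 1 + padicValNat 2 w ≤
        padicValNat 2 ((w + 1) * w * (2 * (2 * (3 * 2 ^ n) + 1) - 3 * w)) := by
      rw [padicValNat.mul (by positivity) (by omega), padicValNat.mul (by omega) (by omega)]
      rcases Nat.even_or_odd w with he | ho
      · have : 1 ≤ padicValNat 2 (2 * (2 * (3 * 2 ^ n) + 1) - 3 * w) := by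
          refine one_le_padicValNat_of_dvd (by omega) ?_
          rcases he with ⟨c, hc⟩
          omega
        omega
      · have : 1 ≤ padicValNat 2 (w + 1) := by
          refine one_le_padicValNat_of_dvd (by omega) ?_
          rcases ho with ⟨c, hc⟩
          omega
        omega
    refine VG.div_f8 (k := (padicValNat 2 w : ℤ)) ?_ ?_ ?_
    · refine (f8_nat (x := (w + 1) * w * (2 * (2 * (3 * 2 ^ n) + 1) - 3 * w))).mono ?_
      exact_mod_cast h4
    · exact_mod_cast mul_ne_zero hD.pos.ne' hMw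
    · rw [padicValRat.of_nat, padicValNat.mul hD.pos.ne' hMw, f8_odd hD, zero_add]
      exact_mod_cast f8_val_pos n w (by omega) (by omega) hne'
  · exact f8_main n w b hw hb2 hb

theorem Un_UU_Tp (m w : ℕ) (hm : 4 ≤ m) (hw : w = 2 ^ (m - 1)) :
    Un (2 ^ 2 * UU true ((3 * 2 ^ m + 1 : ℕ) : ℚ) w (w + 1)) := by
  have hf : Fact (Nat.Prime 2) := ⟨Nat.prime_two⟩
  obtain ⟨n, rfl⟩ : ∃ n, m = n + 3 := ⟨m - 3, by omega⟩
  have e0 : 3 * 2 ^ (n + 3) + 1 = 2 * (3 * 2 ^ (n + 2)) + 1 := by ring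
  rw [show n + 3 - 1 = n + 2 by omega] at hw
  have hpos : 1 ≤ 2 ^ n := Nat.one_le_two_pow
  have h4w : w = 4 * 2 ^ n := by
    rw [hw]
    ring
  have hM : 3 * 2 ^ (n + 2) = 3 * w := by rw [hw]
  have hb : w + 1 ≤ 3 * 2 ^ (n + 2) := by omega
  rw [e0, f8_one (n + 2) w hb, hM]
  have hA0 : (w + 1) * w * (2 * (2 * (3 * w) + 1) - 3 * w) ≠ 0 :=
    mul_ne_zero (mul_ne_zero (by omega) (by omega)) (by omega)
  have hB0 : (2 * (2 * (3 * w) + 1) - 2 * w - 1) * (3 * w - w) ≠ 0 :=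
    mul_ne_zero (by omega) (by omega)
  have hA : (((w + 1) * w * (2 * (2 * (3 * w) + 1) - 3 * w) : ℕ) : ℚ) ≠ 0 :=
    Nat.cast_ne_zero.2 hA0
  have hB : (((2 * (2 * (3 * w) + 1) - 2 * w - 1) * (3 * w - w) : ℕ) : ℚ) ≠ 0 :=
    Nat.cast_ne_zero.2 hB0
  have hne : -((((w + 1) * w * (2 * (2 * (3 * w) + 1) - 3 * w) : ℕ) : ℚ) /
        (((2 * (2 * (3 * w) + 1) - 2 * w - 1) * (3 * w - w) : ℕ) : ℚ)) ≠ 0 := by
    rw [neg_ne_zero]
    exact div_ne_zero hA hB
  have hD : Odd (2 * (2 * (3 * w) + 1) - 2 * w - 1) := by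
    rw [Nat.odd_iff]
    omega
  have hw1 : Odd (w + 1) := by
    rw [Nat.odd_iff]
    omega
  have h9 : 2 * (2 * (3 * w) + 1) - 3 * w = 2 ^ 1 * (18 * 2 ^ n + 1) := by omega
  have h9o : Odd (18 * 2 ^ n + 1) := by
    rw [Nat.odd_iff]
    omega
  have h8 : 3 * w - w = 2 ^ (n + 3) := by
    rw [h4w, pow_add]
    omega
  have hval : padicValRat 2 (-((((w + 1) * w * (2 * (2 * (3 * w) + 1) - 3 * w) : ℕ) : ℚ) /
        (((2 * (2 * (3 * w) + 1) - 2 * w - 1) * (3 * w - w) : ℕ) : ℚ))) = 0 := by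
    rw [padicValRat.neg, padicValRat.div hA hB, padicValRat.of_nat, padicValRat.of_nat,
      padicValNat.mul (mul_ne_zero (by omega) (by omega)) (by omega),
      padicValNat.mul (by omega) (by omega), padicValNat.mul (by omega) (by omega),
      f8_odd hD, f8_odd hw1, h9, f8_pow_mul h9o, h8, padicValNat.prime_pow]
    rw [hw, padicValNat.prime_pow]
    push_cast
    ring
  constructor
  · exact Or.inr hval.ge
  · rintro (h | h)
    · exact hne h
    · rw [hval] at h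
      omega

end Pool.Agent.Helper5.MD
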