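import Pool.Agent.Helper5.MD.V5Pivot
import Pool.Agent.Helper5.MD3.R0Defs

/-!
# MR-F9 : pivots for `κ = 3 * 2^m + 1`, `ε = true`

Compare `MD2/P6Piv.lean`.  For `3 (w + 1) < κ` (so `w + 1 ≤ 2^m`):
`v2 (PS (w+1)) - v2 (PS w) = 2 + v2 ((κ-3w-1)(κ-3w-2)(κ-3w-3)) + v2 ((2κ-3w)(2κ-3w-1)(2κ-3w-2)) - v2 (κ-2w) - 2 v2 (κ-2w-1) - v2 (κ-2w-2)`.
`κ - 3 w - j = 3 * 2^m - (3w-1+j)`, `2 κ - 3 w - j = 6 * 2^m - (3w-2+j)`, `κ - 2 w - 1 = 2 (3 * 2^(m-1) - w)`, `κ - 2 w`, `κ - 2 w - 2` odd.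
`v2 (3 * 2^m - 3 w) = v2 (2^m - w) = v2 w`, `v2 (6 * 2^m - 3 w) = v2 w`, and `v2 (3 * 2^(m-1) - w) = v2 w` except for `w = 2^(m-1)`, where it is `m`
instead of `m - 1`.  So the difference is
`v2 (3*2^m-(3w+1)) + v2 (3*2^m-(3w+2)) + v2 (6*2^m-(3w-2)) + v2 (6*2^m-(3w-1)) - 2 [w = 2^(m-1)]`,
`≥ 2` if `w ≠ 2^(m-1)` (exactly two of the four numbers are even), and `1 + 1 - 2 = 0` for `w = 2^(m-1)`.
-/

open scoped Nat

namespace Pool.Agent.Helper5.MD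

private theorem f9_sub (m y : ℕ) (hy : 0 < y) (h : y < 2 ^ m) :
    padicValNat 2 (2 ^ m - y) = padicValNat 2 y := by
  obtain ⟨a, b, hb, rfl⟩ := Nat.exists_eq_two_pow_mul_odd hy.ne'
  have hb0 : 0 < b := hb.pos
  have ham : a < m := by
    by_contra hcon
    have h1 : 2 ^ m ≤ 2 ^ a := Nat.pow_le_pow_right (by norm_num) (by omega)
    have h2 : 2 ^ a * 1 ≤ 2 ^ a * b := Nat.mul_le_mul_left _ hb0
    omega
  obtain ⟨d, rfl⟩ : ∃ d, m = a + (d + 1) := ⟨m - a - 1, by omega⟩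
  have hlt : b < 2 ^ (d + 1) := by
    rw [pow_add] at h
    exact Nat.lt_of_mul_lt_mul_left h
  have e : 2 ^ (a + (d + 1)) - 2 ^ a * b = 2 ^ a * (2 ^ (d + 1) - b) := by
    rw [pow_add, Nat.mul_sub]
  have hodd : Odd (2 ^ (d + 1) - b) := by
    obtain ⟨c, hc⟩ := hb
    refine ⟨2 ^ d - c - 1, ?_⟩
    have h3 : 2 ^ (d + 1) = 2 * 2 ^ d := by rw [pow_succ]; ring
    omega
  have hv : ∀ c : ℕ, Odd c → padicValNat 2 (2 ^ a * c) = a := by
    intro c hc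
    rw [padicValNat.mul (by positivity) hc.pos.ne', padicValNat.prime_pow,
      padicValNat.eq_zero_of_not_dvd (fun hd => (Nat.not_even_iff_odd.2 hc)
        (even_iff_two_dvd.2 hd)), add_zero]
  rw [e, hv _ hodd, hv _ hb]

private theorem f9_vf2 : padicValNat 2 (2 !) = 1 := by
  rw [Nat.factorial_two]
  exact padicValNat_self

private theorem f9_three : padicValNat 2 3 = 0 :=
  padicValNat.eq_zero_of_not_dvd (by norm_num)

private theorem f9_vf3 : padicValNat 2 (3 !) = 1 := by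
  rw [Nat.factorial_succ, padicValNat.mul (by norm_num) (Nat.factorial_ne_zero _), f9_vf2,
    f9_three]

private theorem f9_C2 (n : ℕ) (h : 2 ≤ n) :
    vC n 2 + 1 = padicValNat 2 n + padicValNat 2 (n - 1) := by
  have h1 : n.descFactorial 2 = n * (n - 1) := by
    rw [Nat.descFactorial_succ, Nat.descFactorial_succ, Nat.descFactorial_zero, mul_one,
      Nat.sub_zero, mul_comm]
  have h2 := Nat.descFactorial_eq_factorial_mul_choose n 2
  rw [h1] at h2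
  have h3 := congrArg (padicValNat 2) h2
  rw [padicValNat.mul (by omega) (by omega), padicValNat.mul (Nat.factorial_ne_zero _)
    (Nat.choose_pos h).ne', f9_vf2] at h3
  unfold vC
  omega

private theorem f9_C3 (n : ℕ) (h : 3 ≤ n) :
    vC n 3 + 1 = padicValNat 2 n + padicValNat 2 (n - 1) + padicValNat 2 (n - 2) := by
  have h1 : n.descFactorial 3 = n * (n - 1) * (n - 2) := by
    rw [Nat.descFactorial_succ, Nat.descFactorial_succ, Nat.descFactorial_succ,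
      Nat.descFactorial_zero, mul_one, Nat.sub_zero]
    ring
  have h2 := Nat.descFactorial_eq_factorial_mul_choose n 3
  rw [h1] at h2
  have h3 := congrArg (padicValNat 2) h2
  rw [padicValNat.mul (mul_ne_zero (by omega) (by omega)) (by omega),
    padicValNat.mul (by omega) (by omega), padicValNat.mul (Nat.factorial_ne_zero _)
    (Nat.choose_pos h).ne', f9_vf3] at h3
  unfold vC
  omega

private theorem f9_two_mul (x : ℕ) (hx : 0 < x) : padicValNat 2 (2 * x) = 1 + padicValNat 2 x := by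
  rw [padicValNat.mul (by norm_num) hx.ne', padicValNat_self]

private theorem f9_three_mul (x : ℕ) (hx : 0 < x) : padicValNat 2 (3 * x) = padicValNat 2 x := by
  rw [padicValNat.mul (by norm_num) hx.ne', f9_three, zero_add]

private theorem f9_odd (x : ℕ) : padicValNat 2 (2 * x + 1) = 0 :=
  padicValNat.eq_zero_of_not_dvd (by omega)

private theorem f9_hsub (m w : ℕ) (hm : 4 ≤ m) (hw0 : 1 ≤ w) (hlt : w < 2 ^ m)
    (hne : w ≠ 2 ^ (m - 1)) : padicValNat 2 (3 * 2 ^ (m - 1) - w) = padicValNat 2 w := by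
  obtain ⟨a, b, hb, rfl⟩ := Nat.exists_eq_two_pow_mul_odd (show w ≠ 0 by omega)
  have hb0 : 0 < b := hb.pos
  have ham : a < m - 1 := by
    by_contra hcon
    obtain ⟨c, rfl⟩ : ∃ c, a = (m - 1) + c := ⟨a - (m - 1), by omega⟩
    have hm2 : 2 ^ m = 2 * 2 ^ (m - 1) := by
      obtain ⟨d, rfl⟩ : ∃ d, m = d + 1 := ⟨m - 1, by omega⟩
      rw [pow_succ]
      simp only [Nat.add_sub_cancel]
      ring
    have hpos : 0 < 2 ^ (m - 1) := by positivity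
    rw [hm2, pow_add, mul_assoc, mul_comm 2 (2 ^ (m - 1))] at hlt
    have h1 : 2 ^ c * b < 2 := Nat.lt_of_mul_lt_mul_left hlt
    have h2 : 0 < 2 ^ c * b := by positivity
    have h3 : 2 ^ c * b = 1 := by omega
    apply hne
    rw [pow_add, mul_assoc, h3, mul_one]
  obtain ⟨d, hd⟩ : ∃ d, m - 1 = a + (d + 1) := ⟨m - 1 - a - 1, by omega⟩
  have hm2 : 2 ^ m = 2 * 2 ^ (m - 1) := by
    obtain ⟨d, rfl⟩ : ∃ d, m = d + 1 := ⟨m - 1, by omega⟩
    rw [pow_succ]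
    simp only [Nat.add_sub_cancel]
    ring
  have hlt2 : b < 3 * 2 ^ (d + 1) := by
    rw [hm2, hd, pow_add] at hlt
    have h4 : 2 ^ a * b < 2 ^ a * (2 * 2 ^ (d + 1)) := by
      calc 2 ^ a * b < 2 * (2 ^ a * 2 ^ (d + 1)) := hlt
        _ = _ := by ring
    have h5 := Nat.lt_of_mul_lt_mul_left h4
    omega
  have e : 3 * 2 ^ (m - 1) - 2 ^ a * b = 2 ^ a * (3 * 2 ^ (d + 1) - b) := by
    rw [hd, pow_add, Nat.mul_sub]
    congr 1
    ring
  have hodd : Odd (3 * 2 ^ (d + 1) - b) := by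
    obtain ⟨c, hc⟩ := hb
    refine ⟨3 * 2 ^ d - c - 1, ?_⟩
    have h3 : 2 ^ (d + 1) = 2 * 2 ^ d := by rw [pow_succ]; ring
    omega
  have hv : ∀ c : ℕ, Odd c → padicValNat 2 (2 ^ a * c) = a := by
    intro c hc
    rw [padicValNat.mul (by positivity) hc.pos.ne', padicValNat.prime_pow,
      padicValNat.eq_zero_of_not_dvd (fun hd => (Nat.not_even_iff_odd.2 hc)
        (even_iff_two_dvd.2 hd)), add_zero]
  rw [e, hv _ hodd, hv _ hb]

/-- the step -/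
private theorem f9_step (m w : ℕ) (hm : 4 ≤ m) (hw : 1 ≤ w) (h : 3 * (w + 1) < 3 * 2 ^ m + 1) :
    padicValRat 2 (PS true ((3 * 2 ^ m + 1 : ℕ) : ℚ) (w + 1)) +
        2 * (padicValNat 2 (3 * 2 ^ (m - 1) - w) : ℤ) =
      padicValRat 2 (PS true ((3 * 2 ^ m + 1 : ℕ) : ℚ) w) + 2 * (padicValNat 2 w : ℤ) +
        (padicValNat 2 (3 * 2 ^ m - 3 * w - 1) : ℤ) + (padicValNat 2 (3 * 2 ^ m - 3 * w - 2) : ℤ) +
        (padicValNat 2 (6 * 2 ^ m + 2 - 3 * w) : ℤ) +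
        (padicValNat 2 (6 * 2 ^ m + 1 - 3 * w) : ℤ) := by
  have hs := padicVal_PS true (3 * 2 ^ m + 1) w 1 hw h
  have hm2 : 2 ^ m = 2 * 2 ^ (m - 1) := by
    obtain ⟨d, rfl⟩ : ∃ d, m = d + 1 := ⟨m - 1, by omega⟩
    rw [pow_succ]
    simp only [Nat.add_sub_cancel]
    ring
  have hp : (2 : ℕ) ^ (m + 1) = 2 * 2 ^ m := by rw [pow_succ]; ring
  have hwM : w < 2 ^ m := by omega
  have c1 := f9_C2 (3 * 2 ^ m + 1 - 2 * w) (by omega)
  have c2 := f9_C2 (3 * 2 ^ m + 1 - 2 * w - 1) (by omega)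
  have o1 : padicValNat 2 (3 * 2 ^ m + 1 - 2 * w) = 0 :=
    padicValNat.eq_zero_of_not_dvd (by omega)
  have o2 : padicValNat 2 (3 * 2 ^ m + 1 - 2 * w - 1 - 1) = 0 :=
    padicValNat.eq_zero_of_not_dvd (by omega)
  have k1 : 3 * 2 ^ m + 1 - 2 * w - 1 = 2 * (3 * 2 ^ (m - 1) - w) := by omega
  have z1 : padicValNat 2 (3 * 2 ^ m + 1 - 2 * w - 1) =
      1 + padicValNat 2 (3 * 2 ^ (m - 1) - w) := by
    rw [k1, f9_two_mul _ (by omega)]
  rw [o1, z1] at c1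
  rw [o2, z1] at c2
  have e1 := f9_C3 (3 * 2 ^ m + 1 - 3 * w - 1) (by omega)
  have e2 := f9_C3 (2 * (3 * 2 ^ m + 1) - 3 * w) (by omega)
  have r1 : padicValNat 2 (3 * 2 ^ m + 1 - 3 * w - 1) = padicValNat 2 w := by
    rw [show 3 * 2 ^ m + 1 - 3 * w - 1 = 3 * (2 ^ m - w) by omega, f9_three_mul _ (by omega),
      f9_sub m w (by omega) hwM]
  have r2 : padicValNat 2 (2 * (3 * 2 ^ m + 1) - 3 * w - 2) = padicValNat 2 w := by
    rw [show 2 * (3 * 2 ^ m + 1) - 3 * w - 2 = 3 * (2 ^ (m + 1) - w) by rw [hp]; omega,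
      f9_three_mul _ (by rw [hp]; omega), f9_sub (m + 1) w (by omega) (by rw [hp]; omega)]
  rw [r1, show 3 * 2 ^ m + 1 - 3 * w - 1 - 1 = 3 * 2 ^ m - 3 * w - 1 by omega,
    show 3 * 2 ^ m + 1 - 3 * w - 1 - 2 = 3 * 2 ^ m - 3 * w - 2 by omega] at e1
  rw [r2, show 2 * (3 * 2 ^ m + 1) - 3 * w = 6 * 2 ^ m + 2 - 3 * w by omega,
    show 6 * 2 ^ m + 2 - 3 * w - 1 = 6 * 2 ^ m + 1 - 3 * w by omega] at e2
  have he : eta true (3 * 2 ^ m + 1) w 1 = vC (3 * 2 ^ m + 1 - 3 * w - 1) 3 +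
      vC (6 * 2 ^ m + 2 - 3 * w) 3 := by
    unfold eta
    simp only [if_true, mul_one]
    rw [show 2 * (3 * 2 ^ m + 1) - 3 * w = 6 * 2 ^ m + 2 - 3 * w by omega]
  have f2 : vf (2 * 1) = 1 := f9_vf2
  have f3 : vf (3 * 1) = 1 := f9_vf3
  rw [he, f2, f3] at hs
  simp only [mul_one] at hs
  generalize vC (3 * 2 ^ m + 1 - 2 * w) 2 = A at hs c1
  generalize vC (3 * 2 ^ m + 1 - 2 * w - 1) 2 = B at hs c2
  generalize vC (3 * 2 ^ m + 1 - 3 * w - 1) 3 = C at hs e1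
  generalize vC (6 * 2 ^ m + 2 - 3 * w) 3 = D at hs e2
  generalize padicValNat 2 (3 * 2 ^ (m - 1) - w) = z at *
  generalize padicValNat 2 (3 * 2 ^ m - 3 * w - 1) = a1 at *
  generalize padicValNat 2 (3 * 2 ^ m - 3 * w - 2) = a2 at *
  generalize padicValNat 2 (6 * 2 ^ m + 2 - 3 * w) = a3 at *
  generalize padicValNat 2 (6 * 2 ^ m + 1 - 3 * w) = a4 at *
  generalize padicValNat 2 w = y at *
  generalize padicValRat 2 (PS true ((3 * 2 ^ m + 1 : ℕ) : ℚ) (w + 1)) = P1 at *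
  generalize padicValRat 2 (PS true ((3 * 2 ^ m + 1 : ℕ) : ℚ) w) = P0 at *
  push_cast at hs
  omega

theorem slope_Tp_eq (m w : ℕ) (hm : 4 ≤ m) (hw : w = 2 ^ (m - 1)) :
    padicValRat 2 (PS true ((3 * 2 ^ m + 1 : ℕ) : ℚ) (w + 1)) =
      padicValRat 2 (PS true ((3 * 2 ^ m + 1 : ℕ) : ℚ) w) := by
  obtain ⟨d, rfl⟩ : ∃ d, m = d + 4 := ⟨m - 4, by omega⟩
  have hd : 0 < 2 ^ d := by positivity
  have h1 : 2 ^ (d + 4) = 16 * 2 ^ d := by rw [pow_add]; ring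
  have h2 : 2 ^ (d + 4 - 1) = 8 * 2 ^ d := by
    rw [show d + 4 - 1 = d + 3 by omega, pow_add]; ring
  have hs := f9_step (d + 4) w hm (by omega) (by omega)
  have z1 : padicValNat 2 (3 * 2 ^ (d + 4 - 1) - w) = d + 4 := by
    rw [show 3 * 2 ^ (d + 4 - 1) - w = 2 ^ (d + 4) by omega, padicValNat.prime_pow]
  have z2 : padicValNat 2 w = d + 3 := by
    rw [hw, show d + 4 - 1 = d + 3 by omega, padicValNat.prime_pow]
  have a1 : padicValNat 2 (3 * 2 ^ (d + 4) - 3 * w - 1) = 0 :=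
    padicValNat.eq_zero_of_not_dvd (by omega)
  have a2 : padicValNat 2 (3 * 2 ^ (d + 4) - 3 * w - 2) = 1 := by
    rw [show 3 * 2 ^ (d + 4) - 3 * w - 2 = 2 * (2 * (6 * 2 ^ d - 1) + 1) by omega,
      f9_two_mul _ (by omega), f9_odd]
  have a3 : padicValNat 2 (6 * 2 ^ (d + 4) + 2 - 3 * w) = 1 := by
    rw [show 6 * 2 ^ (d + 4) + 2 - 3 * w = 2 * (2 * (18 * 2 ^ d) + 1) by omega,
      f9_two_mul _ (by omega), f9_odd]
  have a4 : padicValNat 2 (6 * 2 ^ (d + 4) + 1 - 3 * w) = 0 :=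
    padicValNat.eq_zero_of_not_dvd (by omega)
  rw [z1, z2, a1, a2, a3, a4] at hs
  push_cast at hs ⊢
  linarith

theorem slope_Tp_lt (m w : ℕ) (hm : 4 ≤ m) (hw0 : 1 ≤ w) (hw : w ≠ 2 ^ (m - 1))
    (h3 : 3 * (w + 1) < 3 * 2 ^ m + 1) :
    padicValRat 2 (PS true ((3 * 2 ^ m + 1 : ℕ) : ℚ) w) + 2 ≤
      padicValRat 2 (PS true ((3 * 2 ^ m + 1 : ℕ) : ℚ) (w + 1)) := by
  have hs := f9_step m w hm hw0 h3
  have hwM : w < 2 ^ m := by omega
  rw [f9_hsub m w hm hw0 hwM hw] at hs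
  have hd : ∀ x : ℕ, 0 < x → 2 ∣ x → 1 ≤ padicValNat 2 x := fun x hx h =>
    one_le_padicValNat_of_dvd (by omega) h
  have g1 : 1 ≤ padicValNat 2 (3 * 2 ^ m - 3 * w - 1) + padicValNat 2 (3 * 2 ^ m - 3 * w - 2) := by
    rcases Nat.even_or_odd (3 * 2 ^ m - 3 * w - 1) with he | ho
    · have := hd (3 * 2 ^ m - 3 * w - 1) (by omega) (even_iff_two_dvd.1 he)
      omega
    · have := hd (3 * 2 ^ m - 3 * w - 2) (by omega) (by
        obtain ⟨c, hc⟩ := ho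
        exact ⟨c, by omega⟩)
      omega
  have g2 : 1 ≤ padicValNat 2 (6 * 2 ^ m + 2 - 3 * w) + padicValNat 2 (6 * 2 ^ m + 1 - 3 * w) := by
    rcases Nat.even_or_odd (6 * 2 ^ m + 2 - 3 * w) with he | ho
    · have := hd (6 * 2 ^ m + 2 - 3 * w) (by omega) (even_iff_two_dvd.1 he)
      omega
    · have := hd (6 * 2 ^ m + 1 - 3 * w) (by omega) (by
        obtain ⟨c, hc⟩ := ho
        exact ⟨c, by omega⟩)
      omega
  have g1' : (1 : ℤ) ≤ (padicValNat 2 (3 * 2 ^ m - 3 * w - 1) : ℤ) +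
      (padicValNat 2 (3 * 2 ^ m - 3 * w - 2) : ℤ) := by exact_mod_cast g1
  have g2' : (1 : ℤ) ≤ (padicValNat 2 (6 * 2 ^ m + 2 - 3 * w) : ℤ) +
      (padicValNat 2 (6 * 2 ^ m + 1 - 3 * w) : ℤ) := by exact_mod_cast g2
  linarith

end Pool.Agent.Helper5.MD
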