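import Mathlib

/-!
# Every rational polynomial splits over `ℂ`: the instance needed for the action of the Galois group on the complex roots
-/

namespace Pool.Agent.Helper5.MD

open Polynomial

instance instFactSplitsComplex (P : ℚ[X]) : Fact ((P.map (algebraMap ℚ ℂ)).Splits) :=
  ⟨IsAlgClosed.splits _⟩

end Pool.Agent.Helper5.MD
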