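import Pool.Agent.Helper5.MD.MF.F2Roots

/-!
# MR-G1 : the Hecke polynomial has rational coefficients

Possible proof: `V = CuspForm 𝒮ℒ (2 m)`, `k = 2 m`.  If `V` is trivial take `P = 1`.  Otherwise let `d = dim V`; the forms `Δ^j E_(k - 12 j)` (`1 ≤ j ≤ d`, `E_0 = 1`, or `Δ^j E_4^a E_6^b`) lie in `V`, have
rational `q`-expansions `q^j + ...` and form a basis (`qExpansion` injective, triangular; `dimension_level_one`).  `T2` maps forms with rational `q`-expansion to such forms (`T2_coeff`), and a form with
rational `q`-expansion is a rational combination of the basis (triangular system for the coefficients `1..d`).  So the matrix of `T2` is rational.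
(See `MF/A1Forms.lean` and neighbours for `q`-expansions of the forms at hand.)

The proof below: the forms with rational `q`-expansion span the space (induction on the weight: `M_k = ℂ E_k + Δ M_(k - 12)`), and
a form with rational `q`-expansion has rational coordinates in a basis of such forms (apply a `ℚ`-linear retraction `ℂ → ℚ` to the coordinates).
-/

open UpperHalfPlane hiding I
open ModularForm MatrixGroups Filter Topology
open scoped Manifold Real Nat

namespace Pool.Agent.Helper5.MD

/-- an operator which preserves the vectors with rational coordinates has a rational characteristic polynomial -/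
private theorem g1_charpoly {V : Type*} [AddCommGroup V] [Module ℂ V] [FiniteDimensional ℂ V]
    (T : V →ₗ[ℂ] V) (c : ℕ → V →ₗ[ℂ] ℂ) (hc : ∀ v, (∀ n, c n v = 0) → v = 0)
    (S : Set V) (hS : ∀ v, v ∈ S ↔ ∀ n, ∃ q : ℚ, c n v = (q : ℂ))
    (hspan : Submodule.span ℂ S = ⊤) (hT : ∀ v ∈ S, T v ∈ S) :
    ∃ P : Polynomial ℚ, P.map (algebraMap ℚ ℂ) = T.charpoly := by
  classical
  obtain ⟨B, hBS, hBspan, hBli⟩ := exists_linearIndependent ℂ S
  let b : Module.Basis B ℂ V := Module.Basis.mk hBli (by
    rw [Subtype.range_coe, hBspan, hspan])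
  have : Fintype B := FiniteDimensional.fintypeBasisIndex b
  have hb : ∀ i, b i = (i : V) := fun i => Module.Basis.mk_apply _ _ i
  obtain ⟨ret, hπ⟩ := LinearMap.exists_leftInverse_of_injective (Algebra.linearMap ℚ ℂ)
    (LinearMap.ker_eq_bot.2 (algebraMap ℚ ℂ).injective)
  have hπ' : ∀ q : ℚ, ret (q : ℂ) = q := fun q => LinearMap.congr_fun hπ q
  have key : ∀ v ∈ S, ∀ i, b.repr v i = ((ret (b.repr v i) : ℚ) : ℂ) := by
    intro v hv
    set v' : V := ∑ i, ((ret (b.repr v i) : ℚ) : ℂ) • b i with hv'
    have h1 : v - v' = 0 := by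
      apply hc
      intro n
      obtain ⟨q, hq⟩ := (hS v).1 hv n
      have hr : ∀ i : B, ∃ r : ℚ, c n (b i) = (r : ℂ) := by
        intro i
        rw [hb i]
        exact (hS _).1 (hBS i.2) n
      choose r hr using hr
      have h2 : (q : ℂ) = ∑ i, b.repr v i * (r i : ℂ) := by
        rw [← hq]
        conv_lhs => rw [← b.sum_repr v]
        rw [map_sum]
        refine Finset.sum_congr rfl fun i _ => ?_
        rw [map_smul, hr, smul_eq_mul]
      have h3 : q = ∑ i, ret (b.repr v i) * r i := by
        have h4 := congrArg ret h2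
        rw [hπ', map_sum] at h4
        rw [h4]
        refine Finset.sum_congr rfl fun i _ => ?_
        have h5 : b.repr v i * (r i : ℂ) = r i • b.repr v i := by
          rw [Rat.smul_def, mul_comm]
        rw [h5, map_smul, smul_eq_mul, mul_comm]
      rw [map_sub, hq, hv', map_sum, sub_eq_zero, h3]
      push_cast
      refine Finset.sum_congr rfl fun i _ => ?_
      rw [map_smul, hr, smul_eq_mul]
    have h2 : v = v' := sub_eq_zero.1 h1
    intro i
    conv_lhs => rw [h2, hv']
    rw [map_sum, Finset.sum_apply']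
    simp only [map_smul, Module.Basis.repr_self, Finsupp.smul_apply, smul_eq_mul]
    rw [Finset.sum_eq_single i]
    · rw [Finsupp.single_eq_same, mul_one]
    · intro j _ hj
      rw [Finsupp.single_eq_of_ne (by simpa [eq_comm] using hj), mul_zero]
    · intro h
      exact absurd (Finset.mem_univ i) h
  let A : Matrix B B ℚ := Matrix.of fun i j => ret (b.repr (T (b j)) i)
  refine ⟨A.charpoly, ?_⟩
  rw [← Matrix.charpoly_map, ← LinearMap.charpoly_toMatrix T b]
  congr 1
  ext i j
  rw [Matrix.map_apply, LinearMap.toMatrix_apply]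
  have h1 := key (T (b j)) (hT _ (by rw [hb j]; exact hBS j.2)) i
  exact h1.symm

/-- power series with rational coefficients -/
private noncomputable def G1R : Subring (PowerSeries ℂ) := (PowerSeries.map (algebraMap ℚ ℂ)).range

private theorem g1_mem {p : PowerSeries ℂ} : p ∈ G1R ↔ ∀ n, ∃ q : ℚ, p.coeff n = (q : ℂ) := by
  constructor
  · rintro ⟨r, rfl⟩ n
    exact ⟨r.coeff n, by simp⟩
  · intro h
    choose q hq using h
    refine ⟨PowerSeries.mk q, ?_⟩
    ext n
    simp [hq]

private theorem g1_smul (q : ℚ) {p : PowerSeries ℂ} (hp : p ∈ G1R) : (q : ℂ) • p ∈ G1R := by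
  rw [g1_mem] at *
  intro n
  obtain ⟨r, hr⟩ := hp n
  exact ⟨q * r, by rw [PowerSeries.coeff_smul, hr, smul_eq_mul]; push_cast; ring⟩

private theorem g1_E {k : ℕ} (hk : 3 ≤ k) (hk2 : Even k) :
    qExpansion 1 (ModularForm.E hk) ∈ G1R := by
  rw [g1_mem]
  intro n
  rw [EisensteinSeries.E_qExpansion_coeff hk hk2 n]
  split_ifs
  · exact ⟨1, by simp⟩
  · exact ⟨-(2 * k / bernoulli k) * (ArithmeticFunction.sigma (k - 1) n : ℚ), by push_cast; rfl⟩

private theorem g1_delta : qExpansion 1 ModularForm.discriminant ∈ G1R := by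
  let D : ModularForm 𝒮ℒ 12 :=
    ModularForm.mcast (by decide) (E₄.pow 3) - ModularForm.mcast (by decide) (E₆.pow 2)
  have hD : qExpansion 1 D = (qExpansion 1 E₄) ^ 3 - (qExpansion 1 E₆) ^ 2 := by
    simp only [D, FunLike.coe_sub, coe_mcast,
      ModularForm.qExpansion_sub one_pos one_mem_strictPeriods_SL,
      ModularForm.qExpansion_pow one_pos one_mem_strictPeriods_SL]
  have hfun : ModularForm.discriminant = ((1 / 1728 : ℂ) • D : ModularForm 𝒮ℒ 12) := by
    funext z
    rw [discriminant_eq_E₄_cube_sub_E₆_sq z]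
    show _ = (1 / 1728 : ℂ) * D z
    have : D z = E₄ z ^ 3 - E₆ z ^ 2 := by
      simp only [D, coe_mcast, coe_pow, sub_apply, Pi.pow_apply]
    rw [this]
    ring
  rw [hfun, FunLike.coe_smul, ModularForm.qExpansion_smul one_pos one_mem_strictPeriods_SL, hD]
  have h := g1_smul (1 / 1728) (p := (qExpansion 1 E₄) ^ 3 - (qExpansion 1 E₆) ^ 2)
    (Subring.sub_mem _ (Subring.pow_mem _ (g1_E _ ⟨2, rfl⟩) 3)
      (Subring.pow_mem _ (g1_E _ ⟨3, rfl⟩) 2))
  have e : (((1 / 1728 : ℚ)) : ℂ) = (1 / 1728 : ℂ) := by push_cast; rfl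
  rwa [e] at h

/-- the modular forms with rational `q`-expansion -/
private def g1M (k : ℤ) : Set (ModularForm 𝒮ℒ k) := {f | qExpansion 1 f ∈ G1R}

/-- the cusp forms with rational `q`-expansion -/
private def g1S (k : ℤ) : Set (CuspForm 𝒮ℒ k) := {f | qExpansion 1 f ∈ G1R}

private theorem g1_S_of_M {k : ℤ} (h : Submodule.span ℂ (g1M (k - 12)) = ⊤) :
    Submodule.span ℂ (g1S k) = ⊤ := by
  rw [eq_top_iff]
  intro f _
  have h1 : CuspForm.discriminantEquiv f ∈ Submodule.span ℂ (g1M (k - 12)) := by
    rw [h]
    trivial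
  have h2 : ∀ g ∈ Submodule.span ℂ (g1M (k - 12)),
      CuspForm.discriminantEquiv.symm g ∈ Submodule.span ℂ (g1S k) := by
    intro g hg
    induction hg using Submodule.span_induction with
    | mem g hg =>
      apply Submodule.subset_span
      show qExpansion 1 (CuspForm.discriminantEquiv.symm g) ∈ G1R
      have h3 : (CuspForm.discriminantEquiv.symm g : ℍ → ℂ) = CuspForm.discriminant * (g : ℍ → ℂ) := rfl
      rw [h3, ModularForm.qExpansion_mul_coe one_pos one_mem_strictPeriods_SL]
      exact Subring.mul_mem _ g1_delta hg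
    | zero => rw [map_zero]; exact Submodule.zero_mem _
    | add x y _ _ hx hy => rw [map_add]; exact Submodule.add_mem _ hx hy
    | smul a x _ hx => rw [map_smul]; exact Submodule.smul_mem _ a hx
  have h3 := h2 _ h1
  rwa [LinearEquiv.symm_apply_apply] at h3

private theorem g1_M : ∀ (N : ℕ) (k : ℤ), k < N → Submodule.span ℂ (g1M k) = ⊤ := by
  intro N
  induction N with
  | zero =>
    intro k hk
    rw [eq_top_iff]
    intro f _
    have h : f = 0 := by
      apply DFunLike.ext
      intro z
      exact congrFun (ModularFormClass.levelOne_neg_weight_eq_zero (by exact_mod_cast hk) f) z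
    rw [h]
    exact Submodule.zero_mem _
  | succ N ih =>
    intro k hk
    rcases lt_or_ge k N with h | h
    · exact ih k h
    obtain rfl : k = N := by push_cast at hk; omega
    rw [eq_top_iff]
    intro f _
    rcases Nat.even_or_odd N with hev | hodd
    swap
    · rw [ModularForm.levelOne_odd_weight_eq_zero (by exact_mod_cast hodd) f]
      exact Submodule.zero_mem _
    by_cases h3 : 3 ≤ N
    swap
    · obtain rfl | rfl : N = 0 ∨ N = 2 := by
        obtain ⟨t, ht⟩ := hev
        omega
      · obtain ⟨c', hc'⟩ := ModularFormClass.levelOne_weight_zero_const f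
        have h4 : f = c' • (1 : ModularForm 𝒮ℒ 0) := by
          apply DFunLike.ext
          intro z
          rw [hc']
          show c' = c' * 1
          rw [mul_one]
        rw [h4]
        apply Submodule.smul_mem
        apply Submodule.subset_span
        show qExpansion 1 (1 : ModularForm 𝒮ℒ 0) ∈ G1R
        rw [ModularForm.qExpansion_one]
        exact Subring.one_mem _
      · have h4 := rank_zero_iff_forall_zero.1 ModularForm.levelOne_weight_two_rank_zero f
        rw [h4]
        exact Submodule.zero_mem _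
    · -- `f = a E + g`
      set a := (qExpansion 1 f).coeff 0 with ha
      have h5 := sub_smul_isCuspForm f (ModularForm.E h3)
        (EisensteinSeries.E_qExpansion_coeff_zero h3 hev)
      obtain ⟨g, hg⟩ := h5
      have h6 : g ∈ Submodule.span ℂ (g1S N) := by
        rw [g1_S_of_M (ih _ (by omega))]
        trivial
      have h7 : CuspForm.toModularFormₗ g ∈ Submodule.span ℂ (g1M N) := by
        have h8 : ∀ g ∈ Submodule.span ℂ (g1S (N : ℤ)),
            CuspForm.toModularFormₗ g ∈ Submodule.span ℂ (g1M N) := by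
          intro g hg
          induction hg using Submodule.span_induction with
          | mem g hg => exact Submodule.subset_span hg
          | zero => rw [map_zero]; exact Submodule.zero_mem _
          | add x y _ _ hx hy => rw [map_add]; exact Submodule.add_mem _ hx hy
          | smul a x _ hx => rw [map_smul]; exact Submodule.smul_mem _ a hx
        exact h8 g h6
      rw [hg] at h7
      have h9 : f = (f - (qExpansion 1 f).coeff 0 • (ModularForm.E h3 : ModularForm 𝒮ℒ N)) +
          (qExpansion 1 f).coeff 0 • (ModularForm.E h3 : ModularForm 𝒮ℒ N) := by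
        rw [sub_add_cancel]
      rw [h9]
      exact Submodule.add_mem _ h7 (Submodule.smul_mem _ _ (Submodule.subset_span (g1_E h3 hev)))

theorem T2_charpoly_rational (m : ℤ) :
    ∃ P : Polynomial ℚ, P.map (algebraMap ℚ ℂ) = (T2 m).charpoly := by
  let c : ℕ → CuspForm 𝒮ℒ (2 * m) →ₗ[ℂ] ℂ := fun n =>
    { toFun := fun f => (qExpansion 1 f).coeff n
      map_add' := fun f g => by
        rw [FunLike.coe_add, ModularForm.qExpansion_add one_pos one_mem_strictPeriods_SL, map_add]
      map_smul' := fun t f => by
        rw [FunLike.coe_smul, ModularForm.qExpansion_smul one_pos one_mem_strictPeriods_SL,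
          PowerSeries.coeff_smul]
        rfl }
  have hc : ∀ n f, c n f = (qExpansion 1 f).coeff n := fun _ _ => rfl
  refine g1_charpoly (T2 m) c ?_ (g1S (2 * m)) ?_ ?_ ?_
  · intro f hf
    have h1 : qExpansion 1 (CuspForm.toModularFormₗ f) = 0 := by
      ext n
      exact hf n
    rw [ModularForm.qExpansion_eq_zero_iff one_pos one_mem_strictPeriods_SL] at h1
    apply CuspForm.toModularFormₗ_injective
    rw [h1, map_zero]
  · intro f
    exact g1_mem
  · exact g1_S_of_M (g1_M (2 * m - 12 + 1).toNat _ (by omega))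
  · intro f hf
    show qExpansion 1 (T2 m f) ∈ G1R
    rw [g1_mem]
    intro n
    have hf' := g1_mem.1 hf
    rw [T2_coeff]
    obtain ⟨q1, h1⟩ := hf' (2 * n)
    obtain ⟨q2, h2⟩ := hf' (n / 2)
    rw [h1, h2]
    refine ⟨q1 + 2 ^ (2 * m - 1) * (if 2 ∣ n then q2 else 0), ?_⟩
    split_ifs <;> push_cast <;> ring

end Pool.Agent.Helper5.MD
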