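import Mathlib

/-!
# MR-G2 : `ℂ` is isomorphic to the algebraic closure of `ℚ_2`

Both are algebraically closed of characteristic zero and of cardinality continuum (`IsAlgClosed.ringEquivOfCardinalEqOfCharEq` or similar;
`PadicAlgCl p` is algebraic over the infinite field `ℚ_[p]`, so it has the same cardinality; `ℚ_[p]` is a quotient of Cauchy sequences of rationals, so it has cardinality `≤ 𝔠`, and it is
complete, nontrivially normed, so `≥ 𝔠` (`continuum_le_cardinal_of_nontriviallyNormedField`)).
-/

namespace Pool.Agent.Helper5.MD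

theorem mk_padic_g2 (p : ℕ) [Fact p.Prime] : Cardinal.mk ℚ_[p] = Cardinal.continuum := by
  apply le_antisymm
  · have h1 : Function.Surjective (fun f : PadicSeq p => (⟦f⟧ : ℚ_[p])) := Quotient.mk_surjective
    refine (Cardinal.mk_le_of_surjective h1).trans ?_
    have h2 : Function.Injective (fun f : PadicSeq p => (f : ℕ → ℚ)) := by
      intro f g h
      exact Subtype.ext h
    refine (Cardinal.mk_le_of_injective h2).trans ?_
    simp
  · exact continuum_le_cardinal_of_nontriviallyNormedField ℚ_[p]

theorem mk_padicAlgCl_g2 (p : ℕ) [Fact p.Prime] :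
    Cardinal.mk (PadicAlgCl p) = Cardinal.continuum := by
  apply le_antisymm
  · have h := Algebra.IsAlgebraic.cardinalMk_le_max ℚ_[p] (PadicAlgCl p)
    rw [mk_padic_g2, max_eq_left Cardinal.aleph0_le_continuum] at h
    exact h
  · rw [← mk_padic_g2 p]
    exact Cardinal.mk_le_of_injective (algebraMap ℚ_[p] (PadicAlgCl p)).injective

theorem exists_ringEquiv_padicAlgCl (p : ℕ) [Fact p.Prime] : Nonempty (ℂ ≃+* PadicAlgCl p) := by
  have : CharZero (PadicAlgCl p) :=
    charZero_of_injective_algebraMap (algebraMap ℚ_[p] (PadicAlgCl p)).injective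
  apply IsAlgClosed.ringEquiv_of_equiv_of_charZero
  · rw [Cardinal.mk_complex]
    exact Cardinal.aleph0_lt_continuum
  · apply Cardinal.eq.1
    rw [Cardinal.mk_complex, mk_padicAlgCl_g2]

end Pool.Agent.Helper5.MD
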