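import Mathlib

/-!
# MR-G3 : an automorphism of the algebraic closure of `ℚ_2` moving the cube roots of unity

`spectralNorm` is invariant under `K`-automorphisms (`spectralNorm_eq_of_equiv`; the minimal polynomials agree).
`X^2 + X + 1` has no root in `ℚ_[2]` (a root is a unit `x` of `ℤ_[2]`, and `x^2 + x + 1` is odd), so for a root `ω` in `E = PadicAlgCl 2` we have `ω ∉ ℚ_[2]` and some
`σ ∈ Gal(E/ℚ_[2])` moves it (`E` is Galois over `ℚ_[2]`, characteristic zero; e.g. `IsGalois.mem_bot_iff_fixed`), necessarily to the other root `ω^2 = -1 - ω`.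
-/

namespace Pool.Agent.Helper5.MD

theorem norm_padicAlgCl_aut (p : ℕ) [Fact p.Prime] (σ : PadicAlgCl p ≃ₐ[ℚ_[p]] PadicAlgCl p)
    (x : PadicAlgCl p) : ‖σ x‖ = ‖x‖ := by
  rw [← PadicAlgCl.spectralNorm_eq, ← PadicAlgCl.spectralNorm_eq]
  exact (spectralNorm_eq_of_equiv σ x).symm

private theorem no_root_padic (y : ℚ_[2]) : y ^ 2 + y + 1 ≠ 0 := by
  intro h
  have hy : ‖y‖ ≤ 1 := by
    by_contra hlt
    push Not at hlt
    have h1 : y ^ 2 = -(y + 1) := by linear_combination h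
    have h2 : ‖y‖ ^ 2 ≤ ‖y‖ := by
      calc ‖y‖ ^ 2 = ‖y ^ 2‖ := (norm_pow y 2).symm
        _ = ‖y + 1‖ := by rw [h1, norm_neg]
        _ ≤ max ‖y‖ ‖(1 : ℚ_[2])‖ := IsUltrametricDist.norm_add_le_max y 1
        _ = ‖y‖ := by rw [norm_one]; exact max_eq_left hlt.le
    nlinarith
  let z : ℤ_[2] := ⟨y, hy⟩
  have hz : z ^ 2 + z + 1 = 0 := by
    apply Subtype.ext
    push_cast
    exact h
  have h3 := congrArg (PadicInt.toZMod (p := 2)) hz
  rw [map_add, map_add, map_pow, map_one, map_zero] at h3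
  revert h3
  generalize PadicInt.toZMod z = a
  revert a
  decide

theorem exists_frob : ∃ σ : PadicAlgCl 2 ≃ₐ[ℚ_[2]] PadicAlgCl 2,
    ∀ ω : PadicAlgCl 2, ω ^ 2 + ω + 1 = 0 → σ ω = -1 - ω := by
  obtain ⟨w, hw⟩ : ∃ w : PadicAlgCl 2, w ^ 2 + w + 1 = 0 := by
    have hdeg : (Polynomial.X ^ 2 + Polynomial.X + 1 : Polynomial (PadicAlgCl 2)).degree ≠ 0 := by
      have : (Polynomial.X ^ 2 + Polynomial.X + 1 : Polynomial (PadicAlgCl 2)).degree = 2 := by
        compute_degree!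
      rw [this]; decide
    obtain ⟨w, hw⟩ := IsAlgClosed.exists_root _ hdeg
    refine ⟨w, ?_⟩
    simpa [Polynomial.IsRoot] using hw
  have hnot : w ∉ Set.range (algebraMap ℚ_[2] (PadicAlgCl 2)) := by
    rintro ⟨y, rfl⟩
    apply no_root_padic y
    apply (algebraMap ℚ_[2] (PadicAlgCl 2)).injective
    rw [map_add, map_add, map_pow, map_one, map_zero]
    exact hw
  have hgal : IsGalois ℚ_[2] (PadicAlgCl 2) := inferInstance
  obtain ⟨σ, hσ⟩ : ∃ σ : PadicAlgCl 2 ≃ₐ[ℚ_[2]] PadicAlgCl 2, σ w ≠ w := by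
    by_contra hcon
    push Not at hcon
    apply hnot
    have h1 := (InfiniteGalois.mem_bot_iff_fixed (k := ℚ_[2]) (K := PadicAlgCl 2) w).mpr
      (fun f => hcon f)
    rwa [IntermediateField.mem_bot] at h1
  refine ⟨σ, fun ω hω => ?_⟩
  -- `ω` is `w` or `-1 - w`
  have h1 : (ω - w) * (ω - (-1 - w)) = 0 := by linear_combination hω - hw
  have hσw : σ w = -1 - w := by
    have h2 : (σ w) ^ 2 + σ w + 1 = 0 := by
      have h3 := congrArg σ hw
      rwa [map_add, map_add, map_pow, map_one, map_zero] at h3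
    have h4 : (σ w - w) * (σ w - (-1 - w)) = 0 := by linear_combination h2 - hw
    rcases mul_eq_zero.mp h4 with h5 | h5
    · exact absurd (sub_eq_zero.mp h5) hσ
    · exact sub_eq_zero.mp h5
  rcases mul_eq_zero.mp h1 with h5 | h5
  · rw [sub_eq_zero.mp h5, hσw]
  · rw [sub_eq_zero.mp h5, map_sub, map_neg, map_one, hσw]

end Pool.Agent.Helper5.MD
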