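import Pool.Agent.Helper5.MD3.G3Frob

/-!
# MR-G4 : elements with residue a primitive cube root of unity are moved

Let `ω` be a root of `X^2 + X + 1` in `E`; `x^2 + x + 1 = (x - ω) (x - ω')` with `ω' = -1 - ω`, `‖ω - ω'‖ = ‖2 ω + 1‖ = 1` (its square is `-3`).
If `‖x^2 + x + 1‖ < 1` then `‖x - ω‖ < 1` or `‖x - ω'‖ < 1`.  In the first case `‖σ x - ω'‖ < 1` (isometry), so `σ x ≠ x` (otherwise `‖ω - ω'‖ < 1`).  Same in the second case.
-/

namespace Pool.Agent.Helper5.MD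

private theorem norm_three_cl : ‖(3 : PadicAlgCl 2)‖ = 1 := by
  have h1 : (3 : PadicAlgCl 2) = ((3 : ℚ_[2]) : PadicAlgCl 2) := by
    show (3 : PadicAlgCl 2) = algebraMap ℚ_[2] (PadicAlgCl 2) 3
    rw [map_ofNat]
  rw [h1, PadicAlgCl.norm_extends]
  have h2 : ‖((3 : ℤ) : ℚ_[2])‖ = 1 := by
    refine le_antisymm (Padic.norm_int_le_one 3) ?_
    by_contra hlt
    rw [not_le, Padic.norm_intCast_lt_one_iff] at hlt
    revert hlt
    decide
  exact_mod_cast h2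

theorem move_of_residue (σ : PadicAlgCl 2 ≃ₐ[ℚ_[2]] PadicAlgCl 2)
    (hσ : ∀ ω : PadicAlgCl 2, ω ^ 2 + ω + 1 = 0 → σ ω = -1 - ω)
    (x : PadicAlgCl 2) (hx : ‖x ^ 2 + x + 1‖ < 1) : σ x ≠ x := by
  obtain ⟨w, hw⟩ : ∃ w : PadicAlgCl 2, w ^ 2 + w + 1 = 0 := by
    have hdeg : (Polynomial.X ^ 2 + Polynomial.X + 1 : Polynomial (PadicAlgCl 2)).degree ≠ 0 := by
      have : (Polynomial.X ^ 2 + Polynomial.X + 1 : Polynomial (PadicAlgCl 2)).degree = 2 := by
        compute_degree!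
      rw [this]; decide
    obtain ⟨w, hw⟩ := IsAlgClosed.exists_root _ hdeg
    refine ⟨w, ?_⟩
    simpa [Polynomial.IsRoot] using hw
  intro hfix
  have h1 : x ^ 2 + x + 1 = (x - w) * (x - (-1 - w)) := by linear_combination hw
  have hσw : σ w = -1 - w := hσ w hw
  have h2 : σ (x - w) = x - (-1 - w) := by rw [map_sub, hfix, hσw]
  have h3 : ‖x - (-1 - w)‖ = ‖x - w‖ := by rw [← h2, norm_padicAlgCl_aut]
  have h4 : ‖x - w‖ < 1 := by
    rw [h1, norm_mul, h3] at hx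
    by_contra hlt
    rw [not_lt] at hlt
    nlinarith [norm_nonneg (x - w)]
  have h5 : ‖2 * w + 1‖ < 1 := by
    have h6 : 2 * w + 1 = (x - (-1 - w)) + -(x - w) := by ring
    rw [h6]
    refine lt_of_le_of_lt (IsUltrametricDist.norm_add_le_max _ _) ?_
    rw [norm_neg, h3, max_self]
    exact h4
  have h7 : (2 * w + 1) ^ 2 = -3 := by linear_combination 4 * hw
  have h8 : ‖2 * w + 1‖ ^ 2 = 1 := by rw [← norm_pow, h7, norm_neg, norm_three_cl]
  nlinarith [norm_nonneg (2 * w + 1)]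

end Pool.Agent.Helper5.MD
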