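import Pool.Agent.Helper5.MD3.G4Move
import Pool.Agent.Helper5.MD3.G0Inst

/-!
# MR-G5 : from the local data to an element of the Galois group

`E = PadicAlgCl 2`, `σ` from `exists_frob`.  `P` is monic, its roots in `E` are `μ n`, `n < d`, all distinct, with `‖μ n‖ = 2^(-e n)`, `e` strictly increasing except `e b = e (b+1)` for
`b ∈ B` (pairs are disjoint, contained in `range d`).  `σ` permutes the roots and preserves the norm, so it fixes `μ n` if `n` is not in a pair, and preserves `{μ b, μ (b+1)}`; by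
`move_of_residue` (for `x = μ b / 2^(e b)`, and `σ (μ b) = 2^(e b) σ x`) it swaps them.
The image of `σ` in `P.Gal`: `Polynomial.Gal.restrict P E (σ.restrictScalars ℚ)` (needs the `Fact` that `P` splits in `E`), and its action on `P.rootSet E` by `galActionHom P E` is by `σ`
(`Polynomial.Gal.restrict_smul` or so), thus it is an involution with support of cardinality `2 |B|`: cycle type `replicate |B| 2`.
Finally transfer from `E` to `ℂ`: `galActionHom P E'` for different `E'` are conjugate through `rootsEquivRoots`, so the cycle type is the same (`Equiv.Perm.cycleType_conj`).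
-/

namespace Pool.Agent.Helper5.MD

open Polynomial

theorem g5_cycleType_permCongr {α β : Type} [Fintype α] [DecidableEq α] [Fintype β]
    [DecidableEq β] (f : α ≃ β) (g : Equiv.Perm α) : (f.permCongr g).cycleType = g.cycleType := by
  have h : f.permCongr g = g.extendDomain (p := fun _ : β => True)
      (f.trans (Equiv.Set.univ β).symm) := by
    ext x
    rw [Equiv.Perm.extendDomain_apply_subtype _ _ trivial]
    rfl
  rw [h, Equiv.Perm.cycleType_extendDomain]

/-- the order of the exponents -/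
theorem g5_comb {d : ℕ} {e : ℕ → ℤ} {B : Finset ℕ} (hB : ∀ b ∈ B, b + 1 < d ∧ b + 1 ∉ B)
    (heq : ∀ b ∈ B, e (b + 1) = e b)
    (hlt : ∀ n, n + 1 < d → n ∉ B → e n < e (n + 1)) {n m : ℕ} (hnm : n < m) (hm : m < d)
    (he : e n = e m) : n ∈ B ∧ m = n + 1 := by
  have hle : ∀ k, k + 1 < d → e k ≤ e (k + 1) := by
    intro k hk
    by_cases hkB : k ∈ B
    · exact (heq k hkB).ge
    · exact (hlt k hk hkB).le
  have hmono : ∀ j k, j ≤ k → k < d → e j ≤ e k := by
    intro j k hjk
    induction k, hjk using Nat.le_induction with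
    | base => intro _; exact le_rfl
    | succ k hjk ih => intro hk; exact (ih (by omega)).trans (hle k hk)
  have hnB : n ∈ B := by
    by_contra hnB
    have h1 := hlt n (by omega) hnB
    have h2 := hmono (n + 1) m hnm hm
    omega
  refine ⟨hnB, ?_⟩
  by_contra hne
  have h1 := hlt (n + 1) (by omega) (hB n hnB).2
  have h2 := hmono (n + 1 + 1) m (by omega) hm
  have h3 := heq n hnB
  omega

open Classical in
theorem exists_gal_of_local (P : ℚ[X]) (hP : P.Monic) (d : ℕ) (μ : ℕ → PadicAlgCl 2)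
    (hroots : (P.map (algebraMap ℚ (PadicAlgCl 2))).roots = (Multiset.range d).map μ)
    (hnd : ((Multiset.range d).map μ).Nodup) (e : ℕ → ℤ)
    (hval : ∀ n < d, ‖μ n‖ = (2 : ℝ) ^ (-e n)) (B : Finset ℕ)
    (hB : ∀ b ∈ B, b + 1 < d ∧ b + 1 ∉ B)
    (heq : ∀ b ∈ B, e (b + 1) = e b)
    (hlt : ∀ n, n + 1 < d → n ∉ B → e n < e (n + 1))
    (hres : ∀ b ∈ B, ‖(μ b / 2 ^ e b) ^ 2 + μ b / 2 ^ e b + 1‖ < 1 ∧
      ‖(μ (b + 1) / 2 ^ e b) ^ 2 + μ (b + 1) / 2 ^ e b + 1‖ < 1) :
    Squarefree P ∧ P.natDegree = d ∧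
      ∃ τ : P.Gal, (Gal.galActionHom P ℂ τ).cycleType = Multiset.replicate B.card 2 := by
  have hmap : P.map (algebraMap ℚ (PadicAlgCl 2)) ≠ 0 := (hP.map _).ne_zero
  have hsplit : (P.map (algebraMap ℚ (PadicAlgCl 2))).Splits := IsAlgClosed.splits _
  have hsep : P.Separable := by
    rw [← separable_map (algebraMap ℚ (PadicAlgCl 2)), ← nodup_roots_iff_of_splits hmap hsplit,
      hroots]
    exact hnd
  have hdeg : P.natDegree = d := by
    rw [← natDegree_map (algebraMap ℚ (PadicAlgCl 2)), hsplit.natDegree_eq_card_roots, hroots]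
    simp
  refine ⟨hsep.squarefree, hdeg, ?_⟩
  have hinj : ∀ n < d, ∀ m < d, μ n = μ m → n = m := by
    intro n hn m hm h
    exact Multiset.inj_on_of_nodup_map hnd n (Multiset.mem_range.2 hn) m (Multiset.mem_range.2 hm) h
  have hmem : ∀ n < d, μ n ∈ P.rootSet (PadicAlgCl 2) := by
    intro n hn
    rw [rootSet_def, Finset.mem_coe, Multiset.mem_toFinset, aroots_def, hroots]
    exact Multiset.mem_map_of_mem _ (Multiset.mem_range.2 hn)
  have hex : ∀ x ∈ P.rootSet (PadicAlgCl 2), ∃ n < d, μ n = x := by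
    intro x hx
    rw [rootSet_def, Finset.mem_coe, Multiset.mem_toFinset, aroots_def, hroots] at hx
    obtain ⟨n, hn, h⟩ := Multiset.mem_map.1 hx
    exact ⟨n, Multiset.mem_range.1 hn, h⟩
  obtain ⟨σ, hσ⟩ := exists_frob
  have : Fact ((P.map (algebraMap ℚ (PadicAlgCl 2))).Splits) := ⟨hsplit⟩
  let σ' : PadicAlgCl 2 ≃ₐ[ℚ] PadicAlgCl 2 := AlgEquiv.ofRingEquiv (f := σ.toRingEquiv)
    (fun q => by
      rw [eq_ratCast (algebraMap ℚ (PadicAlgCl 2)) q]
      exact map_ratCast σ.toRingEquiv q)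
  have hσ' : ∀ x, σ' x = σ x := fun x => rfl
  let τ : P.Gal := Gal.restrict P (PadicAlgCl 2) σ'
  let g : Equiv.Perm (P.rootSet (PadicAlgCl 2)) := Gal.galActionHom P (PadicAlgCl 2) τ
  have hg : ∀ x : P.rootSet (PadicAlgCl 2), ((g x : P.rootSet (PadicAlgCl 2)) : PadicAlgCl 2) =
      σ x := fun x => Gal.galActionHom_restrict P (PadicAlgCl 2) σ' x
  -- the image of a root
  have himg : ∀ n < d, ∃ m < d, σ (μ n) = μ m ∧ e m = e n := by
    intro n hn
    obtain ⟨m, hm, h⟩ := hex _ (g ⟨μ n, hmem n hn⟩).2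
    rw [hg] at h
    refine ⟨m, hm, h.symm, ?_⟩
    have h1 : ‖μ m‖ = ‖μ n‖ := by
      rw [h]
      exact norm_padicAlgCl_aut 2 σ (μ n)
    rw [hval n hn, hval m hm] at h1
    have h2 := (zpow_right_injective₀ (by norm_num : (0 : ℝ) < 2) (by norm_num : (2 : ℝ) ≠ 1)) h1
    exact neg_injective h2
  have hb1 : ∀ b ∈ B, σ (μ b) ≠ μ b := by
    intro b hb h
    refine move_of_residue σ hσ _ (hres b hb).1 ?_
    rw [map_div₀, h, map_zpow₀, map_ofNat]
  have hb2 : ∀ b ∈ B, σ (μ (b + 1)) ≠ μ (b + 1) := by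
    intro b hb h
    refine move_of_residue σ hσ _ (hres b hb).2 ?_
    rw [map_div₀, h, map_zpow₀, map_ofNat]
  have hs1 : ∀ b ∈ B, σ (μ b) = μ (b + 1) := by
    intro b hb
    have hbd := (hB b hb).1
    obtain ⟨m, hm, h, he⟩ := himg b (by omega)
    rcases lt_trichotomy m b with h1 | h1 | h1
    · obtain ⟨h2, h3⟩ := g5_comb hB heq hlt h1 (by omega) he
      exact absurd (h3 ▸ hb) (hB m h2).2
    · rw [h1] at h
      exact absurd h (hb1 b hb)
    · obtain ⟨h2, h3⟩ := g5_comb hB heq hlt h1 hm he.symm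
      rw [h, h3]
  have hs2 : ∀ b ∈ B, σ (μ (b + 1)) = μ b := by
    intro b hb
    have hbd := (hB b hb).1
    obtain ⟨m, hm, h, he⟩ := himg (b + 1) hbd
    rcases lt_trichotomy m (b + 1) with h1 | h1 | h1
    · obtain ⟨h2, h3⟩ := g5_comb hB heq hlt h1 hbd he
      rw [h, show m = b by omega]
    · rw [h1] at h
      exact absurd h (hb2 b hb)
    · obtain ⟨h2, h3⟩ := g5_comb hB heq hlt h1 hm he.symm
      exact absurd h2 (hB b hb).2
  have hs3 : ∀ n < d, n ∉ B → n ∉ B.image (· + 1) → σ (μ n) = μ n := by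
    intro n hn hnB hnB'
    obtain ⟨m, hm, h, he⟩ := himg n hn
    rcases lt_trichotomy m n with h1 | h1 | h1
    · obtain ⟨h2, h3⟩ := g5_comb hB heq hlt h1 hn he
      exact absurd (Finset.mem_image.2 ⟨m, h2, h3.symm⟩) hnB'
    · rw [h, h1]
    · obtain ⟨h2, h3⟩ := g5_comb hB heq hlt h1 hm he.symm
      exact absurd h2 hnB
  -- `g` is an involution
  have hinv : g ^ 2 = 1 := by
    ext x
    rw [pow_two, Equiv.Perm.mul_apply, hg, hg, Equiv.Perm.one_apply]
    obtain ⟨n, hn, h⟩ := hex x x.2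
    rw [← h]
    by_cases hnB : n ∈ B
    · rw [hs1 n hnB, hs2 n hnB]
    · by_cases hnB' : n ∈ B.image (· + 1)
      · obtain ⟨b, hb, hbn⟩ := Finset.mem_image.1 hnB'
        have hbn' : n = b + 1 := hbn.symm
        subst hbn'
        rw [hs2 b hb, hs1 b hb]
      · rw [hs3 n hn hnB hnB', hs3 n hn hnB hnB']
  -- the support
  have hdisj : Disjoint B (B.image (· + 1)) := by
    rw [Finset.disjoint_left]
    intro n hn hn'
    obtain ⟨b, hb, hbn⟩ := Finset.mem_image.1 hn'
    exact (hB b hb).2 (by rw [hbn]; exact hn)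
  have hSd : ∀ n ∈ B ∪ B.image (· + 1), n < d := by
    intro n hn
    rcases Finset.mem_union.1 hn with h | h
    · have := (hB n h).1
      omega
    · obtain ⟨b, hb, hbn⟩ := Finset.mem_image.1 h
      rw [← hbn]
      exact (hB b hb).1
  have hcard : g.support.card = 2 * B.card := by
    have h1 : g.support.card = (B ∪ B.image (· + 1)).card := by
      symm
      refine Finset.card_bij (fun n hn => ⟨μ n, hmem n (hSd n hn)⟩) ?_ ?_ ?_
      · intro n hn
        rw [Equiv.Perm.mem_support]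
        intro h
        have h2 := congrArg Subtype.val h
        rw [hg] at h2
        rcases Finset.mem_union.1 hn with h3 | h3
        · exact hb1 n h3 h2
        · obtain ⟨b, hb, hbn⟩ := Finset.mem_image.1 h3
          have hbn' : n = b + 1 := hbn.symm
          subst hbn'
          exact hb2 b hb h2
      · intro n hn m hm h
        exact hinj n (hSd n hn) m (hSd m hm) (congrArg Subtype.val h)
      · intro x hx
        rw [Equiv.Perm.mem_support] at hx
        obtain ⟨n, hn, h⟩ := hex x x.2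
        refine ⟨n, ?_, Subtype.ext h⟩
        by_contra hnS
        rw [Finset.mem_union, not_or] at hnS
        apply hx
        apply Subtype.ext
        rw [hg, ← h]
        exact hs3 n hn hnS.1 hnS.2
    rw [h1, Finset.card_union_of_disjoint hdisj,
      Finset.card_image_of_injective _ (add_left_injective 1)]
    omega
  have htype : g.cycleType = Multiset.replicate B.card 2 := by
    have h2 : ∀ n ∈ g.cycleType, n = 2 := by
      intro n hn
      have h3 := Equiv.Perm.two_le_of_mem_cycleType hn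
      have h4 := (Equiv.Perm.dvd_of_mem_cycleType hn).trans (orderOf_dvd_of_pow_eq_one hinv)
      have h5 := Nat.le_of_dvd (by norm_num) h4
      omega
    have h6 := Multiset.eq_replicate.2 ⟨rfl, h2⟩
    have h7 := g.sum_cycleType
    rw [h6, Multiset.sum_replicate, smul_eq_mul, hcard] at h7
    rw [h6]
    congr 1
    omega
  refine ⟨τ, ?_⟩
  rw [← htype]
  have key : ((Gal.rootsEquivRoots P (PadicAlgCl 2)).symm.trans
      (Gal.rootsEquivRoots P ℂ)).permCongr g = Gal.galActionHom P ℂ τ := by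
    ext x
    simp only [Equiv.permCongr_apply, g]
    congr 1
    change (Gal.rootsEquivRoots P ℂ) ((Gal.rootsEquivRoots P (PadicAlgCl 2)).symm
      ((Gal.rootsEquivRoots P (PadicAlgCl 2)) (τ • ((Gal.rootsEquivRoots P (PadicAlgCl 2)).symm
        ((Gal.rootsEquivRoots P (PadicAlgCl 2)) ((Gal.rootsEquivRoots P ℂ).symm x)))))) =
      (Gal.rootsEquivRoots P ℂ) (τ • (Gal.rootsEquivRoots P ℂ).symm x)
    rw [Equiv.symm_apply_apply, Equiv.symm_apply_apply]
  rw [← key, g5_cycleType_permCongr]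

end Pool.Agent.Helper5.MD
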