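import Pool.Agent.Helper5.MD3.G0Inst

/-!
# MR-G6 : a fixed point free involution in the Galois group forces even degrees

`P` squarefree of degree `2 r` with `τ ∈ Gal(P)` acting on the complex roots with cycle type `2^r`: an involution without fixed points.  If `G ∣ P` in `ℚ[X]`, the roots of `G` are
roots of `P` and are permuted by the Galois group (extend/restrict: `G` has coefficients in `ℚ`), `G` is squarefree, so its number of roots `= natDegree G`, and `τ` is a
fixed point free involution on them, so this number is even.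
-/

namespace Pool.Agent.Helper5.MD

open Polynomial

open Classical in
theorem even_of_cycleType (P : ℚ[X]) (hP : Squarefree P) (r : ℕ) (hd : P.natDegree = 2 * r)
    (τ : P.Gal) (hτ : (Gal.galActionHom P ℂ τ).cycleType = Multiset.replicate r 2)
    (G : ℚ[X]) (hG : G ∣ P) : Even G.natDegree := by
  have hP0 : P ≠ 0 := hP.ne_zero
  have hsepP : P.Separable := PerfectField.separable_iff_squarefree.mpr hP
  have hGsq : Squarefree G := hP.squarefree_of_dvd hG
  have hG0 : G ≠ 0 := hGsq.ne_zero
  have hsepG : G.Separable := PerfectField.separable_iff_squarefree.mpr hGsq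
  have hcardP : Fintype.card (P.rootSet ℂ) = P.natDegree :=
    card_rootSet_eq_natDegree hsepP (IsAlgClosed.splits _)
  have hcardG : Fintype.card (G.rootSet ℂ) = G.natDegree :=
    card_rootSet_eq_natDegree hsepG (IsAlgClosed.splits _)
  generalize hσdef : Gal.galActionHom P ℂ τ = σ at hτ
  have hsupp : σ.support.card = Fintype.card (P.rootSet ℂ) := by
    rw [← Equiv.Perm.sum_cycleType, hτ, hcardP, hd, Multiset.sum_replicate]
    simp [mul_comm]
  have huniv : σ.support = Finset.univ := Finset.eq_univ_of_card _ hsupp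
  have hfix : ∀ x, σ x ≠ x := fun x => by
    have : x ∈ σ.support := by rw [huniv]; exact Finset.mem_univ _
    exact Equiv.Perm.mem_support.mp this
  have hsq : ∀ x, σ (σ x) = x := by
    have h2 : σ ^ 2 = 1 := by
      apply orderOf_dvd_iff_pow_eq_one.mp
      rw [← Equiv.Perm.lcm_cycleType, hτ]
      apply Multiset.lcm_dvd.mpr
      intro b hb
      rw [Multiset.eq_of_mem_replicate hb]
    intro x
    have := congrArg (fun f : Equiv.Perm (P.rootSet ℂ) => f x) h2
    simpa [pow_two] using this
  have key : ∀ x : P.rootSet ℂ, aeval (x : ℂ) G = 0 → aeval ((σ x : P.rootSet ℂ) : ℂ) G = 0 := by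
    intro x hx
    obtain ⟨y, rfl⟩ := (Gal.rootsEquivRoots P ℂ).surjective x
    have e1 : ((Gal.rootsEquivRoots P ℂ y : P.rootSet ℂ) : ℂ) =
        (IsScalarTower.toAlgHom ℚ P.SplittingField ℂ) (y : P.SplittingField) := rfl
    have e2 : σ (Gal.rootsEquivRoots P ℂ y) = Gal.rootsEquivRoots P ℂ (τ • y) := by
      rw [← hσdef]
      show τ • (Gal.rootsEquivRoots P ℂ y) = _
      rw [Gal.smul_def, Equiv.symm_apply_apply]
    have e3 : ((Gal.rootsEquivRoots P ℂ (τ • y) : P.rootSet ℂ) : ℂ) =
        (IsScalarTower.toAlgHom ℚ P.SplittingField ℂ) (τ (y : P.SplittingField)) := rfl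
    rw [e1, aeval_algHom_apply] at hx
    have hy : aeval (y : P.SplittingField) G = 0 :=
      (map_eq_zero_iff _ (IsScalarTower.toAlgHom ℚ P.SplittingField ℂ).toRingHom.injective).mp hx
    rw [e2, e3, aeval_algHom_apply]
    have hτy : aeval (τ (y : P.SplittingField)) G = 0 := by
      have := aeval_algHom_apply (τ : P.SplittingField ≃ₐ[ℚ] P.SplittingField).toAlgHom
        (y : P.SplittingField) G
      rw [hy, map_zero] at this
      exact this
    rw [hτy, map_zero]
  let S := {x : P.rootSet ℂ // aeval (x : ℂ) G = 0}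
  let f : Function.End S := fun x => ⟨σ x.1, key x.1 x.2⟩
  have hf : f ^ 2 ^ 1 = 1 := by
    funext x
    apply Subtype.ext
    show σ (σ x.1) = x.1
    exact hsq x.1
  have hS : Fintype.card S = G.natDegree := by
    rw [← hcardG]
    refine Fintype.card_congr
      { toFun := fun x => ⟨x.1.1, ?_⟩
        invFun := fun x => ⟨⟨x.1, ?_⟩, ?_⟩
        left_inv := fun x => rfl
        right_inv := fun x => rfl }
    · exact mem_rootSet.mpr ⟨hG0, x.2⟩
    · refine mem_rootSet.mpr ⟨hP0, ?_⟩
      obtain ⟨Q, hQ⟩ := hG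
      rw [hQ, map_mul, (mem_rootSet.mp x.2).2, zero_mul]
    · exact (mem_rootSet.mp x.2).2
  have hmod := Equiv.Perm.card_fixedPoints_modEq (α := S) (p := 2) (n := 1) hf
  have hfp : Fintype.card f.fixedPoints = 0 := by
    rw [Fintype.card_eq_zero_iff]
    refine ⟨fun x => ?_⟩
    have h1 : f x.1 = x.1 := x.2
    exact hfix x.1.1 (congrArg Subtype.val h1)
  rw [hfp, hS] at hmod
  exact Nat.even_iff.mpr hmod

theorem isSwap_of_cycleType {α : Type*} [Fintype α] [DecidableEq α] (σ : Equiv.Perm α)
    (h : σ.cycleType = Multiset.replicate 1 2) : σ.IsSwap := by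
  rw [Equiv.Perm.isSwap_iff_cycleType, h]
  rfl

end Pool.Agent.Helper5.MD
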