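import Pool.Agent.Helper5.MD3.R10Roots
import Pool.Agent.Helper5.MD3.G1Rat
import Pool.Agent.Helper5.MD3.G2Iso
import Pool.Agent.Helper5.MD3.G5Local
import Pool.Agent.Helper5.MD3.G6Even

/-!
# MR-G7 : the Galois group in a tame weight

Choose `ι : ℂ ≃+* E`, `E = PadicAlgCl 2` (`exists_ringEquiv_padicAlgCl`), the valuation `v z = ‖ι z‖₊` on `ℂ` (`Valuation.comap` of the norm valuation of `E`), `v 2 = 1/2 < 1`.  Apply `tame_roots`.
`P` from `T2_charpoly_rational`; the roots of `P` in `E` are the images under `ι` of the roots of `T2.charpoly` (`ι ∘ algebraMap ℚ ℂ = algebraMap ℚ E`).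
Use `exists_gal_of_local` with `μ' n = ι (μ n)`, `e n = v2 (PS (n+1))`, and the pair set `{b - 1 : B b}`, i.e. `(Finset.range d).filter (fun n => B (n + 1))`.
-/

open UpperHalfPlane hiding I
open ModularForm MatrixGroups Filter Topology
open scoped Manifold Real Nat

namespace Pool.Agent.Helper5.MD

/-- The valuation of `ℂ` induced by an isomorphism with the algebraic closure of `ℚ_2`. -/
noncomputable def g7val (ι : ℂ ≃+* PadicAlgCl 2) : Valuation ℂ NNReal :=
  (Valued.v : Valuation (PadicAlgCl 2) NNReal).comap ι.toRingHom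

theorem g7val_apply (ι : ℂ ≃+* PadicAlgCl 2) (x : ℂ) : ((g7val ι x : NNReal) : ℝ) = ‖ι x‖ := rfl

theorem g7_norm_two : ‖(2 : PadicAlgCl 2)‖ = 2⁻¹ := by
  have h := PadicAlgCl.valuation_p 2
  have h2 := congrArg (fun x : NNReal => (x : ℝ)) h
  simp only [PadicAlgCl.valuation_coe] at h2
  rw [Nat.cast_ofNat] at h2
  rw [h2]
  simp

theorem g7_norm_zpow (s : ℤ) : ‖(2 : PadicAlgCl 2) ^ s‖ = (2 : ℝ) ^ (-s) := by
  rw [norm_zpow, g7_norm_two, inv_zpow, zpow_neg]

open Polynomial Classical in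
theorem tame_galois {ε : Bool} {κ : ℕ} {B : ℕ → Prop} (h : Tame ε κ B) :
    ∃ P : ℚ[X], P.map (algebraMap ℚ ℂ) =
        (T2 (2 * (κ : ℤ) + (if ε then 1 else 0))).charpoly ∧
      Squarefree P ∧ P.natDegree = (κ - 1) / 3 ∧
      ∃ τ : P.Gal, (Gal.galActionHom P ℂ τ).cycleType =
        Multiset.replicate ((Finset.range ((κ - 1) / 3)).filter (fun n => B (n + 1))).card 2 := by
  obtain ⟨P, hP⟩ := T2_charpoly_rational (2 * (κ : ℤ) + (if ε then 1 else 0))
  obtain ⟨ι⟩ := exists_ringEquiv_padicAlgCl 2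
  have hv2 : g7val ι 2 < 1 := by
    have h1 : ((g7val ι 2 : NNReal) : ℝ) < 1 := by
      rw [g7val_apply, map_ofNat, g7_norm_two]
      norm_num
    exact_mod_cast h1
  obtain ⟨μ, hroots, hnd, hval, hres⟩ := tame_roots h (g7val ι) hv2
  have hmonic : P.Monic := by
    refine monic_of_injective (algebraMap ℚ ℂ).injective ?_
    rw [hP]
    exact LinearMap.charpoly_monic _
  have hmap : P.map (algebraMap ℚ (PadicAlgCl 2)) =
      (P.map (algebraMap ℚ ℂ)).map ι.toRingHom := by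
    rw [Polynomial.map_map]
    congr 1
    exact Subsingleton.elim _ _
  have hroots' : (P.map (algebraMap ℚ (PadicAlgCl 2))).roots =
      (Multiset.range ((κ - 1) / 3)).map (fun n => ι (μ n)) := by
    rw [hmap, (IsAlgClosed.splits (P.map (algebraMap ℚ ℂ))).roots_map_of_injective ι.injective,
      hP, hroots, Multiset.map_map]
    rfl
  have hnd' : ((Multiset.range ((κ - 1) / 3)).map (fun n => ι (μ n))).Nodup := by
    have h1 : (Multiset.range ((κ - 1) / 3)).map (fun n => ι (μ n)) =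
        ((Multiset.range ((κ - 1) / 3)).map μ).map ι := by
      rw [Multiset.map_map]
      rfl
    rw [h1]
    exact hnd.map ι.injective
  have hval' : ∀ n < (κ - 1) / 3,
      ‖ι (μ n)‖ = (2 : ℝ) ^ (-padicValRat 2 (PS ε κ (n + 1))) := by
    intro n hn
    rw [← g7val_apply, hval n hn, g7val_apply, map_zpow₀, map_ofNat, g7_norm_zpow]
  have hres' : ∀ n < (κ - 1) / 3, (B (n + 1) ∨ B n) →
      ‖(ι (μ n) / 2 ^ padicValRat 2 (PS ε κ (n + 1))) ^ 2 +
          ι (μ n) / 2 ^ padicValRat 2 (PS ε κ (n + 1)) + 1‖ < 1 := by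
    intro n hn hB
    have h1 := hres n hn hB
    have h2 : ((g7val ι ((μ n / 2 ^ padicValRat 2 (PS ε κ (n + 1))) ^ 2 +
          μ n / 2 ^ padicValRat 2 (PS ε κ (n + 1)) + 1) : NNReal) : ℝ) < 1 := by
      exact_mod_cast h1
    rw [g7val_apply] at h2
    simpa only [map_add, map_pow, map_div₀, map_zpow₀, map_ofNat, map_one] using h2
  have hbig := h.big
  have hB : ∀ b ∈ (Finset.range ((κ - 1) / 3)).filter (fun n => B (n + 1)),
      b + 1 < (κ - 1) / 3 ∧ b + 1 ∉ (Finset.range ((κ - 1) / 3)).filter (fun n => B (n + 1)) := by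
    intro b hb
    rw [Finset.mem_filter, Finset.mem_range] at hb
    obtain ⟨-, h4, h5⟩ := h.pos (b + 1) hb.2
    refine ⟨by omega, fun h6 => ?_⟩
    rw [Finset.mem_filter] at h6
    exact h5 h6.2
  have heq : ∀ b ∈ (Finset.range ((κ - 1) / 3)).filter (fun n => B (n + 1)),
      (fun n => padicValRat 2 (PS ε κ (n + 1))) (b + 1) =
        (fun n => padicValRat 2 (PS ε κ (n + 1))) b := by
    intro b hb
    rw [Finset.mem_filter] at hb
    exact h.eq (b + 1) hb.2
  have hlt : ∀ n, n + 1 < (κ - 1) / 3 →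
      n ∉ (Finset.range ((κ - 1) / 3)).filter (fun n => B (n + 1)) →
      (fun n => padicValRat 2 (PS ε κ (n + 1))) n <
        (fun n => padicValRat 2 (PS ε κ (n + 1))) (n + 1) := by
    intro n hn hnB
    have h4 : ¬ B (n + 1) := by
      intro h5
      apply hnB
      rw [Finset.mem_filter, Finset.mem_range]
      exact ⟨by omega, h5⟩
    have h5 := h.lt (n + 1) (by omega) (by omega) h4
    show padicValRat 2 (PS ε κ (n + 1)) < padicValRat 2 (PS ε κ (n + 1 + 1))
    omega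
  have hr : ∀ b ∈ (Finset.range ((κ - 1) / 3)).filter (fun n => B (n + 1)),
      ‖(ι (μ b) / 2 ^ (fun n => padicValRat 2 (PS ε κ (n + 1))) b) ^ 2 +
        ι (μ b) / 2 ^ (fun n => padicValRat 2 (PS ε κ (n + 1))) b + 1‖ < 1 ∧
      ‖(ι (μ (b + 1)) / 2 ^ (fun n => padicValRat 2 (PS ε κ (n + 1))) b) ^ 2 +
        ι (μ (b + 1)) / 2 ^ (fun n => padicValRat 2 (PS ε κ (n + 1))) b + 1‖ < 1 := by
    intro b hb
    have hb' := (hB b hb).1
    rw [Finset.mem_filter, Finset.mem_range] at hb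
    refine ⟨hres' b hb.1 (Or.inl hb.2), ?_⟩
    have h6 := hres' (b + 1) hb' (Or.inr hb.2)
    rw [h.eq (b + 1) hb.2] at h6
    exact h6
  obtain ⟨h1, h2, h3⟩ := exists_gal_of_local P hmonic ((κ - 1) / 3) (fun n => ι (μ n)) hroots'
    hnd' (fun n => padicValRat 2 (PS ε κ (n + 1))) hval'
    ((Finset.range ((κ - 1) / 3)).filter (fun n => B (n + 1))) hB heq hlt hr
  exact ⟨P, hP, h1, h2, h3⟩

end Pool.Agent.Helper5.MD
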