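import Pool.Agent.Helper5.MD3.F1NLam
import Pool.Agent.Helper5.MD3.F2NMu
import Pool.Agent.Helper5.MD3.F3NPiv
import Pool.Agent.Helper5.MD3.F4TmLam
import Pool.Agent.Helper5.MD3.F5TmMu
import Pool.Agent.Helper5.MD3.F6TmPiv
import Pool.Agent.Helper5.MD3.F7TpLam
import Pool.Agent.Helper5.MD3.F8TpMu
import Pool.Agent.Helper5.MD3.F9TpPiv

/-!
# The three families of tame weights
-/

open scoped Nat

namespace Pool.Agent.Helper5.MD

theorem two_pow_ge (m : ℕ) (hm : 10 ≤ m) : 1024 ≤ 2 ^ m := by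
  calc 1024 = 2 ^ 10 := by norm_num
    _ ≤ 2 ^ m := Nat.pow_le_pow_right (by norm_num) hm

theorem not_three_dvd_pow (m : ℕ) : ¬ 3 ∣ 2 ^ m := by
  intro h
  have h1 := Nat.prime_three.dvd_of_dvd_pow h
  omega

theorem half_pow (m : ℕ) (hm : 10 ≤ m) : 2 ^ m = 2 * 2 ^ (m - 1) ∧ 2 ^ (m - 1) % 2 = 0 := by
  obtain ⟨c, rfl⟩ : ∃ c, m = c + 2 := ⟨m - 2, by omega⟩
  refine ⟨?_, ?_⟩
  · show 2 ^ (c + 2) = 2 * 2 ^ (c + 1)
    ring
  · show 2 ^ (c + 1) % 2 = 0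
    rw [pow_succ]
    omega

theorem N_aux (m w : ℕ) (hm : 10 ≤ m) (hw : w % 2 = 1) (h3 : 3 * w < 2 ^ m - 1) :
    3 * (w + 1) < 2 ^ m - 1 := by
  have hbig := two_pow_ge m hm
  obtain ⟨hh, hev⟩ := half_pow m hm
  have h := not_three_dvd_pow m
  omega

theorem tame_N (m : ℕ) (hm : 10 ≤ m) :
    Tame true (2 ^ m - 1) (fun b => b % 2 = 1 ∧ 3 * (b + 1) < 2 ^ m - 1) := by
  have hbig := two_pow_ge m hm
  refine ⟨by omega, Or.inr rfl, ?_, ?_, ?_, ?_, ?_, ?_, ?_⟩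
  · rintro b ⟨h1, h2⟩
    exact ⟨by omega, h2, fun h => by omega⟩
  · intro i w hw hwi h3 h2 hne
    apply VG_LL_N m i w hw hwi h3 h2
    rintro ⟨h4, rfl⟩
    apply hne
    refine ⟨⟨h4, ?_⟩, rfl⟩
    exact N_aux m w hm h4 h3
  · rintro b ⟨h1, h2⟩
    exact Un_LL_N m b h1 h2
  · intro w j hw hwj h3 h2 hne
    apply VG_UU_N m w j hw hwj h3 h2
    rintro ⟨h4, rfl⟩
    apply hne
    refine ⟨⟨h4, ?_⟩, rfl⟩
    exact N_aux m w hm h4 h3
  · rintro b ⟨h1, h2⟩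
    exact Un_UU_N m b h1 h2
  · rintro b ⟨h1, h2⟩
    exact slope_N_odd m b (by omega) h1 h2
  · intro n hn h3 hB
    have h4 : n % 2 = 0 := by
      by_contra hcon
      exact hB ⟨by omega, h3⟩
    have := slope_N_even m n (by omega) hn h4 h3
    omega

theorem tame_Tm (m : ℕ) (hm : 10 ≤ m) :
    Tame false (3 * 2 ^ m - 1) (fun b => b + 1 = 2 ^ (m - 1)) := by
  have hbig := two_pow_ge m hm
  obtain ⟨hh, hev⟩ := half_pow m hm
  refine ⟨by omega, Or.inl (by omega), ?_, ?_, ?_, ?_, ?_, ?_, ?_⟩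
  · intro b hb
    exact ⟨by omega, by omega, by omega⟩
  · intro i w hw hwi h3 h2 hne
    exact VG_LL_Tm m i w (by omega) hw hwi h3 h2 hne
  · intro b hb
    exact Un_LL_Tm m b (by omega) hb
  · intro w j hw hwj h3 h2 hne
    exact VG_UU_Tm m w j (by omega) hw hwj h3 h2 hne
  · intro b hb
    exact Un_UU_Tm m b (by omega) hb
  · intro b hb
    exact slope_Tm_eq m b (by omega) hb
  · intro n hn h3 hB
    exact slope_Tm_lt m n (by omega) hn hB h3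

theorem tame_Tp (m : ℕ) (hm : 10 ≤ m) :
    Tame true (3 * 2 ^ m + 1) (fun b => b = 2 ^ (m - 1)) := by
  have hbig := two_pow_ge m hm
  obtain ⟨hh, hev⟩ := half_pow m hm
  refine ⟨by omega, Or.inl (by omega), ?_, ?_, ?_, ?_, ?_, ?_, ?_⟩
  · intro b hb
    exact ⟨by omega, by omega, by omega⟩
  · intro i w hw hwi h3 h2 hne
    exact VG_LL_Tp m i w (by omega) hw hwi h3 h2 hne
  · intro b hb
    exact Un_LL_Tp m b (by omega) hb
  · intro w j hw hwj h3 h2 hne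
    exact VG_UU_Tp m w j (by omega) hw hwj h3 h2 hne
  · intro b hb
    exact Un_UU_Tp m b (by omega) hb
  · intro b hb
    exact slope_Tp_eq m b (by omega) hb
  · intro n hn h3 hB
    exact slope_Tp_lt m n (by omega) hn hB h3

end Pool.Agent.Helper5.MD
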