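import Pool.Agent.Helper5.MD3.H1Fam
import Pool.Agent.Helper5.MD3.G7Final

/-!
# Final assembly for the Galois group statements
-/

open UpperHalfPlane hiding I
open ModularForm MatrixGroups Filter Topology Polynomial
open scoped Manifold Real Nat

namespace Pool.Agent.Helper5.MD

theorem card_odd (r : ℕ) (s : ℕ → Prop) [DecidablePred s] (h : ∀ n < 2 * r, s n ↔ n % 2 = 0) :
    ((Finset.range (2 * r)).filter s).card = r := by
  have h1 : (Finset.range (2 * r)).filter s = (Finset.range r).image (fun j => 2 * j) := by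
    ext n
    simp only [Finset.mem_filter, Finset.mem_range, Finset.mem_image]
    constructor
    · rintro ⟨h2, h3⟩
      rw [h n h2] at h3
      exact ⟨n / 2, by omega, by omega⟩
    · rintro ⟨j, hj, rfl⟩
      exact ⟨by omega, (h _ (by omega)).2 (by omega)⟩
  rw [h1, Finset.card_image_of_injective _ (fun a b hab => by simpa using hab), Finset.card_range]

open Classical in
theorem galois_N (m : ℕ) (hm : 10 ≤ m) :
    ∃ P : ℚ[X], P.map (algebraMap ℚ ℂ) = (T2 (2 ^ (m + 1) - 1 : ℤ)).charpoly ∧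
      Squarefree P ∧ (∀ G : ℚ[X], G ∣ P → Even G.natDegree) ∧
      ∃ τ : P.Gal, (Gal.galActionHom P ℂ τ).cycleType =
        Multiset.replicate (P.natDegree / 2) 2 := by
  obtain ⟨P, h1, h2, h3, τ, h4⟩ := tame_galois (tame_N m hm)
  have hbig := two_pow_ge m hm
  obtain ⟨hh, hev⟩ := half_pow m hm
  have h30 := not_three_dvd_pow m
  obtain ⟨r, hr⟩ : ∃ r, (2 ^ m - 1 - 1) / 3 = 2 * r := ⟨(2 ^ m - 1 - 1) / 3 / 2, by
    obtain ⟨c, rfl⟩ : ∃ c, m = c + 2 := ⟨m - 2, by omega⟩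
    have e : 2 ^ (c + 2) = 4 * 2 ^ c := by ring
    have h31 := not_three_dvd_pow c
    omega⟩
  rw [hr] at h3 h4
  have hcard : ((Finset.range (2 * r)).filter
      (fun n => (n + 1) % 2 = 1 ∧ 3 * (n + 1 + 1) < 2 ^ m - 1)).card = r := by
    apply card_odd
    intro n hn
    constructor
    · rintro ⟨h5, -⟩
      omega
    · intro h5
      exact ⟨by omega, by omega⟩
  have h6 : (Gal.galActionHom P ℂ τ).cycleType = Multiset.replicate r 2 := by
    rw [h4]
    congr 1
    convert hcard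
  refine ⟨P, ?_, h2, ?_, τ, ?_⟩
  · rw [h1]
    have e : (2 * ((2 ^ m - 1 : ℕ) : ℤ) + (if true then 1 else 0)) = (2 ^ (m + 1) - 1 : ℤ) := by
      have e1 : ((2 ^ m - 1 : ℕ) : ℤ) = 2 ^ m - 1 := by
        rw [Nat.cast_sub (by omega)]
        push_cast
        ring
      rw [e1]
      simp only [if_true]
      ring
    rw [e]
  · intro G hG
    exact even_of_cycleType P h2 r h3 τ h6 G hG
  · rw [h6, h3]
    congr 1
    omega

open Classical in
theorem galois_Tm (m : ℕ) (hm : 10 ≤ m) :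
    ∃ P : ℚ[X], P.map (algebraMap ℚ ℂ) = (T2 (3 * 2 ^ (m + 1) - 2 : ℤ)).charpoly ∧
      Squarefree P ∧ ∃ τ : P.Gal, (Gal.galActionHom P ℂ τ).IsSwap := by
  obtain ⟨P, h1, h2, h3, τ, h4⟩ := tame_galois (tame_Tm m hm)
  have hbig := two_pow_ge m hm
  obtain ⟨hh, hev⟩ := half_pow m hm
  have hcard : ((Finset.range ((3 * 2 ^ m - 1 - 1) / 3)).filter
      (fun n => n + 1 + 1 = 2 ^ (m - 1))).card = 1 := by
    rw [Finset.card_eq_one]
    refine ⟨2 ^ (m - 1) - 2, ?_⟩
    ext n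
    simp only [Finset.mem_filter, Finset.mem_range, Finset.mem_singleton]
    omega
  refine ⟨P, ?_, h2, τ, isSwap_of_cycleType _ ?_⟩
  · rw [h1]
    have e : (2 * ((3 * 2 ^ m - 1 : ℕ) : ℤ) + (if false then 1 else 0)) =
        (3 * 2 ^ (m + 1) - 2 : ℤ) := by
      have e1 : ((3 * 2 ^ m - 1 : ℕ) : ℤ) = 3 * 2 ^ m - 1 := by
        rw [Nat.cast_sub (by omega)]
        push_cast
        ring
      rw [e1]
      simp
      ring
    rw [← e]
  · rw [h4]
    congr 1
    convert hcard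

open Classical in
theorem galois_Tp (m : ℕ) (hm : 10 ≤ m) :
    ∃ P : ℚ[X], P.map (algebraMap ℚ ℂ) = (T2 (3 * 2 ^ (m + 1) + 3 : ℤ)).charpoly ∧
      Squarefree P ∧ ∃ τ : P.Gal, (Gal.galActionHom P ℂ τ).IsSwap := by
  obtain ⟨P, h1, h2, h3, τ, h4⟩ := tame_galois (tame_Tp m hm)
  have hbig := two_pow_ge m hm
  obtain ⟨hh, hev⟩ := half_pow m hm
  have hcard : ((Finset.range ((3 * 2 ^ m + 1 - 1) / 3)).filter
      (fun n => n + 1 = 2 ^ (m - 1))).card = 1 := by
    rw [Finset.card_eq_one]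
    refine ⟨2 ^ (m - 1) - 1, ?_⟩
    ext n
    simp only [Finset.mem_filter, Finset.mem_range, Finset.mem_singleton]
    omega
  refine ⟨P, ?_, h2, τ, isSwap_of_cycleType _ ?_⟩
  · rw [h1]
    have e : (2 * ((3 * 2 ^ m + 1 : ℕ) : ℤ) + (if true then 1 else 0)) =
        (3 * 2 ^ (m + 1) + 3 : ℤ) := by
      push_cast
      simp only [if_true]
      ring
    rw [← e]
  · rw [h4]
    congr 1
    convert hcard

end Pool.Agent.Helper5.MD
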