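import Pool.Agent.Helper5.MD3.R0Defs
import Pool.Agent.Helper5.MD.D8Crit

/-!
# MR-R3 : the inverse factors are integral in a tame weight

Let `L' i w = 2^(2i-2w) LL i w` (integral, `VG 0`, for `w < i`; `LL i i = 1` if `3 i < κ`).  `LL_LI` (in `MD/D8Crit.lean`) says `∑_w L' i w LI' w j = δ` for `3 i < κ`, so
`LI' i j = - ∑_(j ≤ w < i) L' i w LI' w j`, and induction on `i` gives `VG 0 (LI' i j)`.  The same for `UU`, `UI` (`UI_UU`/`UU_UI`).
Also include the diagonal (`LI i i = UI i i = 1`).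
-/

open scoped Nat

namespace Pool.Agent.Helper5.MD

theorem r3_LL_diag (ε : Bool) (κ i : ℕ) (h3 : 3 * i < κ) : LL ε (κ : ℚ) i i = 1 := by
  have h : lam (κ : ℚ) i i = 1 := by simp [lam]
  have h0 : ((κ : ℚ) - 3 * i) ≠ 0 := by
    have : (3 : ℚ) * i < κ := by exact_mod_cast h3
    linarith
  unfold LL
  cases ε
  · simpa using h
  · simp [h, div_self h0]

theorem r3_UU_diag (ε : Bool) (κ i : ℕ) (h3 : 3 * i < κ) : UU ε (κ : ℚ) i i = 1 := by
  have h0 : (2 * (κ : ℚ) - 3 * i) ≠ 0 := by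
    have : (3 : ℚ) * i < κ := by exact_mod_cast h3
    have h1 : (0 : ℚ) ≤ κ := Nat.cast_nonneg κ
    linarith
  have h : mu (κ : ℚ) i i = 1 := by simp [mu, div_self h0]
  unfold UU
  cases ε
  · simpa using h
  · simp [h, div_self h0]

theorem Tame.ll0 {ε : Bool} {κ : ℕ} {B : ℕ → Prop} (h : Tame ε κ B) (i w : ℕ) (hw : 1 ≤ w)
    (hwi : w < i) (h3 : 3 * w < κ) (h2 : 2 * i < κ) :
    VG 0 (2 ^ (2 * (i : ℤ) - 2 * w) * LL ε κ i w) := by
  by_cases hB : B w ∧ i = w + 1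
  · obtain ⟨hB, rfl⟩ := hB
    have h1 := (h.ll1 w hB).1
    have e : (2 : ℚ) ^ (2 * ((w + 1 : ℕ) : ℤ) - 2 * w) = 2 ^ 2 := by
      have : (2 * ((w + 1 : ℕ) : ℤ) - 2 * w) = (2 : ℕ) := by push_cast; ring
      rw [this, zpow_natCast]
    rw [e]
    exact h1
  · exact (h.ll i w hw hwi h3 h2 hB).mono (by norm_num)

theorem Tame.uu0 {ε : Bool} {κ : ℕ} {B : ℕ → Prop} (h : Tame ε κ B) (w j : ℕ) (hw : 1 ≤ w)
    (hwj : w < j) (h3 : 3 * w < κ) (h2 : 2 * j < κ) :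
    VG 0 (2 ^ (2 * (j : ℤ) - 2 * w) * UU ε κ w j) := by
  by_cases hB : B w ∧ j = w + 1
  · obtain ⟨hB, rfl⟩ := hB
    have h1 := (h.uu1 w hB).1
    have e : (2 : ℚ) ^ (2 * ((w + 1 : ℕ) : ℤ) - 2 * w) = 2 ^ 2 := by
      have : (2 * ((w + 1 : ℕ) : ℤ) - 2 * w) = (2 : ℕ) := by push_cast; ring
      rw [this, zpow_natCast]
    rw [e]
    exact h1
  · exact (h.uu w j hw hwj h3 h2 hB).mono (by norm_num)

theorem Tame.li {ε : Bool} {κ : ℕ} {B : ℕ → Prop} (h : Tame ε κ B) (i j : ℕ) (hj : 1 ≤ j)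
    (hji : j ≤ i) (h3 : 3 * i < κ) :
    VG 0 (2 ^ (2 * (i : ℤ) - 2 * j) * LI ε κ i j) := by
  induction i using Nat.strong_induction_on with
  | _ i ih =>
    have h1 := LL_mul_LI ε κ i j hj hji h3
    rw [← Finset.Ico_insert_right hji, Finset.sum_insert (by simp), r3_LL_diag ε κ i h3,
      one_mul] at h1
    have h2 : (2 : ℚ) ^ (2 * (i : ℤ) - 2 * j) * LI ε κ i j =
        (if i = j then 1 else 0) * 2 ^ (2 * (i : ℤ) - 2 * j) -
        ∑ w ∈ Finset.Ico j i, (2 ^ (2 * (i : ℤ) - 2 * w) * LL ε κ i w) *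
          (2 ^ (2 * (w : ℤ) - 2 * j) * LI ε κ w j) := by
      have e1 : ∑ w ∈ Finset.Ico j i, (2 ^ (2 * (i : ℤ) - 2 * w) * LL ε κ i w) *
          (2 ^ (2 * (w : ℤ) - 2 * j) * LI ε κ w j) =
          2 ^ (2 * (i : ℤ) - 2 * j) * ∑ w ∈ Finset.Ico j i, LL ε κ i w * LI ε κ w j := by
        rw [Finset.mul_sum]
        refine Finset.sum_congr rfl fun w _ => ?_
        have e2 : (2 : ℚ) ^ (2 * (i : ℤ) - 2 * j) =
            2 ^ (2 * (i : ℤ) - 2 * w) * 2 ^ (2 * (w : ℤ) - 2 * j) := by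
          rw [← zpow_add₀ (by norm_num : (2 : ℚ) ≠ 0)]
          congr 1
          ring
        rw [e2]
        ring
      rw [e1, ← h1]
      ring
    rw [h2]
    refine VG.sub ?_ (VG_sum _ _ _ ?_)
    · by_cases hij : i = j
      · rw [if_pos hij, hij]
        simpa using VG_int 1
      · rw [if_neg hij, zero_mul]
        exact VG_zero 0
    · intro w hw
      rw [Finset.mem_Ico] at hw
      have := (h.ll0 i w (by omega) hw.2 (by omega) (by omega)).mul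
        (ih w hw.2 hw.1 (by omega))
      simpa using this

theorem Tame.ui {ε : Bool} {κ : ℕ} {B : ℕ → Prop} (h : Tame ε κ B) (j s : ℕ) (hj : 1 ≤ j)
    (hjs : j ≤ s) (h3 : 3 * s < κ) :
    VG 0 (2 ^ (2 * (s : ℤ) - 2 * j) * UI ε κ j s) := by
  induction s using Nat.strong_induction_on with
  | _ s ih =>
    have h1 := UI_mul_UU ε κ j s hj hjs h3
    rw [← Finset.Ico_insert_right hjs, Finset.sum_insert (by simp), r3_UU_diag ε κ s h3,
      mul_one] at h1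
    have h2 : (2 : ℚ) ^ (2 * (s : ℤ) - 2 * j) * UI ε κ j s =
        (if j = s then 1 else 0) * 2 ^ (2 * (s : ℤ) - 2 * j) -
        ∑ w ∈ Finset.Ico j s, (2 ^ (2 * (w : ℤ) - 2 * j) * UI ε κ j w) *
          (2 ^ (2 * (s : ℤ) - 2 * w) * UU ε κ w s) := by
      have e1 : ∑ w ∈ Finset.Ico j s, (2 ^ (2 * (w : ℤ) - 2 * j) * UI ε κ j w) *
          (2 ^ (2 * (s : ℤ) - 2 * w) * UU ε κ w s) =
          2 ^ (2 * (s : ℤ) - 2 * j) * ∑ w ∈ Finset.Ico j s, UI ε κ j w * UU ε κ w s := by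
        rw [Finset.mul_sum]
        refine Finset.sum_congr rfl fun w _ => ?_
        have e2 : (2 : ℚ) ^ (2 * (s : ℤ) - 2 * j) =
            2 ^ (2 * (w : ℤ) - 2 * j) * 2 ^ (2 * (s : ℤ) - 2 * w) := by
          rw [← zpow_add₀ (by norm_num : (2 : ℚ) ≠ 0)]
          congr 1
          ring
        rw [e2]
        ring
      rw [e1, ← h1]
      ring
    rw [h2]
    refine VG.sub ?_ (VG_sum _ _ _ ?_)
    · by_cases hij : j = s
      · rw [if_pos hij, hij]
        simpa using VG_int 1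
      · rw [if_neg hij, zero_mul]
        exact VG_zero 0
    · intro w hw
      rw [Finset.mem_Ico] at hw
      have := (ih w hw.2 hw.1 (by omega)).mul
        (h.uu0 w s (by omega) hw.2 (by omega) (by omega))
      simpa using this

end Pool.Agent.Helper5.MD
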