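import Pool.Agent.Helper5.MD3.R2Crit
import Pool.Agent.Helper5.MD3.R3Inv

/-!
# MR-R4 : the criterion at the cuts of a tame weight

Verify the hypotheses of `crit_general3` (compare `MD2/P8Pow.lean`).  `PP w = 2^(1-4w) PS w`; `s_w = v2 (PS w)` is (weakly) increasing in `w` for `3 w < κ` by `h.eq`, `h.lt`, and
`s_(n+1) ≥ s_n + 2` since `¬ B n`.  For `w ≤ n < i`: `LL i w` is even because `¬ (B w ∧ i = w + 1)` (it would force `w = n`).
For `κ ≤ 3 w` the pivot is zero (`PP_eq_zero3`).  `PS w ≠ 0` for `3 w < κ` (compare `MD/D8Crit.lean`, `MD2/P8Pow.lean`).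
-/

open scoped Nat

namespace Pool.Agent.Helper5.MD

theorem Tame.mono {ε : Bool} {κ : ℕ} {B : ℕ → Prop} (h : Tame ε κ B) (w : ℕ) (hw : 1 ≤ w) :
    ∀ n : ℕ, w ≤ n → 3 * n < κ →
      padicValRat 2 (PS ε κ w) ≤ padicValRat 2 (PS ε κ n) := by
  intro n hn
  induction n, hn using Nat.le_induction with
  | base => intro _; exact le_rfl
  | succ k hk ih =>
    intro h3
    have h1 := ih (by omega)
    by_cases hB : B k
    · rw [h.eq k hB]
      exact h1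
    · have := h.lt k (by omega) h3 hB
      omega

theorem Tame.ll' {ε : Bool} {κ : ℕ} {B : ℕ → Prop} (h : Tame ε κ B) (i w : ℕ) (hw : 1 ≤ w)
    (hwi : w ≤ i) (h3 : 3 * w < κ) (h2 : 2 * i < κ) :
    VG 0 (2 ^ (2 * (i : ℤ) - 2 * w) * LL ε κ i w) := by
  rcases hwi.lt_or_eq with h1 | h1
  · exact h.ll0 i w hw h1 h3 h2
  · subst h1
    rw [r3_LL_diag ε κ w h3]
    simpa using VG_int 1

theorem Tame.uu' {ε : Bool} {κ : ℕ} {B : ℕ → Prop} (h : Tame ε κ B) (w j : ℕ) (hw : 1 ≤ w)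
    (hwj : w ≤ j) (h3 : 3 * w < κ) (h2 : 2 * j < κ) :
    VG 0 (2 ^ (2 * (j : ℤ) - 2 * w) * UU ε κ w j) := by
  rcases hwj.lt_or_eq with h1 | h1
  · exact h.uu0 w j hw h1 h3 h2
  · subst h1
    rw [r3_UU_diag ε κ w h3]
    simpa using VG_int 1

theorem r4_scaleG (ε : Bool) (κ : ℚ) (c d w : ℕ) : (2 : ℚ) ^ (1 - 2 * (c : ℤ) - 2 * d) *
    (UI ε κ c w * (PP ε κ w)⁻¹ * LI ε κ w d) =
    (2 ^ (2 * (w : ℤ) - 2 * c) * UI ε κ c w) * (PS ε κ w)⁻¹ *
      (2 ^ (2 * (w : ℤ) - 2 * d) * LI ε κ w d) := by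
  unfold PS
  rw [mul_inv, ← zpow_neg]
  have h1 : (2 : ℚ) ^ (1 - 2 * (c : ℤ) - 2 * d) =
      2 ^ (2 * (w : ℤ) - 2 * c) * 2 ^ (-(4 * (w : ℤ) - 1)) * 2 ^ (2 * (w : ℤ) - 2 * d) := by
    rw [← zpow_add₀ (by norm_num : (2 : ℚ) ≠ 0), ← zpow_add₀ (by norm_num : (2 : ℚ) ≠ 0)]
    congr 1
    ring
  rw [h1]
  ring

theorem r4_scaleX (a b : ℚ) (i j w : ℕ) : (2 : ℚ) ^ (2 * (i : ℤ) - 2 * j) * (a * b) =
    (2 ^ (2 * (i : ℤ) - 2 * w) * a) * (2 ^ (2 * (w : ℤ) - 2 * j) * b) := by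
  have h1 : (2 : ℚ) ^ (2 * (i : ℤ) - 2 * j) =
      2 ^ (2 * (i : ℤ) - 2 * w) * 2 ^ (2 * (w : ℤ) - 2 * j) := by
    rw [← zpow_add₀ (by norm_num : (2 : ℚ) ≠ 0)]
    congr 1
    ring
  rw [h1]
  ring

theorem r4_scaleS (ε : Bool) (κ : ℚ) (i j w : ℕ) : (2 : ℚ) ^ (2 * (i : ℤ) + 2 * j - 1) *
    (LL ε κ i w * PP ε κ w * UU ε κ w j) =
    (2 ^ (2 * (i : ℤ) - 2 * w) * LL ε κ i w) * PS ε κ w *
      (2 ^ (2 * (j : ℤ) - 2 * w) * UU ε κ w j) := by
  unfold PS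
  have h1 : (2 : ℚ) ^ (2 * (i : ℤ) + 2 * j - 1) =
      2 ^ (2 * (i : ℤ) - 2 * w) * 2 ^ (4 * (w : ℤ) - 1) * 2 ^ (2 * (j : ℤ) - 2 * w) := by
    rw [← zpow_add₀ (by norm_num : (2 : ℚ) ≠ 0), ← zpow_add₀ (by norm_num : (2 : ℚ) ≠ 0)]
    congr 1
    ring
  rw [h1]
  ring

theorem Tame.crit {ε : Bool} {κ : ℕ} {B : ℕ → Prop} (h : Tame ε κ B) (n : ℕ) (hn : 1 ≤ n)
    (h3 : 3 * n < κ) (hB : ¬ B n) :
    Crit (κ - 1) n (MAT ε κ) (padicValRat 2 (PS ε κ n) + 1) := by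
  have hbig := h.big
  refine crit_general3 ε κ n h.big h.three hn h3 ?_ ?_ ?_ ?_
  · -- hG
    intro c d hc hcn hd1 hdn
    rw [Finset.mul_sum]
    refine VG_sum _ _ _ ?_
    intro w hw
    rw [Finset.mem_Icc] at hw
    have hcw : c ≤ w := le_trans (le_max_left _ _) hw.1
    have hdw : d ≤ w := le_trans (le_max_right _ _) hw.1
    have hw3 : 3 * w < κ := by omega
    rw [r4_scaleG]
    have hi : VG (-padicValRat 2 (PS ε κ w)) (PS ε κ w)⁻¹ := by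
      right
      rw [padicValRat.inv]
    have hm' := h.mono w (by omega) n hw.2 h3
    refine (((h.ui c w hc hcw hw3).mul hi).mul (h.li w d hd1 hdw hw3)).mono ?_
    linarith
  · -- hX
    intro i j hj hjn hni hi2
    rw [Finset.mul_sum]
    refine VG_sum _ _ _ ?_
    intro w hw
    rw [Finset.mem_Icc] at hw
    have hw3 : 3 * w < κ := by omega
    rw [r4_scaleX _ _ i j w]
    have hne : ¬ (B w ∧ i = w + 1) := by
      rintro ⟨h1, h2⟩
      have : w = n := by omega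
      exact hB (this ▸ h1)
    have := (h.ll i w (by omega) (by omega) hw3 hi2 hne).mul (h.li w j hj hw.1 hw3)
    simpa using this
  · -- hY
    intro i j hi hin hnj hj2
    rw [Finset.mul_sum]
    refine VG_sum _ _ _ ?_
    intro w hw
    rw [Finset.mem_Icc] at hw
    have hw3 : 3 * w < κ := by omega
    rw [mul_comm (UI ε κ i w), r4_scaleX _ _ j i w]
    have := (h.uu0 w j (by omega) (by omega) hw3 hj2).mul (h.ui i w hi hw.1 hw3)
    simpa using this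
  · -- hS
    intro i j hni hnj hi2 hj2
    rw [Finset.mul_sum]
    refine VG_sum _ _ _ ?_
    intro w hw
    rw [Finset.mem_Icc] at hw
    have hwi : w ≤ i := le_trans hw.2 (min_le_left _ _)
    have hwj : w ≤ j := le_trans hw.2 (min_le_right _ _)
    rcases lt_or_ge (3 * w) κ with hw3 | hw3
    · rw [r4_scaleS]
      have hs : VG (padicValRat 2 (PS ε κ w)) (PS ε κ w) := Or.inr le_rfl
      have hm1 := h.lt n hn (by omega) hB
      have hm2 := h.mono (n + 1) (by omega) w hw.1 hw3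
      refine (((h.ll' i w (by omega) hwi hw3 hi2).mul hs).mul
        (h.uu' w j (by omega) hwj hw3 hj2)).mono ?_
      linarith
    · rw [PP_eq_zero3 ε κ w h.three hw3 (by omega)]
      simpa using VG_zero _

end Pool.Agent.Helper5.MD
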