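import Pool.Agent.Helper5.MD3.R5PairGen
import Pool.Agent.Helper5.MD3.R3Inv

/-!
# MR-R6 : the pair criterion at the pairs of a tame weight

Verify the hypotheses of `pair_general`.  Put `L' i w = 2^(2i-2w) LL i w`, `U' w j = 2^(2j-2w) UU w j`, `s = v2 (PS b) = v2 (PS (b+1))`.
* `hG`: for `w ≤ b - 1`: `v2 (PS w) ≤ v2 (PS (b-1)) ≤ s - 2` (`¬ B (b-1)` by `h.pos`), the inverses are integral (`Tame.li`, `Tame.ui`).
* `hX`: `L' i w` is even for `w ≤ b - 1 < i` (if `B w` and `i = w + 1` then `w = b - 1`, but `¬ B (b-1)`), `LI'` integral.   `hY`: integral.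
* `hS`, `hS1`: the term is `L' i w * PS w * U' w j`.  `w ≥ b + 2`: `v2 (PS w) ≥ v2 (PS (b+1)) + 2` (`¬ B (b+1)`), zero if `κ ≤ 3 w`.  `w = b + 1`: `i = j = b + 1` gives `PS (b+1)`, otherwise one
factor is even.  `w = b`: `L' i b`, `U' b j` are units for `i, j ∈ {b, b+1}` and even otherwise.  So modulo `2^(s+1)` the matrix is `2^s` at
`(b, b), (b, b+1), (b+1, b)`, `2^s + 2^s ≡ 0` at `(b+1, b+1)` and `0` elsewhere.
-/

open scoped Nat

namespace Pool.Agent.Helper5.MD

private theorem r6_Un_iff (x : ℚ) : Un x ↔ x ≠ 0 ∧ padicValRat 2 x = 0 := by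
  unfold Un VG
  constructor
  · rintro ⟨h1, h2⟩
    rw [not_or] at h2
    refine ⟨h2.1, ?_⟩
    rcases h1 with h1 | h1
    · exact absurd h1 h2.1
    · omega
  · rintro ⟨h1, h2⟩
    refine ⟨Or.inr (by rw [h2]), ?_⟩
    rw [not_or]
    exact ⟨h1, by rw [h2]; norm_num⟩

private theorem r6_Un_mul {x y : ℚ} (hx : Un x) (hy : Un y) : Un (x * y) := by
  rw [r6_Un_iff] at *
  refine ⟨mul_ne_zero hx.1 hy.1, ?_⟩
  rw [padicValRat.mul hx.1 hy.1, hx.2, hy.2, add_zero]

private theorem r6_Un_one : Un (1 : ℚ) := by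
  rw [r6_Un_iff]
  exact ⟨one_ne_zero, padicValRat.one⟩

private theorem r6_sub_one {x : ℚ} (hx : Un x) : VG 1 (x - 1) := by
  rw [r6_Un_iff] at hx
  obtain ⟨hx0, hv⟩ := hx
  have hnum : x.num ≠ 0 := Rat.num_ne_zero.2 hx0
  have hd0 : x.den ≠ 0 := x.den_ne_zero
  have hco := x.reduced
  have hvd : padicValRat 2 x = padicValInt 2 x.num - padicValNat 2 x.den := rfl
  rw [hvd] at hv
  have hden : ¬ 2 ∣ x.den := by
    intro h
    have h1 : ¬ 2 ∣ x.num.natAbs := by
      intro h2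
      have h3 := Nat.dvd_gcd h2 h
      rw [hco] at h3
      exact absurd h3 (by norm_num)
    have h2 : padicValInt 2 x.num = 0 := padicValNat.eq_zero_of_not_dvd h1
    have h3 := one_le_padicValNat_of_dvd (p := 2) hd0 h
    rw [h2] at hv
    omega
  have hden' : padicValNat 2 x.den = 0 := padicValNat.eq_zero_of_not_dvd hden
  have hnum' : ¬ 2 ∣ x.num.natAbs := by
    intro h
    have h3 := one_le_padicValNat_of_dvd (p := 2) (by omega) h
    have h4 : padicValInt 2 x.num = padicValNat 2 x.num.natAbs := rfl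
    rw [h4, hden'] at hv
    omega
  obtain ⟨z, hz⟩ : ∃ z : ℤ, x.num - x.den = 2 * z := ⟨(x.num - x.den) / 2, by omega⟩
  have e : x - 1 = (2 : ℚ) ^ (1 : ℤ) * z * (x.den : ℚ)⁻¹ := by
    have h1 : (x.den : ℚ) ≠ 0 := by exact_mod_cast hd0
    have h2 : ((x.num - x.den : ℤ) : ℚ) = ((2 * z : ℤ) : ℚ) := by rw [hz]
    push_cast at h2
    rw [zpow_one, ← h2, sub_mul, mul_inv_cancel₀ h1]
    congr 1
    rw [← div_eq_mul_inv]
    exact (Rat.num_div_den x).symm
  have hi : VG 0 (x.den : ℚ)⁻¹ := by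
    right
    rw [padicValRat.inv, padicValRat.of_nat, hden']
    norm_num
  rw [e]
  have := ((VG_two_zpow 1).mul (VG_int z)).mul hi
  simpa using this

private theorem r6_add {x y : ℚ} (hx : Un x) (hy : Un y) : VG 1 (x + y) := by
  have e : x + y = (x - 1) + (y - 1) + (2 : ℚ) ^ (1 : ℤ) := by
    rw [zpow_one]
    ring
  rw [e]
  exact ((r6_sub_one hx).add (r6_sub_one hy)).add (VG_two_zpow 1)

private theorem r6_PS (ε : Bool) (κ w : ℕ) (hw : 1 ≤ w) (h : 3 * w < κ) :
    Un (2 ^ (-padicValRat 2 (PS ε κ w)) * PS ε κ w) := by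
  have h0 := PS_ne_zero ε κ w hw h
  rw [r6_Un_iff]
  refine ⟨mul_ne_zero (zpow_ne_zero _ two_ne_zero) h0, ?_⟩
  rw [padicValRat.mul (zpow_ne_zero _ two_ne_zero) h0, padicValRat_two_zpow]
  ring

private theorem r6_fac (κ w : ℕ) (h : 3 * w < κ) :
    ((κ : ℚ) - 3 * w ≠ 0) ∧ (2 * (κ : ℚ) - 3 * w ≠ 0) := by
  have h1 : (3 * w : ℚ) < κ := by exact_mod_cast h
  have h2 : (0 : ℚ) ≤ w := by positivity
  constructor
  · apply ne_of_gt
    linarith
  · apply ne_of_gt
    linarith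

private theorem r6_LL_one (ε : Bool) (κ w : ℕ) (h : 3 * w < κ) : LL ε κ w w = 1 := by
  have h1 : lam κ w w = 1 := by simp [lam]
  unfold LL
  cases ε
  · simpa using h1
  · simp only [if_true]
    rw [h1, div_self (r6_fac κ w h).1, one_mul]

private theorem r6_UU_one (ε : Bool) (κ w : ℕ) (h : 3 * w < κ) : UU ε κ w w = 1 := by
  have h1 : mu κ w w = (2 * κ - 3 * w) / (2 * κ - 3 * w) := by simp [mu]
  rw [div_self (r6_fac κ w h).2] at h1
  unfold UU
  cases ε
  · simpa using h1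
  · simp only [if_true]
    rw [h1, div_self (r6_fac κ w h).2, one_mul]

section

variable {ε : Bool} {κ : ℕ} {B : ℕ → Prop}

private theorem r6_step (h : Tame ε κ B) (n : ℕ) (hn : 1 ≤ n) (h3 : 3 * (n + 1) < κ) :
    padicValRat 2 (PS ε κ n) ≤ padicValRat 2 (PS ε κ (n + 1)) := by
  by_cases hB : B n
  · exact (h.eq n hB).ge
  · have := h.lt n hn h3 hB
    linarith

private theorem r6_mono (h : Tame ε κ B) (w : ℕ) (hw : 1 ≤ w) : ∀ n : ℕ, w ≤ n → 3 * n < κ →
    padicValRat 2 (PS ε κ w) ≤ padicValRat 2 (PS ε κ n) := by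
  intro n hn
  induction n, hn using Nat.le_induction with
  | base => intro _; exact le_rfl
  | succ k hk ih =>
    intro h3
    exact (ih (by omega)).trans (r6_step h k (by omega) h3)

/-- scaled lower factor -/
private theorem r6_LL (h : Tame ε κ B) (i w : ℕ) (hw : 1 ≤ w) (hwi : w ≤ i) (h3 : 3 * w < κ)
    (h2 : 2 * i < κ) : VG 0 (2 ^ (2 * (i : ℤ) - 2 * w) * LL ε κ i w) := by
  by_cases hB : B w ∧ i = w + 1
  · obtain ⟨hB, rfl⟩ := hB
    have h1 := (h.ll1 w hB).1
    have e : (2 * ((w + 1 : ℕ) : ℤ) - 2 * w) = 2 := by push_cast; ring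
    rw [e]
    exact_mod_cast h1
  · rcases hwi.lt_or_eq with h4 | h4
    · exact (h.ll i w hw h4 h3 h2 hB).mono (by norm_num)
    · subst h4
      rw [r6_LL_one ε κ w h3, sub_self, zpow_zero, one_mul]
      simpa using VG_int 1

/-- scaled upper factor -/
private theorem r6_UU (h : Tame ε κ B) (w j : ℕ) (hw : 1 ≤ w) (hwj : w ≤ j) (h3 : 3 * w < κ)
    (h2 : 2 * j < κ) : VG 0 (2 ^ (2 * (j : ℤ) - 2 * w) * UU ε κ w j) := by
  by_cases hB : B w ∧ j = w + 1
  · obtain ⟨hB, rfl⟩ := hB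
    have h1 := (h.uu1 w hB).1
    have e : (2 * ((w + 1 : ℕ) : ℤ) - 2 * w) = 2 := by push_cast; ring
    rw [e]
    exact_mod_cast h1
  · rcases hwj.lt_or_eq with h4 | h4
    · exact (h.uu w j hw h4 h3 h2 hB).mono (by norm_num)
    · subst h4
      rw [r6_UU_one ε κ w h3, sub_self, zpow_zero, one_mul]
      simpa using VG_int 1

/-- scaled lower factor at the pair -/
private theorem r6_LL_un (h : Tame ε κ B) (b i : ℕ) (hB : B b) (h3 : 3 * b < κ)
    (hi : i = b ∨ i = b + 1) : Un (2 ^ (2 * (i : ℤ) - 2 * b) * LL ε κ i b) := by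
  rcases hi with rfl | rfl
  · rw [r6_LL_one ε κ _ h3, sub_self, zpow_zero, one_mul]
    exact r6_Un_one
  · have h1 := h.ll1 b hB
    have e : (2 * ((b + 1 : ℕ) : ℤ) - 2 * b) = 2 := by push_cast; ring
    rw [e]
    exact_mod_cast h1

private theorem r6_UU_un (h : Tame ε κ B) (b j : ℕ) (hB : B b) (h3 : 3 * b < κ)
    (hj : j = b ∨ j = b + 1) : Un (2 ^ (2 * (j : ℤ) - 2 * b) * UU ε κ b j) := by
  rcases hj with rfl | rfl
  · rw [r6_UU_one ε κ _ h3, sub_self, zpow_zero, one_mul]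
    exact r6_Un_one
  · have h1 := h.uu1 b hB
    have e : (2 * ((b + 1 : ℕ) : ℤ) - 2 * b) = 2 := by push_cast; ring
    rw [e]
    exact_mod_cast h1

end

/-- a term of the Schur complement in scaled form -/
private theorem r6_term (ε : Bool) (κ i j w : ℕ) :
    (2 : ℚ) ^ (2 * (i : ℤ) + 2 * j - 1) * (LL ε κ i w * PP ε κ w * UU ε κ w j) =
      (2 ^ (2 * (i : ℤ) - 2 * w) * LL ε κ i w) * PS ε κ w *
        (2 ^ (2 * (j : ℤ) - 2 * w) * UU ε κ w j) := by
  unfold PS
  have h1 : (2 : ℚ) ^ (2 * (i : ℤ) + 2 * j - 1) =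
      2 ^ (2 * (i : ℤ) - 2 * w) * 2 ^ (4 * (w : ℤ) - 1) * 2 ^ (2 * (j : ℤ) - 2 * w) := by
    rw [← zpow_add₀ (by norm_num : (2 : ℚ) ≠ 0), ← zpow_add₀ (by norm_num : (2 : ℚ) ≠ 0)]
    congr 1
    ring
  rw [h1]
  ring

theorem Tame.pairCrit {ε : Bool} {κ : ℕ} {B : ℕ → Prop} (h : Tame ε κ B) (b : ℕ) (hB : B b) :
    PairCrit (κ - 1) (b - 1) (MAT ε κ) (padicValRat 2 (PS ε κ b)) := by
  obtain ⟨hb1, h3b, hB1⟩ := h.pos b hB
  have hbig := h.big
  have hBp : ∀ w, 1 ≤ w → w < b → b ≤ w + 1 → ¬ B w := by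
    intro w hw1 hw2 hw3 hw
    have h1 := (h.pos w hw).2.2
    have h2 : w + 1 = b := by omega
    rw [h2] at h1
    exact h1 hB
  have hs : ∀ w, 1 ≤ w → w < b →
      padicValRat 2 (PS ε κ w) + 2 ≤ padicValRat 2 (PS ε κ b) := by
    intro w hw1 hw2
    have h1 := r6_mono h w hw1 (b - 1) (by omega) (by omega)
    have h2 := h.lt (b - 1) (by omega) (by omega) (hBp (b - 1) (by omega) (by omega) (by omega))
    have e : b - 1 + 1 = b := by omega
    rw [e] at h2
    linarith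
  have hbe := h.eq b hB
  have hs2 : ∀ w, b + 2 ≤ w → 3 * w < κ →
      padicValRat 2 (PS ε κ b) + 2 ≤ padicValRat 2 (PS ε κ w) := by
    intro w hw1 hw2
    have h1 := h.lt (b + 1) (by omega) (by omega) hB1
    have h2 := r6_mono h (b + 1 + 1) (by omega) w hw1 hw2
    linarith
  refine pair_general ε κ b h.big h.three hb1 h3b ?_ ?_ ?_ ?_ ?_
  · -- hG
    intro c d hc hcn hd1 hdn
    rw [Finset.mul_sum]
    refine VG_sum _ _ _ ?_
    intro w hw
    rw [Finset.mem_Ico] at hw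
    have hcw : c ≤ w := le_trans (le_max_left _ _) hw.1
    have hdw : d ≤ w := le_trans (le_max_right _ _) hw.1
    have hw3 : 3 * w < κ := by omega
    have e : (2 : ℚ) ^ (1 - 2 * (c : ℤ) - 2 * d) *
        (UI ε κ c w * (PP ε κ w)⁻¹ * LI ε κ w d) =
        (2 ^ (2 * (w : ℤ) - 2 * c) * UI ε κ c w) * (PS ε κ w)⁻¹ *
          (2 ^ (2 * (w : ℤ) - 2 * d) * LI ε κ w d) := by
      unfold PS
      rw [mul_inv, ← zpow_neg]
      have h1 : (2 : ℚ) ^ (1 - 2 * (c : ℤ) - 2 * d) =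
          2 ^ (2 * (w : ℤ) - 2 * c) * 2 ^ (-(4 * (w : ℤ) - 1)) * 2 ^ (2 * (w : ℤ) - 2 * d) := by
        rw [← zpow_add₀ (by norm_num : (2 : ℚ) ≠ 0), ← zpow_add₀ (by norm_num : (2 : ℚ) ≠ 0)]
        congr 1
        ring
      rw [h1]
      ring
    rw [e]
    have hi : VG (-padicValRat 2 (PS ε κ w)) (PS ε κ w)⁻¹ := by
      right
      rw [padicValRat.inv]
    have hm' := hs w (by omega) hw.2
    refine (((h.ui c w hc hcw hw3).mul hi).mul (h.li w d hd1 hdw hw3)).mono ?_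
    linarith
  · -- hX
    intro i j hj hjb hbi hi2
    rw [Finset.mul_sum]
    refine VG_sum _ _ _ ?_
    intro w hw
    rw [Finset.mem_Ico] at hw
    have hw3 : 3 * w < κ := by omega
    have e : (2 : ℚ) ^ (2 * (i : ℤ) - 2 * j) * (LL ε κ i w * LI ε κ w j) =
        (2 ^ (2 * (i : ℤ) - 2 * w) * LL ε κ i w) * (2 ^ (2 * (w : ℤ) - 2 * j) * LI ε κ w j) := by
      have h1 : (2 : ℚ) ^ (2 * (i : ℤ) - 2 * j) =
          2 ^ (2 * (i : ℤ) - 2 * w) * 2 ^ (2 * (w : ℤ) - 2 * j) := by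
        rw [← zpow_add₀ (by norm_num : (2 : ℚ) ≠ 0)]
        congr 1
        ring
      rw [h1]
      ring
    rw [e]
    have hnb : ¬ (B w ∧ i = w + 1) := by
      rintro ⟨h1, h2⟩
      exact hBp w (by omega) hw.2 (by omega) h1
    have := (h.ll i w (by omega) (by omega) hw3 hi2 hnb).mul (h.li w j hj hw.1 hw3)
    simpa using this
  · -- hY
    intro i j hi hib hbj hj2
    rw [Finset.mul_sum]
    refine VG_sum _ _ _ ?_
    intro w hw
    rw [Finset.mem_Ico] at hw
    have hw3 : 3 * w < κ := by omega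
    have e : (2 : ℚ) ^ (2 * (j : ℤ) - 2 * i) * (UI ε κ i w * UU ε κ w j) =
        (2 ^ (2 * (w : ℤ) - 2 * i) * UI ε κ i w) * (2 ^ (2 * (j : ℤ) - 2 * w) * UU ε κ w j) := by
      have h1 : (2 : ℚ) ^ (2 * (j : ℤ) - 2 * i) =
          2 ^ (2 * (w : ℤ) - 2 * i) * 2 ^ (2 * (j : ℤ) - 2 * w) := by
        rw [← zpow_add₀ (by norm_num : (2 : ℚ) ≠ 0)]
        congr 1
        ring
      rw [h1]
      ring
    rw [e]
    have := (h.ui i w hi hw.1 hw3).mul (r6_UU h w j (by omega) (by omega) hw3 hj2)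
    simpa using this
  · -- hS
    intro i j hbi hbj hi2 hj2 hne
    by_cases hij : i = b + 1 ∧ j = b + 1
    · obtain ⟨rfl, rfl⟩ := hij
      have hI : Finset.Icc b (min (b + 1) (b + 1)) = {b, b + 1} := by
        ext w
        simp only [Finset.mem_Icc, Finset.mem_insert, Finset.mem_singleton, min_self]
        omega
      rw [hI, Finset.sum_pair (by omega), mul_add, r6_term, r6_term, r6_LL_one ε κ (b + 1) h3b,
        r6_UU_one ε κ (b + 1) h3b]
      have hL := r6_LL_un h b (b + 1) hB (by omega) (Or.inr rfl)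
      have hU := r6_UU_un h b (b + 1) hB (by omega) (Or.inr rfl)
      have hP := r6_PS ε κ b hb1 (by omega)
      have hP' := r6_PS ε κ (b + 1) (by omega) h3b
      rw [hbe] at hP'
      have h1 := r6_add (r6_Un_mul (r6_Un_mul hL hP) hU) hP'
      have h2 := (VG_two_zpow (padicValRat 2 (PS ε κ b))).mul h1
      have hz : (2 : ℚ) ^ (padicValRat 2 (PS ε κ b)) * 2 ^ (-padicValRat 2 (PS ε κ b)) = 1 := by
        rw [← zpow_add₀ (by norm_num : (2 : ℚ) ≠ 0), add_neg_cancel, zpow_zero]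
      refine (Eq.mp ?_ h2)
      congr 1
      rw [sub_self, zpow_zero]
      linear_combination (2 ^ (2 * ((b + 1 : ℕ) : ℤ) - 2 * b) * LL ε κ (b + 1) b * PS ε κ b *
        (2 ^ (2 * ((b + 1 : ℕ) : ℤ) - 2 * b) * UU ε κ b (b + 1)) + PS ε κ (b + 1)) * hz
    · rw [Finset.mul_sum]
      refine VG_sum _ _ _ ?_
      intro w hw
      rw [Finset.mem_Icc] at hw
      have hwi : w ≤ i := le_trans hw.2 (min_le_left _ _)
      have hwj : w ≤ j := le_trans hw.2 (min_le_right _ _)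
      by_cases hw3 : κ ≤ 3 * w
      · rw [PP_eq_zero3 ε κ w h.three hw3 (by omega)]
        simpa using VG_zero _
      · rw [not_le] at hw3
        rw [r6_term]
        have hsw : VG (padicValRat 2 (PS ε κ w)) (PS ε κ w) := Or.inr le_rfl
        have hL := r6_LL h i w (by omega) hwi hw3 hi2
        have hU := r6_UU h w j (by omega) hwj hw3 hj2
        by_cases hw2 : b + 2 ≤ w
        · refine ((hL.mul hsw).mul hU).mono ?_
          have := hs2 w hw2 hw3
          linarith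
        · have hsv : padicValRat 2 (PS ε κ b) ≤ padicValRat 2 (PS ε κ w) :=
            r6_mono h b hb1 w hw.1 hw3
          -- one of the indices is at least `b + 2`
          rcases (by omega : b + 2 ≤ i ∨ b + 2 ≤ j ∨ (i = b + 1 ∧ j = b + 1) ∨
            (i ≤ b + 1 ∧ j ≤ b + 1 ∧ i + j ≤ 2 * b + 1)) with hi | hj | hh | hh
          · have hnb : ¬ (B w ∧ i = w + 1) := by
              rintro ⟨h1, h2⟩
              have h4 : w = b + 1 := by omega
              rw [h4] at h1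
              exact hB1 h1
            have hL1 := h.ll i w (by omega) (by omega) hw3 hi2 hnb
            refine ((hL1.mul hsw).mul hU).mono ?_
            linarith
          · have hnb : ¬ (B w ∧ j = w + 1) := by
              rintro ⟨h1, h2⟩
              have h4 : w = b + 1 := by omega
              rw [h4] at h1
              exact hB1 h1
            have hU1 := h.uu w j (by omega) (by omega) hw3 hj2 hnb
            refine ((hL.mul hsw).mul hU1).mono ?_
            linarith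
          · exact absurd hh hij
          · exact absurd hh hne
  · -- hS1
    intro i j hbi hbj hi1 hj1 hij
    have hmin : min i j = b := by
      rcases (by omega : i = b ∨ j = b) with hh | hh
      · rw [hh]; exact min_eq_left hbj
      · rw [hh]; exact min_eq_right hbi
    rw [hmin, Finset.Icc_self, Finset.sum_singleton, r6_term]
    have hL := r6_LL_un h b i hB (by omega) (by omega)
    have hU := r6_UU_un h b j hB (by omega) (by omega)
    have hP := r6_PS ε κ b hb1 (by omega)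
    have h1 := r6_Un_mul (r6_Un_mul hL hP) hU
    have e : (2 : ℚ) ^ (-padicValRat 2 (PS ε κ b)) *
        ((2 ^ (2 * (i : ℤ) - 2 * b) * LL ε κ i b) * PS ε κ b *
          (2 ^ (2 * (j : ℤ) - 2 * b) * UU ε κ b j)) =
        (2 ^ (2 * (i : ℤ) - 2 * b) * LL ε κ i b) *
          (2 ^ (-padicValRat 2 (PS ε κ b)) * PS ε κ b) *
          (2 ^ (2 * (j : ℤ) - 2 * b) * UU ε κ b j) := by ring
    rw [e]
    exact h1

end Pool.Agent.Helper5.MD
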