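import Pool.Agent.Helper5.MD.B1Vertex
import Pool.Agent.Helper5.MD3.R0Defs

/-!
# MR-R7 : the pair criterion gives the reduction of the characteristic polynomial

As in `MD/B1Vertex.lean`: with `u = det (2^s G)` (on the leading block)
`u * det (1 - T 2^(-s) M) = det [[2^s G - T, -T Y], [-X, 1 - T 2^(-s) S']]`, `S'` the Schur complement.  Modulo `2`: `2^s G ≡ 0`, `X ≡ 0`, `2^(-s) S'` is `[[1,1],[1,0]]` at the indices
`n, n + 1` and zero elsewhere, so the determinant is `(-T)^n * det (1 - T [[1,1],[1,0]]) ≡ T^n (1 + T + T^2)`.
-/

open scoped Nat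

namespace Pool.Agent.Helper5.MD

open Polynomial in
/-- the polynomials with coefficients in `ℤ_(2)` -/
private def r7O : Subring ℚ[X] where
  carrier := {f | ∀ m, VG 0 (f.coeff m)}
  mul_mem' := by
    intro f g hf hg m
    rw [Polynomial.coeff_mul]
    exact VG_sum _ _ _ fun x _ => by simpa using (hf x.1).mul (hg x.2)
  one_mem' := by
    intro m
    rw [Polynomial.coeff_one]
    split_ifs
    · simpa using VG_int 1
    · exact VG_zero 0
  add_mem' := by
    intro f g hf hg m
    rw [Polynomial.coeff_add]
    exact (hf m).add (hg m)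
  zero_mem' := by
    intro m
    rw [Polynomial.coeff_zero]
    exact VG_zero 0
  neg_mem' := by
    intro f hf m
    rw [Polynomial.coeff_neg]
    exact (hf m).neg

open Polynomial in
private theorem r7_mem_O {f : ℚ[X]} : f ∈ r7O ↔ ∀ m, VG 0 (f.coeff m) := Iff.rfl

open Polynomial in
/-- the ideal of the polynomials with even coefficients -/
private def r7J : Ideal r7O where
  carrier := {f | ∀ m, VG 1 ((f : ℚ[X]).coeff m)}
  add_mem' := by
    intro f g hf hg m
    rw [Subring.coe_add, Polynomial.coeff_add]
    exact (hf m).add (hg m)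
  zero_mem' := by
    intro m
    rw [Subring.coe_zero, Polynomial.coeff_zero]
    exact VG_zero 1
  smul_mem' := by
    intro f g hg m
    rw [smul_eq_mul, Subring.coe_mul, Polynomial.coeff_mul]
    exact VG_sum _ _ _ fun x _ => by simpa using (r7_mem_O.1 f.2 x.1).mul (hg x.2)

open Polynomial in
private theorem r7_mem_J {f : r7O} : f ∈ r7J ↔ ∀ m, VG 1 ((f : ℚ[X]).coeff m) := Iff.rfl

open Polynomial in
/-- the determinants of two integral matrices which are congruent modulo two are congruent -/
private theorem r7_det_congr {N : ℕ} (W B : Matrix (Fin N) (Fin N) ℚ[X])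
    (hB : ∀ i j, ∀ m, VG 0 ((B i j).coeff m)) (hWB : ∀ i j, ∀ m, VG 1 ((W i j - B i j).coeff m)) :
    ∀ m, VG 1 ((W.det - B.det).coeff m) := by
  have hW : ∀ i j, W i j ∈ r7O := by
    intro i j
    have h1 : W i j = (W i j - B i j) + B i j := by ring
    rw [h1]
    exact r7O.add_mem (fun m => (hWB i j m).mono (by norm_num)) (hB i j)
  set W' : Matrix (Fin N) (Fin N) r7O := Matrix.of fun i j => ⟨W i j, hW i j⟩ with hW'
  set B' : Matrix (Fin N) (Fin N) r7O := Matrix.of fun i j => ⟨B i j, hB i j⟩ with hB'
  have h1 : (Ideal.Quotient.mk r7J).mapMatrix W' = (Ideal.Quotient.mk r7J).mapMatrix B' := by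
    ext i j
    show Ideal.Quotient.mk r7J (W' i j) = Ideal.Quotient.mk r7J (B' i j)
    rw [Ideal.Quotient.eq, r7_mem_J]
    exact hWB i j
  have h2 : Ideal.Quotient.mk r7J W'.det = Ideal.Quotient.mk r7J B'.det := by
    rw [RingHom.map_det, RingHom.map_det, h1]
  rw [Ideal.Quotient.eq, r7_mem_J] at h2
  have h3 : ((W'.det : r7O) : ℚ[X]) = W.det := by
    have := RingHom.map_det r7O.subtype W'
    exact this
  have h4 : ((B'.det : r7O) : ℚ[X]) = B.det := by
    have := RingHom.map_det r7O.subtype B'
    exact this
  intro m
  have h5 := h2 m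
  have h6 : ((W'.det - B'.det : r7O) : ℚ[X]) = W.det - B.det := by
    rw [← h3, ← h4]
    rfl
  rwa [h6] at h5

private theorem r7_inv {N n : ℕ} (M G : Matrix (Fin N) (Fin N) ℚ)
    (h : ∀ i j : Fin N, i.val < n → j.val < n →
      (∑ c : Fin N, if c.val < n then M i c * G c j else 0) = if i = j then 1 else 0) :
    ∀ i j : Fin N, i.val < n → j.val < n →
      (∑ c : Fin N, if c.val < n then G i c * M c j else 0) = if i = j then 1 else 0 := by
  set M' : Matrix (Fin N) (Fin N) ℚ := Matrix.of fun i j =>
    if i.val < n then (if j.val < n then M i j else 0) else (if i = j then 1 else 0) with hM'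
  set G' : Matrix (Fin N) (Fin N) ℚ := Matrix.of fun i j =>
    if i.val < n then (if j.val < n then G i j else 0) else (if i = j then 1 else 0) with hG'
  have key : ∀ (A B : Matrix (Fin N) (Fin N) ℚ) (i j : Fin N), i.val < n →
      ((Matrix.of fun i j : Fin N => if i.val < n then (if j.val < n then A i j else 0) else
        (if i = j then 1 else 0)) * (Matrix.of fun i j : Fin N => if i.val < n then
        (if j.val < n then B i j else 0) else (if i = j then 1 else 0))) i j =
      if j.val < n then (∑ c : Fin N, if c.val < n then A i c * B c j else 0) else (0 : ℚ) := by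
    intro A B i j hi
    rw [Matrix.mul_apply]
    simp only [Matrix.of_apply, if_pos hi]
    by_cases hj : j.val < n
    · rw [if_pos hj]
      refine Finset.sum_congr rfl fun c _ => ?_
      by_cases hc : c.val < n
      · rw [if_pos hc, if_pos hc, if_pos hj, if_pos hc]
      · rw [if_neg hc, if_neg hc, zero_mul, if_neg hc]
    · rw [if_neg hj]
      refine Finset.sum_eq_zero fun c _ => ?_
      by_cases hc : c.val < n
      · rw [if_pos hc, if_pos hc, if_neg hj, mul_zero]
      · rw [if_neg hc, zero_mul]
  have h1 : M' * G' = 1 := by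
    ext i j
    by_cases hi : i.val < n
    · rw [key M G i j hi, Matrix.one_apply]
      by_cases hj : j.val < n
      · rw [if_pos hj]
        exact h i j hi hj
      · rw [if_neg hj, if_neg]
        rintro rfl
        exact hj hi
    · rw [Matrix.mul_apply]
      simp only [hM', Matrix.of_apply, if_neg hi, ite_mul, one_mul, zero_mul]
      rw [Finset.sum_ite_eq Finset.univ i, if_pos (Finset.mem_univ i)]
      simp only [hG', Matrix.of_apply, if_neg hi]
      rw [Matrix.one_apply]
  have h2 : G' * M' = 1 := mul_eq_one_comm.1 h1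
  intro i j hi hj
  have h3 := congrFun (congrFun h2 i) j
  rw [key G M i j hi, if_pos hj, Matrix.one_apply] at h3
  exact h3


private theorem r7_Un_congr {x y : ℚ} (h : VG 1 (x - y)) (hy : Un y) : Un x := by
  constructor
  · have h1 := (h.mono (by norm_num : (0 : ℤ) ≤ 1)).add hy.1
    rwa [sub_add_cancel] at h1
  · intro h1
    have h2 := h1.sub h
    rw [sub_sub_cancel] at h2
    exact hy.2 h2

private theorem r7_Un_one : Un 1 := by
  refine ⟨Or.inr padicValRat.one.ge, ?_⟩
  rintro (h | h)
  · norm_num at h
  · rw [padicValRat.one] at h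
    norm_num at h

private theorem r7_Un_neg {x : ℚ} (h : Un x) : Un (-x) :=
  ⟨h.1.neg, fun h1 => h.2 (by simpa using h1.neg)⟩

private theorem r7_Un_pow (n : ℕ) : Un ((-1 : ℚ) ^ n) := by
  rcases neg_one_pow_eq_or ℚ n with h | h <;> rw [h]
  · exact r7_Un_one
  · exact r7_Un_neg r7_Un_one

/-- a unit is congruent to one modulo two -/
private theorem r7_Un_sub_one {x : ℚ} (h : Un x) : VG 1 (x - 1) := by
  obtain ⟨h0, h1⟩ := h
  have hx : x ≠ 0 := fun h => h1 (Or.inl h)
  have hv : padicValRat 2 x = 0 := by
    rcases h0 with h0 | h0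
    · exact absurd h0 hx
    · by_contra hne
      exact h1 (Or.inr (by omega))
  have hval : (padicValInt 2 x.num : ℤ) - padicValNat 2 x.den = 0 := hv
  have hcop := x.reduced
  have hden : ¬ 2 ∣ x.den := by
    intro hd
    have hn : ¬ (2 : ℤ) ∣ x.num := by
      intro hn
      have h2 : 2 ∣ x.num.natAbs := Int.natCast_dvd.1 (by exact_mod_cast hn)
      have h3 := Nat.dvd_gcd h2 hd
      rw [hcop] at h3
      norm_num at h3
    have e1 : padicValInt 2 x.num = 0 := by
      rw [padicValInt]
      apply padicValNat.eq_zero_of_not_dvd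
      intro h
      exact hn (Int.natCast_dvd.2 h)
    have e2 : 1 ≤ padicValNat 2 x.den := one_le_padicValNat_of_dvd x.den_nz hd
    omega
  have hnum : ¬ (2 : ℤ) ∣ x.num := by
    intro hn
    have e2 : padicValNat 2 x.den = 0 := padicValNat.eq_zero_of_not_dvd hden
    have e1 : 1 ≤ padicValNat 2 x.num.natAbs :=
      one_le_padicValNat_of_dvd (Int.natAbs_ne_zero.2 (Rat.num_ne_zero.2 hx))
        (Int.natCast_dvd.1 (by exact_mod_cast hn))
    rw [padicValInt, e2] at hval
    omega
  obtain ⟨w, hw⟩ : ∃ w : ℤ, x.num - x.den = 2 * w := by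
    have h3 : x.num % 2 = 1 := by omega
    have h4 : (x.den : ℤ) % 2 = 1 := by omega
    exact ⟨(x.num - x.den) / 2, by omega⟩
  have hd0 : (x.den : ℚ) ≠ 0 := by exact_mod_cast x.den_nz
  have e : x - 1 = 2 ^ (1 : ℤ) * (w : ℚ) * (1 / (x.den : ℚ)) := by
    have h5 : x = x.num / x.den := (Rat.num_div_den x).symm
    have h6 : ((x.num : ℚ) - x.den) = 2 * w := by exact_mod_cast hw
    rw [zpow_one, ← h6]
    field_simp
    rw [sub_mul, one_mul, Rat.mul_den_eq_num]
  rw [e]
  have h7 : VG 0 (1 / (x.den : ℚ)) := by
    right
    rw [one_div, padicValRat.inv, padicValRat.of_nat, padicValNat.eq_zero_of_not_dvd hden]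
    simp
  have h8 := ((VG_two_zpow 1).mul (VG_int w)).mul h7
  simpa using h8

open Polynomial in
theorem pairAt_of_pairCrit (N n : ℕ) (M : Matrix (Fin N) (Fin N) ℚ) (s : ℤ)
    (h : PairCrit N n M s) : PairAt N n M s := by
  obtain ⟨hn, G, hPG, hG, hX, hY, hS, hU⟩ := h
  have hGP := r7_inv M G hPG
  set XX : Fin N → Fin N → ℚ := fun i j => ∑ c : Fin N, if c.val < n then M i c * G c j else 0
    with hXX
  set YY : Fin N → Fin N → ℚ := fun i j => ∑ c : Fin N, if c.val < n then G i c * M c j else 0
    with hYY
  set L0 : Matrix (Fin N) (Fin N) ℚ := Matrix.of fun i j =>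
    if i.val < n then (if j.val < n then 2 ^ s * G i j else 0) else
      (if j.val < n then -XX i j else (if i = j then 1 else 0)) with hL0
  have h2 : ((2 : ℚ) ^ s) ≠ 0 := by positivity
  have h2s : ((2 : ℚ) ^ (-s)) * 2 ^ s = 1 := by
    rw [← zpow_add₀ two_ne_zero, neg_add_cancel, zpow_zero]
  -- the product with `M`
  have hLM1 : ∀ i j : Fin N, i.val < n → (L0 * M) i j = 2 ^ s * YY i j := by
    intro i j hi
    rw [Matrix.mul_apply]
    simp only [hL0, hYY, Matrix.of_apply, if_pos hi]
    rw [Finset.mul_sum]
    refine Finset.sum_congr rfl fun c _ => ?_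
    split_ifs
    · ring
    · ring
  have hLM2 : ∀ i j : Fin N, ¬ i.val < n →
      (L0 * M) i j = M i j - ∑ c : Fin N, if c.val < n then XX i c * M c j else 0 := by
    intro i j hi
    rw [Matrix.mul_apply]
    simp only [hL0, Matrix.of_apply, if_neg hi]
    have h3 : ∀ c : Fin N, (if c.val < n then -XX i c else if i = c then (1 : ℚ) else 0) * M c j =
        (if i = c then M c j else 0) - (if c.val < n then XX i c * M c j else 0) := by
      intro c
      by_cases hc : c.val < n
      · rw [if_pos hc, if_pos hc, if_neg]
        · ring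
        · rintro rfl
          exact hi hc
      · rw [if_neg hc, if_neg hc]
        split_ifs <;> ring
    rw [Finset.sum_congr rfl fun c _ => h3 c, Finset.sum_sub_distrib,
      Finset.sum_ite_eq Finset.univ i, if_pos (Finset.mem_univ i)]
  have hLM3 : ∀ i j : Fin N, ¬ i.val < n → j.val < n → (L0 * M) i j = 0 := by
    intro i j hi hj
    rw [hLM2 i j hi]
    have h3 : (∑ c : Fin N, if c.val < n then XX i c * M c j else 0) =
        ∑ d : Fin N, if d.val < n then M i d * YY d j else 0 := by
      have e1 : ∀ c : Fin N, (if c.val < n then XX i c * M c j else 0) =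
          ∑ d : Fin N, if c.val < n ∧ d.val < n then M i d * G d c * M c j else 0 := by
        intro c
        by_cases hc : c.val < n
        · rw [if_pos hc, hXX]
          simp only
          rw [Finset.sum_mul]
          refine Finset.sum_congr rfl fun d _ => ?_
          by_cases hd : d.val < n
          · rw [if_pos hd, if_pos ⟨hc, hd⟩]
          · rw [if_neg hd, if_neg fun h => hd h.2, zero_mul]
        · rw [if_neg hc]
          exact (Finset.sum_eq_zero fun d _ => if_neg fun h => hc h.1).symm
      have e2 : ∀ d : Fin N, (if d.val < n then M i d * YY d j else 0) =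
          ∑ c : Fin N, if c.val < n ∧ d.val < n then M i d * G d c * M c j else 0 := by
        intro d
        by_cases hd : d.val < n
        · rw [if_pos hd, hYY]
          simp only
          rw [Finset.mul_sum]
          refine Finset.sum_congr rfl fun c _ => ?_
          by_cases hc : c.val < n
          · rw [if_pos hc, if_pos ⟨hc, hd⟩, mul_assoc]
          · rw [if_neg hc, if_neg fun h => hc h.1, mul_zero]
        · rw [if_neg hd]
          exact (Finset.sum_eq_zero fun c _ => if_neg fun h => hd h.2).symm
      rw [Finset.sum_congr rfl fun c _ => e1 c, Finset.sum_congr rfl fun d _ => e2 d,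
        Finset.sum_comm]
    rw [h3]
    have h4 : ∀ d : Fin N, (if d.val < n then M i d * YY d j else 0) =
        if j = d then M i d else 0 := by
      intro d
      by_cases hd : d.val < n
      · rw [if_pos hd, hYY]
        simp only
        rw [hGP d j hd hj]
        by_cases hdj : d = j
        · rw [if_pos hdj, if_pos hdj.symm, mul_one]
        · rw [if_neg hdj, if_neg (Ne.symm hdj), mul_zero]
      · rw [if_neg hd, if_neg]
        rintro rfl
        exact hd hj
    rw [Finset.sum_congr rfl fun d _ => h4 d, Finset.sum_ite_eq Finset.univ j,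
      if_pos (Finset.mem_univ j), sub_self]
  have hLM4 : ∀ i j : Fin N, ¬ i.val < n →
      (L0 * M) i j = M i j - ∑ c : Fin N, ∑ d : Fin N,
        if c.val < n ∧ d.val < n then M i c * G c d * M d j else 0 := by
    intro i j hi
    rw [hLM2 i j hi]
    have h3 : (∑ c : Fin N, if c.val < n then XX i c * M c j else 0) =
        ∑ c : Fin N, ∑ d : Fin N,
          if c.val < n ∧ d.val < n then M i c * G c d * M d j else 0 := by
      rw [Finset.sum_comm]
      refine Finset.sum_congr rfl fun c _ => ?_
      by_cases hc : c.val < n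
      · rw [if_pos hc, hXX]
        simp only
        rw [Finset.sum_mul]
        refine Finset.sum_congr rfl fun d _ => ?_
        by_cases hd : d.val < n
        · rw [if_pos hd, if_pos ⟨hd, hc⟩]
        · rw [if_neg hd, if_neg fun h => hd h.1, zero_mul]
      · rw [if_neg hc]
        exact (Finset.sum_eq_zero fun d _ => if_neg fun h => hc h.2).symm
    rw [h3]
  -- the polynomial matrices
  set W : Matrix (Fin N) (Fin N) ℚ[X] :=
    L0.map C * (1 - (X : ℚ[X]) • (((2 : ℚ) ^ (-s)) • M).map C) with hW
  have hWent : ∀ i j, W i j = C (L0 i j) - X * C (2 ^ (-s) * (L0 * M) i j) := by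
    intro i j
    have e1 : W = L0.map C - (X : ℚ[X]) • (((2 : ℚ) ^ (-s)) • (L0 * M)).map C := by
      rw [hW, mul_sub, mul_one, Matrix.mul_smul, ← Matrix.map_mul, Matrix.mul_smul]
    rw [e1]
    simp only [Matrix.sub_apply, Matrix.map_apply, Matrix.smul_apply, smul_eq_mul]
  set B : Matrix (Fin N) (Fin N) ℚ[X] := Matrix.of fun i j =>
    if i.val < n then (if j.val < n then (if i = j then -X else 0) else -(X * C (YY i j))) else
      ((if i = j then 1 else 0) - (if n ≤ j.val ∧ i.val ≤ n + 1 ∧ j.val ≤ n + 1 ∧
        i.val + j.val ≤ 2 * n + 1 then X else 0)) with hB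
  have hB0 : ∀ i j, ∀ m, VG 0 ((B i j).coeff m) := by
    intro i j m
    by_cases hi : i.val < n
    · by_cases hj : j.val < n
      · by_cases hij : i = j
        · have e : B i j = -X := by simp only [hB, Matrix.of_apply, if_pos hi, if_pos hj, if_pos hij]
          rw [e, coeff_neg, coeff_X]
          split_ifs
          · simpa using VG_int (-1)
          · simpa using VG_zero 0
        · have e : B i j = 0 := by simp only [hB, Matrix.of_apply, if_pos hi, if_pos hj, if_neg hij]
          rw [e, coeff_zero]
          exact VG_zero 0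
      · have e : B i j = -(X * C (YY i j)) := by
          simp only [hB, Matrix.of_apply, if_pos hi, if_neg hj]
        rw [e, coeff_neg, coeff_mul_C, coeff_X]
        refine VG.neg ?_
        split_ifs
        · rw [one_mul]
          exact hY i j hi (not_lt.1 hj)
        · rw [zero_mul]
          exact VG_zero 0
    · have e : B i j = (if i = j then 1 else 0) - (if n ≤ j.val ∧ i.val ≤ n + 1 ∧
          j.val ≤ n + 1 ∧ i.val + j.val ≤ 2 * n + 1 then X else 0) := by
        simp only [hB, Matrix.of_apply, if_neg hi]
      rw [e, coeff_sub]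
      refine VG.sub ?_ ?_
      · split_ifs
        · rw [coeff_one]
          split_ifs
          · simpa using VG_int 1
          · exact VG_zero 0
        · rw [coeff_zero]
          exact VG_zero 0
      · split_ifs
        · rw [coeff_X]
          split_ifs
          · simpa using VG_int 1
          · exact VG_zero 0
        · rw [coeff_zero]
          exact VG_zero 0
  have hVC : ∀ (q : ℚ) (m : ℕ), VG 1 q → VG 1 ((C q : ℚ[X]).coeff m) := by
    intro q m hq
    rw [coeff_C]
    split_ifs
    · exact hq
    · exact VG_zero 1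
  have hWB : ∀ i j, ∀ m, VG 1 ((W i j - B i j).coeff m) := by
    intro i j m
    rw [hWent i j]
    by_cases hi : i.val < n
    · rw [hLM1 i j hi]
      by_cases hj : j.val < n
      · have e1 : L0 i j = 2 ^ s * G i j := by
          simp only [hL0, Matrix.of_apply, if_pos hi, if_pos hj]
        have e2 : B i j = -(X * C (if i = j then 1 else 0)) := by
          simp only [hB, Matrix.of_apply, if_pos hi, if_pos hj]
          split_ifs
          · rw [C_1, mul_one]
          · rw [C_0, mul_zero, neg_zero]
        have e3 : YY i j = if i = j then 1 else 0 := hGP i j hi hj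
        rw [e1, e2, e3, ← mul_assoc, h2s, one_mul, sub_neg_eq_add, sub_add_cancel]
        refine hVC _ _ ?_
        have := (VG_two_zpow s).mul (hG i j hi hj)
        have e4 : s + (1 - s) = 1 := by ring
        rwa [e4] at this
      · have e1 : L0 i j = 0 := by
          simp only [hL0, Matrix.of_apply, if_pos hi, if_neg hj]
        have e2 : B i j = -(X * C (YY i j)) := by
          simp only [hB, Matrix.of_apply, if_pos hi, if_neg hj]
        rw [e1, e2, ← mul_assoc, h2s, one_mul, C_0, zero_sub, sub_neg_eq_add, neg_add_cancel,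
          coeff_zero]
        exact VG_zero 1
    · have e2 : B i j = (if i = j then 1 else 0) - (if n ≤ j.val ∧ i.val ≤ n + 1 ∧
          j.val ≤ n + 1 ∧ i.val + j.val ≤ 2 * n + 1 then X else 0) := by
        simp only [hB, Matrix.of_apply, if_neg hi]
      by_cases hj : j.val < n
      · have e1 : L0 i j = -XX i j := by
          simp only [hL0, Matrix.of_apply, if_neg hi, if_pos hj]
        rw [hLM3 i j hi hj, e1, e2, if_neg, if_neg (fun h => absurd hj (not_lt.2 h.1)), mul_zero,
          C_0, mul_zero, sub_zero, sub_zero, sub_zero]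
        · exact hVC _ _ (hX i j (not_lt.1 hi) hj).neg
        · rintro rfl
          exact hi hj
      · have e1 : L0 i j = if i = j then 1 else 0 := by
          simp only [hL0, Matrix.of_apply, if_neg hi, if_neg hj]
        have e3 : (C (if i = j then (1 : ℚ) else 0) : ℚ[X]) = if i = j then 1 else 0 := by
          split_ifs
          · exact C_1
          · exact C_0
        have e5 : ∃ β : ℚ, (if n ≤ j.val ∧ i.val ≤ n + 1 ∧ j.val ≤ n + 1 ∧
            i.val + j.val ≤ 2 * n + 1 then (X : ℚ[X]) else 0) = X * C β ∧
            VG 1 (2 ^ (-s) * (L0 * M) i j - β) := by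
          by_cases hc : n ≤ j.val ∧ i.val ≤ n + 1 ∧ j.val ≤ n + 1 ∧ i.val + j.val ≤ 2 * n + 1
          · refine ⟨1, by rw [if_pos hc, C_1, mul_one], ?_⟩
            rw [hLM4 i j hi]
            exact r7_Un_sub_one (hU i j (not_lt.1 hi) hc.1 hc.2.1 hc.2.2.1 hc.2.2.2)
          · refine ⟨0, by rw [if_neg hc, C_0, mul_zero], ?_⟩
            rw [hLM4 i j hi, sub_zero]
            have := (VG_two_zpow (-s)).mul (hS i j (not_lt.1 hi) (not_lt.1 hj)
              (fun h => hc ⟨not_lt.1 hj, h.1, h.2.1, h.2.2⟩))
            have e4 : -s + (s + 1) = 1 := by ring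
            rwa [e4] at this
        obtain ⟨β, e5, e6⟩ := e5
        rw [e1, e2, e3, e5, sub_sub_sub_cancel_left, ← mul_sub, ← C_sub, coeff_mul_C, coeff_X]
        split_ifs
        · rw [one_mul]
          have := e6.neg
          rwa [neg_sub] at this
        · rw [zero_mul]
          exact VG_zero 1
  have hdet := r7_det_congr W B hB0 hWB
  -- the determinant of `B`
  have hn0 : n < N := by omega
  have hn1 : n + 1 < N := by omega
  set i0 : Fin N := ⟨n, hn0⟩ with hi0
  set i1 : Fin N := ⟨n + 1, hn1⟩ with hi1
  have hne01 : i1 ≠ i0 := by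
    intro h
    have := congrArg Fin.val h
    simp only [hi0, hi1] at this
    omega
  set B1 : Matrix (Fin N) (Fin N) ℚ[X] := B * Matrix.transvection i1 i0 X with hB1
  have hB1same : ∀ i, B1 i i0 = B i i0 + X * B i i1 := by
    intro i
    rw [hB1, Matrix.mul_transvection_apply_same]
  have hB1ne : ∀ i j, j ≠ i0 → B1 i j = B i j := by
    intro i j hj
    rw [hB1, Matrix.mul_transvection_apply_of_ne _ _ _ _ hj]
  have hB1det : B1.det = B.det := by
    rw [hB1, Matrix.det_mul, Matrix.det_transvection_of_ne _ _ hne01, mul_one]
  have hBdet : B.det = (-X) ^ n * (1 - X - X ^ 2) := by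
    have htri : B1.IsUpperTriangular := by
      intro i j hij
      have hij' : j < i := hij
      have hijv : j.val < i.val := hij'
      have hne : i ≠ j := hij'.ne'
      by_cases hj0 : j = i0
      · subst hj0
        have hi : ¬ i.val < n := by
          have : n < i.val := hijv
          omega
        rw [hB1same]
        by_cases hii : i = i1
        · subst hii
          have e1 : B i1 i0 = -X := by
            simp only [hB, Matrix.of_apply, if_neg hi, if_neg hne]
            rw [if_pos, zero_sub]
            simp only [hi0, hi1]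
            omega
          have e2 : B i1 i1 = 1 := by
            simp only [hB, Matrix.of_apply, if_neg hi, if_true]
            rw [if_neg, sub_zero]
            simp only [hi1]
            omega
          rw [e1, e2, mul_one, neg_add_cancel]
        · have hi2 : n + 1 < i.val := by
            have h1 : n < i.val := hijv
            have h2 : i.val ≠ n + 1 := fun h => hii (Fin.ext h)
            omega
          have e1 : B i i0 = 0 := by
            simp only [hB, Matrix.of_apply, if_neg hi, if_neg hne]
            rw [if_neg, sub_zero]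
            omega
          have e2 : B i i1 = 0 := by
            simp only [hB, Matrix.of_apply, if_neg hi, if_neg hii]
            rw [if_neg, sub_zero]
            omega
          rw [e1, e2, mul_zero, add_zero]
      · rw [hB1ne _ _ hj0]
        by_cases hi : i.val < n
        · have hj : j.val < n := lt_trans hij' hi
          simp only [hB, Matrix.of_apply, if_pos hi, if_pos hj, if_neg hne]
        · simp only [hB, Matrix.of_apply, if_neg hi, if_neg hne]
          rw [if_neg, sub_zero]
          intro hc
          have h2 : j.val ≠ n := fun h => hj0 (Fin.ext h)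
          omega
    rw [← hB1det, Matrix.det_of_isUpperTriangular htri]
    have e : ∀ i : Fin N, B1 i i = (if i.val < n then -X else 1) *
        (if i = i0 then 1 - X - X ^ 2 else 1) := by
      intro i
      by_cases hii : i = i0
      · subst hii
        have hi : ¬ i0.val < n := by simp only [hi0]; omega
        rw [hB1same, if_pos rfl, if_neg hi, one_mul]
        have e1 : B i0 i0 = 1 - X := by
          simp only [hB, Matrix.of_apply, if_neg hi, if_true]
          rw [if_pos]
          simp only [hi0]
          omega
        have e2 : B i0 i1 = -X := by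
          simp only [hB, Matrix.of_apply, if_neg hi, if_neg hne01.symm]
          rw [if_pos, zero_sub]
          simp only [hi0, hi1]
          omega
        rw [e1, e2]
        ring
      · rw [hB1ne _ _ hii, if_neg hii, mul_one]
        by_cases hi : i.val < n
        · simp only [hB, Matrix.of_apply, if_pos hi, if_true]
        · simp only [hB, Matrix.of_apply, if_neg hi, if_true]
          rw [if_neg, sub_zero]
          intro hc
          have h2 : i.val ≠ n := fun h => hii (Fin.ext h)
          omega
    rw [Finset.prod_congr rfl fun i _ => e i, Finset.prod_mul_distrib, Finset.prod_ite,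
      Finset.prod_const_one, mul_one, Finset.prod_const, Fin.card_filter_val_lt,
      min_eq_right hn0.le, Finset.prod_ite_eq' Finset.univ i0, if_pos (Finset.mem_univ i0)]
  have hWdet : W.det = C L0.det * (((2 : ℚ) ^ (-s)) • M).charpolyRev := by
    rw [hW, Matrix.det_mul, Matrix.charpolyRev]
    congr 1
    have := RingHom.map_det (C : ℚ →+* ℚ[X]) L0
    rw [this]
    rfl
  have hcoef : ∀ m, L0.det * (((2 : ℚ) ^ (-s)) • M).charpolyRev.coeff m = W.det.coeff m := by
    intro m
    rw [hWdet, coeff_C_mul]
  have hBcoef : ∀ m, B.det.coeff m = if m = n then (-1) ^ n else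
      if m = n + 1 ∨ m = n + 2 then -(-1) ^ n else 0 := by
    intro m
    have e : ((-X) ^ n * (1 - X - X ^ 2) : ℚ[X]) = C ((-1) ^ n) * X ^ n -
        C ((-1) ^ n) * X ^ (n + 1) - C ((-1) ^ n) * X ^ (n + 2) := by
      have e1 : ((-X) ^ n : ℚ[X]) = C ((-1) ^ n) * X ^ n := by
        rw [C_pow, C_neg, C_1, ← mul_pow, neg_one_mul]
      rw [e1]
      ring
    rw [hBdet, e, coeff_sub, coeff_sub, coeff_C_mul_X_pow, coeff_C_mul_X_pow, coeff_C_mul_X_pow]
    by_cases h1 : m = n
    · rw [if_pos h1, if_neg (by omega), if_neg (by omega), if_pos h1, sub_zero, sub_zero]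
    · by_cases h2 : m = n + 1
      · rw [if_neg h1, if_pos h2, if_neg (by omega), if_neg h1, if_pos (Or.inl h2), zero_sub,
          sub_zero]
      · by_cases h3 : m = n + 2
        · rw [if_neg h1, if_neg h2, if_pos h3, if_neg h1, if_pos (Or.inr h3), sub_zero, zero_sub]
        · rw [if_neg h1, if_neg h2, if_neg h3, if_neg h1, if_neg (by omega), sub_zero, sub_zero]
  refine ⟨L0.det, fun m hm => ?_, fun m hm1 hm2 => ?_⟩
  · rw [hcoef]
    have h3 := hdet m
    rw [coeff_sub, hBcoef, if_neg (by omega), if_neg (by omega), sub_zero] at h3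
    exact h3
  · rw [hcoef]
    have h3 := hdet m
    rw [coeff_sub] at h3
    refine r7_Un_congr h3 ?_
    rw [hBcoef]
    split_ifs with h1 h2
    · exact r7_Un_pow n
    · exact r7_Un_neg (r7_Un_pow n)
    · omega

end Pool.Agent.Helper5.MD
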