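import Pool.Agent.Helper5.MD.B2Roots
import Pool.Agent.Helper5.MD3.R0Defs

/-!
# MR-R8 : the pair of roots of slope `s`

Compare `MD/B2Roots.lean` and `MD2/P10Prod.lean`.  `β = α / 2^s`, `charpolyRev (2^(-s) M) = ∏ (1 - β_i T)`.  Let `I` be the set of `i` with `v β_i > 1`, `K` that of `v β_i = 1`.
`∏_(i ∈ I) β_i⁻¹ ∏ (1 - β_i T)` has coefficients in the valuation ring and reduction `(-T)^|I| ∏_(i ∈ K) (1 - β̄_i T)`; it is a scalar multiple of `u * charpolyRev`, whose reduction is
`T^n (1 + T + T^2)` (a rational number `x` with `Un x` has `v (x - 1) < 1`).  So `|I| = n`, `|K| = 2` and `∏_(i ∈ K) (1 - β̄_i T) = 1 + T + T^2` (compare the lowest coefficients), that is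
`β̄_1 + β̄_2 = 1 = β̄_1 β̄_2` (residue characteristic two): `β̄^2 + β̄ + 1 = 0`, `β̄_1 ≠ β̄_2`, `v (α_1 - α_2) = v (2^s)`.
-/

open scoped Nat
open Polynomial

namespace Pool.Agent.Helper5.MD

namespace R8

open B2

/-- a rational number which is a `2`-adic unit is congruent to one -/
theorem v_Un_sub_one {Γ₀ : Type*} [LinearOrderedCommGroupWithZero Γ₀] (v : Valuation ℂ Γ₀)
    (hv : v 2 < 1) (x : ℚ) (hx : Un x) : v ((x : ℂ) - 1) < 1 := by
  obtain ⟨h0, h1⟩ := hx
  have hx0 : x ≠ 0 := by
    rintro rfl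
    exact h1 (Or.inl rfl)
  have hp : padicValRat 2 x = 0 := by
    rcases h0 with h0 | h0
    · exact absurd h0 hx0
    · by_contra hne
      exact h1 (Or.inr (by omega))
  have hcop : x.num.natAbs.Coprime x.den := x.reduced
  have hfact : Fact (Nat.Prime 2) := ⟨Nat.prime_two⟩
  have hden : ¬ 2 ∣ x.den := by
    intro hd
    have hnum : ¬ 2 ∣ x.num.natAbs := fun hn => by
      have := Nat.dvd_gcd hn hd
      rw [hcop] at this
      omega
    have e1 : padicValNat 2 x.num.natAbs = 0 := padicValNat.eq_zero_of_not_dvd hnum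
    have e2 : 1 ≤ padicValNat 2 x.den := one_le_padicValNat_of_dvd x.den_nz hd
    rw [padicValRat, padicValInt, e1] at hp
    omega
  have hnum : ¬ 2 ∣ x.num.natAbs := by
    intro hn
    have e1 : padicValNat 2 x.den = 0 := padicValNat.eq_zero_of_not_dvd hden
    have e2 : 1 ≤ padicValNat 2 x.num.natAbs :=
      one_le_padicValNat_of_dvd (by simpa using hx0) hn
    rw [padicValRat, padicValInt, e1] at hp
    omega
  have hd1 : v (x.den : ℂ) = 1 := v_odd_aux v hv _ hden
  have hdc : (x.den : ℂ) ≠ 0 := by exact_mod_cast x.den_nz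
  obtain ⟨k, hk⟩ : ∃ k : ℤ, x.num - x.den = 2 * k := by
    refine ⟨(x.num - x.den) / 2, ?_⟩
    omega
  have hval : (x : ℂ) - 1 = 2 * (k : ℂ) / (x.den : ℂ) := by
    rw [Rat.cast_def, eq_div_iff hdc, sub_mul, div_mul_cancel₀ _ hdc, one_mul]
    exact_mod_cast hk
  have hkv : v (k : ℂ) ≤ 1 := by
    rcases Int.natAbs_eq k with h | h
    · rw [h, Int.cast_natCast]
      exact v_nat_le_aux v k.natAbs
    · rw [h, Int.cast_neg, v.map_neg, Int.cast_natCast]
      exact v_nat_le_aux v k.natAbs
  rw [hval, map_div₀, hd1, div_one, v.map_mul]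
  calc v 2 * v (k : ℂ) ≤ v 2 * 1 := by gcongr
    _ = v 2 := mul_one _
    _ < 1 := hv

section val

variable {Γ₀ : Type*} [LinearOrderedCommGroupWithZero Γ₀] (v : Valuation ℂ Γ₀)

open Classical in
/-- the residue of an element of the valuation ring (zero outside) -/
noncomputable def resF (a : ℂ) : IsLocalRing.ResidueField v.valuationSubring :=
  if h : v a ≤ 1 then IsLocalRing.residue v.valuationSubring ⟨a, by
      rw [Valuation.mem_valuationSubring_iff]
      exact h⟩
  else 0

theorem resF_of_le (a : ℂ) (h : v a ≤ 1) :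
    resF v a = IsLocalRing.residue v.valuationSubring ⟨a, by
      rw [Valuation.mem_valuationSubring_iff]
      exact h⟩ := by
  unfold resF
  rw [dif_pos h]

theorem resF_coe (x : v.valuationSubring) :
    resF v (x : ℂ) = IsLocalRing.residue v.valuationSubring x :=
  resF_of_le v _ ((Valuation.mem_valuationSubring_iff v _).1 x.2)

theorem resF_eq_zero_iff (a : ℂ) (h : v a ≤ 1) : resF v a = 0 ↔ v a < 1 := by
  rw [resF_of_le v a h, res_eq_zero_iff_aux]

theorem liftF_map_res (a : ℂ) :
    (liftF v a).map (IsLocalRing.residue v.valuationSubring) =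
      if 1 < v a then -X else 1 - C (resF v a) * X := by
  unfold liftF
  split_ifs with h
  · have h0 : IsLocalRing.residue v.valuationSubring (⟨a⁻¹, by
      rw [Valuation.mem_valuationSubring_iff, map_inv₀]
      exact inv_le_one_of_one_le₀ h.le⟩ : v.valuationSubring) = 0 := by
      rw [res_eq_zero_iff_aux]
      show v (a⁻¹) < 1
      rw [map_inv₀]
      exact inv_lt_one_of_one_lt₀ h
    rw [Polynomial.map_sub, map_C, map_X, h0, C_0, zero_sub]
  · rw [resF_of_le v a (not_lt.1 h)]
    simp

theorem liftF_prod_res (S : Multiset ℂ) :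
    ((S.map (liftF v)).prod.map (IsLocalRing.residue v.valuationSubring)) =
      (-X) ^ (Multiset.card (S.filter (fun a => 1 < v a))) *
      (((S.filter (fun a => v a = 1)).map (fun a => 1 - C (resF v a) * X)).prod) := by
  induction S using Multiset.induction_on with
  | empty => simp
  | cons a S ih =>
    rw [Multiset.map_cons, Multiset.prod_cons, Polynomial.map_mul, liftF_map_res, ih]
    rcases lt_trichotomy (v a) 1 with h | h | h
    · rw [if_neg (not_lt.2 h.le), Multiset.filter_cons_of_neg (p := fun a => 1 < v a) _ (not_lt.2 h.le),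
        Multiset.filter_cons_of_neg (p := fun a => v a = 1) _ h.ne, (resF_eq_zero_iff v a h.le).2 h]
      simp
    · rw [if_neg (not_lt.2 h.le), Multiset.filter_cons_of_neg (p := fun a => 1 < v a) _ (not_lt.2 h.le),
        Multiset.filter_cons_of_pos (p := fun a => v a = 1) _ h, Multiset.map_cons,
        Multiset.prod_cons]
      ring
    · rw [if_pos h, Multiset.filter_cons_of_pos (p := fun a => 1 < v a) _ h,
        Multiset.filter_cons_of_neg (p := fun a => v a = 1) _ h.ne', Multiset.card_cons, pow_succ]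
      ring

theorem prod_deg {k : Type*} [Field k] (T : Multiset k) (hT : ∀ a ∈ T, a ≠ 0) :
    ((T.map (fun a => (1 - C a * X : k[X]))).prod).natDegree = Multiset.card T ∧
    ((T.map (fun a => (1 - C a * X : k[X]))).prod) ≠ 0 := by
  induction T using Multiset.induction_on with
  | empty => simp
  | cons a T ih =>
    obtain ⟨ih1, ih2⟩ := ih (fun b hb => hT b (Multiset.mem_cons_of_mem hb))
    have ha : a ≠ 0 := hT a (Multiset.mem_cons_self a T)
    have e : (1 - C a * X : k[X]) = C (-a) * X + C 1 := by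
      simp [sub_eq_add_neg, add_comm]
    have hd : (1 - C a * X : k[X]).natDegree = 1 := by
      rw [e]
      exact natDegree_linear (neg_ne_zero.2 ha)
    have hne : (1 - C a * X : k[X]) ≠ 0 := by
      intro h0
      rw [h0, natDegree_zero] at hd
      exact absurd hd (by norm_num)
    rw [Multiset.map_cons, Multiset.prod_cons]
    refine ⟨?_, mul_ne_zero hne ih2⟩
    rw [natDegree_mul hne ih2, hd, ih1, Multiset.card_cons, add_comm]

theorem quad_deg {k : Type*} [Field k] : (1 + X + X ^ 2 : k[X]).natDegree = 2 := by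
  have e : (1 + X + X ^ 2 : k[X]) = C 1 * X ^ 2 + C 1 * X + C 1 := by
    simp
    ring
  rw [e]
  exact natDegree_quadratic one_ne_zero

/-- the heart of the matter -/
theorem pair_aux (hv : v 2 < 1) (S : Multiset ℂ) (u : ℂ) (n : ℕ)
    (h1 : ∀ m, ¬ (n ≤ m ∧ m ≤ n + 2) →
      v (u * (S.map (fun a => (1 - C a * X : ℂ[X]))).prod.coeff m) < 1)
    (h2 : ∀ m, n ≤ m → m ≤ n + 2 →
      v (u * (S.map (fun a => (1 - C a * X : ℂ[X]))).prod.coeff m - 1) < 1) :
    ∃ a b : ℂ, S.filter (fun z => v z = 1) = {a, b} ∧ v (a - b) = 1 ∧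
      v (a ^ 2 + a + 1) < 1 ∧ v (b ^ 2 + b + 1) < 1 := by
  set p : ℂ[X] := (S.map (fun a => (1 - C a * X : ℂ[X]))).prod with hp
  set Q : v.valuationSubring[X] := (S.map (liftF v)).prod with hQ
  set l : ℂ := (S.map (scF v)).prod with hl
  have h2' : ∀ m, n ≤ m → m ≤ n + 2 → v (u * p.coeff m) = 1 := by
    intro m hm hm'
    have e : u * p.coeff m = 1 + (u * p.coeff m - 1) := by ring
    rw [e, v.map_add_eq_of_lt_left, v.map_one]
    rw [v.map_one]
    exact h2 m hm hm'
  have h3 : ∀ m, v (u * p.coeff m) ≤ 1 := by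
    intro m
    by_cases hmn : n ≤ m ∧ m ≤ n + 2
    · exact (h2' m hmn.1 hmn.2).le
    · exact (h1 m hmn).le
  have hu : u ≠ 0 := by
    rintro rfl
    have := h2' n le_rfl (by omega)
    rw [zero_mul, map_zero] at this
    exact zero_ne_one this
  have hvu : v u ≠ 0 := by rwa [Ne, v.zero_iff]
  have hl0 : l ≠ 0 := by
    rw [hl]
    apply Multiset.prod_ne_zero
    intro h
    obtain ⟨a, _, ha⟩ := Multiset.mem_map.1 h
    exact scF_ne_zero v a ha
  have hQc : ∀ m, ((Q.coeff m : v.valuationSubring) : ℂ) = l * p.coeff m := by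
    intro m
    have := congrArg (fun q => q.coeff m) (liftF_prod_map v S)
    simp only [coeff_map, coeff_C_mul] at this
    exact this
  have hQc' : ∀ m, ((Q.coeff m : v.valuationSubring) : ℂ) = (l / u) * (u * p.coeff m) := by
    intro m
    rw [hQc]
    field_simp
  have hQv : ∀ m, v ((Q.coeff m : v.valuationSubring) : ℂ) = (v l / v u) * v (u * p.coeff m) := by
    intro m
    rw [hQc, v.map_mul, v.map_mul]
    field_simp
  have hle : ∀ m, v ((Q.coeff m : v.valuationSubring) : ℂ) ≤ 1 := fun m =>
    (Valuation.mem_valuationSubring_iff v _).1 (Q.coeff m).2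
  obtain ⟨hne, htd⟩ := liftF_prod v S
  rw [← hQ] at hne htd
  have hr : v l / v u = 1 := by
    apply le_antisymm
    · have := hle n
      rwa [hQv, h2' n le_rfl (by omega), mul_one] at this
    · obtain ⟨m, hm⟩ : ∃ m, (Q.map (IsLocalRing.residue v.valuationSubring)).coeff m ≠ 0 := by
        by_contra hcon
        push Not at hcon
        exact hne (Polynomial.ext fun m => by rw [hcon m, coeff_zero])
      rw [coeff_map, Ne, res_eq_zero_iff_aux, not_lt, hQv] at hm
      refine hm.trans ?_
      calc v l / v u * v (u * p.coeff m) ≤ v l / v u * 1 := by gcongr; exact h3 m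
        _ = v l / v u := mul_one _
  -- the scalar
  have hlu : v (l / u) = 1 := by rw [map_div₀, hr]
  set c : v.valuationSubring := ⟨l / u, by
    rw [Valuation.mem_valuationSubring_iff]
    exact hlu.le⟩ with hc
  set w : ℕ → v.valuationSubring := fun m => ⟨u * p.coeff m, by
    rw [Valuation.mem_valuationSubring_iff]
    exact h3 m⟩ with hw
  have hQw : ∀ m, Q.coeff m = c * w m := by
    intro m
    apply Subtype.ext
    rw [hQc' m]
    rfl
  have hc0 : IsLocalRing.residue v.valuationSubring c ≠ 0 := by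
    rw [Ne, res_eq_zero_iff_aux]
    show ¬ v (l / u) < 1
    rw [hlu]
    exact lt_irrefl _
  have hw0 : ∀ m, ¬ (n ≤ m ∧ m ≤ n + 2) → IsLocalRing.residue v.valuationSubring (w m) = 0 := by
    intro m hm
    rw [res_eq_zero_iff_aux]
    exact h1 m hm
  have hw1 : ∀ m, n ≤ m → m ≤ n + 2 → IsLocalRing.residue v.valuationSubring (w m) = 1 := by
    intro m hm hm'
    have : IsLocalRing.residue v.valuationSubring (w m - 1) = 0 := by
      rw [res_eq_zero_iff_aux]
      exact h2 m hm hm'
    rw [map_sub, map_one, sub_eq_zero] at this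
    exact this
  have hQres : Q.map (IsLocalRing.residue v.valuationSubring) =
      C (IsLocalRing.residue v.valuationSubring c) * (X ^ n * (1 + X + X ^ 2)) := by
    ext m
    rw [coeff_map, hQw, map_mul, coeff_C_mul]
    congr 1
    have e : (X ^ n * (1 + X + X ^ 2) : (IsLocalRing.ResidueField v.valuationSubring)[X]) =
        X ^ n + X ^ (n + 1) + X ^ (n + 2) := by ring
    rw [e, coeff_add, coeff_add, coeff_X_pow, coeff_X_pow, coeff_X_pow]
    by_cases hm : n ≤ m ∧ m ≤ n + 2
    · rw [hw1 m hm.1 hm.2]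
      have : m = n ∨ m = n + 1 ∨ m = n + 2 := by omega
      rcases this with rfl | rfl | rfl
      · simp
      · simp
      · simp
    · rw [hw0 m hm, if_neg (by omega), if_neg (by omega), if_neg (by omega)]
      simp
  have hQres' := liftF_prod_res v S
  rw [← hQ] at hQres'
  set K := S.filter (fun a => v a = 1) with hK
  set q : (IsLocalRing.ResidueField v.valuationSubring)[X] :=
    (K.map (fun a => 1 - C (resF v a) * X)).prod with hq
  have hquad0 : (1 + X + X ^ 2 : (IsLocalRing.ResidueField v.valuationSubring)[X]) ≠ 0 := by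
    intro h0
    have := quad_deg (k := IsLocalRing.ResidueField v.valuationSubring)
    rw [h0, natDegree_zero] at this
    exact absurd this (by norm_num)
  have hcard : Multiset.card (S.filter (fun a => 1 < v a)) = n := by
    rw [← htd, hQres, natTrailingDegree_mul (C_ne_zero.2 hc0) (mul_ne_zero (pow_ne_zero _ X_ne_zero) hquad0),
      natTrailingDegree_C, natTrailingDegree_mul (pow_ne_zero _ X_ne_zero) hquad0]
    have e1 : (1 + X + X ^ 2 : (IsLocalRing.ResidueField v.valuationSubring)[X]).natTrailingDegree = 0 := by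
      rw [natTrailingDegree_eq_zero]
      right
      simp
    rw [e1, natTrailingDegree_X_pow, zero_add, add_zero]
  rw [hcard, hQres] at hQres'
  have hmap : q = ((K.map (resF v)).map (fun a => 1 - C a * X)).prod := by
    rw [hq, Multiset.map_map]
    rfl
  have hKne : ∀ a ∈ K.map (resF v), a ≠ 0 := by
    intro a ha
    obtain ⟨b, hb, rfl⟩ := Multiset.mem_map.1 ha
    have hb1 : v b = 1 := (Multiset.mem_filter.1 hb).2
    rw [Ne, resF_eq_zero_iff v b hb1.le, hb1]
    exact lt_irrefl _
  obtain ⟨hqdeg, hq0⟩ := prod_deg (K.map (resF v)) hKne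
  rw [← hmap] at hqdeg hq0
  rw [Multiset.card_map] at hqdeg
  have hcancel : C (IsLocalRing.residue v.valuationSubring c) * (1 + X + X ^ 2) =
      C ((-1) ^ n) * q := by
    have hX : (X ^ n : (IsLocalRing.ResidueField v.valuationSubring)[X]) ≠ 0 :=
      pow_ne_zero _ X_ne_zero
    apply mul_left_cancel₀ hX
    rw [neg_pow (X : (IsLocalRing.ResidueField v.valuationSubring)[X]) n] at hQres'
    rw [C_pow, C_neg, C_1]
    linear_combination hQres'
  have hc1 : IsLocalRing.residue v.valuationSubring c = (-1) ^ n := by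
    have := congrArg (fun f => f.coeff 0) hcancel
    simp only [coeff_C_mul] at this
    have e1 : (1 + X + X ^ 2 : (IsLocalRing.ResidueField v.valuationSubring)[X]).coeff 0 = 1 := by
      simp
    have e2 : q.coeff 0 = 1 := by
      rw [coeff_zero_eq_eval_zero, hmap, eval_multiset_prod, Multiset.map_map]
      have : ((K.map (resF v)).map (eval 0 ∘ fun a => 1 - C a * X)) =
          (K.map (resF v)).map (fun _ => (1 : IsLocalRing.ResidueField v.valuationSubring)) := by
        apply Multiset.map_congr rfl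
        intro a _
        simp
      rw [this, Multiset.map_const', Multiset.prod_replicate, one_pow]
    rw [e1, e2, mul_one, mul_one] at this
    exact this
  have hqe : q = 1 + X + X ^ 2 := by
    rw [hc1] at hcancel
    have hne1 : (C ((-1 : IsLocalRing.ResidueField v.valuationSubring) ^ n)) ≠ 0 :=
      C_ne_zero.2 (pow_ne_zero _ (neg_ne_zero.2 one_ne_zero))
    exact (mul_left_cancel₀ hne1 hcancel).symm
  have hK2 : Multiset.card K = 2 := by
    rw [← hqdeg, hqe]
    exact quad_deg
  obtain ⟨a, b, hab⟩ := Multiset.card_eq_two.1 hK2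
  have ha1 : v a = 1 := by
    have : a ∈ K := by rw [hab]; simp
    exact (Multiset.mem_filter.1 this).2
  have hb1 : v b = 1 := by
    have : b ∈ K := by rw [hab]; simp
    exact (Multiset.mem_filter.1 this).2
  set a' : v.valuationSubring := ⟨a, by
    rw [Valuation.mem_valuationSubring_iff]
    exact ha1.le⟩ with ha'
  set b' : v.valuationSubring := ⟨b, by
    rw [Valuation.mem_valuationSubring_iff]
    exact hb1.le⟩ with hb'
  have hqab : (1 - C (IsLocalRing.residue v.valuationSubring a') * X) *
      (1 - C (IsLocalRing.residue v.valuationSubring b') * X) = 1 + X + X ^ 2 := by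
    rw [← hqe, hq, hab]
    rw [← resF_coe v a', ← resF_coe v b']
    simp [ha', hb']
  set A := IsLocalRing.residue v.valuationSubring a' with hA
  set B := IsLocalRing.residue v.valuationSubring b' with hB
  have hexp : (1 - C A * X) * (1 - C B * X) = C (A * B) * X ^ 2 + C (-(A + B)) * X + C 1 := by
    rw [C_mul, C_neg, C_add, C_1]
    ring
  have hexp2 : (1 + X + X ^ 2 : (IsLocalRing.ResidueField v.valuationSubring)[X]) =
      C 1 * X ^ 2 + C 1 * X + C 1 := by
    rw [C_1]
    ring
  rw [hexp, hexp2] at hqab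
  have hAB1 : A * B = 1 := by
    have := congrArg (fun f => f.coeff 2) hqab
    simp only [coeff_add, coeff_C_mul, coeff_X_pow, coeff_X, coeff_C] at this
    simpa using this
  have hAB2 : -(A + B) = 1 := by
    have := congrArg (fun f => f.coeff 1) hqab
    simp only [coeff_add, coeff_C_mul, coeff_X_pow, coeff_X, coeff_C] at this
    simpa using this
  have h2res : (2 : IsLocalRing.ResidueField v.valuationSubring) = 0 := by
    have : IsLocalRing.residue v.valuationSubring 2 = 0 := by
      rw [res_eq_zero_iff_aux]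
      exact hv
    rwa [map_ofNat] at this
  refine ⟨a, b, hab, ?_, ?_, ?_⟩
  · have hle1 : v (a - b) ≤ 1 := by
      refine (v.map_sub _ _).trans ?_
      rw [ha1, hb1, max_self]
    refine le_antisymm hle1 (not_lt.1 fun hlt => ?_)
    have : IsLocalRing.residue v.valuationSubring (a' - b') = 0 := by
      rw [res_eq_zero_iff_aux]
      exact hlt
    rw [map_sub] at this
    have hAB : A = B := sub_eq_zero.1 this
    rw [← hAB] at hAB1 hAB2
    have h0 : (1 : IsLocalRing.ResidueField v.valuationSubring) = 0 := by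
      rw [← hAB2]
      linear_combination (-A) * h2res
    exact one_ne_zero h0
  · have : IsLocalRing.residue v.valuationSubring (a' ^ 2 + a' + 1) = 0 := by
      rw [map_add, map_add, map_pow, map_one]
      linear_combination -hAB1 - A * hAB2
    rw [res_eq_zero_iff_aux] at this
    exact this
  · have : IsLocalRing.residue v.valuationSubring (b' ^ 2 + b' + 1) = 0 := by
      rw [map_add, map_add, map_pow, map_one]
      linear_combination -hAB1 - B * hAB2
    rw [res_eq_zero_iff_aux] at this
    exact this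

end val

end R8

open B2 R8 in
theorem pair_roots {Γ₀ : Type*} [LinearOrderedCommGroupWithZero Γ₀]
    (v : Valuation ℂ Γ₀) (hv : v 2 < 1) (N n : ℕ) (M : Matrix (Fin N) (Fin N) ℚ) (s : ℤ)
    (h : PairAt N n M s) :
    ∃ α β : ℂ, ((M.map (algebraMap ℚ ℂ)).charpoly.roots.filter
        (fun z => v z = v ((2 : ℂ) ^ s))) = {α, β} ∧
      v (α - β) = v ((2 : ℂ) ^ s) ∧
      v ((α / 2 ^ s) ^ 2 + α / 2 ^ s + 1) < 1 ∧ v ((β / 2 ^ s) ^ 2 + β / 2 ^ s + 1) < 1 := by
  obtain ⟨u, h1, h2⟩ := h
  set R := (M.map (algebraMap ℚ ℂ)).charpoly.roots with hR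
  have hfin := charpolyRev_final_aux M s
  rw [← hR] at hfin
  have hprod : (R.map (fun a => (1 - C ((2 : ℂ) ^ (-s) * a) * X : ℂ[X]))).prod =
      ((R.map (fun a => (2 : ℂ) ^ (-s) * a)).map (fun a => (1 - C a * X : ℂ[X]))).prod := by
    rw [Multiset.map_map]
    rfl
  rw [hprod] at hfin
  have hco : ∀ m, (u : ℂ) * ((R.map (fun a => (2 : ℂ) ^ (-s) * a)).map
      (fun a => (1 - C a * X : ℂ[X]))).prod.coeff m =
      ((u * (((2 : ℚ) ^ (-s)) • M).charpolyRev.coeff m : ℚ) : ℂ) := by
    intro m
    rw [← hfin, coeff_map]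
    push_cast
    rfl
  obtain ⟨a, b, hab, hd, ha, hb⟩ := pair_aux v hv (R.map (fun a => (2 : ℂ) ^ (-s) * a)) (u : ℂ) n
    (fun m hm => by rw [hco]; exact v_VG1_aux v hv _ (h1 m hm))
    (fun m hm hm' => by rw [hco]; exact v_Un_sub_one v hv _ (h2 m hm hm'))
  have hz : ((2 : ℂ) ^ s) ≠ 0 := zpow_ne_zero _ (by norm_num)
  have h20 : v ((2 : ℂ) ^ s) ≠ 0 := by
    rw [Ne, v.zero_iff]
    exact hz
  have hmapinv : ((R.filter (fun z => v z = v ((2 : ℂ) ^ s))).map (fun a => (2 : ℂ) ^ (-s) * a)) =
      {a, b} := by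
    rw [← hab, Multiset.filter_map]
    congr 1
    apply Multiset.filter_congr
    intro z _
    simp only [Function.comp]
    rw [v.map_mul, zpow_neg, map_inv₀, inv_mul_eq_div, div_eq_one_iff_eq h20]
  have hback : R.filter (fun z => v z = v ((2 : ℂ) ^ s)) =
      ((R.filter (fun z => v z = v ((2 : ℂ) ^ s))).map (fun a => (2 : ℂ) ^ (-s) * a)).map
        (fun a => (2 : ℂ) ^ s * a) := by
    rw [Multiset.map_map]
    conv_lhs => rw [← Multiset.map_id (R.filter (fun z => v z = v ((2 : ℂ) ^ s)))]
    apply Multiset.map_congr rfl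
    intro z _
    simp only [Function.comp, id]
    rw [← mul_assoc, zpow_neg, mul_inv_cancel₀ hz, one_mul]
  refine ⟨(2 : ℂ) ^ s * a, (2 : ℂ) ^ s * b, ?_, ?_, ?_, ?_⟩
  · rw [hback, hmapinv]
    simp
  · rw [← mul_sub, v.map_mul, hd, mul_one]
  · rw [mul_div_cancel_left₀ _ hz]
    exact ha
  · rw [mul_div_cancel_left₀ _ hz]
    exact hb

end Pool.Agent.Helper5.MD
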