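import Pool.Agent.Helper5.MD2.P9Det
import Pool.Agent.Helper5.MD2.P10Prod
import Pool.Agent.Helper5.MD3.R4TameCrit
import Pool.Agent.Helper5.MD3.R6TamePair
import Pool.Agent.Helper5.MD3.R7PairDet
import Pool.Agent.Helper5.MD3.R8PairRoots

/-!
# MR-R9 : eigenvalues of `MAT` in a tame weight

`single`: `¬ B n` and `¬ B (n - 1)`: both `n` and `n - 1` satisfy the vertex criterion (`Tame.crit`; `n - 1 = 0` is trivial) and the argument of `MD2/P11Vals.lean` applies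
(`v2 (PS (n-1)) + 2 ≤ v2 (PS n)` by `h.lt`).
`pair`: immediate from `Tame.pairCrit`, `pairAt_of_pairCrit`, `pair_roots`.
-/

open scoped Nat

namespace Pool.Agent.Helper5.MD

/-- the number and the product of the large eigenvalues -/
private theorem r9_facts {ε : Bool} {κ : ℕ} {B : ℕ → Prop} (h : Tame ε κ B) {Γ₀ : Type*}
    [LinearOrderedCommGroupWithZero Γ₀] (v : Valuation ℂ Γ₀) (hv : v 2 < 1) (n : ℕ)
    (hn : 1 ≤ n) (h3 : 3 * n < κ) (hB : ¬ B n) :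
    Multiset.card ((((MAT ε κ).map (algebraMap ℚ ℂ)).charpoly.roots).filter
      (fun α => v ((2 : ℂ) ^ (padicValRat 2 (PS ε κ n) + 1)) < v α)) = n ∧
    v (((((MAT ε κ).map (algebraMap ℚ ℂ)).charpoly.roots).filter
      (fun α => v ((2 : ℂ) ^ (padicValRat 2 (PS ε κ n) + 1)) < v α)).prod) =
      v ((∏ w ∈ Finset.Icc 1 n, PS ε κ w : ℚ) : ℂ) := by
  have hN : n ≤ κ - 1 := by omega
  have hc := h.crit n hn h3 hB
  refine ⟨card_roots_of_vertex v hv _ n _ _ (vertex_of_crit _ _ _ _ hc), ?_⟩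
  rw [prod_roots_of_crit v hv _ n _ _ hc hN, det_leading ε κ n h3 hN]

theorem Tame.single {ε : Bool} {κ : ℕ} {B : ℕ → Prop} (h : Tame ε κ B) {Γ₀ : Type*}
    [LinearOrderedCommGroupWithZero Γ₀] (v : Valuation ℂ Γ₀) (hv : v 2 < 1) (n : ℕ)
    (hn : 1 ≤ n) (h3 : 3 * n < κ) (hB : ¬ B n) (hB' : ¬ B (n - 1)) :
    ∃ α : ℂ, ((MAT ε κ).map (algebraMap ℚ ℂ)).charpoly.IsRoot α ∧
      v α = v ((2 : ℂ) ^ padicValRat 2 (PS ε κ n)) := by
  set R := ((MAT ε κ).map (algebraMap ℚ ℂ)).charpoly.roots with hR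
  set sl : ℕ → ℤ := fun n => padicValRat 2 (PS ε κ n) with hsl
  set A : ℕ → Multiset ℂ := fun n => R.filter (fun α => v ((2 : ℂ) ^ (sl n + 1)) < v α) with hA
  have h20 : v (2 : ℂ) ≠ 0 := by
    rw [Ne, v.zero_iff]; norm_num
  obtain ⟨c1, p1⟩ := r9_facts h v hv n hn h3 hB
  -- the smaller multiset
  obtain ⟨A', hle, c2, p2⟩ : ∃ A' : Multiset ℂ, A' ≤ A n ∧ Multiset.card A' = n - 1 ∧
      v A'.prod = v ((∏ w ∈ Finset.Icc 1 (n - 1), PS ε κ w : ℚ) : ℂ) := by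
    rcases Nat.eq_or_lt_of_le hn with h1 | h1
    · subst h1
      exact ⟨0, Multiset.zero_le _, rfl, by simp⟩
    · obtain ⟨c2, p2⟩ := r9_facts h v hv (n - 1) (by omega) (by omega) hB'
      refine ⟨A (n - 1), ?_, c2, p2⟩
      have h4 := h.lt (n - 1) (by omega) (by omega) hB'
      rw [Nat.sub_add_cancel hn] at h4
      apply Multiset.monotone_filter_right
      intro α hα
      refine lt_of_le_of_lt ?_ hα
      rw [map_zpow₀, map_zpow₀]
      refine zpow_le_zpow_right_of_le_one₀ (zero_lt_iff.2 h20) hv.le ?_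
      show sl (n - 1) + 1 ≤ sl n + 1
      have h5 : sl (n - 1) + 2 ≤ sl n := h4
      omega
  obtain ⟨B', hB''⟩ := Multiset.le_iff_exists_add.1 hle
  have hBc : Multiset.card B' = 1 := by
    have h5 := congrArg Multiset.card hB''
    rw [Multiset.card_add, c2] at h5
    have h6 : Multiset.card (A n) = n := c1
    omega
  obtain ⟨α, rfl⟩ := Multiset.card_eq_one.1 hBc
  have hαA : α ∈ A n := by
    rw [hB'']
    simp
  have hαR : α ∈ R := (Multiset.mem_filter.1 hαA).1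
  refine ⟨α, Polynomial.isRoot_of_mem_roots hαR, ?_⟩
  have hPS : ∀ w, 1 ≤ w → w ≤ n → PS ε κ w ≠ 0 := fun w h1 h2 =>
    PS_ne_zero ε κ w h1 (by omega)
  have hprod : (∏ w ∈ Finset.Icc 1 n, PS ε κ w : ℚ) =
      (∏ w ∈ Finset.Icc 1 (n - 1), PS ε κ w) * PS ε κ n := by
    have h7 := Finset.prod_Icc_succ_top (a := 1) (b := n - 1) (by omega)
      (fun w => PS ε κ w)
    rw [Nat.sub_add_cancel hn] at h7
    exact h7
  have hne : ((∏ w ∈ Finset.Icc 1 (n - 1), PS ε κ w : ℚ) : ℂ) ≠ 0 := by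
    rw [Ne, Rat.cast_eq_zero, Finset.prod_eq_zero_iff]
    rintro ⟨w, hw, h0⟩
    rw [Finset.mem_Icc] at hw
    exact hPS w hw.1 (by omega) h0
  have p3 : v (A n).prod = v ((∏ w ∈ Finset.Icc 1 n, PS ε κ w : ℚ) : ℂ) := p1
  rw [hB'', Multiset.prod_add, Multiset.prod_singleton, v.map_mul, p2, hprod, Rat.cast_mul,
    v.map_mul] at p3
  have h8 := mul_left_cancel₀ (by rwa [Ne, v.zero_iff]) p3
  rw [h8, B2.v_rat_aux v hv _ (hPS n hn le_rfl), map_zpow₀]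

theorem Tame.pair {ε : Bool} {κ : ℕ} {B : ℕ → Prop} (h : Tame ε κ B) {Γ₀ : Type*}
    [LinearOrderedCommGroupWithZero Γ₀] (v : Valuation ℂ Γ₀) (hv : v 2 < 1) (b : ℕ) (hB : B b) :
    ∃ α β : ℂ, ((MAT ε κ).map (algebraMap ℚ ℂ)).charpoly.IsRoot α ∧
      ((MAT ε κ).map (algebraMap ℚ ℂ)).charpoly.IsRoot β ∧
      v α = v ((2 : ℂ) ^ padicValRat 2 (PS ε κ b)) ∧
      v β = v ((2 : ℂ) ^ padicValRat 2 (PS ε κ b)) ∧
      v (α - β) = v ((2 : ℂ) ^ padicValRat 2 (PS ε κ b)) ∧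
      v ((α / 2 ^ padicValRat 2 (PS ε κ b)) ^ 2 + α / 2 ^ padicValRat 2 (PS ε κ b) + 1) < 1 ∧
      v ((β / 2 ^ padicValRat 2 (PS ε κ b)) ^ 2 + β / 2 ^ padicValRat 2 (PS ε κ b) + 1) < 1 := by
  obtain ⟨α, β, h1, h2, h3, h4⟩ := pair_roots v hv _ _ _ _
    (pairAt_of_pairCrit _ _ _ _ (h.pairCrit b hB))
  have hα : α ∈ ((MAT ε κ).map (algebraMap ℚ ℂ)).charpoly.roots.filter
        (fun z => v z = v ((2 : ℂ) ^ padicValRat 2 (PS ε κ b))) := by
    rw [h1]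
    simp
  have hβ : β ∈ ((MAT ε κ).map (algebraMap ℚ ℂ)).charpoly.roots.filter
        (fun z => v z = v ((2 : ℂ) ^ padicValRat 2 (PS ε κ b))) := by
    rw [h1]
    simp
  rw [Multiset.mem_filter] at hα hβ
  exact ⟨α, β, Polynomial.isRoot_of_mem_roots hα.1, Polynomial.isRoot_of_mem_roots hβ.1,
    hα.2, hβ.2, h2, h3, h4⟩

end Pool.Agent.Helper5.MD
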