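import Pool.Agent.Helper5.MD2.P12Main
import Pool.Agent.Helper5.MD3.R9TameVals

/-!
# MR-R10 : the roots of the Hecke polynomial in a tame weight

`finrank_tame`: as `finrank_pow` in `MD2/P12Main.lean`: the weight is `k = 4 κ + 2 ε`; `dim = k / 12` if `k % 12 ≠ 2`, and `k / 12 - 1` if `k % 12 = 2` (that is `ε = true`, `3 ∣ κ`).
`tame_roots`: as `P12.main`.  `s_n = v2 (PS n)`, `s_n ≤ 4 n + 5 log2 κ + 8 < 2 κ - 1` (`PS_upper`, `κ ≥ 800`).  For each index take `α_n` of `Tame.single`, or for a pair `b`, `α_b = α`,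
`α_(b+1) = β` of `Tame.pair`; `μ = α + 2^(2M-1)/α` is an eigenvalue of `T_2` (`eigenvalue_of_root`), `v (2^(2M-1)/α) < v (2^(s_n + 1))` or so
(`2 M - 1 - s_n > s_n + 1`), so `v μ = v α`, `v (μ_b - μ_(b+1)) = v (α - β)`, and the residual equation is preserved.  All `μ_n` are distinct (different valuations, since
`s` is weakly increasing and constant only on pairs), there are `d` of them.
-/

open UpperHalfPlane hiding I
open ModularForm MatrixGroups Filter Topology
open scoped Manifold Real Nat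

namespace Pool.Agent.Helper5.MD

namespace R10

theorem rank_cusp (k : ℕ) (hk : 3 ≤ k) (hk2 : Even k) :
    Module.finrank ℂ (CuspForm 𝒮ℒ (k : ℤ)) = if k % 12 = 2 then k / 12 - 1 else k / 12 := by
  have := finiteDimensional_cuspForm (k : ℤ)
  have h1 := ModularForm.rank_eq_one_add_rank_cuspForm hk hk2
  rw [ModularForm.dimension_level_one k hk2, ← Module.finrank_eq_rank] at h1
  by_cases h : k % 12 = 2
  · rw [if_pos (by exact h)] at h1
    rw [if_pos h]
    have h2 : k / 12 = 1 + Module.finrank ℂ (CuspForm 𝒮ℒ (k : ℤ)) := by exact_mod_cast h1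
    omega
  · rw [if_neg (by intro h2; exact h h2)] at h1
    rw [if_neg h]
    have h2 : k / 12 + 1 = 1 + Module.finrank ℂ (CuspForm 𝒮ℒ (k : ℤ)) := by exact_mod_cast h1
    omega

theorem slope_lt (ε : Bool) (κ : ℕ) (hκ : 800 ≤ κ) (n : ℕ) (hn : 1 ≤ n) (h3 : 3 * n < κ) :
    padicValRat 2 (PS ε κ n) < 2 * (κ : ℤ) - 1 := by
  have h1 := PS_upper ε κ n hn h3
  have h4 : 2 ^ Nat.log 2 κ ≤ κ := Nat.pow_log_le_self 2 (by omega)
  have h5 : 9 ≤ Nat.log 2 κ := by
    have : Nat.log 2 800 ≤ Nat.log 2 κ := Nat.log_mono_right hκ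
    have h6 : Nat.log 2 800 = 9 := by
      rw [Nat.log_eq_iff] <;> norm_num
    omega
  have h2 : 3 * (5 * Nat.log 2 κ + 10) ≤ 2 * 2 ^ Nat.log 2 κ := by
    clear h1 h3 h4
    generalize Nat.log 2 κ = L at h5
    induction L, h5 using Nat.le_induction with
    | base => norm_num
    | succ k hk ih => rw [pow_succ]; omega
  have h6 : 3 * (5 * Nat.log 2 κ + 10) ≤ 2 * κ := by omega
  have h3' : 3 * (n : ℤ) < (κ : ℤ) := by exact_mod_cast h3
  have h2' : 3 * (5 * (Nat.log 2 κ : ℤ) + 10) ≤ 2 * (κ : ℤ) := by exact_mod_cast h6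
  omega

theorem slope_le {ε : Bool} {κ : ℕ} {B : ℕ → Prop} (h : Tame ε κ B) {n : ℕ} (hn : 1 ≤ n)
    (h3 : 3 * (n + 1) < κ) :
    padicValRat 2 (PS ε κ n) ≤ padicValRat 2 (PS ε κ (n + 1)) := by
  by_cases hB : B n
  · exact (h.eq n hB).ge
  · have := h.lt n hn h3 hB
    omega

theorem slope_mono {ε : Bool} {κ : ℕ} {B : ℕ → Prop} (h : Tame ε κ B) {a b : ℕ} (ha : 1 ≤ a)
    (hab : a ≤ b) (h3 : 3 * b < κ) :
    padicValRat 2 (PS ε κ a) ≤ padicValRat 2 (PS ε κ b) := by
  induction b, hab using Nat.le_induction with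
  | base => exact le_rfl
  | succ c hc ih => exact (ih (by omega)).trans (slope_le h (by omega) h3)

theorem slope_strict {ε : Bool} {κ : ℕ} {B : ℕ → Prop} (h : Tame ε κ B) {a b : ℕ} (ha : 1 ≤ a)
    (hab : a < b) (h3 : 3 * b < κ) (hB : ¬ (b = a + 1 ∧ B a)) :
    padicValRat 2 (PS ε κ a) < padicValRat 2 (PS ε κ b) := by
  by_cases hBa : B a
  · have hb : a + 2 ≤ b := by
      by_contra hlt
      exact hB ⟨by omega, hBa⟩
    have h1 := (h.pos a hBa).2.2
    have h2 := h.lt (a + 1) (by omega) (by omega) h1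
    have h4 := slope_le h ha (by omega : 3 * (a + 1) < κ)
    have h5 := slope_mono h (by omega : 1 ≤ a + 2) hb h3
    have e : a + 1 + 1 = a + 2 := rfl
    rw [e] at h2
    omega
  · have h2 := h.lt a ha (by omega) hBa
    have h5 := slope_mono h (by omega : 1 ≤ a + 1) hab h3
    omega

end R10

theorem finrank_tame (ε : Bool) (κ : ℕ) (hκ : 4 ≤ κ) (h3 : ¬ 3 ∣ κ ∨ ε = true) :
    Module.finrank ℂ (CuspForm 𝒮ℒ (2 * (2 * (κ : ℤ) + (if ε then 1 else 0)))) =
      (κ - 1) / 3 := by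
  have key : Module.finrank ℂ (CuspForm 𝒮ℒ ((4 * κ + (if ε then 2 else 0) : ℕ) : ℤ)) =
      (κ - 1) / 3 := by
    cases ε
    · have h3' : ¬ 3 ∣ κ := by
        rcases h3 with h3 | h3
        · exact h3
        · exact absurd h3 (by decide)
      have e : (4 * κ + (if false = true then 2 else 0)) = 4 * κ := by simp
      rw [e, R10.rank_cusp (4 * κ) (by omega) (by rw [Nat.even_iff]; omega)]
      split_ifs <;> omega
    · have e : (4 * κ + (if true = true then 2 else 0)) = 4 * κ + 2 := by simp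
      rw [e, R10.rank_cusp (4 * κ + 2) (by omega) (by rw [Nat.even_iff]; omega)]
      split_ifs <;> omega
  have e : ((4 * κ + (if ε then 2 else 0) : ℕ) : ℤ) =
      2 * (2 * (κ : ℤ) + (if ε then 1 else 0)) := by
    cases ε <;> simp <;> ring
  rw [e] at key
  exact key

namespace R10

/-- the properties of the eigenvalues of `MAT` -/
theorem alphas {ε : Bool} {κ : ℕ} {B : ℕ → Prop} (h : Tame ε κ B) {Γ₀ : Type*}
    [LinearOrderedCommGroupWithZero Γ₀] (v : Valuation ℂ Γ₀) (hv : v 2 < 1) :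
    ∃ α : ℕ → ℂ, (∀ n, 3 * (n + 1) < κ →
        ((MAT ε κ).map (algebraMap ℚ ℂ)).charpoly.IsRoot (α n) ∧
        v (α n) = v ((2 : ℂ) ^ padicValRat 2 (PS ε κ (n + 1)))) ∧
      (∀ n, 3 * (n + 1) < κ → (B (n + 1) ∨ B n) →
        v ((α n / 2 ^ padicValRat 2 (PS ε κ (n + 1))) ^ 2 +
          α n / 2 ^ padicValRat 2 (PS ε κ (n + 1)) + 1) < 1) ∧
      (∀ n, B (n + 1) → v (α n - α (n + 1)) = v ((2 : ℂ) ^ padicValRat 2 (PS ε κ (n + 1)))) := by
  classical
  have hp : ∀ b, ∃ p : ℂ × ℂ, B b → ((MAT ε κ).map (algebraMap ℚ ℂ)).charpoly.IsRoot p.1 ∧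
      ((MAT ε κ).map (algebraMap ℚ ℂ)).charpoly.IsRoot p.2 ∧
      v p.1 = v ((2 : ℂ) ^ padicValRat 2 (PS ε κ b)) ∧
      v p.2 = v ((2 : ℂ) ^ padicValRat 2 (PS ε κ b)) ∧
      v (p.1 - p.2) = v ((2 : ℂ) ^ padicValRat 2 (PS ε κ b)) ∧
      v ((p.1 / 2 ^ padicValRat 2 (PS ε κ b)) ^ 2 + p.1 / 2 ^ padicValRat 2 (PS ε κ b) + 1) < 1 ∧
      v ((p.2 / 2 ^ padicValRat 2 (PS ε κ b)) ^ 2 + p.2 / 2 ^ padicValRat 2 (PS ε κ b) + 1)
        < 1 := by
    intro b
    by_cases hB : B b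
    · obtain ⟨x, y, h'⟩ := h.pair v hv b hB
      exact ⟨(x, y), fun _ => h'⟩
    · exact ⟨(0, 0), fun h => absurd h hB⟩
  choose p hp using hp
  have hs : ∀ n : ℕ, ∃ a : ℂ, (3 * (n + 1) < κ ∧ ¬ B (n + 1) ∧ ¬ B n) →
      ((MAT ε κ).map (algebraMap ℚ ℂ)).charpoly.IsRoot a ∧
      v a = v ((2 : ℂ) ^ padicValRat 2 (PS ε κ (n + 1))) := by
    intro n
    by_cases hn : 3 * (n + 1) < κ ∧ ¬ B (n + 1) ∧ ¬ B n
    · obtain ⟨a, h1, h2⟩ := h.single v hv (n + 1) (by omega) hn.1 hn.2.1 hn.2.2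
      exact ⟨a, fun _ => ⟨h1, by exact_mod_cast h2⟩⟩
    · exact ⟨0, fun h => absurd h hn⟩
  choose a ha using hs
  have hcast : ∀ n, padicValRat 2 (PS ε κ ((n + 1 : ℕ))) = padicValRat 2 (PS ε κ (n + 1)) :=
    fun n => by rfl
  have heq : ∀ n, B n → padicValRat 2 (PS ε κ (n + 1)) = padicValRat 2 (PS ε κ n) := fun n hn => by
    have := h.eq n hn
    exact_mod_cast this
  refine ⟨fun n => if B (n + 1) then (p (n + 1)).1 else if B n then (p n).2 else a n, ?_, ?_, ?_⟩
  · intro n hn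
    by_cases h1 : B (n + 1)
    · simp only [if_pos h1]
      have := hp (n + 1) h1
      rw [hcast] at this
      exact ⟨this.1, this.2.2.1⟩
    · simp only [if_neg h1]
      by_cases h2 : B n
      · simp only [if_pos h2]
        have := hp n h2
        rw [heq n h2]
        exact ⟨this.2.1, this.2.2.2.1⟩
      · simp only [if_neg h2]
        exact ha n ⟨hn, h1, h2⟩
  · intro n hn hB
    by_cases h1 : B (n + 1)
    · simp only [if_pos h1]
      have := hp (n + 1) h1
      rw [hcast] at this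
      exact this.2.2.2.2.2.1
    · simp only [if_neg h1]
      have h2 : B n := by
        rcases hB with hB | hB
        · exact absurd hB h1
        · exact hB
      simp only [if_pos h2]
      have := hp n h2
      rw [heq n h2]
      exact this.2.2.2.2.2.2
  · intro n h1
    have h2 : ¬ B (n + 1 + 1) := (h.pos (n + 1) h1).2.2
    simp only [if_pos h1, if_neg h2]
    have := hp (n + 1) h1
    rw [hcast] at this
    exact this.2.2.2.2.1

/-- perturbation of the residual equation -/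
theorem resid {Γ₀ : Type*} [LinearOrderedCommGroupWithZero Γ₀] (v : Valuation ℂ Γ₀)
    {x δ : ℂ} (hx : v x ≤ 1) (hδ : v δ < 1) (h : v (x ^ 2 + x + 1) < 1) :
    v ((x + δ) ^ 2 + (x + δ) + 1) < 1 := by
  have e : (x + δ) ^ 2 + (x + δ) + 1 = (x ^ 2 + x + 1) + δ * (x + (x + (δ + 1))) := by ring
  rw [e]
  apply v.map_add_lt h
  rw [v.map_mul]
  have h1 : v (x + (x + (δ + 1))) ≤ 1 :=
    v.map_add_le hx (v.map_add_le hx (v.map_add_le hδ.le v.map_one.le))
  calc v δ * v (x + (x + (δ + 1))) ≤ v δ * 1 := mul_le_mul_right h1 _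
    _ < 1 := by rw [mul_one]; exact hδ

end R10

theorem tame_roots {ε : Bool} {κ : ℕ} {B : ℕ → Prop} (h : Tame ε κ B) {Γ₀ : Type*}
    [LinearOrderedCommGroupWithZero Γ₀] (v : Valuation ℂ Γ₀) (hv : v 2 < 1) :
    ∃ μ : ℕ → ℂ, (T2 (2 * (κ : ℤ) + (if ε then 1 else 0))).charpoly.roots =
        (Multiset.range ((κ - 1) / 3)).map μ ∧
      ((Multiset.range ((κ - 1) / 3)).map μ).Nodup ∧
      (∀ n < (κ - 1) / 3, v (μ n) = v ((2 : ℂ) ^ padicValRat 2 (PS ε κ (n + 1)))) ∧
      (∀ n < (κ - 1) / 3, (B (n + 1) ∨ B n) →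
        v ((μ n / 2 ^ padicValRat 2 (PS ε κ (n + 1))) ^ 2 +
          μ n / 2 ^ padicValRat 2 (PS ε κ (n + 1)) + 1) < 1) := by
  have hbig := h.big
  have hlt : ∀ {n : ℕ}, n < (κ - 1) / 3 → 3 * (n + 1) < κ := by
    intro n hn
    omega
  obtain ⟨α, hα', hαr, hαd⟩ := R10.alphas h v hv
  have hα : ∀ n < (κ - 1) / 3, ((MAT ε κ).map (algebraMap ℚ ℂ)).charpoly.IsRoot (α n) ∧
      v (α n) = v ((2 : ℂ) ^ padicValRat 2 (PS ε κ (n + 1))) := fun n hn => hα' n (hlt hn)
  set M : ℤ := 2 * (κ : ℤ) + (if ε then 1 else 0) with hM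
  have hM1 : 2 * (κ : ℤ) ≤ M := by
    rw [hM]
    split_ifs <;> omega
  set s : ℕ → ℤ := fun n => padicValRat 2 (PS ε κ (n + 1)) with hs
  have hsl : ∀ n < (κ - 1) / 3, s n < M - 1 := by
    intro n hn
    have := R10.slope_lt ε κ hbig (n + 1) (by omega) (hlt hn)
    push_cast at this
    simp only [hs]
    omega
  have hne : ∀ n < (κ - 1) / 3, α n ≠ 0 := by
    intro n hn h0
    have h1 := (hα n hn).2
    rw [h0, map_zero] at h1
    exact (Valuation.ne_zero_iff v).2 (zpow_ne_zero _ two_ne_zero) h1.symm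
  set μ : ℕ → ℂ := fun n => α n + 2 ^ (2 * M - 1) / α n with hμ
  -- the perturbation
  have hδ : ∀ n < (κ - 1) / 3, v ((2 : ℂ) ^ (2 * M - 1) / α n) = v ((2 : ℂ) ^ (2 * M - 1 - s n)) := by
    intro n hn
    rw [map_div₀, (hα n hn).2, ← map_div₀, ← zpow_sub₀ two_ne_zero]
  have hval : ∀ n < (κ - 1) / 3, v (μ n) = v ((2 : ℂ) ^ s n) := by
    intro n hn
    rw [← (hα n hn).2]
    apply Valuation.map_add_eq_of_lt_left
    rw [hδ n hn, (hα n hn).2]
    exact P12.zpow_lt v hv (by have := hsl n hn; simp only [hs] at this ⊢; omega)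
  have hsq : ∀ n < (κ - 1) / 3, α n ^ 2 ≠ 2 ^ (2 * M - 2) := by
    intro n hn h
    have h1 : v (α n ^ 2) = v ((2 : ℂ) ^ (s n + s n)) := by
      rw [map_pow, (hα n hn).2, sq, ← map_mul, ← zpow_add₀ two_ne_zero]
    rw [h] at h1
    have h2 : v ((2 : ℂ) ^ (2 * M - 2)) < v ((2 : ℂ) ^ (s n + s n)) :=
      P12.zpow_lt v hv (by have := hsl n hn; omega)
    exact absurd h1 h2.ne
  -- distinctness
  have hcast : ∀ n, padicValRat 2 (PS ε κ ((n + 1 : ℕ))) = s n := fun n => by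
    simp only [hs, Nat.cast_add, Nat.cast_one]
  have hdist : ∀ a b, a < b → b < (κ - 1) / 3 → μ a ≠ μ b := by
    intro a b hab hb heq
    by_cases hB : b = a + 1 ∧ B (a + 1)
    · obtain ⟨rfl, hB⟩ := hB
      have h1 := hαd a hB
      have hse : s (a + 1) = s a := by
        rw [← hcast, ← hcast]
        exact h.eq (a + 1) hB
      have ha : a < (κ - 1) / 3 := by omega
      have h2 : μ a - μ (a + 1) = (α a - α (a + 1)) +
          (2 ^ (2 * M - 1) / α a - 2 ^ (2 * M - 1) / α (a + 1)) := by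
        simp only [hμ]; ring
      have h3 : v (μ a - μ (a + 1)) = v ((2 : ℂ) ^ s a) := by
        have h1' : v (α a - α (a + 1)) = v ((2 : ℂ) ^ s a) := h1
        rw [h2, ← h1']
        apply Valuation.map_add_eq_of_lt_left
        rw [h1']
        apply v.map_sub_lt
        · rw [hδ a ha]
          exact P12.zpow_lt v hv (by have := hsl a ha; omega)
        · rw [hδ (a + 1) hb, hse]
          exact P12.zpow_lt v hv (by have := hsl a ha; omega)
      rw [heq, sub_self, map_zero] at h3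
      exact (Valuation.ne_zero_iff v).2 (zpow_ne_zero _ two_ne_zero) h3.symm
    · have h1 := R10.slope_strict h (a := a + 1) (b := b + 1) (by omega) (by omega) (hlt hb)
        (fun hh => hB ⟨by omega, hh.2⟩)
      rw [hcast, hcast] at h1
      have h2 : v ((2 : ℂ) ^ s a) = v ((2 : ℂ) ^ s b) := by
        rw [← hval a (by omega), ← hval b hb, heq]
      exact absurd h2 (P12.zpow_lt v hv h1).ne'
  have hinj : ∀ a < (κ - 1) / 3, ∀ b < (κ - 1) / 3, μ a = μ b → a = b := by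
    intro a ha b hb hab
    rcases lt_trichotomy a b with h | h | h
    · exact absurd hab (hdist a b h hb)
    · exact h
    · exact absurd hab.symm (hdist b a h ha)
  have hnd : ((Multiset.range ((κ - 1) / 3)).map μ).Nodup := by
    apply Multiset.Nodup.map_on _ (Multiset.nodup_range _)
    intro a ha b hb hab
    exact hinj a (Multiset.mem_range.1 ha) b (Multiset.mem_range.1 hb) hab
  refine ⟨μ, ?_, hnd, hval, ?_⟩
  · symm
    apply Multiset.eq_of_le_of_card_le
    · rw [Multiset.le_iff_subset hnd]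
      intro x hx
      rw [Multiset.mem_map] at hx
      obtain ⟨n, hn, rfl⟩ := hx
      have hn' := Multiset.mem_range.1 hn
      rw [Polynomial.mem_roots (LinearMap.charpoly_monic _).ne_zero]
      exact (Module.End.hasEigenvalue_iff_isRoot_charpoly _ _).1
        (eigenvalue_of_root ε κ (α n) (hα n hn').1 (hne n hn') (hsq n hn'))
    · refine (Polynomial.card_roots' _).trans ?_
      rw [LinearMap.charpoly_natDegree, Multiset.card_map, Multiset.card_range]
      exact (finrank_tame ε κ (by omega) h.three).le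
  · intro n hn hB
    have h1 : v ((α n / 2 ^ s n) ^ 2 + α n / 2 ^ s n + 1) < 1 := hαr n (hlt hn) hB
    have e : μ n / 2 ^ s n = α n / 2 ^ s n + (2 ^ (2 * M - 1) / α n) / 2 ^ s n := by
      simp only [hμ]
      rw [add_div]
    show v ((μ n / 2 ^ s n) ^ 2 + μ n / 2 ^ s n + 1) < 1
    rw [e]
    apply R10.resid v _ _ h1
    · have h0 : v ((2 : ℂ) ^ s n) ≠ 0 :=
        (Valuation.ne_zero_iff v).2 (zpow_ne_zero _ two_ne_zero)
      have h2 : v (α n) = v ((2 : ℂ) ^ s n) := (hα n hn).2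
      rw [map_div₀, h2, div_self h0]
    · rw [map_div₀, hδ n hn, ← map_div₀, ← zpow_sub₀ two_ne_zero]
      have h3 := P12.zpow_lt v hv (a := 0) (b := 2 * M - 1 - s n - s n)
        (by have := hsl n hn; omega)
      rwa [zpow_zero, v.map_one] at h3

end Pool.Agent.Helper5.MD
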