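import Pool.Agent.Helper5.MD2.P1Ext

/-!
# MR-R1 : the LU identity for `2 i, 2 j < κ`, also for `3 ∣ κ` if `ε = true`

Same as `MD2/P1Ext.lean` (copy its private lemmas on `RatAt`).  If `ε = true` and `3 ∣ κ`, put `c = κ / 3`.  The only factor with a vanishing denominator is `LL true κ i c`
(`κ - 3 c = 0`); in Lean `LL true κ i c = 0` and `PP true κ c = 0` (factor `6 c - 2 κ`).  Write, for general `x`,
`LL true x i w * PP true x w = lam x i w * pv x w * (x - 3 i) * (-2) / (3 w - 2 x)`
(valid if `x ≠ 3 w`, as `6 w - 2 x = -2 (x - 3 w)`), a rational function without pole at `x = κ`; its value at `x = κ`, `w = c` is zero: for `i = c` because of the factor `x - 3 i`,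
for `i > c` because `lam κ i c` contains the factor `κ - 2 c - v` with `v = c`.  So the term `w = c` of the true identity vanishes, as does the Lean term.
For `w ≠ c` nothing changes.
-/

open scoped Nat

set_option linter.unusedTactic false
set_option linter.unreachableTactic false

namespace Pool.Agent.Helper5.MD

/-! ### rational functions -/

/-- `f` is near `x₀` a rational function whose denominator does not vanish at `x₀` -/
private def RatAt (x₀ : ℚ) (f : ℚ → ℚ) : Prop :=
  ∃ P Q : Polynomial ℚ, Q.eval x₀ ≠ 0 ∧ ∀ x, Q.eval x ≠ 0 → f x = P.eval x / Q.eval x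

private lemma RatAt.const (x₀ c : ℚ) : RatAt x₀ (fun _ => c) :=
  ⟨Polynomial.C c, 1, by simp, by simp⟩

private lemma RatAt.var (x₀ : ℚ) : RatAt x₀ (fun x => x) :=
  ⟨Polynomial.X, 1, by simp, by simp⟩

private lemma RatAt.add {x₀ : ℚ} {f g : ℚ → ℚ} (hf : RatAt x₀ f) (hg : RatAt x₀ g) :
    RatAt x₀ (fun x => f x + g x) := by
  obtain ⟨P, Q, hQ, h⟩ := hf
  obtain ⟨P', Q', hQ', h'⟩ := hg
  refine ⟨P * Q' + P' * Q, Q * Q', by rw [Polynomial.eval_mul]; exact mul_ne_zero hQ hQ', ?_⟩
  intro x hx
  rw [Polynomial.eval_mul] at hx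
  have h1 := left_ne_zero_of_mul hx
  have h2 := right_ne_zero_of_mul hx
  simp only [h x h1, h' x h2, Polynomial.eval_mul, Polynomial.eval_add]
  field_simp

private lemma RatAt.neg {x₀ : ℚ} {f : ℚ → ℚ} (hf : RatAt x₀ f) : RatAt x₀ (fun x => -f x) := by
  obtain ⟨P, Q, hQ, h⟩ := hf
  refine ⟨-P, Q, hQ, ?_⟩
  intro x hx
  simp only [h x hx, Polynomial.eval_neg]
  ring

private lemma RatAt.sub {x₀ : ℚ} {f g : ℚ → ℚ} (hf : RatAt x₀ f) (hg : RatAt x₀ g) :
    RatAt x₀ (fun x => f x - g x) := by
  have := hf.add hg.neg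
  simpa only [sub_eq_add_neg] using this

private lemma RatAt.mul {x₀ : ℚ} {f g : ℚ → ℚ} (hf : RatAt x₀ f) (hg : RatAt x₀ g) :
    RatAt x₀ (fun x => f x * g x) := by
  obtain ⟨P, Q, hQ, h⟩ := hf
  obtain ⟨P', Q', hQ', h'⟩ := hg
  refine ⟨P * P', Q * Q', by rw [Polynomial.eval_mul]; exact mul_ne_zero hQ hQ', ?_⟩
  intro x hx
  rw [Polynomial.eval_mul] at hx
  have h1 := left_ne_zero_of_mul hx
  have h2 := right_ne_zero_of_mul hx
  simp only [h x h1, h' x h2, Polynomial.eval_mul]
  field_simp

private lemma RatAt.div {x₀ : ℚ} {f g : ℚ → ℚ} (hf : RatAt x₀ f) (hg : RatAt x₀ g)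
    (h0 : g x₀ ≠ 0) : RatAt x₀ (fun x => f x / g x) := by
  obtain ⟨P, Q, hQ, h⟩ := hf
  obtain ⟨P', Q', hQ', h'⟩ := hg
  have hP' : P'.eval x₀ ≠ 0 := by
    intro h1
    apply h0
    rw [h' x₀ hQ', h1, zero_div]
  refine ⟨P * Q' * Q', Q * P' * Q', ?_, ?_⟩
  · rw [Polynomial.eval_mul, Polynomial.eval_mul]
    exact mul_ne_zero (mul_ne_zero hQ hP') hQ'
  intro x hx
  rw [Polynomial.eval_mul, Polynomial.eval_mul] at hx
  have h1 := left_ne_zero_of_mul (left_ne_zero_of_mul hx)
  have h2 := right_ne_zero_of_mul (left_ne_zero_of_mul hx)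
  have h3 := right_ne_zero_of_mul hx
  simp only [h x h1, h' x h3, Polynomial.eval_mul]
  field_simp

private lemma RatAt.prod {x₀ : ℚ} (s : Finset ℕ) (f : ℕ → ℚ → ℚ)
    (h : ∀ i ∈ s, RatAt x₀ (f i)) : RatAt x₀ (fun x => ∏ i ∈ s, f i x) := by
  induction s using Finset.induction_on with
  | empty => simpa using RatAt.const x₀ 1
  | insert a s ha ih =>
    simp only [Finset.prod_insert ha]
    exact (h a (Finset.mem_insert_self a s)).mul
      (ih fun i hi => h i (Finset.mem_insert_of_mem hi))

private lemma RatAt.sum {x₀ : ℚ} (s : Finset ℕ) (f : ℕ → ℚ → ℚ)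
    (h : ∀ i ∈ s, RatAt x₀ (f i)) : RatAt x₀ (fun x => ∑ i ∈ s, f i x) := by
  induction s using Finset.induction_on with
  | empty => simpa using RatAt.const x₀ 0
  | insert a s ha ih =>
    simp only [Finset.sum_insert ha]
    exact (h a (Finset.mem_insert_self a s)).add
      (ih fun i hi => h i (Finset.mem_insert_of_mem hi))

private lemma RatAt.eq_zero {x₀ : ℚ} {f : ℚ → ℚ} (hf : RatAt x₀ f) (N : ℕ)
    (h : ∀ n : ℕ, N < n → f n = 0) : f x₀ = 0 := by
  obtain ⟨P, Q, hQ, hPQ⟩ := hf
  have hR : P * Q = 0 := by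
    apply Polynomial.eq_zero_of_infinite_isRoot
    have hinf : (Set.range fun n : ℕ => ((N + 1 + n : ℕ) : ℚ)).Infinite := by
      apply Set.infinite_range_of_injective
      intro a b hab
      have h1 : ((N + 1 + a : ℕ) : ℚ) = ((N + 1 + b : ℕ) : ℚ) := hab
      have h2 : N + 1 + a = N + 1 + b := by exact_mod_cast h1
      omega
    apply hinf.mono
    rintro _ ⟨n, rfl⟩
    show (P * Q).IsRoot _
    rw [Polynomial.IsRoot, Polynomial.eval_mul]
    by_cases hq : Q.eval ((N + 1 + n : ℕ) : ℚ) = 0
    · rw [hq, mul_zero]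
    · have h1 := hPQ _ hq
      rw [h _ (by omega)] at h1
      have h2 := (div_eq_zero_iff.1 h1.symm).resolve_right hq
      rw [h2, zero_mul]
  have hQ0 : Q ≠ 0 := by
    rintro rfl
    simp at hQ
  have hP0 : P = 0 := (mul_eq_zero.1 hR).resolve_right hQ0
  rw [hPQ x₀ hQ, hP0]
  simp

/-! ### the factors -/

private lemma rat_lam (κ i w : ℕ) (hi : 2 * i < κ) : RatAt κ (fun x => lam x i w) := by
  unfold lam
  by_cases h : w ≤ i
  · simp only [if_pos h]
    apply RatAt.prod
    intro v hv
    rw [Finset.mem_Ico] at hv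
    have hv1 : (w : ℚ) ≤ v := by exact_mod_cast hv.1
    have hv2 : (v : ℚ) + 1 ≤ i := by exact_mod_cast hv.2
    have hw0 : (0 : ℚ) ≤ w := Nat.cast_nonneg w
    have hK : 2 * (i : ℚ) < κ := by exact_mod_cast hi
    refine RatAt.div ?_ ?_ ?_
    · (repeat' first
      | exact RatAt.const _ _
      | exact RatAt.var _
      | apply RatAt.mul
      | apply RatAt.sub
      | apply RatAt.add
      | apply RatAt.neg)
    · (repeat' first
      | exact RatAt.const _ _
      | exact RatAt.var _
      | apply RatAt.mul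
      | apply RatAt.sub
      | apply RatAt.add
      | apply RatAt.neg)
    · have h1 : (0 : ℚ) < v - w + 1 := by linarith
      have h2 : (0 : ℚ) < 2 * v + 1 := by linarith
      have h3 : (0 : ℚ) < κ - w - v - 1 := by linarith
      positivity
  · simp only [if_neg h]
    exact RatAt.const _ _

private lemma rat_mu (κ w j : ℕ) (hj : 2 * j < κ) : RatAt κ (fun x => mu x w j) := by
  unfold mu
  by_cases h : w ≤ j
  · simp only [if_pos h]
    have hK : 2 * (j : ℚ) < κ := by exact_mod_cast hj
    have hwj : (w : ℚ) ≤ j := by exact_mod_cast h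
    have hw0 : (0 : ℚ) ≤ w := Nat.cast_nonneg w
    apply RatAt.mul
    · refine RatAt.div ?_ ?_ ?_
      · (repeat' first
      | exact RatAt.const _ _
      | exact RatAt.var _
      | apply RatAt.mul
      | apply RatAt.sub
      | apply RatAt.add
      | apply RatAt.neg)
      · (repeat' first
      | exact RatAt.const _ _
      | exact RatAt.var _
      | apply RatAt.mul
      | apply RatAt.sub
      | apply RatAt.add
      | apply RatAt.neg)
      · have h1 : (0 : ℚ) < 2 * κ - 3 * w := by linarith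
        exact h1.ne'
    apply RatAt.prod
    intro v hv
    rw [Finset.mem_Ico] at hv
    have hv1 : (w : ℚ) ≤ v := by exact_mod_cast hv.1
    have hv2 : (v : ℚ) + 1 ≤ j := by exact_mod_cast hv.2
    refine RatAt.div ?_ ?_ ?_
    · (repeat' first
      | exact RatAt.const _ _
      | exact RatAt.var _
      | apply RatAt.mul
      | apply RatAt.sub
      | apply RatAt.add
      | apply RatAt.neg)
    · (repeat' first
      | exact RatAt.const _ _
      | exact RatAt.var _
      | apply RatAt.mul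
      | apply RatAt.sub
      | apply RatAt.add
      | apply RatAt.neg)
    · have h1 : (0 : ℚ) < v - w + 1 := by linarith
      have h2 : (0 : ℚ) < 2 * κ - 2 * v - 1 := by linarith
      have h3 : (0 : ℚ) < κ - w - v - 1 := by linarith
      positivity
  · simp only [if_neg h]
    exact RatAt.const _ _

private lemma rat_pv (κ w : ℕ) (hw : 2 * w < κ) : RatAt κ (fun x => pv x w) := by
  unfold pv
  have hK : 2 * (w : ℚ) < κ := by exact_mod_cast hw
  apply RatAt.mul
  · (repeat' first
      | exact RatAt.const _ _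
      | exact RatAt.var _
      | apply RatAt.mul
      | apply RatAt.sub
      | apply RatAt.add
      | apply RatAt.neg)
  apply RatAt.prod
  intro v hv
  rw [Finset.mem_Ico] at hv
  have hv1 : (1 : ℚ) ≤ v := by exact_mod_cast hv.1
  have hv2 : (v : ℚ) + 1 ≤ w := by exact_mod_cast hv.2
  simp only [pow_two]
  refine RatAt.div ?_ ?_ ?_
  · (repeat' first
      | exact RatAt.const _ _
      | exact RatAt.var _
      | apply RatAt.mul
      | apply RatAt.sub
      | apply RatAt.add
      | apply RatAt.neg)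
  · (repeat' first
      | exact RatAt.const _ _
      | exact RatAt.var _
      | apply RatAt.mul
      | apply RatAt.sub
      | apply RatAt.add
      | apply RatAt.neg)
  · have h1 : (0 : ℚ) < 2 * v + 1 := by linarith
    have h2 : (0 : ℚ) < 2 * κ - 2 * v - 1 := by linarith
    have h3 : (0 : ℚ) < κ - 2 * v := by linarith
    have h4 : (0 : ℚ) < κ - 2 * v - 1 := by linarith
    have h5 : (0 : ℚ) < κ - 2 * v - 2 := by linarith
    positivity

private lemma rat_ch (κ : ℕ) (f : ℚ → ℚ) (hf : RatAt κ f) (n : ℕ) :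
    RatAt κ (fun x => ch (f x) n) := by
  unfold ch
  refine RatAt.div ?_ (RatAt.const _ _) (by exact_mod_cast Nat.factorial_ne_zero n)
  apply RatAt.prod
  intro v _
  exact hf.sub (RatAt.const _ _)

private lemma rat_bb (ε : Bool) (κ i j : ℕ) : RatAt κ (fun x => bb ε x i j) := by
  have h0 : RatAt (κ : ℚ) (fun x => (i : ℚ) + j - x) := by
    (repeat' first
      | exact RatAt.const _ _
      | exact RatAt.var _
      | apply RatAt.mul
      | apply RatAt.sub
      | apply RatAt.add
      | apply RatAt.neg)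
  have h1 : RatAt (κ : ℚ) (fun x => (i : ℚ) + j - x - 1) := by
    (repeat' first
      | exact RatAt.const _ _
      | exact RatAt.var _
      | apply RatAt.mul
      | apply RatAt.sub
      | apply RatAt.add
      | apply RatAt.neg)
  have g0 := rat_ch κ _ h0
  have g1 := rat_ch κ _ h1
  cases ε with
  | false =>
    simp only [bb, b1, Bool.false_eq_true, if_false]
    by_cases h : j ≤ 2 * i
    · simp only [if_pos h]
      exact (g0 _).add (g1 _)
    · simp only [if_neg h]
      exact RatAt.const _ _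
  | true =>
    simp only [bb, b2, if_true]
    by_cases h : j < 2 * i
    · simp only [if_pos h]
      exact (RatAt.const _ _).mul ((g0 _).add (g1 _))
    · simp only [if_neg h]
      exact RatAt.const _ _

private lemma rat_UU (ε : Bool) (κ w j : ℕ) (hj : 2 * j < κ) :
    RatAt κ (fun x => UU ε x w j) := by
  cases ε with
  | false =>
    simp only [UU, Bool.false_eq_true, if_false]
    exact rat_mu κ w j hj
  | true =>
    simp only [UU, if_true]
    have hK : 2 * (j : ℚ) < κ := by exact_mod_cast hj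
    have hj0 : (0 : ℚ) ≤ j := Nat.cast_nonneg j
    refine (rat_mu κ w j hj).mul (RatAt.div ?_ ?_ ?_)
    · (repeat' first
      | exact RatAt.const _ _
      | exact RatAt.var _
      | apply RatAt.mul
      | apply RatAt.sub
      | apply RatAt.add
      | apply RatAt.neg)
    · (repeat' first
      | exact RatAt.const _ _
      | exact RatAt.var _
      | apply RatAt.mul
      | apply RatAt.sub
      | apply RatAt.add
      | apply RatAt.neg)
    · have h1 : (0 : ℚ) < 2 * κ - 3 * j := by linarith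
      exact h1.ne'

/-- the product of the first two factors without the removable pole -/
private noncomputable def r1G (x : ℚ) (i w : ℕ) : ℚ :=
  lam x i w * pv x w * ((x - 3 * i) * (-2) / (3 * w - 2 * x))

private lemma r1G_eq (x : ℚ) (i w : ℕ) (h : x - 3 * w ≠ 0) :
    LL true x i w * PP true x w = r1G x i w := by
  unfold LL PP r1G
  rw [if_pos rfl, if_pos rfl]
  have e : (x - 3 * i) / (x - 3 * w) * ((6 * w - 2 * x) / (3 * w - 2 * x)) =
      (x - 3 * i) * (-2) / (3 * w - 2 * x) := by
    rw [div_mul_div_comm]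
    by_cases h0 : (3 * w - 2 * x : ℚ) = 0
    · rw [h0]
      simp
    · rw [div_eq_div_iff (mul_ne_zero h h0) h0]
      ring
  calc lam x i w * ((x - 3 * i) / (x - 3 * w)) * (pv x w * ((6 * w - 2 * x) / (3 * w - 2 * x)))
      = lam x i w * pv x w * ((x - 3 * i) / (x - 3 * w) * ((6 * w - 2 * x) / (3 * w - 2 * x))) := by
        ring
    _ = _ := by rw [e]

private lemma r1G_zero (κ i w : ℕ) (hw : κ = 3 * w) (hwi : w ≤ i) : r1G κ i w = 0 := by
  unfold r1G
  have hκ : (κ : ℚ) = 3 * w := by rw [hw]; push_cast; ring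
  rcases Nat.eq_or_lt_of_le hwi with h | h
  · subst h
    rw [hκ]
    simp
  · have h1 : lam (κ : ℚ) i w = 0 := by
      unfold lam
      rw [if_pos hwi]
      apply Finset.prod_eq_zero (Finset.mem_Ico.2 ⟨le_refl w, h⟩)
      have h2 : (κ : ℚ) - 2 * w - w = 0 := by rw [hκ]; ring
      rw [h2]
      simp
    rw [h1]
    simp

private lemma rat_r1G (κ i w : ℕ) (hi : 2 * i < κ) (hw : 2 * w < κ) :
    RatAt κ (fun x => r1G x i w) := by
  unfold r1G
  have hK : 2 * (w : ℚ) < κ := by exact_mod_cast hw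
  have hw0 : (0 : ℚ) ≤ w := Nat.cast_nonneg w
  refine ((rat_lam κ i w hi).mul (rat_pv κ w hw)).mul (RatAt.div ?_ ?_ ?_)
  · (repeat' first
      | exact RatAt.const _ _
      | exact RatAt.var _
      | apply RatAt.mul
      | apply RatAt.sub
      | apply RatAt.add
      | apply RatAt.neg)
  · (repeat' first
      | exact RatAt.const _ _
      | exact RatAt.var _
      | apply RatAt.mul
      | apply RatAt.sub
      | apply RatAt.add
      | apply RatAt.neg)
  · have h1 : 3 * (w : ℚ) - 2 * κ < 0 := by linarith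
    exact h1.ne

theorem LL_PP_UU_ext3 (ε : Bool) (κ i j : ℕ) (h3 : ¬ 3 ∣ κ ∨ ε = true) (hi : 1 ≤ i) (hj : 1 ≤ j)
    (hi' : 2 * i < κ) (hj' : 2 * j < κ) :
    ∑ w ∈ Finset.Icc 1 (min i j), LL ε κ i w * PP ε κ w * UU ε κ w j = bb ε κ i j := by
  by_cases h3' : ¬ 3 ∣ κ
  · exact LL_PP_UU_ext ε κ i j h3' hi hj hi' hj'
  have hε : ε = true := h3.resolve_left h3'
  subst hε
  have hrat : RatAt κ (fun x => ∑ w ∈ Finset.Icc 1 (min i j), r1G x i w * UU true x w j
      - bb true x i j) := by
    apply RatAt.sub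
    · apply RatAt.sum
      intro w hw
      rw [Finset.mem_Icc] at hw
      have hwi : w ≤ i := hw.2.trans (min_le_left _ _)
      exact (rat_r1G κ i w hi' (by omega)).mul (rat_UU true κ w j hj')
    · exact rat_bb true κ i j
  have h0 := hrat.eq_zero (3 * max i j) (fun n hn => by
    have h1 : i ≤ max i j := le_max_left _ _
    have h2 : j ≤ max i j := le_max_right _ _
    have h4 := LL_PP_UU true n i j hi hj (by omega) (by omega)
    apply sub_eq_zero.2
    rw [← h4]
    refine Finset.sum_congr rfl fun w hw => ?_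
    rw [Finset.mem_Icc] at hw
    have hwi : w ≤ i := hw.2.trans (min_le_left _ _)
    rw [r1G_eq]
    have h5 : 3 * (w : ℚ) < n := by
      have : 3 * w < n := by omega
      exact_mod_cast this
    intro h6
    linarith)
  rw [← sub_eq_zero.1 h0]
  refine Finset.sum_congr rfl fun w hw => ?_
  rw [Finset.mem_Icc] at hw
  have hwi : w ≤ i := hw.2.trans (min_le_left _ _)
  by_cases hc : κ = 3 * w
  · have h1 : LL true (κ : ℚ) i w = 0 := by
      unfold LL
      have h2 : (κ : ℚ) - 3 * w = 0 := by rw [hc]; push_cast; ring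
      rw [if_pos rfl, h2]
      simp
    rw [h1, r1G_zero κ i w hc hwi]
    simp
  · rw [r1G_eq]
    intro h
    apply hc
    have : (κ : ℚ) = 3 * w := by linarith
    exact_mod_cast this

theorem PP_eq_zero3 (ε : Bool) (κ w : ℕ) (h3 : ¬ 3 ∣ κ ∨ ε = true) (h : κ ≤ 3 * w) (hk : 3 ≤ κ) :
    PP ε κ w = 0 := by
  by_cases h3' : ¬ 3 ∣ κ
  · refine PP_eq_zero ε κ w h3' ?_ hk
    rcases Nat.eq_or_lt_of_le h with h1 | h1
    · exact absurd ⟨w, h1⟩ h3'
    · exact h1
  have hε : ε = true := h3.resolve_left h3'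
  subst hε
  rw [not_not] at h3'
  obtain ⟨c, hc⟩ := h3'
  unfold PP
  rw [if_pos rfl]
  rcases Nat.eq_or_lt_of_le (show c ≤ w by omega) with h1 | h1
  · subst h1
    have h2 : (6 * (c : ℚ) - 2 * κ) = 0 := by rw [hc]; push_cast; ring
    rw [h2]
    simp
  · have hpv : pv (κ : ℚ) w = 0 := by
      unfold pv
      have hm : c ∈ Finset.Ico 1 w := by
        rw [Finset.mem_Ico]
        omega
      have hz : ∏ v ∈ Finset.Ico 1 w,
        (-((κ : ℚ) - 3 * v) * (κ - 3 * v - 1) * (κ - 3 * v - 2) *
        (2 * κ - 3 * v - 1) * (2 * κ - 3 * v - 2) * (2 * κ - 3 * v - 3) /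
        (4 * (2 * v + 1) * (2 * κ - 2 * v - 1) * (κ - 2 * v) * (κ - 2 * v - 1) ^ 2 *
          (κ - 2 * v - 2))) = 0 := by
        apply Finset.prod_eq_zero hm
        have h2 : (κ : ℚ) - 3 * c = 0 := by rw [hc]; push_cast; ring
        rw [h2]
        simp
      rw [hz, mul_zero]
    rw [hpv, zero_mul]

end Pool.Agent.Helper5.MD
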