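import Pool.Agent.Helper5.MD2.P7Crit
import Pool.Agent.Helper5.MD3.R1Ext

/-!
# MR-R2 : `crit_general` with the weaker hypothesis `¬ 3 ∣ κ ∨ ε = true`

Same proof as `crit_general` in `MD2/P7Crit.lean`, with `LL_PP_UU_ext3` instead of `LL_PP_UU_ext`.
-/

open scoped Nat

namespace Pool.Agent.Helper5.MD

open D8

section

variable (ε : Bool) (κ n : ℕ)

private lemma bb_row2 (hd : ¬ 3 ∣ κ ∨ ε = true) (i c : ℕ) (hi : 1 ≤ i) (hi3 : 2 * i < κ) (hc : 1 ≤ c) (hcn : c ≤ n)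
    (h3 : 3 * n < κ) :
    bb ε κ i c = ∑ v ∈ Finset.Icc 1 n, LL ε κ i v * PP ε κ v * UU ε κ v c := by
  rw [← LL_PP_UU_ext3 ε κ i c hd hi hc hi3 (by omega)]
  refine sum_eq_of_sub _ (Finset.Icc_subset_Icc le_rfl (by omega)) ?_
  intro w hw hw'
  simp only [Finset.mem_Icc, not_and, not_le] at hw hw'
  have h := hw' hw.1
  rcases min_lt_iff.mp h with h | h
  · rw [LL_zero _ _ _ _ h]; ring
  · rw [UU_zero _ _ _ _ h]; ring

private lemma bb_col2 (hd : ¬ 3 ∣ κ ∨ ε = true) (c j : ℕ) (hj : 1 ≤ j) (hj3 : 2 * j < κ) (hc : 1 ≤ c) (hcn : c ≤ n)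
    (h3 : 3 * n < κ) :
    bb ε κ c j = ∑ v ∈ Finset.Icc 1 n, LL ε κ c v * PP ε κ v * UU ε κ v j := by
  rw [← LL_PP_UU_ext3 ε κ c j hd hc hj (by omega) hj3]
  refine sum_eq_of_sub _ (Finset.Icc_subset_Icc le_rfl (by omega)) ?_
  intro w hw hw'
  simp only [Finset.mem_Icc, not_and, not_le] at hw hw'
  have h := hw' hw.1
  rcases min_lt_iff.mp h with h | h
  · rw [LL_zero _ _ _ _ h]; ring
  · rw [UU_zero _ _ _ _ h]; ring

/-- rows times the inverse block -/
private lemma row_S2 (hd : ¬ 3 ∣ κ ∨ ε = true) (h3 : 3 * n < κ) (i j : ℕ) (hi : 1 ≤ i) (hi3 : 2 * i < κ) (hj : 1 ≤ j)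
    (_ : j ≤ n) :
    ∑ c ∈ Finset.Icc 1 n, bb ε κ i c * S ε κ n c j =
      ∑ w ∈ Finset.Icc 1 n, LL ε κ i w * LI ε κ w j := by
  have e1 : ∀ c ∈ Finset.Icc 1 n, bb ε κ i c * S ε κ n c j =
      ∑ v ∈ Finset.Icc 1 n, ∑ w ∈ Finset.Icc 1 n,
        LL ε κ i v * PP ε κ v * ((PP ε κ w)⁻¹ * LI ε κ w j) * (UU ε κ v c * UI ε κ c w) := by
    intro c hc
    rw [Finset.mem_Icc] at hc
    rw [bb_row2 ε κ n hd i c hi hi3 hc.1 hc.2 h3, S_eq ε κ n c j hc.1 hj, Finset.sum_mul_sum]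
    refine Finset.sum_congr rfl fun v _ => Finset.sum_congr rfl fun w _ => ?_
    ring
  rw [Finset.sum_congr rfl e1, Finset.sum_comm]
  refine Finset.sum_congr rfl fun v hv => ?_
  rw [Finset.mem_Icc] at hv
  rw [Finset.sum_comm]
  have e2 : ∀ w ∈ Finset.Icc 1 n, ∑ c ∈ Finset.Icc 1 n,
      LL ε κ i v * PP ε κ v * ((PP ε κ w)⁻¹ * LI ε κ w j) * (UU ε κ v c * UI ε κ c w) =
      if v = w then LL ε κ i v * LI ε κ v j else 0 := by
    intro w hw
    rw [Finset.mem_Icc] at hw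
    rw [← Finset.mul_sum, UU_UI ε κ n h3 v w hv.1 hv.2 hw.1 hw.2]
    by_cases hvw : v = w
    · subst hvw
      rw [if_pos rfl, if_pos rfl]
      have := PP_ne ε κ n h3 v hv.1 hv.2
      field_simp
    · rw [if_neg hvw, if_neg hvw, mul_zero]
  rw [Finset.sum_congr rfl e2, Finset.sum_ite_eq, if_pos (Finset.mem_Icc.mpr hv)]

/-- the inverse block times columns -/
private lemma S_col2 (hd : ¬ 3 ∣ κ ∨ ε = true) (h3 : 3 * n < κ) (i j : ℕ) (hi : 1 ≤ i) (hj : 1 ≤ j) (hj3 : 2 * j < κ) :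
    ∑ c ∈ Finset.Icc 1 n, S ε κ n i c * bb ε κ c j =
      ∑ w ∈ Finset.Icc 1 n, UI ε κ i w * UU ε κ w j := by
  have e1 : ∀ c ∈ Finset.Icc 1 n, S ε κ n i c * bb ε κ c j =
      ∑ w ∈ Finset.Icc 1 n, ∑ v ∈ Finset.Icc 1 n,
        UI ε κ i w * (PP ε κ w)⁻¹ * (PP ε κ v * UU ε κ v j) * (LI ε κ w c * LL ε κ c v) := by
    intro c hc
    rw [Finset.mem_Icc] at hc
    rw [bb_col2 ε κ n hd c j hj hj3 hc.1 hc.2 h3, S_eq ε κ n i c hi hc.1, Finset.sum_mul_sum]
    refine Finset.sum_congr rfl fun v _ => Finset.sum_congr rfl fun w _ => ?_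
    ring
  rw [Finset.sum_congr rfl e1, Finset.sum_comm]
  refine Finset.sum_congr rfl fun v hv => ?_
  rw [Finset.mem_Icc] at hv
  rw [Finset.sum_comm]
  have e2 : ∀ w ∈ Finset.Icc 1 n, ∑ c ∈ Finset.Icc 1 n,
      UI ε κ i v * (PP ε κ v)⁻¹ * (PP ε κ w * UU ε κ w j) * (LI ε κ v c * LL ε κ c w) =
      if v = w then UI ε κ i v * UU ε κ v j else 0 := by
    intro w hw
    rw [Finset.mem_Icc] at hw
    rw [← Finset.mul_sum, LI_LL ε κ n h3 v w hv.1 hv.2 hw.1 hw.2]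
    by_cases hvw : v = w
    · subst hvw
      rw [if_pos rfl, if_pos rfl]
      have := PP_ne ε κ n h3 v hv.1 hv.2
      field_simp
    · rw [if_neg hvw, if_neg hvw, mul_zero]
  rw [Finset.sum_congr rfl e2, Finset.sum_ite_eq, if_pos (Finset.mem_Icc.mpr hv)]

/-- rows times the inverse block times columns -/
private lemma row_S_col2 (hd : ¬ 3 ∣ κ ∨ ε = true) (h3 : 3 * n < κ) (i j : ℕ) (hi : 1 ≤ i) (hi3 : 2 * i < κ) (hj : 1 ≤ j)
    (hj3 : 2 * j < κ) :
    ∑ c ∈ Finset.Icc 1 n, ∑ d ∈ Finset.Icc 1 n, bb ε κ i c * S ε κ n c d * bb ε κ d j =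
      ∑ w ∈ Finset.Icc 1 n, LL ε κ i w * PP ε κ w * UU ε κ w j := by
  have e1 : ∀ c ∈ Finset.Icc 1 n, ∑ d ∈ Finset.Icc 1 n, bb ε κ i c * S ε κ n c d * bb ε κ d j =
      ∑ w ∈ Finset.Icc 1 n, ∑ v ∈ Finset.Icc 1 n,
        LL ε κ i v * PP ε κ v * UU ε κ w j * (UU ε κ v c * UI ε κ c w) := by
    intro c hc
    rw [Finset.mem_Icc] at hc
    have e2 : ∑ d ∈ Finset.Icc 1 n, bb ε κ i c * S ε κ n c d * bb ε κ d j =
        bb ε κ i c * ∑ d ∈ Finset.Icc 1 n, S ε κ n c d * bb ε κ d j := by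
      rw [Finset.mul_sum]
      exact Finset.sum_congr rfl fun d _ => by ring
    rw [e2, S_col2 ε κ n hd h3 c j hc.1 hj hj3, bb_row2 ε κ n hd i c hi hi3 hc.1 hc.2 h3,
      Finset.sum_mul_sum, Finset.sum_comm]
    refine Finset.sum_congr rfl fun v _ => Finset.sum_congr rfl fun w _ => ?_
    ring
  rw [Finset.sum_congr rfl e1, Finset.sum_comm]
  refine Finset.sum_congr rfl fun w hw => ?_
  rw [Finset.mem_Icc] at hw
  rw [Finset.sum_comm]
  have e2 : ∀ v ∈ Finset.Icc 1 n, ∑ c ∈ Finset.Icc 1 n,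
      LL ε κ i v * PP ε κ v * UU ε κ w j * (UU ε κ v c * UI ε κ c w) =
      if w = v then LL ε κ i w * PP ε κ w * UU ε κ w j else 0 := by
    intro v hv
    rw [Finset.mem_Icc] at hv
    rw [← Finset.mul_sum, UU_UI ε κ n h3 v w hv.1 hv.2 hw.1 hw.2]
    by_cases hvw : v = w
    · subst hvw
      simp
    · rw [if_neg hvw, if_neg (fun h => hvw h.symm), mul_zero]
  rw [Finset.sum_congr rfl e2, Finset.sum_ite_eq, if_pos (Finset.mem_Icc.mpr hw)]

end

theorem crit_general3 (ε : Bool) (κ n : ℕ) (hκ : 800 ≤ κ) (hd : ¬ 3 ∣ κ ∨ ε = true)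
    (hn1 : 1 ≤ n) (h3 : 3 * n < κ)
    (hG : ∀ c d : ℕ, 1 ≤ c → c ≤ n → 1 ≤ d → d ≤ n →
      VG (-padicValRat 2 (PS ε κ n)) (2 ^ (1 - 2 * (c : ℤ) - 2 * d) *
        ∑ w ∈ Finset.Icc (max c d) n, UI ε κ c w * (PP ε κ w)⁻¹ * LI ε κ w d))
    (hX : ∀ i j : ℕ, 1 ≤ j → j ≤ n → n < i → 2 * i < κ →
      VG 1 (2 ^ (2 * (i : ℤ) - 2 * j) * ∑ w ∈ Finset.Icc j n, LL ε κ i w * LI ε κ w j))
    (hY : ∀ i j : ℕ, 1 ≤ i → i ≤ n → n < j → 2 * j < κ →
      VG 0 (2 ^ (2 * (j : ℤ) - 2 * i) * ∑ w ∈ Finset.Icc i n, UI ε κ i w * UU ε κ w j))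
    (hS : ∀ i j : ℕ, n < i → n < j → 2 * i < κ → 2 * j < κ →
      VG (padicValRat 2 (PS ε κ n) + 2) (2 ^ (2 * (i : ℤ) + 2 * j - 1) *
        ∑ w ∈ Finset.Icc (n + 1) (min i j), LL ε κ i w * PP ε κ w * UU ε κ w j)) :
    Crit (κ - 1) n (MAT ε κ) (padicValRat 2 (PS ε κ n) + 1) := by
  have hnN : n ≤ κ - 1 := by omega
  have hlog := log_bound κ hκ
  have hlog' : (3 * (13 * (Nat.log 2 κ : ℤ) + 26)) ≤ κ := by exact_mod_cast hlog
  have hn6' : 3 * (n : ℤ) < κ := by exact_mod_cast h3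
  have hS0 : ∀ c d : ℕ, 1 ≤ c → c ≤ n → 1 ≤ d → d ≤ n →
      VG (-(8 * Nat.log 2 κ + 16 : ℤ)) (S ε κ n c d) := fun c d h1 h2 h4 h5 =>
    crude_G ε κ n h3 c d h1 h2 h4 h5
  refine ⟨hnN, Matrix.of fun c d => 2 ^ (1 - 2 * ((c.val + 1 : ℕ) : ℤ) - 2 * ((d.val + 1 : ℕ) : ℤ)) *
    S ε κ n (c.val + 1) (d.val + 1), ?_, ?_, ?_, ?_, ?_⟩
  · intro i j hi hj
    have e1 : (∑ c : Fin (κ - 1), if c.val < n then MAT ε κ i c *
        (Matrix.of fun c d : Fin (κ - 1) =>
          (2 : ℚ) ^ (1 - 2 * ((c.val + 1 : ℕ) : ℤ) - 2 * ((d.val + 1 : ℕ) : ℤ)) *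
          S ε κ n (c.val + 1) (d.val + 1)) c j else 0) =
        ∑ c ∈ Finset.Icc 1 n, 2 ^ (2 * ((i.val + 1 : ℕ) : ℤ) - 2 * ((j.val + 1 : ℕ) : ℤ)) *
          (bb ε κ (i.val + 1) c * S ε κ n c (j.val + 1)) := by
      rw [← sum_fin (κ - 1) n hnN]
      refine Finset.sum_congr rfl fun c _ => ?_
      by_cases hc : c.val < n
      · rw [if_pos hc, if_pos hc]
        simp only [MAT, MM, Matrix.of_apply]
        rw [mul_mul_mul_comm, two_zpow_mul]
        congr 2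
        ring
      · rw [if_neg hc, if_neg hc]
    rw [e1, ← Finset.mul_sum, row_S2 ε κ n hd h3 _ _ (by omega) (by omega) (by omega) (by omega),
      LL_LI ε κ n h3 _ _ (by omega) (by omega) (by omega) (by omega)]
    by_cases hij : i = j
    · subst hij
      simp
    · have : i.val + 1 ≠ j.val + 1 := fun h => hij (Fin.ext (by omega))
      rw [if_neg this, if_neg hij, mul_zero]
  · intro i j hi hj
    have := hG (i.val + 1) (j.val + 1) (by omega) (by omega) (by omega) (by omega)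
    refine VG.mono this ?_
    omega
  · intro i j hi hj
    have e1 : (∑ c : Fin (κ - 1), if c.val < n then MAT ε κ i c *
        (Matrix.of fun c d : Fin (κ - 1) =>
          (2 : ℚ) ^ (1 - 2 * ((c.val + 1 : ℕ) : ℤ) - 2 * ((d.val + 1 : ℕ) : ℤ)) *
          S ε κ n (c.val + 1) (d.val + 1)) c j else 0) =
        ∑ c ∈ Finset.Icc 1 n, 2 ^ (2 * ((i.val + 1 : ℕ) : ℤ) - 2 * ((j.val + 1 : ℕ) : ℤ)) *
          (bb ε κ (i.val + 1) c * S ε κ n c (j.val + 1)) := by
      rw [← sum_fin (κ - 1) n hnN]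
      refine Finset.sum_congr rfl fun c _ => ?_
      by_cases hc : c.val < n
      · rw [if_pos hc, if_pos hc]
        simp only [MAT, MM, Matrix.of_apply]
        rw [mul_mul_mul_comm, two_zpow_mul]
        congr 2
        ring
      · rw [if_neg hc, if_neg hc]
    rw [e1, ← Finset.mul_sum]
    by_cases hi3 : 2 * (i.val + 1) < κ
    · rw [row_S2 ε κ n hd h3 _ _ (by omega) hi3 (by omega) (by omega)]
      have e2 : ∑ w ∈ Finset.Icc 1 n, LL ε κ (i.val + 1) w * LI ε κ w (j.val + 1) =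
          ∑ w ∈ Finset.Icc (j.val + 1) n, LL ε κ (i.val + 1) w * LI ε κ w (j.val + 1) := by
        symm
        refine sum_eq_of_sub _ (Finset.Icc_subset_Icc (by omega) le_rfl) ?_
        intro w hw hw'
        simp only [Finset.mem_Icc, not_and, not_le] at hw hw'
        have h : w < j.val + 1 := by
          by_contra hcon
          have := hw' (not_lt.mp hcon)
          omega
        rw [LI_zero _ _ _ _ h, mul_zero]
      rw [e2]
      exact hX (i.val + 1) (j.val + 1) (by omega) (by omega) (by omega) hi3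
    · have h1 : VG (-(8 * Nat.log 2 κ + 16 : ℤ))
          (∑ c ∈ Finset.Icc 1 n, bb ε κ (i.val + 1) c * S ε κ n c (j.val + 1)) := by
        refine VG_sum _ _ _ fun c hc => ?_
        rw [Finset.mem_Icc] at hc
        have := (VG_bb ε κ (i.val + 1) c).mul (hS0 c (j.val + 1) hc.1 hc.2 (by omega) (by omega))
        simpa using this
      refine VG.mono ((VG_two_zpow _).mul h1) ?_
      have hi3' : (κ : ℤ) ≤ 2 * ((i.val + 1 : ℕ) : ℤ) := by exact_mod_cast not_lt.mp hi3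
      have hj' : ((j.val + 1 : ℕ) : ℤ) ≤ n := by exact_mod_cast hj
      omega
  · intro i j hi hj
    have e1 : (∑ c : Fin (κ - 1), if c.val < n then
        (Matrix.of fun c d : Fin (κ - 1) =>
          (2 : ℚ) ^ (1 - 2 * ((c.val + 1 : ℕ) : ℤ) - 2 * ((d.val + 1 : ℕ) : ℤ)) *
          S ε κ n (c.val + 1) (d.val + 1)) i c * MAT ε κ c j else 0) =
        ∑ c ∈ Finset.Icc 1 n, 2 ^ (2 * ((j.val + 1 : ℕ) : ℤ) - 2 * ((i.val + 1 : ℕ) : ℤ)) *
          (S ε κ n (i.val + 1) c * bb ε κ c (j.val + 1)) := by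
      rw [← sum_fin (κ - 1) n hnN]
      refine Finset.sum_congr rfl fun c _ => ?_
      by_cases hc : c.val < n
      · rw [if_pos hc, if_pos hc]
        simp only [MAT, MM, Matrix.of_apply]
        rw [mul_mul_mul_comm, two_zpow_mul]
        congr 2
        ring
      · rw [if_neg hc, if_neg hc]
    rw [e1, ← Finset.mul_sum]
    by_cases hj3 : 2 * (j.val + 1) < κ
    · rw [S_col2 ε κ n hd h3 _ _ (by omega) (by omega) hj3]
      have e2 : ∑ w ∈ Finset.Icc 1 n, UI ε κ (i.val + 1) w * UU ε κ w (j.val + 1) =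
          ∑ w ∈ Finset.Icc (i.val + 1) n, UI ε κ (i.val + 1) w * UU ε κ w (j.val + 1) := by
        symm
        refine sum_eq_of_sub _ (Finset.Icc_subset_Icc (by omega) le_rfl) ?_
        intro w hw hw'
        simp only [Finset.mem_Icc, not_and, not_le] at hw hw'
        have h : w < i.val + 1 := by
          by_contra hcon
          have := hw' (not_lt.mp hcon)
          omega
        rw [UI_zero _ _ _ _ h, zero_mul]
      rw [e2]
      exact hY (i.val + 1) (j.val + 1) (by omega) (by omega) (by omega) hj3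
    · have h1 : VG (-(8 * Nat.log 2 κ + 16 : ℤ))
          (∑ c ∈ Finset.Icc 1 n, S ε κ n (i.val + 1) c * bb ε κ c (j.val + 1)) := by
        refine VG_sum _ _ _ fun c hc => ?_
        rw [Finset.mem_Icc] at hc
        have := (hS0 (i.val + 1) c (by omega) (by omega) hc.1 hc.2).mul (VG_bb ε κ c (j.val + 1))
        simpa using this
      refine VG.mono ((VG_two_zpow _).mul h1) ?_
      have hj3' : (κ : ℤ) ≤ 2 * ((j.val + 1 : ℕ) : ℤ) := by exact_mod_cast not_lt.mp hj3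
      have hi' : ((i.val + 1 : ℕ) : ℤ) ≤ n := by exact_mod_cast hi
      omega
  · intro i j hi hj
    have e1 : (MAT ε κ i j - ∑ c : Fin (κ - 1), ∑ d : Fin (κ - 1),
        if c.val < n ∧ d.val < n then MAT ε κ i c *
        (Matrix.of fun c d : Fin (κ - 1) =>
          (2 : ℚ) ^ (1 - 2 * ((c.val + 1 : ℕ) : ℤ) - 2 * ((d.val + 1 : ℕ) : ℤ)) *
          S ε κ n (c.val + 1) (d.val + 1)) c d * MAT ε κ d j else 0) =
        2 ^ (2 * ((i.val + 1 : ℕ) : ℤ) + 2 * ((j.val + 1 : ℕ) : ℤ) - 1) *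
          (bb ε κ (i.val + 1) (j.val + 1) - ∑ c ∈ Finset.Icc 1 n, ∑ d ∈ Finset.Icc 1 n,
          bb ε κ (i.val + 1) c * S ε κ n c d * bb ε κ d (j.val + 1)) := by
      rw [mul_sub, Finset.mul_sum]
      congr 1
      rw [← sum_fin (κ - 1) n hnN]
      refine Finset.sum_congr rfl fun c _ => ?_
      by_cases hc : c.val < n
      · rw [if_pos hc, Finset.mul_sum, ← sum_fin (κ - 1) n hnN]
        refine Finset.sum_congr rfl fun d _ => ?_
        by_cases hd : d.val < n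
        · rw [if_pos ⟨hc, hd⟩, if_pos hd]
          simp only [MAT, MM, Matrix.of_apply]
          have key : ∀ (a b c' x y z : ℚ), a * x * (b * y) * (c' * z) = (a * b * c') * (x * y * z) :=
            fun a b c' x y z => by ring
          rw [key, two_zpow_mul, two_zpow_mul]
          congr 2
          ring
        · rw [if_neg (fun h => hd h.2), if_neg hd]
      · rw [if_neg hc]
        refine Finset.sum_eq_zero fun d _ => ?_
        rw [if_neg (fun h => hc h.1)]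
    rw [e1]
    have hlow : VG (padicValRat 2 (PS ε κ n) + 2)
        (2 ^ (2 * ((i.val + 1 : ℕ) : ℤ) + 2 * ((j.val + 1 : ℕ) : ℤ) - 1) *
          (bb ε κ (i.val + 1) (j.val + 1) - ∑ c ∈ Finset.Icc 1 n, ∑ d ∈ Finset.Icc 1 n,
          bb ε κ (i.val + 1) c * S ε κ n c d * bb ε κ d (j.val + 1))) := by
      by_cases hb : 2 * (i.val + 1) < κ ∧ 2 * (j.val + 1) < κ
      · obtain ⟨hi3, hj3⟩ := hb
        rw [row_S_col2 ε κ n hd h3 _ _ (by omega) hi3 (by omega) hj3,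
          ← LL_PP_UU_ext3 ε κ (i.val + 1) (j.val + 1) hd (by omega) (by omega) hi3 hj3]
        have hmin : n ≤ min (i.val + 1) (j.val + 1) := by omega
        have e3 : ∀ F : ℕ → ℚ, ∑ w ∈ Finset.Icc 1 (min (i.val + 1) (j.val + 1)), F w =
            ∑ w ∈ Finset.Icc 1 n, F w +
              ∑ w ∈ Finset.Icc (n + 1) (min (i.val + 1) (j.val + 1)), F w := by
          intro F
          rw [← Finset.sum_union]
          · congr 1
            ext w
            simp only [Finset.mem_Icc, Finset.mem_union]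
            omega
          · rw [Finset.disjoint_left]
            intro w hw hw'
            rw [Finset.mem_Icc] at hw hw'
            omega
        rw [e3, add_sub_cancel_left]
        exact hS (i.val + 1) (j.val + 1) (by omega) (by omega) hi3 hj3
      · have hPS := PS_upper ε κ n hn1 h3
        have h1 : VG (-(8 * Nat.log 2 κ + 16 : ℤ))
            (bb ε κ (i.val + 1) (j.val + 1) - ∑ c ∈ Finset.Icc 1 n, ∑ d ∈ Finset.Icc 1 n,
            bb ε κ (i.val + 1) c * S ε κ n c d * bb ε κ d (j.val + 1)) := by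
          refine VG.sub ((VG_bb ε κ _ _).mono (by omega)) ?_
          refine VG_sum _ _ _ fun c hc => VG_sum _ _ _ fun d hd => ?_
          rw [Finset.mem_Icc] at hc hd
          have := ((VG_bb ε κ (i.val + 1) c).mul (hS0 c d hc.1 hc.2 hd.1 hd.2)).mul
            (VG_bb ε κ d (j.val + 1))
          simpa using this
        refine VG.mono ((VG_two_zpow _).mul h1) ?_
        have hi' : (n : ℤ) + 1 ≤ ((i.val + 1 : ℕ) : ℤ) := by exact_mod_cast Nat.succ_le_succ hi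
        have hj' : (n : ℤ) + 1 ≤ ((j.val + 1 : ℕ) : ℤ) := by exact_mod_cast Nat.succ_le_succ hj
        have hor : (κ : ℤ) ≤ 2 * ((i.val + 1 : ℕ) : ℤ) ∨ (κ : ℤ) ≤ 2 * ((j.val + 1 : ℕ) : ℤ) := by
          by_cases h : 2 * (i.val + 1) < κ
          · right
            have : ¬ 2 * (j.val + 1) < κ := fun h' => hb ⟨h, h'⟩
            exact_mod_cast not_lt.mp this
          · left
            exact_mod_cast not_lt.mp h
        rcases hor with h | h <;> omega
    refine VG.mono hlow ?_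
    omega


end Pool.Agent.Helper5.MD
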